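import Pool.Agent.Lib.H32E.E0

/-!
# H32E / CH1: chains of subgroups and prime factors of the order

Chunk CH1 (pure finite group theory).
-/

set_option autoImplicit false

open ArithmeticFunction

namespace H32E

/-- A decreasing chain of subgroups `G 0 ≥ G 1 ≥ ...` of a finite group has a repetition
`G i = G (i + 1)` with `i < m`, as soon as the number of prime factors of `|G 0|` is `< m`.

Proof.  As `Pool.Agent.Helper17.exists_stable`, with `Ω`: if `G (i + 1) < G i` then
`|G (i + 1)|` is a proper divisor of `|G i|`, so `Ω |G (i + 1)| + 1 ≤ Ω |G i|`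
(`cardFactors_mul` and `Ω k ≥ 1` for `k ≥ 2`).  Hence `m ≤ Ω |G 0|` if there is no repetition. -/
theorem exists_stable {Γ : Type*} [Group Γ] (G : ℕ → Subgroup Γ) (hanti : ∀ i, G (i + 1) ≤ G i)
    (m : ℕ) (hfin : Finite (G 0)) (hm : cardFactors (Nat.card (G 0)) < m) :
    ∃ i < m, G i = G (i + 1) := by
  by_contra h
  push Not at h
  have hfini : ∀ i, Finite (G i) := by
    intro i
    induction i with
    | zero => exact hfin
    | succ i ih => exact Finite.Set.subset (G i : Set Γ) (hanti i)
  have key : ∀ i ≤ m, i + cardFactors (Nat.card (G i)) ≤ cardFactors (Nat.card (G 0)) := by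
    intro i
    induction i with
    | zero => intro _; simp
    | succ i ih =>
      intro hi
      have h1 := ih (by omega)
      have h2 : G (i + 1) ≠ G i := (h i (by omega)).symm
      have h3 : 1 + cardFactors (Nat.card (G (i + 1))) ≤ cardFactors (Nat.card (G i)) := by
        have := hfini i
        have := hfini (i + 1)
        have h4 : Nat.card (G (i + 1)) ∣ Nat.card (G i) := Subgroup.card_dvd_of_le (hanti i)
        obtain ⟨k, hk⟩ := h4
        have h5 : k ≠ 0 := by
          rintro rfl
          have : 0 < Nat.card (G i) := Nat.card_pos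
          omega
        have h6 : k ≠ 1 := by
          rintro rfl
          rw [mul_one] at hk
          exact h2 (Subgroup.eq_of_le_of_card_ge (hanti i) hk.le)
        have h7 : 0 < cardFactors k := by
          rw [Nat.pos_iff_ne_zero]
          intro h0
          rw [cardFactors_eq_zero_iff_eq_zero_or_one] at h0
          rcases h0 with h0 | h0
          · exact h5 h0
          · exact h6 h0
        have h8 : Nat.card (G (i + 1)) ≠ 0 := Nat.card_pos.ne'
        rw [hk, cardFactors_mul h8 h5]
        omega
      omega
  have h1 := key m le_rfl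
  omega

/-- `Ω(n) = ∑_{p ∣ n} v_p(n)` for `n ≠ 0` (`ArithmeticFunction.cardFactors_apply`,
`Nat.primeFactorsList`, `Nat.primeFactorsList_count_eq`, `padicValNat_eq_factorization`...). -/
theorem cardFactors_eq_sum (n : ℕ) (hn : n ≠ 0) :
    cardFactors n = ∑ p ∈ n.primeFactors, padicValNat p n := by
  rw [cardFactors_eq_sum_factorization, Finsupp.sum, Nat.support_factorization]
  apply Finset.sum_congr rfl
  intro p hp
  have : Fact p.Prime := ⟨Nat.prime_of_mem_primeFactors hp⟩
  rw [Nat.factorization_def _ (Nat.prime_of_mem_primeFactors hp)]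

/-- The order of a Sylow `p`-subgroup (`Sylow.card_eq_multiplicity`). -/
theorem exists_sylow_card {G : Type*} [Group G] [Finite G] (p : ℕ) [Fact p.Prime] :
    ∃ P : Subgroup G, IsPGroup p P ∧ Nat.card P = p ^ padicValNat p (Nat.card G) := by
  obtain ⟨P⟩ : Nonempty (Sylow p G) := inferInstance
  refine ⟨P, P.isPGroup', ?_⟩
  rw [Sylow.card_eq_multiplicity, Nat.factorization_def _ (Fact.out : p.Prime)]

end H32E
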