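import Pool.Agent.Lib.H32E.E0

/-!
# H32E / CH2: a commutative subgroup from commutative parts of the groups `O_p`

Chunk CH2 (pure finite group theory).
-/

set_option autoImplicit false

namespace H32E

variable {G : Type*} [Group G] [Finite G]

/-- Elements of normal subgroups `N`, `N'` of coprime orders commute: the commutator lies in
`N ⊓ N' = ⊥`. -/
theorem commute_of_coprime (N N' : Subgroup G) (hN : Nrm ⊤ N) (hN' : Nrm ⊤ N')
    (hc : (Nat.card N).Coprime (Nat.card N')) : ∀ a ∈ N, ∀ b ∈ N', a * b = b * a := by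
  intro a ha b hb
  have h1 : a * b * a⁻¹ * b⁻¹ ∈ N := by
    have : a * b * a⁻¹ * b⁻¹ = a * (b * a⁻¹ * b⁻¹) := by group
    rw [this]
    exact N.mul_mem ha (hN b (Subgroup.mem_top b) _ (N.inv_mem ha))
  have h2 : a * b * a⁻¹ * b⁻¹ ∈ N' :=
    N'.mul_mem (hN' a (Subgroup.mem_top a) b hb) (N'.inv_mem hb)
  have h3 : N ⊓ N' = ⊥ := Subgroup.inf_eq_bot_of_coprime hc
  have h4 : a * b * a⁻¹ * b⁻¹ ∈ N ⊓ N' := ⟨h1, h2⟩
  rw [h3, Subgroup.mem_bot] at h4
  have h5 : a * b * a⁻¹ = b := by
    rwa [mul_inv_eq_one] at h4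
  rwa [mul_inv_eq_iff_eq_mul] at h5

/-- If `A`, `D` are commutative subgroups of coprime orders which commute elementwise, then
`A ⊔ D` is commutative of order `|A| |D|`.
(`Subgroup.card_mul...`; e.g. the homomorphism `A × D → G`, `(a, d) ↦ a d`, is injective with range
`A ⊔ D`: `MonoidHom.noncommCoprod`.) -/
theorem sup_comm (A D : Subgroup G) (hA : Comm A) (hD : Comm D)
    (hc : (Nat.card A).Coprime (Nat.card D)) (h : ∀ a ∈ A, ∀ b ∈ D, a * b = b * a) :
    Comm (A ⊔ D) ∧ Nat.card (A ⊔ D : Subgroup G) = Nat.card A * Nat.card D := by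
  let f : A × D →* G := MonoidHom.noncommCoprod A.subtype D.subtype
    (fun x y => h x.1 x.2 y.1 y.2)
  have hf : ∀ x : A × D, f x = (x.1 : G) * (x.2 : G) := fun x => rfl
  have hinj : Function.Injective f := by
    rw [injective_iff_map_eq_one]
    rintro ⟨⟨a, ha⟩, ⟨d, hd⟩⟩ hx
    rw [hf] at hx
    simp only at hx
    have h3 : A ⊓ D = ⊥ := Subgroup.inf_eq_bot_of_coprime hc
    have h4 : a = d⁻¹ := by rwa [mul_eq_one_iff_eq_inv] at hx
    have h5 : a ∈ A ⊓ D := ⟨ha, by rw [h4]; exact D.inv_mem hd⟩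
    rw [h3, Subgroup.mem_bot] at h5
    subst h5
    have h6 : d = 1 := by rw [one_mul] at hx; exact hx
    subst h6
    rfl
  have hr : f.range = A ⊔ D := by
    have := MonoidHom.noncommCoprod_range A.subtype D.subtype
      (fun x y => h x.1 x.2 y.1 y.2)
    rw [Subgroup.range_subtype, Subgroup.range_subtype] at this
    exact this
  constructor
  · intro x hx y hy
    rw [← hr] at hx hy
    obtain ⟨⟨a, d⟩, rfl⟩ := hx
    obtain ⟨⟨a', d'⟩, rfl⟩ := hy
    rw [← map_mul, ← map_mul]
    congr 1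
    ext
    · exact hA a a.2 a' a'.2
    · exact hD d d.2 d' d'.2
  · rw [← hr, ← Nat.card_prod]
    exact (Nat.card_congr (MonoidHom.ofInjective hinj).toEquiv).symm

/-- **Product.**  For every prime `p ∈ T` let `D p` be a commutative subgroup contained in a normal
`p`-subgroup of `G`.  Then there is a commutative subgroup of order `∏ |D p|`.

Proof.  Induction on `T` with the stronger statement: the subgroup `A = ⨆_{p ∈ T} D p` is commutative of
order `∏_{p ∈ T} |D p|`.  `D q` commutes with every `D p`, `p ≠ q` (`commute_of_coprime` for the normal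
subgroups), hence with `A` (closure induction / centraliser), and `|A|` is coprime to
`|D q| = q ^ k`; use `sup_comm`. -/
theorem exists_product (T : Finset ℕ) (hT : ∀ p ∈ T, p.Prime) (D : ℕ → Subgroup G)
    (hD : ∀ p ∈ T, InOp p ⊤ (D p)) (hDc : ∀ p ∈ T, Comm (D p)) :
    ∃ A : Subgroup G, Comm A ∧ Nat.card A = ∏ p ∈ T, Nat.card (D p) := by
  classical
  suffices H : ∀ S : Finset ℕ, S ⊆ T → ∃ A : Subgroup G, Comm A ∧
      Nat.card A = ∏ p ∈ S, Nat.card (D p) ∧
      (∀ g : G, (∀ p ∈ S, ∀ x ∈ D p, x * g = g * x) → ∀ x ∈ A, x * g = g * x) by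
    obtain ⟨A, h1, h2, -⟩ := H T (Finset.Subset.refl T)
    exact ⟨A, h1, h2⟩
  intro S
  induction S using Finset.induction_on with
  | empty =>
    intro _
    refine ⟨⊥, ?_, ?_, ?_⟩
    · intro a ha b hb
      rw [Subgroup.mem_bot] at ha hb
      rw [ha, hb]
    · simp
    · intro g _ x hx
      rw [Subgroup.mem_bot] at hx
      rw [hx]
      simp
  | insert q S hq ih =>
    intro hS
    have hST : S ⊆ T := fun x hx => hS (Finset.mem_insert_of_mem hx)
    have hqT : q ∈ T := hS (Finset.mem_insert_self q S)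
    obtain ⟨A, hA, hcard, hcent⟩ := ih hST
    have hqp := hT q hqT
    obtain ⟨Nq, hBq, -, hNq, hPq⟩ := hD q hqT
    have : Fact q.Prime := ⟨hqp⟩
    have hcop : ∀ p ∈ S, ∀ x ∈ D p, ∀ y ∈ D q, x * y = y * x := by
      intro p hp x hx y hy
      obtain ⟨Np, hBp, -, hNp, hPp⟩ := hD p (hST hp)
      have : Fact p.Prime := ⟨hT p (hST hp)⟩
      have hne : p ≠ q := fun h => hq (h ▸ hp)
      have hc : (Nat.card Np).Coprime (Nat.card Nq) := by
        obtain ⟨k, hk⟩ := hPp.exists_card_eq
        obtain ⟨l, hl⟩ := hPq.exists_card_eq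
        rw [hk, hl]
        exact Nat.Coprime.pow _ _ ((Nat.coprime_primes (hT p (hST hp)) hqp).mpr hne)
      exact commute_of_coprime Np Nq hNp hNq hc x (hBp hx) y (hBq hy)
    have hAD : ∀ a ∈ A, ∀ b ∈ D q, a * b = b * a := by
      intro a ha b hb
      exact hcent b (fun p hp x hx => hcop p hp x hx b hb) a ha
    have hcAD : (Nat.card A).Coprime (Nat.card (D q)) := by
      rw [hcard]
      apply Nat.Coprime.prod_left
      intro p hp
      obtain ⟨Np, hBp, -, hNp, hPp⟩ := hD p (hST hp)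
      have : Fact p.Prime := ⟨hT p (hST hp)⟩
      have hne : p ≠ q := fun h => hq (h ▸ hp)
      obtain ⟨k, hk⟩ := (hPp.to_le hBp).exists_card_eq
      obtain ⟨l, hl⟩ := (hPq.to_le hBq).exists_card_eq
      rw [hk, hl]
      exact Nat.Coprime.pow _ _ ((Nat.coprime_primes (hT p (hST hp)) hqp).mpr hne)
    obtain ⟨h1, h2⟩ := sup_comm A (D q) hA (hDc q hqT) hcAD hAD
    refine ⟨A ⊔ D q, h1, ?_, ?_⟩
    · rw [h2, Finset.prod_insert hq, hcard, mul_comm]
    · intro g hg x hx
      have hle : A ⊔ D q ≤ Subgroup.centralizer {g} := by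
        rw [sup_le_iff]
        constructor
        · intro a ha
          rw [Subgroup.mem_centralizer_singleton_iff]
          exact hcent g (fun p hp => hg p (Finset.mem_insert_of_mem hp)) a ha
        · intro a ha
          rw [Subgroup.mem_centralizer_singleton_iff]
          exact hg q (Finset.mem_insert_self q S) a ha
      have := hle hx
      rwa [Subgroup.mem_centralizer_singleton_iff] at this

end H32E
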