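import Pool.Agent.Lib.H32E.E0

/-!
# H32E / FL1: one step of the forest lemma

Chunk FL1 (linear algebra).
-/

set_option autoImplicit false

open Module

namespace H32E

variable {K V G : Type*} [Field K] [AddCommGroup V] [Module K V] [FiniteDimensional K V] [Group G]

/-- The dimensions of an independent family add up. -/
theorem fl1_sum (F : Finset (Submodule K V)) (hF : F.SupIndep id) :
    ∑ U ∈ F, finrank K U = finrank K (F.sup id : Submodule K V) := by
  classical
  induction F using Finset.induction_on with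
  | empty => rw [Finset.sum_empty, Finset.sup_empty, finrank_bot]
  | insert a s ha ih =>
    have h1 : s.SupIndep id := hF.subset (Finset.subset_insert a s)
    have h2 : Disjoint (id a) (s.sup id) :=
      hF (Finset.subset_insert a s) (Finset.mem_insert_self a s) ha
    rw [Finset.sum_insert ha, ih h1, Finset.sup_insert]
    have h3 := Submodule.finrank_sup_add_finrank_inf_eq (id a) (s.sup id)
    rw [disjoint_iff.1 h2, finrank_bot, add_zero] at h3
    exact h3.symm

/-- A vector of the sum of a finite family. -/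
theorem fl1_mem (F : Finset (Submodule K V)) {v : V} (hv : v ∈ F.sup id) :
    ∃ f : Submodule K V → V, (∀ U ∈ F, f U ∈ U) ∧ ∑ U ∈ F, f U = v := by
  classical
  induction F using Finset.induction_on generalizing v with
  | empty =>
    rw [Finset.sup_empty, Submodule.mem_bot] at hv
    exact ⟨fun _ => 0, fun U hU => absurd hU (Finset.notMem_empty U), by simp [hv]⟩
  | insert a s ha ih =>
    rw [Finset.sup_insert, Submodule.mem_sup] at hv
    obtain ⟨y, hy, z, hz, rfl⟩ := hv
    obtain ⟨f, hf1, hf2⟩ := ih hz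
    refine ⟨fun U => if U = a then y else f U, ?_, ?_⟩
    · intro U hU
      show (if U = a then y else f U) ∈ U
      split_ifs with h
      · rw [h]
        exact hy
      · exact hf1 U ((Finset.mem_insert.1 hU).resolve_left h)
    · rw [Finset.sum_insert ha]
      show (if a = a then y else f a) + _ = _
      rw [if_pos rfl]
      congr 1
      rw [← hf2]
      refine Finset.sum_congr rfl fun U hU => ?_
      have hUa : U ≠ a := by
        rintro rfl
        exact ha hU
      exact if_neg hUa

/-- Uniqueness of the components. -/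
theorem fl1_zero (F : Finset (Submodule K V)) (hF : F.SupIndep id) (f : Submodule K V → V)
    (hf : ∀ U ∈ F, f U ∈ U) (h0 : ∑ U ∈ F, f U = 0) : ∀ U ∈ F, f U = 0 := by
  classical
  intro U hU
  have h1 : Disjoint (id U) ((F.erase U).sup id) :=
    hF (Finset.erase_subset U F) hU (Finset.notMem_erase U F)
  have h2 : f U = -∑ W ∈ F.erase U, f W := by
    rw [← Finset.add_sum_erase F f hU] at h0
    exact eq_neg_of_add_eq_zero_left h0
  have h3 : f U ∈ (F.erase U).sup id := by
    rw [h2]
    refine Submodule.neg_mem _ (Submodule.sum_mem _ fun W hW => ?_)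
    exact (Finset.le_sup (f := id) hW : W ≤ (F.erase U).sup id) (hf W (Finset.mem_of_mem_erase hW))
  exact Submodule.disjoint_def.1 h1 (f U) (hf U hU) h3

/-- The sum of the dimensions of an independent family is at most `dim V`. -/
theorem sum_finrank_le (F : Finset (Submodule K V)) (hF : F.SupIndep id) :
    ∑ U ∈ F, finrank K U ≤ finrank K V := by
  rw [fl1_sum F hF]
  exact Submodule.finrank_le _

/-- **Separation.**  `D` a group of operators, `U₀ = {v | ∀ x ∈ D, ρ x v = c x • v}` a weight space of `D`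
and `F` a finite independent family of subspaces, on each of which `D` acts by scalars, none of them
contained in `U₀`.  Then `U₀` is disjoint from `⨆_{U ∈ F} U`, and `insert U₀ F` is independent.

Proof.  On `U ∈ F` let `D` act by `ρ x v = w_U x • v`; `U ⊄ U₀` implies `U ≠ ⊥` and that
`w_U x ≠ c x` for some `x ∈ D`.  Suppose `v ∈ U₀`, `v = ∑_{U ∈ F} v_U` with `v_U ∈ U`.  For `x ∈ D`:
`0 = ρ x v - c x v = ∑_U (w_U x - c x) v_U`, so `(w_U x - c x) v_U = 0` for all `U` (independence);
choosing `x` suitable for `U` we get `v_U = 0`.  So `v = 0`.  Then `insert U₀ F` is independent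
(`Finset.SupIndep` for an insert: `Finset.SupIndep.insert`-type lemma, or by the vector criterion). -/
theorem separation (ρ : G →* End K V) (D : Subgroup G) (c : G → K) (U₀ : Submodule K V)
    (hU₀ : ∀ v, v ∈ U₀ ↔ ∀ x ∈ D, ρ x v = c x • v) (F : Finset (Submodule K V))
    (hF : F.SupIndep id) (hs : ∀ U ∈ F, Scal ρ D U) (hn : ∀ U ∈ F, ¬ U ≤ U₀) :
    Disjoint U₀ (F.sup id) := by
  classical
  rw [Submodule.disjoint_def]
  intro v hv0 hvF
  obtain ⟨f, hf1, rfl⟩ := fl1_mem F hvF
  have hz : ∀ U ∈ F, f U = 0 := by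
    intro U hU
    have h1 : ∃ x ∈ D, ∃ a : K, (∀ v ∈ U, ρ x v = a • v) ∧ a ≠ c x := by
      by_contra hcon
      push Not at hcon
      apply hn U hU
      intro u hu
      rw [hU₀]
      intro x hx
      obtain ⟨a, ha⟩ := hs U hU x hx
      rw [ha u hu, hcon x hx a ha]
    obtain ⟨x, hx, a, ha, hac⟩ := h1
    have h2 : ∀ W ∈ F, ∃ b : K, ∀ v ∈ W, ρ x v = b • v := fun W hW => hs W hW x hx
    choose! b hb using h2
    have h3 : ∑ W ∈ F, (b W - c x) • f W = 0 := by
      have h4 := (hU₀ _).1 hv0 x hx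
      rw [map_sum, Finset.smul_sum, ← sub_eq_zero, ← Finset.sum_sub_distrib] at h4
      rw [← h4]
      refine Finset.sum_congr rfl fun W hW => ?_
      rw [sub_smul, hb W hW _ (hf1 W hW)]
    have h5 := fl1_zero F hF (fun W => (b W - c x) • f W)
      (fun W hW => Submodule.smul_mem _ _ (hf1 W hW)) h3 U hU
    have h6 : (b U - c x) • f U = 0 := h5
    rcases smul_eq_zero.1 h6 with h7 | h7
    · by_contra h8
      apply hac
      have h9 : a • f U = b U • f U := by rw [← ha _ (hf1 U hU), ← hb U hU _ (hf1 U hU)]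
      have h10 : (a - b U) • f U = 0 := by rw [sub_smul, h9, sub_self]
      rcases smul_eq_zero.1 h10 with h11 | h11
      · rw [sub_eq_zero.1 h11, sub_eq_zero.1 h7]
      · exact absurd h11 h8
    · exact h7
  exact Finset.sum_eq_zero hz

open Classical in
/-- **One step of the forest lemma.**

`F` an independent family of nonzero subspaces on each of which `B` acts by scalars; `D ≤ B` acts on
`I` by scalars, and every subspace `J ≤ I` on which `B` acts by scalars satisfies
`8 dim J + p ≤ 8 dim I`.  Then there is an independent family `F'` of nonzero subspaces, nonempty,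
on each of which `D` acts by scalars, with
`16 ∑_{F} dim U + p (1 + |F'|) ≤ 16 ∑_{F'} dim U + p |F|`.

Proof.  `p ≤ 8 dim I` (take `J = ⊥`), so `I ≠ ⊥` (`p > 0`).  Choose the scalars `c x`, `x ∈ D`, of `D` on
`I` and let `U₀ = {v | ∀ x ∈ D, ρ x v = c x • v} ≥ I` (a submodule).
Claim: if `J ≤ U₀` and `Scal ρ B J` then `8 dim J + p ≤ 8 dim U₀`.  Let `J' = J ⊓ I`; then
`8 dim J' + p ≤ 8 dim I` and `dim J + dim I ≤ dim (J ⊔ I) + dim J' ≤ dim U₀ + dim J'`.
Let `Fin = {U ∈ F | U ≤ U₀}` and `Fout = F \ Fin`, `F' = insert U₀ Fout`.  For `U ∈ Fout`, `D ≤ B`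
acts on `U` by scalars, `U` is not contained in `U₀`; so `F'` is independent by `separation`
(`Fout` is independent as a subset of `F`).  `D` acts by scalars on the members of `F'`.
Also `U₀ ∉ Fout`.  So `|F'| = |F| - a + 1` and
`∑_{F'} dim = ∑_F dim - ∑_{Fin} dim + dim U₀`, where `a = |Fin|`.  We need
`p (1 + |F'|) ≤ 16 (dim U₀ - ∑_{Fin} dim) + p |F|`, i.e. `p (2 - a) ≤ 16 (dim U₀ - ∑_{Fin} dim)`.
* `a = 0`: `2 p ≤ 16 dim U₀` by the claim with `J = ⊥`.
* `a = 1`, `Fin = {U}`: by the claim `8 dim U + p ≤ 8 dim U₀`, so `p ≤ 16 (dim U₀ - dim U)`.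
* `a ≥ 2`: the left side is `≤ 0` and `∑_{Fin} dim ≤ dim U₀` (independent subspaces of `U₀`:
`sum_finrank_le` for the subspaces of `U₀`, or `finrank` of the sup of an independent family). -/
theorem forest_step {p : ℕ} (hp : 0 < p) (ρ : G →* End K V) (B D : Subgroup G) (hDB : D ≤ B)
    (I : Submodule K V) (hI : Scal ρ D I)
    (hJ : ∀ J ≤ I, Scal ρ B J → 8 * finrank K J + p ≤ 8 * finrank K I)
    (F : Finset (Submodule K V)) (hF : F.SupIndep id) (hFne : ∀ U ∈ F, U ≠ ⊥)
    (hs : ∀ U ∈ F, Scal ρ B U) :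
    ∃ F' : Finset (Submodule K V), F'.SupIndep id ∧ (∀ U ∈ F', U ≠ ⊥) ∧
      (∀ U ∈ F', Scal ρ D U) ∧ F'.Nonempty ∧
      16 * ∑ U ∈ F, finrank K U + p * (1 + F'.card) ≤
        16 * ∑ U ∈ F', finrank K U + p * F.card := by
  have hIpos : p ≤ 8 * finrank K I := by
    have h1 := hJ ⊥ bot_le (fun g _ => ⟨0, fun v hv => by
      rw [(Submodule.mem_bot K).1 hv, map_zero, smul_zero]⟩)
    rw [finrank_bot] at h1
    omega
  have hI0 : I ≠ ⊥ := by
    rintro rfl
    rw [finrank_bot] at hIpos
    omega
  have hI' : ∀ g : G, ∃ a : K, g ∈ D → ∀ v ∈ I, ρ g v = a • v := by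
    intro g
    by_cases hg : g ∈ D
    · obtain ⟨a, ha⟩ := hI g hg
      exact ⟨a, fun _ => ha⟩
    · exact ⟨0, fun h => absurd h hg⟩
  choose c hc using hI'
  let U₀ : Submodule K V :=
    { carrier := {v | ∀ x ∈ D, ρ x v = c x • v}
      add_mem' := by
        intro v w hv hw x hx
        rw [map_add, hv x hx, hw x hx, smul_add]
      zero_mem' := by
        intro x hx
        rw [map_zero, smul_zero]
      smul_mem' := by
        intro a v hv x hx
        rw [map_smul, hv x hx, smul_comm] }
  have hU₀ : ∀ v, v ∈ U₀ ↔ ∀ x ∈ D, ρ x v = c x • v := fun v => Iff.rfl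
  have hIU : I ≤ U₀ := fun v hv x hx => hc x hx v hv
  have claim : ∀ J ≤ U₀, Scal ρ B J → 8 * finrank K J + p ≤ 8 * finrank K U₀ := by
    intro J hJU hJB
    have h1 := hJ (J ⊓ I) inf_le_right (hJB.mono le_rfl inf_le_left)
    have h2 := Submodule.finrank_sup_add_finrank_inf_eq J I
    have h3 : finrank K (J ⊔ I : Submodule K V) ≤ finrank K U₀ :=
      Submodule.finrank_mono (sup_le hJU hIU)
    omega
  have hU₀ne : U₀ ≠ ⊥ := fun h => hI0 (le_bot_iff.1 (h ▸ hIU))
  have hsub : F.filter (fun U => ¬ U ≤ U₀) ⊆ F := Finset.filter_subset _ _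
  have hsubi : F.filter (fun U => U ≤ U₀) ⊆ F := Finset.filter_subset _ _
  have hout : (F.filter (fun U => ¬ U ≤ U₀)).SupIndep id := hF.subset hsub
  have hdis : Disjoint U₀ ((F.filter (fun U => ¬ U ≤ U₀)).sup id) :=
    separation ρ D c U₀ hU₀ _ hout
      (fun U hU => (hs U (hsub hU)).mono hDB le_rfl)
      (fun U hU => (Finset.mem_filter.1 hU).2)
  have hnot : U₀ ∉ F.filter (fun U => ¬ U ≤ U₀) := fun h => (Finset.mem_filter.1 h).2 le_rfl
  refine ⟨insert U₀ (F.filter (fun U => ¬ U ≤ U₀)), hout.insert hdis, ?_, ?_,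
    Finset.insert_nonempty _ _, ?_⟩
  · intro U hU
    rcases Finset.mem_insert.1 hU with h | h
    · rw [h]
      exact hU₀ne
    · exact hFne U (hsub h)
  · intro U hU
    rcases Finset.mem_insert.1 hU with h | h
    · rw [h]
      exact fun g hg => ⟨c g, fun v hv => hv g hg⟩
    · exact (hs U (hsub h)).mono hDB le_rfl
  · rw [Finset.sum_insert hnot, Finset.card_insert_of_notMem hnot]
    have h1 : ∑ U ∈ F.filter (fun U => U ≤ U₀), finrank K U +
        ∑ U ∈ F.filter (fun U => ¬ U ≤ U₀), finrank K U = ∑ U ∈ F, finrank K U :=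
      Finset.sum_filter_add_sum_filter_not F (fun U => U ≤ U₀) (fun U => finrank K U)
    have h2 : (F.filter (fun U => U ≤ U₀)).card + (F.filter (fun U => ¬ U ≤ U₀)).card = F.card :=
      Finset.card_filter_add_card_filter_not (fun U => U ≤ U₀)
    have h3 : ∑ U ∈ F.filter (fun U => U ≤ U₀), finrank K U ≤ finrank K U₀ := by
      rw [fl1_sum _ (hF.subset hsubi)]
      refine Submodule.finrank_mono (Finset.sup_le fun U hU => ?_)
      exact (Finset.mem_filter.1 hU).2
    have h4 : (F.filter (fun U => U ≤ U₀)).card = 0 ∨ (F.filter (fun U => U ≤ U₀)).card = 1 ∨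
        2 ≤ (F.filter (fun U => U ≤ U₀)).card := by omega
    have h0 : p ≤ 8 * finrank K U₀ := by
      have h1 := claim ⊥ bot_le (fun g _ => ⟨0, fun v hv => by
        rw [(Submodule.mem_bot K).1 hv, map_zero, smul_zero]⟩)
      rw [finrank_bot] at h1
      omega
    rw [← h1, ← h2]
    generalize hA : (F.filter (fun U => ¬ U ≤ U₀)).card = A
    generalize hS : ∑ U ∈ F.filter (fun U => ¬ U ≤ U₀), finrank K U = S
    rcases h4 with h4 | h4 | h4
    · have h5 : ∑ U ∈ F.filter (fun U => U ≤ U₀), finrank K U = 0 := by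
        rw [Finset.card_eq_zero.1 h4, Finset.sum_empty]
      rw [h4, h5]
      nlinarith
    · obtain ⟨U, hU⟩ := Finset.card_eq_one.1 h4
      have hUm : U ∈ F.filter (fun U => U ≤ U₀) := by
        rw [hU]
        exact Finset.mem_singleton_self U
      have h5 := claim U (Finset.mem_filter.1 hUm).2 (hs U (hsubi hUm))
      rw [h4]
      have h6 : ∑ U ∈ F.filter (fun U => U ≤ U₀), finrank K U = finrank K U := by
        rw [hU, Finset.sum_singleton]
      rw [h6]
      nlinarith
    · have h5 : p * 2 ≤ p * (F.filter (fun U => U ≤ U₀)).card := Nat.mul_le_mul_left p h4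
      nlinarith

end H32E
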