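import Pool.Agent.Lib.H32E.E0

/-!
# H32E / RD0: the restriction of a representation (definition, proved)
-/

set_option autoImplicit false

open Module

namespace H32E

variable {K V G : Type} [Field K] [AddCommGroup V] [Module K V] [Group G]

/-- The representation of the subgroup `L` on the `L`-invariant subspace `U`. -/
noncomputable def rest (ρ : G →* End K V) (L : Subgroup G) (U : Submodule K V) (h : Inv ρ L U) :
    L →* End K U where
  toFun g := (ρ (g : G)).restrict (h g g.2)
  map_one' := by
    ext v
    simp
  map_mul' a b := by
    ext v
    simp

theorem rest_apply (ρ : G →* End K V) (L : Subgroup G) (U : Submodule K V) (h : Inv ρ L U) (g : L)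
    (v : U) : ((rest ρ L U h g v : U) : V) = ρ (g : G) (v : V) := rfl

end H32E
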