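import Pool.Agent.Lib.H32E.MO1
import Pool.Agent.Lib.H32E.RD0
import Pool.Agent.Lib.H32E.FL1

/-!
# H32E / MO2: the monomial lemma

Chunk MO2.
-/

set_option autoImplicit false

open Module

namespace H32E

theorem mo2_eqLocus {K V : Type} [Field K] [AddCommGroup V] [Module K V] (F : Finset (Submodule K V))
    (hF : F.sup id = ⊤) (f g : End K V) (h : ∀ U ∈ F, ∀ v ∈ U, f v = g v) : f = g := by
  have h1 : F.sup id ≤ LinearMap.eqLocus f g := by
    refine Finset.sup_le fun U hU v hv => ?_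
    exact h U hU v hv
  rw [hF] at h1
  ext v
  exact h1 (Submodule.mem_top (x := v))

/-- **Monomial lemma, absolute form** (`ρ` need not be injective).

Proof.  Strong induction on `n`.  If `ρ (x * y) = ρ (y * x)` for all `x, y` take `A = ⊤`, `a = 0`
(this covers `V = 0`).  Otherwise let `H = P ⧸ ρ.ker`, `ρ' = QuotientGroup.lift ρ.ker ρ _ : H →* End K V`,
injective; `H` is a finite noncommutative `p`-group.  Let `Y` be from `exists_self_centralizing` for
`Q = ⊤ : Subgroup H`, and `F` from `exists_weight_family` for `ρ'` and `Y`.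
`F` is nonempty (`F.sup id = ⊤ ≠ ⊥`).  `F.card ≠ 1`: if `F = {U}` then `U = ⊤`, so `Y` acts on `V` by scalars
and is central (`ρ'` injective), hence `Y = ⊤` by the self-centralising property and `H` is
commutative, a contradiction.  So every `W ∈ F` has `finrank K W < n`, since
`∑_{W ∈ F} finrank K W = n` (`F` independent with sum `⊤`) and all summands are positive.
By `map_weight` (`P = ⊤`) the group `H` permutes `F`; `P₀`, `a₀` from `fixing_subgroup` for
`⊤ : Subgroup H`: `(p - 1) a₀ ≤ |F| - 1`.  For `W ∈ F` the subgroup `P₀` acts on `W`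
(`rest ρ' P₀ W _ : P₀ →* End K W`); by induction there is `A_W : Subgroup P₀` of index
`p ^ a_W`, `(p - 1) a_W ≤ finrank K W - 1`, commuting on `W`.  Let `A₁ = ⨅ W : F, A_W : Subgroup P₀`,
`A₂ = A₁.map P₀.subtype : Subgroup H` and `A = A₂.comap (QuotientGroup.mk' _) : Subgroup P`.
The elements of `A₂` commute on every `W ∈ F`, so `ρ' (x y) = ρ' (y x)` for `x, y ∈ A₂`
(`⊔ W = ⊤`).  `A₁.index ≤ ∏_W p ^ a_W` (`Subgroup.index_iInf_le`), and `A₁.index` is a power of `p`
(it divides `|P₀|`), so `A₁.index = p ^ b` with `b ≤ ∑ a_W`; `A.index = A₂.index = p ^ (a₀ + b)`, and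
`(p - 1) (a₀ + b) ≤ (|F| - 1) + ∑_W (finrank K W - 1) = n - 1` (all `finrank K W ≥ 1`). -/
theorem monomial_aux {K : Type} [Field K] [IsAlgClosed K] [CharZero K] {p : ℕ} [Fact p.Prime]
    (n : ℕ) :
    ∀ (V : Type) [AddCommGroup V] [Module K V] [FiniteDimensional K V], finrank K V = n →
      ∀ (P : Type) [Group P] [Finite P], IsPGroup p P → ∀ ρ : P →* End K V,
        ∃ (A : Subgroup P) (a : ℕ), A.index = p ^ a ∧ (p - 1) * a ≤ n - 1 ∧
          ∀ x ∈ A, ∀ y ∈ A, ρ (x * y) = ρ (y * x) := by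
  induction n using Nat.strong_induction_on with
  | _ n IH =>
  intro V _ _ _ hn P _ _ hP ρ
  classical
  by_cases hcomm : ∀ x y : P, ρ (x * y) = ρ (y * x)
  · refine ⟨⊤, 0, by rw [Subgroup.index_top, pow_zero], by rw [Nat.mul_zero]; exact Nat.zero_le _, ?_⟩
    intro x _ y _
    exact hcomm x y
  have hp1 : 1 < p := (Fact.out : p.Prime).one_lt
  -- the quotient
  let H := P ⧸ ρ.ker
  let ρ' : H →* End K V := QuotientGroup.lift ρ.ker ρ le_rfl
  have hρ' : ∀ x : P, ρ' (QuotientGroup.mk' ρ.ker x) = ρ x := fun x => rfl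
  have hinj : Function.Injective ρ' := by
    intro a b
    obtain ⟨x, rfl⟩ := QuotientGroup.mk'_surjective ρ.ker a
    obtain ⟨y, rfl⟩ := QuotientGroup.mk'_surjective ρ.ker b
    intro h
    have h' : ρ x = ρ y := h
    refine QuotientGroup.eq.2 ?_
    rw [MonoidHom.mem_ker, map_mul, ← h', ← map_mul, inv_mul_cancel, map_one]
  have hH : IsPGroup p H := hP.to_quotient ρ.ker
  have hTp : IsPGroup p (⊤ : Subgroup H) := hH.to_subgroup ⊤
  obtain ⟨Y, -, hYc, hYn, hYs⟩ := exists_self_centralizing (⊤ : Subgroup H) hTp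
  obtain ⟨F, hFi, hFne, hFs, hscal, hmax⟩ := exists_weight_family ρ' Y hYc
  have hFnon : F.Nonempty := by
    rw [Finset.nonempty_iff_ne_empty]
    rintro rfl
    rw [Finset.sup_empty] at hFs
    apply hcomm
    intro x y
    ext v
    have hv : v ∈ (⊥ : Submodule K V) := by
      rw [hFs]
      exact Submodule.mem_top
    rw [Submodule.mem_bot] at hv
    rw [hv, map_zero, map_zero]
  have hsum := sum_finrank_le F hFi
  rw [hn] at hsum
  have hpos : ∀ U ∈ F, 1 ≤ finrank K U := by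
    intro U hU
    have h1 := hFne U hU
    exact Nat.one_le_iff_ne_zero.2 fun h0 => h1 (Submodule.finrank_eq_zero.1 h0)
  have hcard : 2 ≤ F.card := by
    by_contra hlt
    have h1 : F.card = 1 := by
      have := hFnon.card_pos
      omega
    obtain ⟨U, rfl⟩ := Finset.card_eq_one.1 h1
    rw [Finset.sup_singleton] at hFs
    have hU : U = ⊤ := hFs
    have hsc := hscal U (Finset.mem_singleton_self U)
    rw [hU] at hsc
    have hcen : ∀ y ∈ Y, ∀ x : H, x * y = y * x := by
      intro y hy x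
      obtain ⟨c, hc⟩ := hsc y hy
      apply hinj
      rw [map_mul, map_mul]
      ext v
      show ρ' x (ρ' y v) = ρ' y (ρ' x v)
      rw [hc v Submodule.mem_top, hc (ρ' x v) Submodule.mem_top, map_smul]
    have hYtop : ∀ x : H, x ∈ Y := fun x => hYs x (Subgroup.mem_top x) fun y hy => hcen y hy x
    apply hcomm
    intro x y
    have h2 := hYc _ (hYtop (QuotientGroup.mk' ρ.ker x)) _ (hYtop (QuotientGroup.mk' ρ.ker y))
    rw [← map_mul, ← map_mul] at h2
    rw [← hρ', ← hρ', h2]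
  have hlt : ∀ U ∈ F, finrank K U < n := by
    intro U hU
    obtain ⟨W, hW, hne⟩ := Finset.exists_mem_ne hcard U
    have h1 : finrank K U + finrank K W ≤ ∑ U ∈ F, finrank K U := by
      have h2 : ({U, W} : Finset (Submodule K V)) ⊆ F := by
        intro Z hZ
        rw [Finset.mem_insert, Finset.mem_singleton] at hZ
        rcases hZ with rfl | rfl
        · exact hU
        · exact hW
      have h3 := Finset.sum_le_sum_of_subset (f := fun U : Submodule K V => finrank K U) h2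
      rw [Finset.sum_pair hne.symm] at h3
      exact h3
    have h4 := hpos W hW
    omega
  have hperm : ∀ x ∈ (⊤ : Subgroup H), ∀ U ∈ F, U.map (ρ' x) ∈ F := fun x hx U hU =>
    map_weight ρ' ⊤ Y hYn F hFi hFne hscal hmax hx hU
  obtain ⟨P₀, a₀, -, hfix, hidx, ha₀⟩ := fixing_subgroup ρ' ⊤ hTp F hFnon hperm
  rw [Subgroup.relIndex_top_right] at hidx
  have hInv : ∀ U ∈ F, Inv ρ' P₀ U := by
    intro U hU g hg v hv
    have h1 : ρ' g v ∈ U.map (ρ' g) := Submodule.mem_map_of_mem hv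
    rwa [hfix g hg U hU] at h1
  have hP₀ : IsPGroup p P₀ := hH.to_subgroup P₀
  have hex : ∀ W : {W // W ∈ F}, ∃ (A : Subgroup P₀) (a : ℕ), A.index = p ^ a ∧
      (p - 1) * a ≤ finrank K W.1 - 1 ∧ ∀ x ∈ A, ∀ y ∈ A,
        rest ρ' P₀ W.1 (hInv W.1 W.2) (x * y) = rest ρ' P₀ W.1 (hInv W.1 W.2) (y * x) := fun W =>
    IH (finrank K W.1) (hlt W.1 W.2) W.1 rfl P₀ hP₀ (rest ρ' P₀ W.1 (hInv W.1 W.2))
  choose A a hA1 hA2 hA3 using hex
  set A₁ : Subgroup P₀ := ⨅ W, A W with hA₁
  obtain ⟨b, hb⟩ := hP₀.index A₁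
  have hble : b ≤ ∑ W, a W := by
    have h1 := Subgroup.index_iInf_le A
    rw [← hA₁, hb] at h1
    have h2 : ∏ W, (A W).index = p ^ ∑ W, a W := by
      rw [← Finset.prod_pow_eq_pow_sum]
      exact Finset.prod_congr rfl fun W _ => hA1 W
    rw [h2] at h1
    exact (Nat.pow_le_pow_iff_right hp1).1 h1
  refine ⟨(A₁.map P₀.subtype).comap (QuotientGroup.mk' ρ.ker), b + a₀, ?_, ?_, ?_⟩
  · rw [Subgroup.index_comap_of_surjective _ (QuotientGroup.mk'_surjective ρ.ker), Subgroup.index_map_subtype, hb,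
      hidx, pow_add]
  · have h1 : ∑ W : {W // W ∈ F}, (finrank K W.1 - 1) + F.card = ∑ U ∈ F, finrank K U := by
      rw [← Finset.sum_coe_sort F (fun U => finrank K U), Finset.card_eq_sum_ones,
        ← Finset.sum_coe_sort F (fun _ => 1), ← Finset.sum_add_distrib]
      refine Finset.sum_congr rfl fun W _ => ?_
      have := hpos W.1 W.2
      omega
    have h2 : (p - 1) * ∑ W, a W ≤ ∑ W : {W // W ∈ F}, (finrank K W.1 - 1) := by
      rw [Finset.mul_sum]
      exact Finset.sum_le_sum fun W _ => hA2 W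
    have h3 : (p - 1) * (b + a₀) ≤ (p - 1) * (∑ W, a W) + (p - 1) * a₀ := by
      rw [Nat.mul_add]
      exact Nat.add_le_add_right (Nat.mul_le_mul_left _ hble) _
    omega
  · intro x hx y hy
    obtain ⟨x', hx', ex⟩ := Subgroup.mem_map.1 (Subgroup.mem_comap.1 hx)
    obtain ⟨y', hy', ey⟩ := Subgroup.mem_map.1 (Subgroup.mem_comap.1 hy)
    rw [← hρ', ← hρ', map_mul (QuotientGroup.mk' ρ.ker) x y, map_mul (QuotientGroup.mk' ρ.ker) y x, ← ex, ← ey]
    refine mo2_eqLocus F hFs _ _ fun U hU v hv => ?_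
    have h1 := hA3 ⟨U, hU⟩ x' (by
      rw [hA₁] at hx'
      exact (Subgroup.mem_iInf.1 hx') ⟨U, hU⟩) y' (by
      rw [hA₁] at hy'
      exact (Subgroup.mem_iInf.1 hy') ⟨U, hU⟩)
    have h2 := congrArg (fun f : End K U => ((f ⟨v, hv⟩ : U) : V)) h1
    exact h2

/-- **Monomial lemma.**  (`monomial_aux` for the group `↥P`; map the subgroup of `↥P` to `G`.) -/
theorem monomial {K V G : Type} [Field K] [IsAlgClosed K] [CharZero K] [AddCommGroup V]
    [Module K V] [FiniteDimensional K V] [Group G] [Finite G] {p : ℕ} [Fact p.Prime]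
    (ρ : G →* End K V) (hinj : Function.Injective ρ) (P : Subgroup G) (hP : IsPGroup p P) :
    ∃ (A : Subgroup G) (a : ℕ), A ≤ P ∧ Comm A ∧ A.relIndex P = p ^ a ∧
      (p - 1) * a ≤ finrank K V - 1 := by
  obtain ⟨A, a, h1, h2, h3⟩ := monomial_aux (p := p) (finrank K V) V rfl P hP (ρ.comp P.subtype)
  refine ⟨A.map P.subtype, a, Subgroup.map_subtype_le A, ?_, ?_, h2⟩
  · intro x hx y hy
    obtain ⟨x', hx', rfl⟩ := Subgroup.mem_map.1 hx
    obtain ⟨y', hy', rfl⟩ := Subgroup.mem_map.1 hy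
    apply hinj
    exact h3 x' hx' y' hy'
  · have h4 : (A.map P.subtype).subgroupOf P = A :=
      Subgroup.comap_map_eq_self_of_injective (Subgroup.subtype_injective P) A
    rw [Subgroup.relIndex, h4, h1]

end H32E
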