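import Pool.Agent.Lib.H32E.E0

/-!
# H32E / TF1: transfer of a complex representation to `PadicAlgCl p`

Chunk TF1.
-/

set_option autoImplicit false

open Module Cardinal

namespace H32E

variable (p : ℕ) [Fact p.Prime]

/-- `#ℚ_[p] = 𝔠`.  Lower bound: `continuum_le_cardinal_of_nontriviallyNormedField`.  Upper bound:
`ℚ_[p]` is a quotient of a subtype of `ℕ → ℚ` (`CauSeq.Completion.Cauchy (padicNorm p)`;
`Cardinal.mk_quotient_le`, `Cardinal.mk_subtype_le`, `#(ℕ → ℚ) = ℵ₀ ^ ℵ₀ = 𝔠`). -/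
theorem card_padic : #ℚ_[p] = 𝔠 := by
  apply le_antisymm
  · have h1 : #(CauSeq ℚ (padicNorm p)) ≤ #(ℕ → ℚ) := Cardinal.mk_le_of_injective Subtype.val_injective
    have h2 : #ℚ_[p] ≤ #(CauSeq ℚ (padicNorm p)) :=
      Cardinal.mk_le_of_surjective (f := fun x => (Quotient.mk CauSeq.equiv x : ℚ_[p])) Quotient.mk_surjective
    have h3 : #(ℕ → ℚ) = 𝔠 := by simp
    exact (h2.trans h1).trans h3.le
  · exact continuum_le_cardinal_of_nontriviallyNormedField ℚ_[p]

/-- `#(PadicAlgCl p) = 𝔠` (`Algebra.IsAlgebraic.cardinalMk_le_max`, the algebra map is injective). -/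
theorem card_padicAlgCl : #(PadicAlgCl p) = 𝔠 := by
  apply le_antisymm
  · have h1 := Algebra.IsAlgebraic.cardinalMk_le_max ℚ_[p] (PadicAlgCl p)
    rw [card_padic] at h1
    exact h1.trans (max_le le_rfl Cardinal.aleph0_le_continuum)
  · rw [← card_padic p]
    exact Cardinal.mk_le_of_injective (algebraMap ℚ_[p] (PadicAlgCl p)).injective

/-- Two algebraically closed fields of characteristic `0` and the same uncountable cardinality are
isomorphic (`IsAlgClosed.ringEquivOfCardinalEqOfCharEq` with `ringChar`... `p = 0`). -/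
theorem exists_ringHom : Nonempty (ℂ →+* PadicAlgCl p) := by
  have h1 : Nonempty (ℂ ≃ PadicAlgCl p) := by
    rw [← Cardinal.eq, Cardinal.mk_complex, card_padicAlgCl]
  have h2 : ℵ₀ < #ℂ := by
    rw [Cardinal.mk_complex]
    exact Cardinal.aleph0_lt_continuum
  obtain ⟨e⟩ := IsAlgClosed.ringEquiv_of_equiv_of_charZero h2 h1
  exact ⟨e.toRingHom⟩

/-- (`PadicAlgCl.norm_extends`, `padicNormE.norm_p`.) -/
theorem norm_p : ‖((p : ℕ) : PadicAlgCl p)‖ = (p : ℝ)⁻¹ := by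
  have h1 := PadicAlgCl.norm_extends p ((p : ℕ) : ℚ_[p])
  rw [map_natCast] at h1
  rw [h1]
  exact Padic.norm_p

/-- **Transfer.**

Proof.  With `σ : ℂ →+* PadicAlgCl p` (injective, fields) let
`ρ' g = Matrix.toLin' ((LinearMap.toMatrix' (ρ g)).map σ)`, a monoid homomorphism
(`Matrix.toLinAlgEquiv'`, `RingHom.mapMatrix`, `LinearMap.toMatrixAlgEquiv'`), injective as a
composition of injective maps. -/
theorem transfer {G : Type} [Group G] {d : ℕ} (ρ : G →* End ℂ (Fin d → ℂ))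
    (hinj : Function.Injective ρ) :
    ∃ ρ' : G →* End (PadicAlgCl p) (Fin d → PadicAlgCl p), Function.Injective ρ' := by
  obtain ⟨σ⟩ := exists_ringHom p
  let f1 : End ℂ (Fin d → ℂ) →* Matrix (Fin d) (Fin d) ℂ :=
    (LinearMap.toMatrixAlgEquiv' : ((Fin d → ℂ) →ₗ[ℂ] (Fin d → ℂ)) ≃ₐ[ℂ] Matrix (Fin d) (Fin d) ℂ).toMulEquiv.toMonoidHom
  let f2 : Matrix (Fin d) (Fin d) ℂ →* Matrix (Fin d) (Fin d) (PadicAlgCl p) := (σ.mapMatrix : _ →+* _).toMonoidHom
  let f3 : Matrix (Fin d) (Fin d) (PadicAlgCl p) →* End (PadicAlgCl p) (Fin d → PadicAlgCl p) :=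
    (Matrix.toLinAlgEquiv' : Matrix (Fin d) (Fin d) (PadicAlgCl p) ≃ₐ[PadicAlgCl p] _).toMulEquiv.toMonoidHom
  refine ⟨f3.comp (f2.comp (f1.comp ρ)), ?_⟩
  have e1 : Function.Injective f1 := (LinearMap.toMatrixAlgEquiv' : ((Fin d → ℂ) →ₗ[ℂ] (Fin d → ℂ)) ≃ₐ[ℂ] _).injective
  have e2 : Function.Injective f2 := by
    intro A B h
    ext i j
    have h1 := congrFun (congrFun h i) j
    exact σ.injective h1
  have e3 : Function.Injective f3 :=
    (Matrix.toLinAlgEquiv' : Matrix (Fin d) (Fin d) (PadicAlgCl p) ≃ₐ[PadicAlgCl p] _).injective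
  exact e3.comp (e2.comp (e1.comp hinj))

end H32E
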