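import Pool.Agent.Lib.H32E.TA1
import Pool.Agent.Lib.H32E.MO2
import Pool.Agent.Lib.H32E.TF1
import Pool.Agent.Lib.H32E.CH1
import Pool.Agent.Lib.H32E.CH2

/-!
# H32E / CH3: the bound for one prime

Chunk CH3 (assembly).
-/

set_option autoImplicit false

open Module

namespace H32E

/-- The contribution `16 d / p (4 kap p d + log_p d)` of a prime `p`. -/
noncomputable def hb (p d : ℕ) : ℝ := 16 * d / p * (4 * kap p d + Real.logb p d)

theorem ch3_kap_nonneg {p d : ℕ} (hp : 2 ≤ p) (hd : 1 ≤ d) : 0 ≤ kap p d := by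
  have hp1 : (1 : ℝ) < p := by exact_mod_cast hp
  have hL : 0 ≤ Real.logb p d := Real.logb_nonneg hp1 (by exact_mod_cast hd)
  have hlog : 0 ≤ Real.log (Real.logb p d + 1) := Real.log_nonneg (by linarith)
  unfold kap
  positivity

/-- `log_p |A : D|` for a `p`-group. -/
theorem ch3_logb_le {p k : ℕ} (hp : 2 ≤ p) : (k : ℝ) ≤ Real.logb 2 ((p ^ k : ℕ) : ℝ) := by
  push_cast
  rw [Real.logb_pow]
  have h1 : 1 ≤ Real.logb 2 p := by
    rw [Real.le_logb_iff_rpow_le (by norm_num) (by exact_mod_cast (by omega : 0 < p))]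
    rw [Real.rpow_one]
    exact_mod_cast hp
  nlinarith [Nat.cast_nonneg (α := ℝ) k]

/-- The first part of the proof: a commutative subgroup of a Sylow subgroup. -/
theorem ch3_first {d : ℕ} {G : Type} [Group G] [Finite G]
    (ρ : G →* End ℂ (Fin d → ℂ)) (hinj : Function.Injective ρ) (p : ℕ) [Fact p.Prime] :
    ∃ (a k : ℕ) (A : Subgroup G), (p - 1) * a ≤ d - 1 ∧ Comm A ∧ IsPGroup p A ∧
      Nat.card A = p ^ k ∧ padicValNat p (Nat.card G) = a + k := by
  have hpr : p.Prime := Fact.out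
  obtain ⟨P, hP, hPc⟩ := exists_sylow_card (G := G) p
  obtain ⟨A, a, hAP, hAc, hAi, ha⟩ := monomial ρ hinj P hP
  have hAp : IsPGroup p A := hP.to_le hAP
  obtain ⟨k, hk⟩ := (IsPGroup.iff_card).mp hAp
  refine ⟨a, k, A, ?_, hAc, hAp, hk, ?_⟩
  · simpa using ha
  · have h1 : Nat.card A * A.relIndex P = Nat.card P := by
      have := Subgroup.relIndex_mul_relIndex (⊥ : Subgroup G) A P bot_le hAP
      simpa [Subgroup.relIndex_bot_left] using this
    rw [hk, hAi, hPc, ← pow_add] at h1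
    have := Nat.pow_right_injective hpr.two_le h1
    omega

/-- **One prime.**  `G` finite with a faithful representation on `ℂ ^ d`, `p` a prime.  There are
`a : ℕ` with `(p - 1) a ≤ d - 1` and a commutative subgroup `D` contained in a normal `p`-subgroup
of `G` such that `v_p(|G|) ≤ a + [p ≤ 8 d] hb p d + log_2 |D|`.

Proof.  `P` from `exists_sylow_card`, `A` and `a` from `monomial` (over `ℂ`), so
`v_p(|G|) = log_p |P| = a + log_p |A|` (`Subgroup.relIndex`, `Subgroup.card_mul_relIndex`-type: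
`Nat.card A * A.relIndex P = Nat.card P`).  `ρ'` from `transfer`, with `norm_p`.
If `8 d < p`: `InOp p ⊤ A` by `large_prime`; take `D = A` and `log_p |A| ≤ log_2 |A|`.
If `p ≤ 8 d`: `D`, `j` from `thmA` with `Θ = p ^ kap p d` (`interp_fine`; `1 ≤ Θ` since
`kap p d ≥ 0`), `|A| = |D| |A : D|`,
`log_p |A : D| ≤ j (4 kap p d + log_p d)` and `j ≤ 16 d / p` (`kap p d ≥ 0`, `log_p d ≥ 0`).
`D` is commutative as `D ≤ A`. -/
theorem one_prime {d : ℕ} (hd : 1 ≤ d) {G : Type} [Group G] [Finite G]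
    (ρ : G →* End ℂ (Fin d → ℂ)) (hinj : Function.Injective ρ) (p : ℕ) [Fact p.Prime] :
    ∃ (a : ℕ) (D : Subgroup G), (p - 1) * a ≤ d - 1 ∧ InOp p ⊤ D ∧ Comm D ∧
      (padicValNat p (Nat.card G) : ℝ) ≤
        a + (if p ≤ 8 * d then hb p d else 0) + Real.logb 2 (Nat.card D) := by
  have hpr : p.Prime := Fact.out
  have hp1 : (1 : ℝ) < p := by exact_mod_cast hpr.one_lt
  obtain ⟨a, k, A, ha, hAc, hAp, hk, hv⟩ := ch3_first ρ hinj p
  obtain ⟨ρ', hinj'⟩ := transfer p ρ hinj
  by_cases hp8 : p ≤ 8 * d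
  · have hfr : finrank (PadicAlgCl p) (Fin d → PadicAlgCl p) = d := by simp
    have hkap := ch3_kap_nonneg hpr.two_le hd
    have hL : 0 ≤ Real.logb p d := Real.logb_nonneg hp1 (by exact_mod_cast hd)
    have hΘ1 : (1 : ℝ) ≤ (p : ℝ) ^ kap p d := Real.one_le_rpow hp1.le hkap
    obtain ⟨D, j, hDA, hop, hle, hj⟩ := thmA (norm_p p) ρ' hinj' A hAc hAp hΘ1 (by
      rw [hfr]
      exact interp_fine (norm_p p) hd)
    rw [hfr] at hle hj
    have hDp : IsPGroup p D := hAp.to_le hDA
    obtain ⟨l, hl⟩ := (IsPGroup.iff_card).mp hDp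
    refine ⟨a, D, ha, hop, fun x hx y hy => hAc x (hDA hx) y (hDA hy), ?_⟩
    rw [if_pos hp8, hv, hl]
    have h1 : Nat.card D * D.relIndex A = Nat.card A := by
      have := Subgroup.relIndex_mul_relIndex (⊥ : Subgroup G) D A bot_le hDA
      simpa [Subgroup.relIndex_bot_left] using this
    rw [hk, hl] at h1
    have hlk : l ≤ k := by
      have : p ^ l ∣ p ^ k := ⟨_, h1.symm⟩
      exact (Nat.pow_dvd_pow_iff_le_right hpr.one_lt).mp this
    have h2 : D.relIndex A = p ^ (k - l) := by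
      have h3 : p ^ l * p ^ (k - l) = p ^ k := by rw [← pow_add]; congr 1; omega
      rw [← h3] at h1
      exact Nat.eq_of_mul_eq_mul_left (pow_pos hpr.pos _) h1
    have h3 : ((k - l : ℕ) : ℝ) ≤ hb p d := by
      rw [h2] at hle
      push_cast at hle
      have h4 : ((p : ℝ) ^ (k - l)) = (p : ℝ) ^ ((k - l : ℕ) : ℝ) := by
        rw [Real.rpow_natCast]
      have h5 : (((p : ℝ) ^ kap p d) ^ 4 * d) ^ j =
          (p : ℝ) ^ ((4 * kap p d + Real.logb p d) * j) := by
        have h6 : (p : ℝ) ^ Real.logb p d = d := by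
          rw [Real.rpow_logb (by linarith) (by linarith) (by exact_mod_cast hd)]
        have h7 : ((p : ℝ) ^ kap p d) ^ 4 * d = (p : ℝ) ^ (4 * kap p d + Real.logb p d) := by
          rw [Real.rpow_add (by linarith), h6, ← Real.rpow_natCast _ 4,
            ← Real.rpow_mul (by linarith)]
          congr 2
          push_cast
          ring
        rw [h7, ← Real.rpow_natCast _ j, ← Real.rpow_mul (by linarith)]
      rw [h4, h5] at hle
      have h7 : ((k - l : ℕ) : ℝ) ≤ (4 * kap p d + Real.logb p d) * j :=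
        (Real.rpow_le_rpow_left_iff hp1).mp hle
      refine h7.trans ?_
      unfold hb
      have h8 : (j : ℝ) ≤ 16 * d / p := by
        rw [le_div_iff₀ (by linarith)]
        have : ((p * j : ℕ) : ℝ) ≤ ((16 * d : ℕ) : ℝ) := by exact_mod_cast hj
        push_cast at this
        linarith
      rw [mul_comm]
      exact mul_le_mul_of_nonneg_right h8 (by positivity)
    have h9 := ch3_logb_le (k := l) hpr.two_le
    have h10 : ((a + k : ℕ) : ℝ) = a + (k - l : ℕ) + l := by
      push_cast [Nat.cast_sub hlk]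
      ring
    rw [h10]
    linarith
  · refine ⟨a, A, ha, ?_, hAc, ?_⟩
    · exact large_prime (norm_p p) ρ' hinj' A hAc hAp (by
        have hfr : finrank (PadicAlgCl p) (Fin d → PadicAlgCl p) = d := by simp
        rw [hfr]
        omega)
    · rw [if_neg hp8, hv, hk]
      have h9 := ch3_logb_le (k := k) hpr.two_le
      push_cast at h9 ⊢
      linarith

/-- The trivial bound: if commutative subgroups have order at most `5 ^ d` then
`v_p(|G|) ≤ a + 3 d`, `(p - 1) a ≤ d - 1`.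

Proof.  As above with `log_p |A| ≤ log_2 |A| ≤ d log_2 5 ≤ 3 d`. -/
theorem one_prime_trivial {d : ℕ} (hd : 1 ≤ d) {G : Type} [Group G] [Finite G]
    (ρ : G →* End ℂ (Fin d → ℂ)) (hinj : Function.Injective ρ)
    (hab : ∀ A : Subgroup G, Comm A → Nat.card A ≤ 5 ^ d) (p : ℕ) [Fact p.Prime] :
    ∃ a : ℕ, (p - 1) * a ≤ d - 1 ∧ (padicValNat p (Nat.card G) : ℝ) ≤ a + 3 * d := by
  have hpr : p.Prime := Fact.out
  obtain ⟨a, k, A, ha, hAc, hAp, hk, hv⟩ := ch3_first ρ hinj p
  refine ⟨a, ha, ?_⟩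
  rw [hv]
  have h9 := ch3_logb_le (k := k) hpr.two_le
  have h1 : Real.logb 2 ((p ^ k : ℕ) : ℝ) ≤ Real.logb 2 ((5 : ℝ) ^ d) := by
    apply Real.logb_le_logb_of_le (by norm_num)
    · exact_mod_cast pow_pos hpr.pos _
    · have := hab A hAc
      rw [hk] at this
      exact_mod_cast this
  have h2 : Real.logb 2 ((5 : ℝ) ^ d) ≤ 3 * d := by
    rw [Real.logb_pow]
    have h3 : Real.logb 2 5 ≤ 3 := by
      rw [Real.logb_le_iff_le_rpow (by norm_num) (by norm_num)]
      norm_num
    nlinarith [Nat.cast_nonneg (α := ℝ) d]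
  push_cast at *
  linarith

end H32E
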