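import Pool.Agent.Lib.H32E.CH3

/-!
# H32E / CH4: the bound for the number of prime factors

Chunk CH4 (assembly).
-/

set_option autoImplicit false

open Module ArithmeticFunction

namespace H32E

/-- `∑_{p ∈ T} a_p ≤ d (1 + log d)` if `(p - 1) a_p ≤ d - 1` for the primes `p ∈ T`.

Proof.  `a_p = 0` for `p > d`; otherwise `a_p ≤ (d - 1) / (p - 1)`, and the numbers `p - 1`, `p ∈ T`,
`p ≤ d`, are different elements of `{1, ..., d - 1}`, so the sum is at most
`(d - 1) ∑_{m = 1}^{d - 1} 1 / m ≤ (d - 1) (1 + log (d - 1)) ≤ d (1 + log d)`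
(`harmonic_le_one_add_log`; `d = 1`: all `a_p = 0`). -/
theorem sum_a_le {d : ℕ} (hd : 1 ≤ d) (T : Finset ℕ) (hT : ∀ p ∈ T, p.Prime) (a : ℕ → ℕ)
    (ha : ∀ p ∈ T, (p - 1) * a p ≤ d - 1) :
    ∑ p ∈ T, (a p : ℝ) ≤ d * (1 + Real.log d) := by
  classical
  have hzero : ∀ p ∈ T, d < p → a p = 0 := by
    intro p hp hdp
    by_contra h
    have h1 := ha p hp
    have h2 : p - 1 ≤ (p - 1) * a p := Nat.le_mul_of_pos_right _ (Nat.pos_of_ne_zero h)
    have := (hT p hp).two_le
    omega
  have hsplit : ∑ p ∈ T, (a p : ℝ) = ∑ p ∈ T.filter (fun p => p ≤ d), (a p : ℝ) := by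
    rw [Finset.sum_filter]
    apply Finset.sum_congr rfl
    intro p hp
    split_ifs with h
    · rfl
    · rw [hzero p hp (by omega)]
      simp
  rw [hsplit]
  have hle : ∀ p ∈ T.filter (fun p => p ≤ d), (a p : ℝ) ≤ d * (1 / ((p - 1 : ℕ) : ℝ)) := by
    intro p hp
    rw [Finset.mem_filter] at hp
    have h1 := ha p hp.1
    have h2 := (hT p hp.1).two_le
    have h3 : (0 : ℝ) < ((p - 1 : ℕ) : ℝ) := by
      have : 0 < p - 1 := by omega
      exact_mod_cast this
    rw [mul_one_div, le_div_iff₀ h3]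
    have h4 : a p * (p - 1) ≤ d := by
      rw [mul_comm]
      omega
    exact_mod_cast h4
  refine (Finset.sum_le_sum hle).trans ?_
  rw [← Finset.mul_sum]
  apply mul_le_mul_of_nonneg_left _ (Nat.cast_nonneg d)
  have himg : ∑ p ∈ T.filter (fun p => p ≤ d), (1 / ((p - 1 : ℕ) : ℝ)) =
      ∑ m ∈ (T.filter (fun p => p ≤ d)).image (fun p : ℕ => (p - 1 : ℕ)), (1 / ((m : ℕ) : ℝ)) := by
    rw [Finset.sum_image]
    intro p hp q hq hpq
    simp only [Finset.coe_filter, Set.mem_setOf_eq] at hp hq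
    have h1 := (hT p hp.1).two_le
    have h2 := (hT q hq.1).two_le
    simp only at hpq
    omega
  rw [himg]
  have hsub : (T.filter (fun p => p ≤ d)).image (fun p : ℕ => (p - 1 : ℕ)) ⊆ Finset.Icc 1 d := by
    intro m hm
    rw [Finset.mem_image] at hm
    obtain ⟨p, hp, rfl⟩ := hm
    rw [Finset.mem_filter] at hp
    have h1 := (hT p hp.1).two_le
    rw [Finset.mem_Icc]
    omega
  refine (Finset.sum_le_sum_of_subset_of_nonneg hsub (fun m _ _ => by positivity)).trans ?_
  have h5 := harmonic_le_one_add_log d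
  rw [harmonic_eq_sum_Icc] at h5
  push_cast at h5
  simpa [one_div] using h5

/-- **The bound.**  `y : ℕ` is a free threshold.

Proof.  `Ω(|G|) = ∑_{p ∈ T} v_p(|G|)`, `T = (Nat.card G).primeFactors` (`cardFactors_eq_sum`).  For `p ∈ T`,
`p ≤ y` use `one_prime_trivial` (at most `y` primes); for `p ∈ T`, `p > y` use `one_prime`, with
`a_p`, `D_p`.  `hb p d ≥ 0`, so the middle terms sum to at most `∑_{p ∈ Ioc y (8 d), prime} hb p d`.
`∑_{p > y} log_2 |D_p| = log_2 ∏ |D_p| = log_2 |A| ≤ log_2 (5 ^ d) ≤ 3 d` with `A` from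
`exists_product` and `hab`.  The sum of the `a_p`: `sum_a_le`. -/
theorem omega_le {d : ℕ} (hd : 1 ≤ d) {G : Type} [Group G] [Finite G]
    (ρ : G →* End ℂ (Fin d → ℂ)) (hinj : Function.Injective ρ)
    (hab : ∀ A : Subgroup G, Comm A → Nat.card A ≤ 5 ^ d) (y : ℕ) :
    (cardFactors (Nat.card G) : ℝ) ≤ 3 * d * y +
      ∑ p ∈ (Finset.Ioc y (8 * d)).filter Nat.Prime, hb p d + d * (1 + Real.log d) + 3 * d := by
  classical
  set T := (Nat.card G).primeFactors with hTdef
  have hT : ∀ p ∈ T, p.Prime := fun p hp => Nat.prime_of_mem_primeFactors hp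
  have hcard : Nat.card G ≠ 0 := Nat.card_pos.ne'
  have hlog5 : Real.logb 2 ((5 : ℝ) ^ d) ≤ 3 * d := by
    rw [Real.logb_pow]
    have h3 : Real.logb 2 5 ≤ 3 := by
      rw [Real.logb_le_iff_le_rpow (by norm_num) (by norm_num)]
      norm_num
    nlinarith [Nat.cast_nonneg (α := ℝ) d]
  -- the two bounds in one statement
  have hex : ∀ p : ℕ, ∃ (a : ℕ) (D : Subgroup G), p ∈ T →
      (p - 1) * a ≤ d - 1 ∧ InOp p ⊤ D ∧ Comm D ∧
      (padicValNat p (Nat.card G) : ℝ) ≤ a + (if p ≤ y then 3 * (d : ℝ) else 0) +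
        (if y < p ∧ p ≤ 8 * d then hb p d else 0) + Real.logb 2 (Nat.card D) := by
    intro p
    by_cases hp : p ∈ T
    · have hpr := hT p hp
      have : Fact p.Prime := ⟨hpr⟩
      by_cases hpy : p ≤ y
      · obtain ⟨a, ha, hle⟩ := one_prime_trivial hd ρ hinj hab p
        refine ⟨a, ⊥, fun _ => ⟨ha, ?_, ?_, ?_⟩⟩
        · refine ⟨⊥, le_rfl, bot_le, ?_, ?_⟩
          · intro l _ n hn
            rw [Subgroup.mem_bot] at hn ⊢
            rw [hn]
            group
          · exact IsPGroup.of_bot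
        · intro x hx z hz
          rw [Subgroup.mem_bot] at hx hz
          rw [hx, hz]
        · rw [if_pos hpy, if_neg (by omega)]
          simp only [Subgroup.mem_bot, Nat.card_unique, Nat.cast_one, Real.logb_one]
          linarith
      · obtain ⟨a, D, ha, hop, hc, hle⟩ := one_prime hd ρ hinj p
        refine ⟨a, D, fun _ => ⟨ha, hop, hc, ?_⟩⟩
        rw [if_neg hpy]
        by_cases hp8 : p ≤ 8 * d
        · rw [if_pos hp8] at hle
          rw [if_pos ⟨by omega, hp8⟩]
          linarith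
        · rw [if_neg hp8] at hle
          rw [if_neg (by omega)]
          linarith
    · exact ⟨0, ⊥, fun h => absurd h hp⟩
  choose a D hD using hex
  rw [cardFactors_eq_sum _ hcard]
  push_cast
  have h1 : ∑ p ∈ T, (padicValNat p (Nat.card G) : ℝ) ≤
      ∑ p ∈ T, ((a p : ℝ) + (if p ≤ y then 3 * (d : ℝ) else 0) +
        (if y < p ∧ p ≤ 8 * d then hb p d else 0) + Real.logb 2 (Nat.card (D p))) :=
    Finset.sum_le_sum (fun p hp => (hD p hp).2.2.2)
  refine h1.trans ?_
  rw [Finset.sum_add_distrib, Finset.sum_add_distrib, Finset.sum_add_distrib]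
  -- the four sums
  have s1 := sum_a_le hd T hT a (fun p hp => (hD p hp).1)
  have s2 : ∑ p ∈ T, (if p ≤ y then 3 * (d : ℝ) else 0) ≤ 3 * d * y := by
    rw [← Finset.sum_filter, Finset.sum_const, nsmul_eq_mul]
    have h2 : (T.filter (fun p => p ≤ y)).card ≤ y := by
      have h3 : T.filter (fun p => p ≤ y) ⊆ Finset.Icc 1 y := by
        intro p hp
        rw [Finset.mem_filter] at hp
        rw [Finset.mem_Icc]
        exact ⟨(hT p hp.1).one_lt.le, hp.2⟩
      simpa using Finset.card_le_card h3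
    have h4 : ((T.filter (fun p => p ≤ y)).card : ℝ) ≤ y := by exact_mod_cast h2
    rw [mul_comm]
    exact mul_le_mul_of_nonneg_left h4 (by positivity)
  have s3 : ∑ p ∈ T, (if y < p ∧ p ≤ 8 * d then hb p d else 0) ≤
      ∑ p ∈ (Finset.Ioc y (8 * d)).filter Nat.Prime, hb p d := by
    rw [← Finset.sum_filter]
    apply Finset.sum_le_sum_of_subset_of_nonneg
    · intro p hp
      rw [Finset.mem_filter] at hp
      rw [Finset.mem_filter, Finset.mem_Ioc]
      exact ⟨hp.2, hT p hp.1⟩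
    · intro p hp _
      rw [Finset.mem_filter] at hp
      have hp2 := hp.2.two_le
      have hp1 : (1 : ℝ) < p := by exact_mod_cast hp2
      have hkap := ch3_kap_nonneg hp2 hd
      have hL : 0 ≤ Real.logb p d := Real.logb_nonneg hp1 (by exact_mod_cast hd)
      unfold hb
      positivity
  have s4 : ∑ p ∈ T, Real.logb 2 (Nat.card (D p)) ≤ 3 * d := by
    obtain ⟨A, hAc, hAcard⟩ := exists_product T hT D (fun p hp => (hD p hp).2.1)
      (fun p hp => (hD p hp).2.2.1)
    have h2 : ∑ p ∈ T, Real.logb 2 (Nat.card (D p)) = Real.logb 2 (Nat.card A) := by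
      rw [hAcard]
      push_cast
      rw [Real.logb_prod]
      intro p _
      exact_mod_cast Nat.card_pos.ne'
    rw [h2]
    refine le_trans ?_ hlog5
    apply Real.logb_le_logb_of_le (by norm_num)
    · exact_mod_cast Nat.card_pos
    · exact_mod_cast hab A hAc
  linarith

end H32E
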