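import Pool.Agent.Lib.Helper17.DeloneAbelian

/-!
# H32E / DA: cluster groups and affine isometries (copied from helper17's AbelianIndexBound)
-/

set_option autoImplicit false

open Metric Module

namespace H32E.DA

open Pool.Agent.Helper17 (Loc lin Near eq_one_of_near card_finset_le_of_comm regular_of_card_lt
  apply_inv_self' clusterGroup_anti)

/-- The symmetry group of the cluster `X ∩ closedBall x ρ`: all isometries `g` of the space with
`g x = x` that map the cluster onto itself. -/
def clusterGroup {E : Type*} [MetricSpace E] (X : Set E) (x : E) (ρ : ℝ) : Subgroup (E ≃ᵢ E) where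
  carrier := {g | g x = x ∧ g '' (X ∩ closedBall x ρ) = X ∩ closedBall x ρ}
  one_mem' := by
    refine ⟨rfl, ?_⟩
    ext z
    constructor
    · rintro ⟨w, hw, rfl⟩
      exact hw
    · intro hz
      exact ⟨z, hz, rfl⟩
  mul_mem' := by
    rintro g h ⟨hg, hg'⟩ ⟨hh, hh'⟩
    refine ⟨?_, ?_⟩
    · change g (h x) = x
      rw [hh, hg]
    · have : (fun z => (g * h) z) = g ∘ h := rfl
      change (fun z => (g * h) z) '' _ = _
      rw [this, Set.image_comp, hh', hg']
  inv_mem' := by
    rintro g ⟨hg, hg'⟩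
    refine ⟨?_, ?_⟩
    · change g.symm x = x
      rw [IsometryEquiv.symm_apply_eq, hg]
    · change g.symm '' _ = _
      conv_lhs => rw [← hg']
      rw [← Set.image_comp]
      have : (g.symm ∘ g) = id := by
        ext z; simp
      rw [this, Set.image_id]

/-- The homomorphism from isometries to affine isometries (Mazur-Ulam). -/
noncomputable def toAff {E : Type*} [NormedAddCommGroup E] [InnerProductSpace ℝ E] :
    (E ≃ᵢ E) →* (E ≃ᵃⁱ[ℝ] E) where
  toFun g := g.toRealAffineIsometryEquiv
  map_one' := by ext z; simp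
  map_mul' g h := by ext z; simp

theorem toAff_apply {E : Type*} [NormedAddCommGroup E] [InnerProductSpace ℝ E]
    (g : E ≃ᵢ E) (z : E) : toAff g z = g z := by
  simp [toAff]

theorem toAff_injective {E : Type*} [NormedAddCommGroup E] [InnerProductSpace ℝ E] :
    Function.Injective (toAff : (E ≃ᵢ E) →* (E ≃ᵃⁱ[ℝ] E)) := by
  intro g h hgh
  ext z
  rw [← toAff_apply g, hgh, toAff_apply]

theorem loc_of_image {E : Type*} [NormedAddCommGroup E] [InnerProductSpace ℝ E] {X : Set E}
    {g : E ≃ᵢ E} {x y : E} {ρ : ℝ} (hgx : g x = y)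
    (hg : g '' (X ∩ closedBall x ρ) = X ∩ closedBall y ρ) : Loc X (toAff g) x ρ := by
  intro z hz
  rw [toAff_apply]
  constructor
  · intro hzX
    have h1 : g z ∈ g '' (X ∩ Metric.closedBall x ρ) := ⟨z, ⟨hzX, hz⟩, rfl⟩
    rw [hg] at h1
    exact h1.1
  · intro hgz
    have h1 : g z ∈ X ∩ Metric.closedBall y ρ := by
      refine ⟨hgz, ?_⟩
      rw [mem_closedBall, ← hgx, g.dist_eq]
      exact hz
    rw [← hg] at h1
    obtain ⟨w, hw, hwz⟩ := h1
    have := g.injective hwz
    rw [← this]
    exact hw.1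

theorem map_clusterGroup {E : Type*} [NormedAddCommGroup E] [InnerProductSpace ℝ E] (X : Set E)
    (x : E) (ρ : ℝ) :
    (clusterGroup X x ρ).map toAff = Pool.Agent.Helper17.clusterGroup X x ρ := by
  ext g
  constructor
  · rintro ⟨h, ⟨hx, hh⟩, rfl⟩
    exact ⟨by rw [toAff_apply]; exact hx, loc_of_image hx hh⟩
  · rintro ⟨hx, hg⟩
    refine ⟨g.toIsometryEquiv, ⟨by simpa using hx, ?_⟩, ?_⟩
    · ext z
      constructor
      · rintro ⟨w, ⟨hw, hwd⟩, rfl⟩
        refine ⟨(hg w hwd).mp hw, ?_⟩
        rw [mem_closedBall] at hwd ⊢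
        have h1 : dist (g w) (g x) = dist w x := g.dist_map w x
        rw [hx] at h1
        simpa [h1] using hwd
      · rintro ⟨hz, hzd⟩
        have h1 : dist (g⁻¹ z) x ≤ ρ := by
          rw [← g.dist_map, apply_inv_self', hx]; exact hzd
        refine ⟨g⁻¹ z, ⟨?_, h1⟩, apply_inv_self' g z⟩
        rw [hg _ h1, apply_inv_self']
        exact hz
    · ext z
      rw [toAff_apply]
      rfl

end H32E.DA
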