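import Pool.Agent.Lib.Helper17.DeloneTower

/-!
# H32E / DQ (copied from helper17's QuadraticBound): the regularity radius of Delone sets in `ℝ^d` is at most `9 d² R`, independently of `r`
-/

set_option autoImplicit false

open Metric Module

namespace H32E.DQ

open Pool.Agent.Helper17

/-- For all `d ≥ 2` and `R > 0`: let `X ⊆ ℝ^d` be a Delone set (points at mutual distance at least
`r` for some `r > 0`, and every point of `ℝ^d` within `R` of `X`) whose clusters of radius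
`9 d² R` are all congruent by isometries matching the centres. Then `X` is regular: its symmetry
group acts transitively on it. The bound does not involve `r`. -/
theorem quadratic :
    ∀ d : ℕ, 2 ≤ d → ∀ R : ℝ, 0 < R →
      ∀ X : Set (EuclideanSpace ℝ (Fin d)),
        (∃ r : ℝ, 0 < r ∧ ∀ x ∈ X, ∀ y ∈ X, x ≠ y → r ≤ dist x y) →
        (∀ z : EuclideanSpace ℝ (Fin d), ∃ x ∈ X, dist z x ≤ R) →
        (∀ x ∈ X, ∀ y ∈ X, ∃ g : EuclideanSpace ℝ (Fin d) ≃ᵢ EuclideanSpace ℝ (Fin d),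
            g x = y ∧
            g '' (X ∩ Metric.closedBall x (9 * (d : ℝ) ^ 2 * R)) =
              X ∩ Metric.closedBall y (9 * (d : ℝ) ^ 2 * R)) →
        ∀ x ∈ X, ∀ y ∈ X, ∃ g : EuclideanSpace ℝ (Fin d) ≃ᵢ EuclideanSpace ℝ (Fin d),
          g x = y ∧ g '' X = X := by
  intro d hd R hR X ⟨r, hr, hsep⟩ hX hiso x hx y hy
  set ρ : ℝ := 9 * (d : ℝ) ^ 2 * R with hρ
  have hd' : (2 : ℝ) ≤ d := by exact_mod_cast hd
  -- pass to affine isometries
  have hiso' : ∀ x ∈ X, ∀ y ∈ X,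
      ∃ β : EuclideanSpace ℝ (Fin d) ≃ᵃⁱ[ℝ] EuclideanSpace ℝ (Fin d),
        β x = y ∧ Loc X β x ρ := by
    intro x hx y hy
    obtain ⟨g, hgx, hg⟩ := hiso x hx y hy
    refine ⟨g.toRealAffineIsometryEquiv, by simpa using hgx, ?_⟩
    intro z hz
    rw [IsometryEquiv.coeFn_toRealAffineIsometryEquiv]
    constructor
    · intro hzX
      have h1 : g z ∈ g '' (X ∩ Metric.closedBall x ρ) := ⟨z, ⟨hzX, hz⟩, rfl⟩
      rw [hg] at h1
      exact h1.1
    · intro hgz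
      have h1 : g z ∈ X ∩ Metric.closedBall y ρ := by
        refine ⟨hgz, ?_⟩
        rw [mem_closedBall, ← hgx, g.dist_eq]
        exact hz
      rw [← hg] at h1
      obtain ⟨w, hw, hwz⟩ := h1
      have := g.injective hwz
      rw [← this]
      exact hw.1
  set ρ₀ : ℝ := 4 * (Real.sqrt (finrank ℝ (EuclideanSpace ℝ (Fin d))) * (11 / 10 * R) + R) + 3 * R
    with hρ₀
  have hfr : finrank ℝ (EuclideanSpace ℝ (Fin d)) = d := by simp
  obtain ⟨m, hm1, hm2⟩ : ∃ m : ℕ, 7 * d ^ 2 ≤ 3 * m ∧ 3 * m ≤ 7 * d ^ 2 + 2 :=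
    ⟨(7 * d ^ 2 + 2) / 3, by omega, by omega⟩
  have hsq : Real.sqrt d ≤ d / 2 + 1 / 2 := by
    rw [Real.sqrt_le_left (by positivity)]
    nlinarith [sq_nonneg ((d : ℝ) - 1)]
  have hρρ : ρ₀ + m * (21 / 10 * R) ≤ ρ := by
    rw [hρ₀, hρ, hfr]
    have hm3 : (3 : ℝ) * m ≤ 7 * (d : ℝ) ^ 2 + 2 := by exact_mod_cast hm2
    have h1 : 4 * (Real.sqrt d * (11 / 10) + 1) + 3 + m * (21 / 10) ≤ 9 * (d : ℝ) ^ 2 := by
      nlinarith
    have h2 := mul_le_mul_of_nonneg_right h1 hR.le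
    nlinarith
  have hρ₀' : ρ₀ ≤ ρ := le_trans (by
    have : (0 : ℝ) ≤ m * (21 / 10 * R) := by positivity
    linarith) hρρ
  have hnear : ∀ g ∈ clusterGroup X x ρ₀, ∀ a : ℝ, a < 1 / 2 → Near (lin g) a → g = 1 := by
    intro g hg a ha hga
    refine eq_one_of_near (t := 11 / 10 * R) hR hr hsep hX (by linarith) le_rfl ?_ ha hg.1 hg.2 hga
    intro y hy
    obtain ⟨β, hβ, hβl⟩ := hiso' x hx y hy
    exact ⟨β, hβ, hβl.mono hρ₀'⟩
  have hcard : ∀ s : Finset (EuclideanSpace ℝ (Fin d) ≃ᵃⁱ[ℝ] EuclideanSpace ℝ (Fin d)),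
      (∀ g ∈ s, g ∈ clusterGroup X x ρ₀) → s.card ≤ 5 ^ (d ^ 2) := by
    intro s hs
    have := card_finset_le (clusterGroup X x ρ₀) hnear s hs
    rwa [hfr] at this
  have hfin : (clusterGroup X x ρ₀ : Set
      (EuclideanSpace ℝ (Fin d) ≃ᵃⁱ[ℝ] EuclideanSpace ℝ (Fin d))).Finite := by
    by_contra hinf
    obtain ⟨s, hs, hsc⟩ := Set.Infinite.exists_subset_card_eq hinf (5 ^ (d ^ 2) + 1)
    have := hcard s (fun g hg => hs hg)
    omega
  have hN : Nat.card (clusterGroup X x ρ₀) ≤ 5 ^ (d ^ 2) := by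
    have h1 := hcard hfin.toFinset (fun g hg => by simpa using hg)
    have h2 : Nat.card (clusterGroup X x ρ₀) = hfin.toFinset.card :=
      Nat.card_eq_card_finite_toFinset hfin
    rw [h2]; exact h1
  have hlt : 5 ^ (d ^ 2) < 2 ^ m := by
    have h1 : (5 ^ (d ^ 2)) ^ 3 < (2 ^ m) ^ 3 := by
      calc (5 ^ (d ^ 2)) ^ 3 = (5 ^ 3) ^ (d ^ 2) := by rw [← pow_mul, ← pow_mul, mul_comm]
        _ < (2 ^ 7) ^ (d ^ 2) := Nat.pow_lt_pow_left (by norm_num) (by positivity)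
        _ = 2 ^ (7 * d ^ 2) := by rw [← pow_mul]
        _ ≤ 2 ^ (3 * m) := Nat.pow_le_pow_right (by norm_num) hm1
        _ = (2 ^ m) ^ 3 := by rw [← pow_mul, mul_comm]
    exact lt_of_pow_lt_pow_left₀ 3 (by positivity) h1
  obtain ⟨g, hgx, hg⟩ := regular_of_card_lt (s := 21 / 10 * R) (ρ₀ := ρ₀) hR (by linarith)
    (by positivity) m (5 ^ (d ^ 2)) hX hρρ hiso' hx hfin hN hlt hx hy
  refine ⟨g.toIsometryEquiv, by simpa using hgx, ?_⟩
  ext z
  constructor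
  · rintro ⟨w, hw, rfl⟩
    exact (hg w).mp hw
  · intro hz
    refine ⟨g⁻¹ z, ?_, ?_⟩
    · rw [hg, apply_inv_self']; exact hz
    · exact apply_inv_self' g z

end H32E.DQ
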