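import Mathlib

/-!
# H32E: definitions

The project: MP_e6a378_co, frozen statement S12109 (the regularity radius of Delone sets is at most
`c d log d R`).  See `PROOF.md` in this folder for the complete paper proof.

Conventions.  `ρ : G →* Module.End K V` is a representation of a group `G` on a vector space `V`.
Subgroups are always `Subgroup G`; all conditions on them are written elementwise.
-/

set_option autoImplicit false

open Module

namespace H32E

section groups

variable {G : Type*} [Group G]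

/-- The subgroup `B` is commutative. -/
def Comm (B : Subgroup G) : Prop := ∀ a ∈ B, ∀ b ∈ B, a * b = b * a

/-- `Nrm L N`: the elements of `L` normalise `N`. -/
def Nrm (L N : Subgroup G) : Prop := ∀ l ∈ L, ∀ n ∈ N, l * n * l⁻¹ ∈ N

/-- `B` is contained in a normal `p`-subgroup of `L` (for `B ≤ L` this says `B ≤ O_p(L)`). -/
def InOp (p : ℕ) (L B : Subgroup G) : Prop :=
  ∃ N : Subgroup G, B ≤ N ∧ N ≤ L ∧ Nrm L N ∧ IsPGroup p N

/-- The conjugate `g M g⁻¹`. -/
def cj (g : G) (M : Subgroup G) : Subgroup G := M.map (MulAut.conj g).toMonoidHom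

theorem mem_cj {g x : G} {M : Subgroup G} : x ∈ cj g M ↔ g⁻¹ * x * g ∈ M := by
  unfold cj
  rw [Subgroup.mem_map]
  constructor
  · rintro ⟨m, hm, rfl⟩
    simpa [mul_assoc] using hm
  · intro h
    exact ⟨g⁻¹ * x * g, h, by simp [mul_assoc]⟩

end groups

section reps

variable {K V G : Type*} [Field K] [AddCommGroup V] [Module K V] [Group G]

/-- The elements of the subgroup `D` act on the subspace `I` by scalars. -/
def Scal (ρ : G →* End K V) (D : Subgroup G) (I : Submodule K V) : Prop :=
  ∀ g ∈ D, ∃ c : K, ∀ v ∈ I, ρ g v = c • v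

/-- The subspace `U` is invariant under the elements of the subgroup `L`. -/
def Inv (ρ : G →* End K V) (L : Subgroup G) (U : Submodule K V) : Prop :=
  ∀ g ∈ L, ∀ v ∈ U, ρ g v ∈ U

/-- The representation `ρ` has no invariant subspaces except `⊥` and `⊤`. -/
def Irr (ρ : G →* End K V) : Prop :=
  ∀ U : Submodule K V, (∀ g, ∀ v ∈ U, ρ g v ∈ U) → U = ⊥ ∨ U = ⊤

theorem Scal.mono {ρ : G →* End K V} {D D' : Subgroup G} {I I' : Submodule K V}
    (h : Scal ρ D I) (hD : D' ≤ D) (hI : I' ≤ I) : Scal ρ D' I' := fun g hg => by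
  obtain ⟨c, hc⟩ := h g (hD hg)
  exact ⟨c, fun v hv => hc v (hI hv)⟩

end reps

section good

/-- The good functions on the characters of `R`: the subring generated by the evaluations
`χ ↦ χ r`, `r ∈ R`, and the constants of norm at most `1`. -/
def Good (K R : Type*) [NormedField K] [CommGroup R] : Subring ((R →* Kˣ) → K) :=
  Subring.closure ({f | ∃ r : R, f = fun χ => ((χ r : Kˣ) : K)} ∪
    {f | ∃ c : K, ‖c‖ ≤ 1 ∧ f = fun _ => c})

/-- The interpolation property: for every finite commutative `p`-group `R`, every set `Λ` of at most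
`N` characters of `R` and every `l ∈ Λ` there is a good function `F` that vanishes on
`Λ \ {l}` and has `‖F l‖ ≥ 1 / Θ`. -/
def Interp (K : Type) [NormedField K] (p N : ℕ) (Θ : ℝ) : Prop :=
  ∀ (R : Type) [CommGroup R] [Finite R], IsPGroup p R → ∀ Λ : Finset (R →* Kˣ), Λ.card ≤ N →
    ∀ l ∈ Λ, ∃ F ∈ Good K R, (∀ m ∈ Λ, m ≠ l → F m = 0) ∧ 1 ≤ Θ * ‖F l‖

theorem Interp.mono {K : Type} [NormedField K] {p N N' : ℕ} {Θ : ℝ} (h : Interp K p N Θ)
    (hN : N' ≤ N) : Interp K p N' Θ := fun R _ _ hR Λ hΛ l hl => h R hR Λ (hΛ.trans hN) l hl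

end good

end H32E
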