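import Pool.Agent.Lib.H32E.E0

/-!
# H32E / EG1: the idempotents of the characters of a finite commutative group

Chunk EG1.  `R` finite commutative group, `A` an algebra over the algebraically closed field `K` of
characteristic `0`, `ρ : R →* A`.  `idem ρ χ = |R|⁻¹ ∑_r χ(r)⁻¹ ρ(r)`.
The characters `R →* Kˣ` form a finite type (there is an instance `Finite (R →* Kˣ)`).
-/

set_option autoImplicit false

open Module

namespace H32E

variable {K R A : Type*} [Field K] [IsAlgClosed K] [CharZero K] [CommGroup R] [Fintype R]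
  [Ring A] [Algebra K A]

/-- The idempotent of the character `χ`. -/
noncomputable def idem (ρ : R →* A) (χ : R →* Kˣ) : A :=
  (Fintype.card R : K)⁻¹ • ∑ r, (((χ r)⁻¹ : Kˣ) : K) • ρ r

/-- Orthogonality.  Proof: if `χ r₀ ≠ 1` then the sum is multiplied by `χ r₀` under `r ↦ r₀ r`. -/
theorem sum_char (χ : R →* Kˣ) (hχ : χ ≠ 1) : ∑ r, ((χ r : Kˣ) : K) = 0 := by
  obtain ⟨r₀, hr₀⟩ : ∃ r₀, χ r₀ ≠ 1 := by
    by_contra hne
    push Not at hne
    exact hχ (MonoidHom.ext hne)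
  have h1 : ∑ r, ((χ (r₀ * r) : Kˣ) : K) = ∑ r, ((χ r : Kˣ) : K) :=
    Fintype.sum_equiv (Equiv.mulLeft r₀) _ _ (fun r => rfl)
  have h2 : ∑ r, ((χ (r₀ * r) : Kˣ) : K) = ((χ r₀ : Kˣ) : K) * ∑ r, ((χ r : Kˣ) : K) := by
    rw [Finset.mul_sum]
    exact Finset.sum_congr rfl (fun r _ => by rw [map_mul, Units.val_mul])
  rw [h2] at h1
  have h3 : (((χ r₀ : Kˣ) : K) - 1) * ∑ r, ((χ r : Kˣ) : K) = 0 := by
    rw [sub_mul, h1, one_mul, sub_self]
  rcases mul_eq_zero.mp h3 with h4 | h4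
  · exact absurd (Units.ext (by rw [Units.val_one]; exact sub_eq_zero.mp h4)) hr₀
  · exact h4

/-- Dual orthogonality.  Proof: there is a character `φ` with `φ r ≠ 1`
(`CommGroup.exists_apply_ne_one_of_hasEnoughRootsOfUnity R K`, the instance
`HasEnoughRootsOfUnity K (Monoid.exponent R)` needs `NeZero ((Monoid.exponent R : ℕ) : K)`, true since
`CharZero` and `Monoid.exponent R ≠ 0`); multiply all characters by `φ`. -/
theorem sum_dual [Fintype (R →* Kˣ)] (r : R) (hr : r ≠ 1) :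
    ∑ χ : R →* Kˣ, ((χ r : Kˣ) : K) = 0 := by
  have : NeZero ((Monoid.exponent R : ℕ) : K) :=
    ⟨Nat.cast_ne_zero.mpr Monoid.exponent_ne_zero_of_finite⟩
  obtain ⟨φ, hφ⟩ := CommGroup.exists_apply_ne_one_of_hasEnoughRootsOfUnity R K hr
  have h1 : ∑ χ : R →* Kˣ, (((φ * χ) r : Kˣ) : K) = ∑ χ : R →* Kˣ, ((χ r : Kˣ) : K) :=
    Fintype.sum_equiv (Equiv.mulLeft φ) _ _ (fun r => rfl)
  have h2 : ∑ χ : R →* Kˣ, (((φ * χ) r : Kˣ) : K) =
      ((φ r : Kˣ) : K) * ∑ χ : R →* Kˣ, ((χ r : Kˣ) : K) := by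
    rw [Finset.mul_sum]
    exact Finset.sum_congr rfl (fun χ _ => by rw [MonoidHom.mul_apply, Units.val_mul])
  rw [h2] at h1
  have h3 : (((φ r : Kˣ) : K) - 1) * ∑ χ : R →* Kˣ, ((χ r : Kˣ) : K) = 0 := by
    rw [sub_mul, h1, one_mul, sub_self]
  rcases mul_eq_zero.mp h3 with h4 | h4
  · exact absurd (Units.ext (by rw [Units.val_one]; exact sub_eq_zero.mp h4)) hφ
  · exact h4

/-- The number of characters is `|R|`
(`CommGroup.monoidHom_mulEquiv_of_hasEnoughRootsOfUnity R K`). -/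
theorem card_dual [Fintype (R →* Kˣ)] : Fintype.card (R →* Kˣ) = Fintype.card R := by
  have : NeZero ((Monoid.exponent R : ℕ) : K) :=
    ⟨Nat.cast_ne_zero.mpr Monoid.exponent_ne_zero_of_finite⟩
  obtain ⟨e⟩ := CommGroup.monoidHom_mulEquiv_of_hasEnoughRootsOfUnity R K
  exact Fintype.card_congr e.toEquiv

/-- Proof: substitute `r ↦ s r`. -/
theorem mul_idem (ρ : R →* A) (χ : R →* Kˣ) (s : R) :
    ρ s * idem ρ χ = ((χ s : Kˣ) : K) • idem ρ χ := by
  have h1 : ∑ r, (((χ (s * r))⁻¹ : Kˣ) : K) • ρ (s * r) = ∑ r, (((χ r)⁻¹ : Kˣ) : K) • ρ r :=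
    Fintype.sum_equiv (Equiv.mulLeft s) _ _ (fun r => rfl)
  unfold idem
  rw [mul_smul_comm, smul_comm]
  congr 1
  conv_rhs => rw [← h1]
  rw [Finset.mul_sum, Finset.smul_sum]
  apply Finset.sum_congr rfl
  intro r _
  rw [mul_smul_comm, smul_smul, map_mul, map_mul, mul_inv, Units.val_mul, ← mul_assoc,
    Units.mul_inv, one_mul]

/-- Proof: substitute `r ↦ r s` (`R` is commutative). -/
theorem idem_mul (ρ : R →* A) (χ : R →* Kˣ) (s : R) :
    idem ρ χ * ρ s = ((χ s : Kˣ) : K) • idem ρ χ := by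
  have h1 : ∑ r, (((χ (r * s))⁻¹ : Kˣ) : K) • ρ (r * s) = ∑ r, (((χ r)⁻¹ : Kˣ) : K) • ρ r :=
    Fintype.sum_equiv (Equiv.mulRight s) _ _ (fun r => rfl)
  unfold idem
  rw [smul_mul_assoc, smul_comm]
  congr 1
  conv_rhs => rw [← h1]
  rw [Finset.sum_mul, Finset.smul_sum]
  apply Finset.sum_congr rfl
  intro r _
  rw [smul_mul_assoc, smul_smul, map_mul, map_mul, mul_inv, Units.val_mul,
    mul_left_comm ((χ s : Kˣ) : K), Units.mul_inv, mul_one]

/-- Proof: by `mul_idem`, `idem ρ χ * idem ρ ψ = |R|⁻¹ ∑_r χ(r)⁻¹ ψ(r) idem ρ ψ`; use `sum_char` for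
`χ⁻¹ * ψ`. -/
theorem idem_mul_idem (ρ : R →* A) (χ ψ : R →* Kˣ) (h : χ ≠ ψ) : idem ρ χ * idem ρ ψ = 0 := by
  have h1 : ∑ r, (((χ⁻¹ * ψ) r : Kˣ) : K) = 0 := by
    apply sum_char
    intro h0
    exact h (inv_mul_eq_one.mp h0)
  conv_lhs => rw [idem]
  rw [smul_mul_assoc, Finset.sum_mul]
  have h2 : ∀ r, ((((χ r)⁻¹ : Kˣ) : K) • ρ r) * idem ρ ψ =
      (((χ⁻¹ * ψ) r : Kˣ) : K) • idem ρ ψ := by
    intro r
    rw [smul_mul_assoc, mul_idem, smul_smul, MonoidHom.mul_apply, MonoidHom.inv_apply,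
      Units.val_mul]
  rw [Finset.sum_congr rfl (fun r _ => h2 r), ← Finset.sum_smul, h1, zero_smul, smul_zero]

theorem idem_mul_self (ρ : R →* A) (χ : R →* Kˣ) : idem ρ χ * idem ρ χ = idem ρ χ := by
  conv_lhs => lhs; rw [idem]
  rw [smul_mul_assoc, Finset.sum_mul]
  have h2 : ∀ r, ((((χ r)⁻¹ : Kˣ) : K) • ρ r) * idem ρ χ = idem ρ χ := by
    intro r
    rw [smul_mul_assoc, mul_idem, smul_smul, Units.inv_mul, one_smul]
  rw [Finset.sum_congr rfl (fun r _ => h2 r), Finset.sum_const, Finset.card_univ,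
    ← Nat.cast_smul_eq_nsmul K, smul_smul, inv_mul_cancel₀, one_smul]
  exact Nat.cast_ne_zero.mpr Fintype.card_ne_zero

/-- Proof: exchange the sums; `sum_dual` and `card_dual`. -/
theorem sum_idem [Fintype (R →* Kˣ)] (ρ : R →* A) : ∑ χ : R →* Kˣ, idem ρ χ = 1 := by
  classical
  unfold idem
  rw [← Finset.smul_sum, Finset.sum_comm]
  have h1 : ∀ r, ∑ χ : R →* Kˣ, (((χ r)⁻¹ : Kˣ) : K) • ρ r =
      if r = 1 then (Fintype.card R : K) • (1 : A) else 0 := by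
    intro r
    rw [← Finset.sum_smul]
    split_ifs with hr
    · subst hr
      simp [card_dual]
    · have h2 : ∑ χ : R →* Kˣ, (((χ r)⁻¹ : Kˣ) : K) = 0 := by
        have := sum_dual (K := K) r⁻¹ (inv_ne_one.mpr hr)
        rw [← this]
        exact Finset.sum_congr rfl (fun χ _ => by rw [map_inv])
      rw [h2, zero_smul]
  rw [Finset.sum_congr rfl (fun r _ => h1 r), Finset.sum_ite_eq' Finset.univ (1 : R),
    if_pos (Finset.mem_univ _), smul_smul, inv_mul_cancel₀, one_smul]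
  exact Nat.cast_ne_zero.mpr Fintype.card_ne_zero

/-- Proof: `ρ s = ρ s * ∑_χ idem ρ χ`. -/
theorem eq_sum_idem [Fintype (R →* Kˣ)] (ρ : R →* A) (s : R) :
    ρ s = ∑ χ : R →* Kˣ, ((χ s : Kˣ) : K) • idem ρ χ := by
  conv_lhs => rw [← mul_one (ρ s), ← sum_idem (K := K) ρ, Finset.mul_sum]
  exact Finset.sum_congr rfl (fun χ _ => mul_idem ρ χ s)

/-- An element that commutes with all `ρ r` commutes with `idem ρ χ`. -/
theorem idem_commute (ρ : R →* A) (χ : R →* Kˣ) (a : A) (h : ∀ r, a * ρ r = ρ r * a) :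
    a * idem ρ χ = idem ρ χ * a := by
  unfold idem
  rw [mul_smul_comm, smul_mul_assoc, Finset.mul_sum, Finset.sum_mul]
  congr 1
  apply Finset.sum_congr rfl
  intro r _
  rw [mul_smul_comm, smul_mul_assoc, h]

/-- The elements `a` with `ρ r * a = χ r • a` for all `r` are those with `idem ρ χ * a = a`. -/
theorem idem_mul_eq_iff (ρ : R →* A) (χ : R →* Kˣ) (a : A) :
    idem ρ χ * a = a ↔ ∀ r, ρ r * a = ((χ r : Kˣ) : K) • a := by
  constructor
  · intro h r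
    rw [← h, ← mul_assoc, mul_idem, smul_mul_assoc]
  · intro h
    unfold idem
    rw [smul_mul_assoc, Finset.sum_mul]
    have h2 : ∀ r, ((((χ r)⁻¹ : Kˣ) : K) • ρ r) * a = a := by
      intro r
      rw [smul_mul_assoc, h, smul_smul, Units.inv_mul, one_smul]
    rw [Finset.sum_congr rfl (fun r _ => h2 r), Finset.sum_const, Finset.card_univ,
      ← Nat.cast_smul_eq_nsmul K, smul_smul, inv_mul_cancel₀, one_smul]
    exact Nat.cast_ne_zero.mpr Fintype.card_ne_zero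

end H32E
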