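import Pool.Agent.Lib.H32E.EG1

/-!
# H32E / EG2: the conjugation representation and its idempotents; the operators of functions

Chunk EG2.  `ρ : G →* End K V`, `ι : R →* G` with `R` finite commutative.
`e χ = idem (ρ.comp ι) χ : End K V` and `E χ = idem ((Ad ρ).comp ι) χ : End K (End K V)`.
-/

set_option autoImplicit false

open Module

namespace H32E

section defs

variable {K V G : Type*} [Field K] [AddCommGroup V] [Module K V] [Group G]

/-- The conjugation representation of `G` on `End K V`: `Ad ρ g w = ρ g * w * ρ g⁻¹`. -/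
noncomputable def Ad (ρ : G →* End K V) : G →* End K (End K V) where
  toFun g := (LinearMap.mulLeft K (ρ g)).comp (LinearMap.mulRight K (ρ g⁻¹))
  map_one' := by
    ext w v
    simp
  map_mul' g h := by
    ext w v
    simp [mul_assoc]

theorem Ad_apply (ρ : G →* End K V) (g : G) (w : End K V) : Ad ρ g w = ρ g * w * ρ g⁻¹ := by
  simp [Ad, mul_assoc]

end defs

variable {K V G R : Type*} [Field K] [IsAlgClosed K] [CharZero K] [AddCommGroup V] [Module K V]
  [Group G] [CommGroup R] [Fintype R]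

theorem eg2_aux {A : Type*} [CommGroup A] (a b c : A) : a⁻¹ * b * c⁻¹ = 1 ↔ b = a * c := by
  rw [mul_inv_eq_one, inv_mul_eq_iff_eq_mul]

/-- `E χ w = ∑_μ e(χ μ) * w * e(μ)`.

Proof.  `E χ w = |R|⁻¹ ∑_r χ(r)⁻¹ ρ(ι r) w ρ(ι r⁻¹)`.  Insert `ρ(ι r) = ∑_λ λ(r) e(λ)` and
`ρ(ι r⁻¹) = ∑_μ μ(r)⁻¹ e(μ)` (`eq_sum_idem`), exchange the sums; the coefficient of
`e(λ) w e(μ)` is `|R|⁻¹ ∑_r (χ⁻¹ λ μ⁻¹)(r)`, i.e. `1` if `λ = χ μ` and `0` otherwise (`sum_char`). -/
theorem idem_Ad [Fintype (R →* Kˣ)] (ρ : G →* End K V) (ι : R →* G) (χ : R →* Kˣ) (w : End K V) :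
    idem ((Ad ρ).comp ι) χ w =
      ∑ μ : R →* Kˣ, idem (ρ.comp ι) (χ * μ) * w * idem (ρ.comp ι) μ := by
  classical
  have hcard : (Fintype.card R : K) ≠ 0 := Nat.cast_ne_zero.mpr Fintype.card_ne_zero
  have h1 : idem ((Ad ρ).comp ι) χ w = (Fintype.card R : K)⁻¹ •
      ∑ r, (((χ r)⁻¹ : Kˣ) : K) • (ρ (ι r) * w * ρ (ι r⁻¹)) := by
    unfold idem
    rw [LinearMap.smul_apply, LinearMap.sum_apply]
    congr 1
    apply Finset.sum_congr rfl
    intro r _
    rw [LinearMap.smul_apply, MonoidHom.comp_apply, Ad_apply, map_inv ι]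
  have h2 : ∀ r, ρ (ι r) = ∑ l : R →* Kˣ, ((l r : Kˣ) : K) • idem (ρ.comp ι) l := fun r =>
    eq_sum_idem (ρ.comp ι) r
  have h3 : ∀ r, (((χ r)⁻¹ : Kˣ) : K) • (ρ (ι r) * w * ρ (ι r⁻¹)) =
      ∑ m : R →* Kˣ, ∑ l : R →* Kˣ, (((χ⁻¹ * l * m⁻¹) r : Kˣ) : K) •
        (idem (ρ.comp ι) l * w * idem (ρ.comp ι) m) := by
    intro r
    rw [h2 r, h2 r⁻¹, Finset.mul_sum, Finset.smul_sum]
    apply Finset.sum_congr rfl
    intro m _
    rw [Finset.sum_mul, Finset.sum_mul, Finset.smul_sum]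
    apply Finset.sum_congr rfl
    intro l _
    rw [mul_smul_comm, smul_mul_assoc, smul_mul_assoc, smul_smul, smul_smul,
      MonoidHom.mul_apply, MonoidHom.mul_apply, MonoidHom.inv_apply, MonoidHom.inv_apply,
      Units.val_mul, Units.val_mul, map_inv]
    congr 1
    ring
  rw [h1, Finset.sum_congr rfl (fun r _ => h3 r), Finset.sum_comm, Finset.smul_sum]
  apply Finset.sum_congr rfl
  intro m _
  rw [Finset.sum_comm]
  have h4 : ∀ l : R →* Kˣ, ∑ r, (((χ⁻¹ * l * m⁻¹) r : Kˣ) : K) •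
        (idem (ρ.comp ι) l * w * idem (ρ.comp ι) m) =
      if l = χ * m then (Fintype.card R : K) • (idem (ρ.comp ι) l * w * idem (ρ.comp ι) m)
        else 0 := by
    intro l
    rw [← Finset.sum_smul]
    split_ifs with hl
    · have h5 : χ⁻¹ * l * m⁻¹ = 1 := (eg2_aux χ l m).mpr hl
      rw [h5]
      simp
    · rw [sum_char, zero_smul]
      intro h5
      exact hl ((eg2_aux χ l m).mp h5)
  rw [Finset.sum_congr rfl (fun l _ => h4 l), Finset.sum_ite_eq' Finset.univ (χ * m),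
    if_pos (Finset.mem_univ _), smul_smul, inv_mul_cancel₀ hcard, one_smul]

/-- The operator of a function on the characters. -/
noncomputable def hat [Fintype (R →* Kˣ)] {A : Type*} [Ring A] [Algebra K A] (ρ : R →* A)
    (F : (R →* Kˣ) → K) : A :=
  ∑ χ : R →* Kˣ, F χ • idem ρ χ

theorem hat_mul [Fintype (R →* Kˣ)] {A : Type*} [Ring A] [Algebra K A] (ρ : R →* A)
    (F F' : (R →* Kˣ) → K) : hat ρ (F * F') = hat ρ F * hat ρ F' := by
  classical
  unfold hat
  rw [Finset.sum_mul]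
  apply Finset.sum_congr rfl
  intro χ _
  rw [Finset.mul_sum, Finset.sum_eq_single χ]
  · rw [smul_mul_assoc, mul_smul_comm, idem_mul_self, smul_smul, Pi.mul_apply]
  · intro ψ _ hψ
    rw [smul_mul_assoc, mul_smul_comm, idem_mul_idem ρ χ ψ (Ne.symm hψ), smul_zero, smul_zero]
  · intro h
    exact absurd (Finset.mem_univ _) h

theorem hat_add [Fintype (R →* Kˣ)] {A : Type*} [Ring A] [Algebra K A] (ρ : R →* A)
    (F F' : (R →* Kˣ) → K) : hat ρ (F + F') = hat ρ F + hat ρ F' := by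
  unfold hat
  rw [← Finset.sum_add_distrib]
  exact Finset.sum_congr rfl (fun χ _ => by rw [Pi.add_apply, add_smul])

theorem hat_neg [Fintype (R →* Kˣ)] {A : Type*} [Ring A] [Algebra K A] (ρ : R →* A)
    (F : (R →* Kˣ) → K) : hat ρ (-F) = -hat ρ F := by
  unfold hat
  rw [← Finset.sum_neg_distrib]
  exact Finset.sum_congr rfl (fun χ _ => by rw [Pi.neg_apply, neg_smul])

theorem hat_const [Fintype (R →* Kˣ)] {A : Type*} [Ring A] [Algebra K A] (ρ : R →* A) (c : K) :
    hat ρ (fun _ => c) = c • 1 := by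
  unfold hat
  rw [← Finset.smul_sum, sum_idem]

/-- (`eq_sum_idem`) -/
theorem hat_eval [Fintype (R →* Kˣ)] {A : Type*} [Ring A] [Algebra K A] (ρ : R →* A) (r : R) :
    hat ρ (fun χ => ((χ r : Kˣ) : K)) = ρ r := (eq_sum_idem ρ r).symm

/-- The number of characters `χ` with `idem ρ χ ≠ 0` is at most `dim V` for `ρ : R →* End K V`.

Proof.  For these `χ` choose `v_χ ≠ 0` in the range of `idem ρ χ`; then `idem ρ χ v_χ = v_χ` and
`idem ρ ψ v_χ = 0` for `ψ ≠ χ` (`idem_mul_self`, `idem_mul_idem`), hence the vectors are linearly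
independent (apply `idem ρ ψ` to a relation); `LinearIndependent.fintype_card_le_finrank` or
`finset_card_le_finrank`. -/
theorem card_weights_le [Fintype (R →* Kˣ)] [FiniteDimensional K V] (ρ : R →* End K V)
    (Λ : Finset (R →* Kˣ)) (hΛ : ∀ χ ∈ Λ, idem ρ χ ≠ 0) : Λ.card ≤ finrank K V := by
  classical
  have h1 : ∀ χ : Λ, ∃ v : V, idem ρ χ.1 v = v ∧ v ≠ 0 := by
    intro χ
    obtain ⟨u, hu⟩ : ∃ u, idem ρ χ.1 u ≠ 0 := by
      by_contra hne
      push Not at hne
      exact hΛ χ.1 χ.2 (LinearMap.ext (fun u => by rw [hne u, LinearMap.zero_apply]))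
    refine ⟨idem ρ χ.1 u, ?_, hu⟩
    rw [← Module.End.mul_apply, idem_mul_self]
  choose v hv hv0 using h1
  have h2 : LinearIndependent K v := by
    rw [Fintype.linearIndependent_iff]
    intro g hg χ
    have h3 : idem ρ χ.1 (∑ i, g i • v i) = 0 := by rw [hg, map_zero]
    rw [map_sum, Finset.sum_eq_single χ] at h3
    · rw [map_smul, hv] at h3
      exact (smul_eq_zero.mp h3).resolve_right (hv0 χ)
    · intro ψ _ hψ
      rw [map_smul, ← hv ψ, ← Module.End.mul_apply,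
        idem_mul_idem ρ χ.1 ψ.1 (fun h => hψ (Subtype.ext h).symm), LinearMap.zero_apply,
        smul_zero]
    · intro h
      exact absurd (Finset.mem_univ _) h
  have h4 := h2.fintype_card_le_finrank
  rwa [Fintype.card_coe] at h4

end H32E
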