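import Mathlib

set_option autoImplicit false

/-!
# H32E / PS2: the sum of `1 / (p log p)` over primes

Chunk PS2 (elementary, Chebyshev).
-/

namespace H32E

theorem card_primes_dyadic (j : ℕ) :
    j * ((Finset.Ioc (2 ^ j) (2 ^ (j + 1))).filter Nat.Prime).card ≤ 2 ^ (j + 2) := by
  set P := (Finset.Ioc (2 ^ j) (2 ^ (j + 1))).filter Nat.Prime with hP
  have h1 : (2 ^ j) ^ P.card ≤ ∏ p ∈ P, p := by
    rw [← Finset.prod_const]
    refine Finset.prod_le_prod (fun _ _ => Nat.zero_le _) fun p hp => ?_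
    rw [hP, Finset.mem_filter, Finset.mem_Ioc] at hp
    exact hp.1.1.le
  have h2 : ∏ p ∈ P, p ≤ primorial (2 ^ (j + 1)) := by
    unfold primorial
    refine Finset.prod_le_prod_of_subset_of_one_le' ?_ ?_
    · intro p hp
      rw [hP, Finset.mem_filter, Finset.mem_Ioc] at hp
      rw [Finset.mem_filter, Finset.mem_range]
      exact ⟨by omega, hp.2⟩
    · intro p hp _
      rw [Finset.mem_filter] at hp
      exact hp.2.one_lt.le
  have h3 := primorial_le_four_pow (2 ^ (j + 1))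
  have h4 : 2 ^ (j * P.card) ≤ 2 ^ (2 ^ (j + 2)) := by
    calc 2 ^ (j * P.card) = (2 ^ j) ^ P.card := pow_mul _ _ _
      _ ≤ 4 ^ (2 ^ (j + 1)) := h1.trans (h2.trans h3)
      _ = 2 ^ (2 ^ (j + 2)) := by
          rw [show (4 : ℕ) = 2 ^ 2 by norm_num, ← pow_mul]
          congr 1
          ring
  exact (Nat.pow_le_pow_iff_right (by norm_num)).1 h4

theorem block_le {j : ℕ} (hj : 1 ≤ j) :
    ∑ p ∈ (Finset.Ioc (2 ^ j) (2 ^ (j + 1))).filter Nat.Prime,
      1 / ((p : ℝ) * Real.log p) ≤ 4 / ((j : ℝ) ^ 2 * Real.log 2) := by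
  set P := (Finset.Ioc (2 ^ j) (2 ^ (j + 1))).filter Nat.Prime with hP
  have hl2 : 0 < Real.log 2 := Real.log_pos (by norm_num)
  have hj' : (0 : ℝ) < j := by exact_mod_cast hj
  have h1 : ∀ p ∈ P, 1 / ((p : ℝ) * Real.log p) ≤ 1 / ((2 : ℝ) ^ j * (j * Real.log 2)) := by
    intro p hp
    rw [hP, Finset.mem_filter, Finset.mem_Ioc] at hp
    have h2 : ((2 : ℝ) ^ j) ≤ p := by exact_mod_cast hp.1.1.le
    have h3 : (j : ℝ) * Real.log 2 ≤ Real.log p := by
      rw [← Real.log_pow]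
      exact Real.log_le_log (by positivity) h2
    refine one_div_le_one_div_of_le (by positivity) ?_
    exact mul_le_mul h2 h3 (by positivity) (by positivity)
  have h4 : (j : ℝ) * P.card ≤ 4 * 2 ^ j := by
    have := card_primes_dyadic j
    rw [← hP] at this
    have h5 : ((j * P.card : ℕ) : ℝ) ≤ ((2 ^ (j + 2) : ℕ) : ℝ) := by exact_mod_cast this
    push_cast at h5
    calc (j : ℝ) * P.card ≤ 2 ^ (j + 2) := h5
      _ = 4 * 2 ^ j := by ring
  calc ∑ p ∈ P, 1 / ((p : ℝ) * Real.log p) ≤ ∑ _p ∈ P, 1 / ((2 : ℝ) ^ j * (j * Real.log 2)) :=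
        Finset.sum_le_sum h1
    _ = P.card * (1 / ((2 : ℝ) ^ j * (j * Real.log 2))) := by
        rw [Finset.sum_const, nsmul_eq_mul]
    _ ≤ 4 / ((j : ℝ) ^ 2 * Real.log 2) := by
        rw [mul_one_div, div_le_div_iff₀ (by positivity) (by positivity)]
        calc (P.card : ℝ) * ((j : ℝ) ^ 2 * Real.log 2) =
              ((j : ℝ) * P.card) * (j * Real.log 2) := by ring
          _ ≤ (4 * 2 ^ j) * (j * Real.log 2) := by gcongr
          _ = 4 * (2 ^ j * (j * Real.log 2)) := by ring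

theorem sum_primes_le {y z : ℕ} (hy : 2 ≤ y) :
    ∑ p ∈ (Finset.Ioc y z).filter Nat.Prime, 1 / ((p : ℝ) * Real.log p) ≤ 16 / Real.log y := by
  have hl2 : 0 < Real.log 2 := Real.log_pos (by norm_num)
  set J := Nat.log 2 y with hJ
  have hJ1 : 1 ≤ J := Nat.log_pos (by norm_num) hy
  have hJy : 2 ^ J ≤ y := Nat.pow_log_le_self 2 (by omega)
  have hyJ : y < 2 ^ (J + 1) := Nat.lt_pow_succ_log_self (by norm_num) y
  have hJr : (0 : ℝ) < J := by exact_mod_cast hJ1
  have hnn : ∀ p : ℕ, 0 ≤ 1 / ((p : ℝ) * Real.log p) := fun p => by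
    have : 0 ≤ Real.log p := Real.log_natCast_nonneg p
    positivity
  -- fibres
  have hmaps : ∀ p ∈ (Finset.Ioc y z).filter Nat.Prime, Nat.log 2 (p - 1) ∈ Finset.Ico J z := by
    intro p hp
    rw [Finset.mem_filter, Finset.mem_Ioc] at hp
    rw [Finset.mem_Ico]
    constructor
    · rw [hJ]
      exact Nat.log_mono_right (by omega)
    · have h1 : Nat.log 2 (p - 1) ≤ p - 1 := Nat.log_le_self 2 (p - 1)
      omega
  rw [← Finset.sum_fiberwise_of_maps_to hmaps]
  have h1 : ∀ j ∈ Finset.Ico J z,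
      ∑ p ∈ ((Finset.Ioc y z).filter Nat.Prime).filter (fun p => Nat.log 2 (p - 1) = j),
        1 / ((p : ℝ) * Real.log p) ≤ (4 / Real.log 2) * ((j : ℝ) ^ 2)⁻¹ := by
    intro j hj
    rw [Finset.mem_Ico] at hj
    have hj1 : 1 ≤ j := hJ1.trans hj.1
    have hsub : ((Finset.Ioc y z).filter Nat.Prime).filter (fun p => Nat.log 2 (p - 1) = j) ⊆
        (Finset.Ioc (2 ^ j) (2 ^ (j + 1))).filter Nat.Prime := by
      intro p hp
      rw [Finset.mem_filter, Finset.mem_filter, Finset.mem_Ioc] at hp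
      rw [Finset.mem_filter, Finset.mem_Ioc]
      obtain ⟨⟨⟨h2, h3⟩, h4⟩, h5⟩ := hp
      have h6 : 2 ^ j ≤ p - 1 := by
        rw [← h5]
        exact Nat.pow_log_le_self 2 (by omega)
      have h7 : p - 1 < 2 ^ (j + 1) := by
        rw [← h5]
        exact Nat.lt_pow_succ_log_self (by norm_num) _
      exact ⟨⟨by omega, by omega⟩, h4⟩
    calc _ ≤ ∑ p ∈ (Finset.Ioc (2 ^ j) (2 ^ (j + 1))).filter Nat.Prime,
          1 / ((p : ℝ) * Real.log p) :=
          Finset.sum_le_sum_of_subset_of_nonneg hsub fun p _ _ => hnn p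
      _ ≤ 4 / ((j : ℝ) ^ 2 * Real.log 2) := block_le hj1
      _ = _ := by
          have : (0 : ℝ) < j := by exact_mod_cast hj1
          field_simp
  refine (Finset.sum_le_sum h1).trans ?_
  rw [← Finset.mul_sum]
  have h2 : ∑ j ∈ Finset.Ico J z, ((j : ℝ) ^ 2)⁻¹ ≤ 2 / J := by
    have h3 := sum_Ioo_inv_sq_le (α := ℝ) (J - 1) z
    have h4 : Finset.Ioo (J - 1) z = Finset.Ico J z := by
      ext j
      rw [Finset.mem_Ioo, Finset.mem_Ico]
      omega
    rw [h4] at h3
    have h5 : (((J - 1 : ℕ) : ℝ) + 1) = J := by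
      rw [Nat.cast_sub hJ1]
      push_cast
      ring
    rwa [h5] at h3
  have hly : 0 < Real.log y := Real.log_pos (by exact_mod_cast (by omega : 1 < y))
  have h6 : Real.log y ≤ 2 * J * Real.log 2 := by
    calc Real.log y ≤ Real.log ((2 : ℝ) ^ (J + 1)) :=
          Real.log_le_log (by positivity) (by exact_mod_cast hyJ.le)
      _ = ((J : ℝ) + 1) * Real.log 2 := by
          rw [Real.log_pow]
          push_cast
          ring
      _ ≤ 2 * J * Real.log 2 := by
          have : (1 : ℝ) ≤ J := by exact_mod_cast hJ1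
          nlinarith
  calc (4 / Real.log 2) * ∑ j ∈ Finset.Ico J z, ((j : ℝ) ^ 2)⁻¹ ≤ (4 / Real.log 2) * (2 / J) := by
        gcongr
    _ = 8 / (J * Real.log 2) := by
        field_simp
        norm_num
    _ ≤ 16 / Real.log y := by
        rw [div_le_div_iff₀ (by positivity) hly]
        nlinarith

end H32E
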