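import Pool.Agent.Lib.H32E.PS1
import Pool.Agent.Lib.H32E.PS2

/-!
# H32E / PS3: the final numerical estimate

Chunk PS3 (real analysis).
-/

set_option autoImplicit false

namespace H32E

theorem ps3_log {d : ℕ} (hd : 16 ≤ d) : 2.7725 ≤ Real.log d := by
  have h1 : (16 : ℝ) ≤ d := by exact_mod_cast hd
  have h2 : Real.log 16 ≤ Real.log d := Real.log_le_log (by norm_num) h1
  have h3 : Real.log 16 = 4 * Real.log 2 := by
    rw [show (16 : ℝ) = 2 ^ 4 by norm_num, Real.log_pow]
    norm_num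
  have h4 := Real.log_two_gt_d9
  linarith

theorem ps3_loglog {d : ℕ} (hd : 16 ≤ d) : 1 ≤ Real.log (Real.log d) := by
  have h1 := ps3_log hd
  rw [Real.le_log_iff_exp_le (by linarith)]
  have h2 := Real.exp_one_lt_d9
  linarith

/-- **One prime**, `p > log d`, `d ≥ 16`:
`16 d / p (4 kap p d + log_p d) ≤ 336 d log d log log d / (p log p) + 192 d / p`.

Proof.  `L = log_p d = log d / log p`.  `4 kap p d + L = L (13 + 4 log (L + 1)) + 12` exactly:
`4 (L (1 + log (L + 1)) + 2 (L + 1) + 1) + L = 13 L + 4 L log (L + 1) + 12`.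
`L + 1 ≤ log d / log 2 + 1 ≤ e log d` since `p ≥ 2` and `log d ≥ e^1 > 2.7` (`log 16 = 2.77`;
`log d / log 2 ≤ 1.4427 log d`, so `1 ≤ (e - 1.4427) log d` is enough); so
`log (L + 1) ≤ 1 + log log d`, and `13 + 4 log (L + 1) ≤ 17 + 4 log log d ≤ 21 log log d` because
`log log d ≥ 1` (`log d ≥ e`, i.e. `d ≥ e ^ e ≈ 15.15`).
Hence `16 d / p * L * (13 + 4 log (L + 1)) ≤ 336 d log d log log d / (p log p)`. -/
theorem hb_le {p d : ℕ} (hp : 2 ≤ p) (hd : 16 ≤ d) :
    16 * d / p * (4 * kap p d + Real.logb p d) ≤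
      336 * d * Real.log d * Real.log (Real.log d) * (1 / (p * Real.log p)) + 192 * d / p := by
  have hd1 := ps3_log hd
  have hd2 := ps3_loglog hd
  have hdpos : (0 : ℝ) < d := by
    have : (16 : ℝ) ≤ d := by exact_mod_cast hd
    linarith
  have hp2 : (2 : ℝ) ≤ p := by exact_mod_cast hp
  have hl2 := Real.log_two_gt_d9
  have hlp : Real.log 2 ≤ Real.log p := Real.log_le_log (by norm_num) hp2
  have hlp0 : 0 < Real.log p := by linarith
  set L : ℝ := Real.logb p d with hL
  have hLe : L = Real.log d / Real.log p := rfl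
  have hL0 : 0 ≤ L := by
    rw [hLe]
    exact div_nonneg (by linarith) hlp0.le
  have hL1 : L ≤ Real.log d * 1.4430 := by
    rw [hLe, div_le_iff₀ hlp0]
    have h1 : 1 ≤ 1.4430 * Real.log p := by linarith
    have h2 := mul_le_mul_of_nonneg_left h1 (by linarith : 0 ≤ Real.log d)
    linarith
  have hexp : (2.718 : ℝ) < Real.exp 1 := by
    have := Real.exp_one_gt_d9
    linarith
  have hlog : Real.log (L + 1) ≤ 1 + Real.log (Real.log d) := by
    have h1 : L + 1 ≤ Real.exp 1 * Real.log d := by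
      have h2 := mul_le_mul_of_nonneg_right hexp.le (by linarith : 0 ≤ Real.log d)
      linarith
    have h2 := Real.log_le_log (by linarith) h1
    rw [Real.log_mul (Real.exp_pos 1).ne' (by linarith), Real.log_exp] at h2
    exact h2
  have hk : 4 * kap p d + L = L * (13 + 4 * Real.log (L + 1)) + 12 := by
    unfold kap
    rw [← hL]
    ring
  rw [hk]
  have h3 : L * (13 + 4 * Real.log (L + 1)) ≤ L * (21 * Real.log (Real.log d)) :=
    mul_le_mul_of_nonneg_left (by linarith) hL0
  have hp0 : (0 : ℝ) < p := by linarith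
  calc 16 * (d : ℝ) / p * (L * (13 + 4 * Real.log (L + 1)) + 12)
      ≤ 16 * (d : ℝ) / p * (L * (21 * Real.log (Real.log d)) + 12) :=
        mul_le_mul_of_nonneg_left (by linarith) (by positivity)
    _ = _ := by
        rw [hLe]
        field_simp
        ring

/-- **The total.**

Proof.  With `y = ⌈log d⌉₊ ≥ 2`: the first term is `≤ 3 d (log d + 1)`; by `hb_le` and
`sum_primes_le` the second is at most
`336 d log d log log d * 16 / log y + 192 d ∑_{1 ≤ m ≤ 8 d} 1 / m ≤
 5376 d log d + 192 d (1 + log (8 d))` (`log y ≥ log log d > 0`; `harmonic_le_one_add_log`), and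
`log d ≥ 2.7`, `log (8 d) ≤ log d + 2.08 ≤ 1.8 log d`.  The total is at most
`(3 * 1.4 + 5376 + 192 * 2.2 + 1.4 + 1.2) d log d ≤ 6000 d log d`. -/
theorem total_le {d : ℕ} (hd : 16 ≤ d) :
    3 * (d : ℝ) * (⌈Real.log d⌉₊ : ℕ) +
      ∑ p ∈ (Finset.Ioc ⌈Real.log d⌉₊ (8 * d)).filter Nat.Prime,
        16 * (d : ℝ) / p * (4 * kap p d + Real.logb p d) + d * (1 + Real.log d) + 3 * d ≤
      6000 * (d * Real.log d) := by
  have hd1 := ps3_log hd
  have hd2 := ps3_loglog hd
  have hd16 : (16 : ℝ) ≤ d := by exact_mod_cast hd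
  have hdpos : (0 : ℝ) < d := by linarith
  set y : ℕ := ⌈Real.log d⌉₊ with hy
  have hyge : Real.log d ≤ y := Nat.le_ceil _
  have hyle : (y : ℝ) ≤ Real.log d + 1 := (Nat.ceil_lt_add_one (by linarith)).le
  have hy2 : 2 ≤ y := by
    have h1 : (2 : ℝ) ≤ y := by linarith
    exact_mod_cast h1
  have hlogy : Real.log (Real.log d) ≤ Real.log y := Real.log_le_log (by linarith) hyge
  have hsum1 : ∑ p ∈ (Finset.Ioc y (8 * d)).filter Nat.Prime,
      16 * (d : ℝ) / p * (4 * kap p d + Real.logb p d) ≤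
      ∑ p ∈ (Finset.Ioc y (8 * d)).filter Nat.Prime,
        (336 * d * Real.log d * Real.log (Real.log d) * (1 / (p * Real.log p)) + 192 * d / p) := by
    refine Finset.sum_le_sum fun p hp => ?_
    exact hb_le (Finset.mem_filter.1 hp).2.two_le hd
  rw [Finset.sum_add_distrib, ← Finset.mul_sum] at hsum1
  have hsum2 := sum_primes_le (z := 8 * d) hy2
  have hA : 336 * d * Real.log d * Real.log (Real.log d) *
      ∑ p ∈ (Finset.Ioc y (8 * d)).filter Nat.Prime, (1 / ((p : ℝ) * Real.log p)) ≤ 5376 * (d * Real.log d) := by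
    have hly0 : 0 < Real.log y := by linarith
    calc _ ≤ 336 * d * Real.log d * Real.log (Real.log d) * (16 / Real.log y) :=
          mul_le_mul_of_nonneg_left hsum2 (by positivity)
      _ = 5376 * (d * Real.log d) * (Real.log (Real.log d) / Real.log y) := by
          field_simp
          ring
      _ ≤ 5376 * (d * Real.log d) * 1 := by
          refine mul_le_mul_of_nonneg_left ?_ (by positivity)
          rw [div_le_one hly0]
          exact hlogy
      _ = _ := mul_one _
  have hB : ∑ p ∈ (Finset.Ioc y (8 * d)).filter Nat.Prime, 192 * (d : ℝ) / p ≤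
      192 * d * (1 + Real.log (8 * d)) := by
    have h1 : ∑ p ∈ (Finset.Ioc y (8 * d)).filter Nat.Prime, 192 * (d : ℝ) / p ≤
        ∑ p ∈ Finset.Icc 1 (8 * d), 192 * (d : ℝ) / p := by
      refine Finset.sum_le_sum_of_subset_of_nonneg ?_ fun p _ _ => by positivity
      intro p hp
      have h2 := Finset.mem_Ioc.1 (Finset.mem_filter.1 hp).1
      rw [Finset.mem_Icc]
      omega
    refine h1.trans ?_
    have h2 := harmonic_le_one_add_log (8 * d)
    rw [harmonic_eq_sum_Icc] at h2
    push_cast at h2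
    have h3 : ∑ p ∈ Finset.Icc 1 (8 * d), 192 * (d : ℝ) / p =
        192 * d * ∑ p ∈ Finset.Icc 1 (8 * d), ((p : ℝ))⁻¹ := by
      rw [Finset.mul_sum]
      exact Finset.sum_congr rfl fun p _ => div_eq_mul_inv _ _
    rw [h3]
    exact mul_le_mul_of_nonneg_left h2 (by positivity)
  have hl8 : Real.log (8 * d) = 3 * Real.log 2 + Real.log d := by
    rw [Real.log_mul (by norm_num) hdpos.ne', show (8 : ℝ) = 2 ^ 3 by norm_num, Real.log_pow]
    norm_num
  rw [hl8] at hB
  have hl2 := Real.log_two_lt_d9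
  have hC : 3 * (d : ℝ) * y ≤ 3 * d * (Real.log d + 1) := mul_le_mul_of_nonneg_left hyle (by positivity)
  have hD : 192 * (d : ℝ) * (1 + (3 * Real.log 2 + Real.log d)) ≤ 192 * d * (1 + (3 * 0.6932 + Real.log d)) :=
    mul_le_mul_of_nonneg_left (by linarith) (by positivity)
  have hE : 2.7725 * (d : ℝ) ≤ Real.log d * d := mul_le_mul_of_nonneg_right hd1 hdpos.le
  nlinarith

end H32E
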