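import Pool.Agent.Lib.H32E.CH4
import Pool.Agent.Lib.H32E.PS3
import Pool.Agent.Lib.H32E.DR
import Pool.Agent.Lib.H32E.DQ

/-!
# H32E / FN1: Delone sets

Chunk FN1 (assembly with helper17's library).
-/

set_option autoImplicit false

open Metric Module ArithmeticFunction

namespace H32E

open Pool.Agent.Helper17 (Loc)

/-- As `Pool.Agent.Helper17.regular_of_card_lt`, with the number of prime factors of the order of
the cluster group. -/
theorem regular_of_omega {E : Type*} [NormedAddCommGroup E] [InnerProductSpace ℝ E]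
    [FiniteDimensional ℝ E] {X : Set E} {R s ρ₀ ρ : ℝ} (hR : 0 < R)
    (hs : 2 * R < s) (hρ₀ : 0 ≤ ρ₀) (m : ℕ)
    (hX : ∀ z : E, ∃ x ∈ X, dist z x ≤ R)
    (hρ : ρ₀ + m * s ≤ ρ)
    (hiso : ∀ x ∈ X, ∀ y ∈ X, ∃ β : E ≃ᵃⁱ[ℝ] E, β x = y ∧ Loc X β x ρ)
    {x₀ : E} (hx₀ : x₀ ∈ X) (hfin : Finite (Pool.Agent.Helper17.clusterGroup X x₀ ρ₀))
    (hm : cardFactors (Nat.card (Pool.Agent.Helper17.clusterGroup X x₀ ρ₀)) < m)
    {x y : E} (hx : x ∈ X) (hy : y ∈ X) :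
    ∃ g : E ≃ᵃⁱ[ℝ] E, g x = y ∧ ∀ z, z ∈ X ↔ g z ∈ X := by
  have hs0 : 0 < s := by linarith
  obtain ⟨i, him, hi⟩ := exists_stable
    (fun i : ℕ => Pool.Agent.Helper17.clusterGroup X x₀ (ρ₀ + i * s))
    (fun i => Pool.Agent.Helper17.clusterGroup_anti (by push_cast; linarith)) m
    (by simpa using hfin) (by simpa using hm)
  have h1 : ρ₀ + i * s + s = ρ₀ + ((i + 1 : ℕ) : ℝ) * s := by push_cast; ring
  have h2 : ρ₀ + i * s + s ≤ ρ := by
    rw [h1]
    have : (((i + 1 : ℕ) : ℝ)) * s ≤ m * s := by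
      apply mul_le_mul_of_nonneg_right _ hs0.le
      exact_mod_cast him
    linarith
  refine Pool.Agent.Helper17.local_criterion hR hs (ρ := ρ₀ + i * s) (by positivity) hX ?_ hx₀ ?_
    hx hy
  · intro x hx y hy
    obtain ⟨β, hβ, hβl⟩ := hiso x hx y hy
    exact ⟨β, hβ, hβl.mono h2⟩
  · rw [h1]; exact hi

open H32E.DA (toAff toAff_apply toAff_injective
  loc_of_image map_clusterGroup)

/-- The hypothesis for a radius implies it for smaller radii. -/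
theorem fn1_mono {E : Type*} [MetricSpace E] {X : Set E} {x y : E} {ρ ρ' : ℝ} (h : ρ' ≤ ρ)
    {g : E ≃ᵢ E} (hgx : g x = y)
    (hg : g '' (X ∩ Metric.closedBall x ρ) = X ∩ Metric.closedBall y ρ) :
    g '' (X ∩ Metric.closedBall x ρ') = X ∩ Metric.closedBall y ρ' := by
  have hd : ∀ w, dist (g w) y = dist w x := fun w => by rw [← hgx, g.dist_eq]
  ext z
  constructor
  · rintro ⟨w, ⟨hwX, hw⟩, rfl⟩
    have hw' : dist w x ≤ ρ' := hw
    have h1 : g w ∈ g '' (X ∩ Metric.closedBall x ρ) :=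
      ⟨w, ⟨hwX, Metric.mem_closedBall.2 (hw'.trans h)⟩, rfl⟩
    rw [hg] at h1
    refine ⟨h1.1, ?_⟩
    rw [Metric.mem_closedBall, hd]
    exact hw'
  · rintro ⟨hzX, hz⟩
    have hz' : dist z y ≤ ρ' := hz
    have h1 : z ∈ X ∩ Metric.closedBall y ρ := ⟨hzX, Metric.mem_closedBall.2 (hz'.trans h)⟩
    rw [← hg] at h1
    obtain ⟨w, ⟨hwX, -⟩, rfl⟩ := h1
    refine ⟨w, ⟨hwX, ?_⟩, rfl⟩
    rw [Metric.mem_closedBall, ← hd]
    exact hz'

/-- The commutative subgroups of the cluster group have at most `5 ^ d` elements. -/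
theorem fn1_comm {d : ℕ} (hd : 1 ≤ d) {R : ℝ} (hR : 0 < R) {τ ρ : ℝ}
    (hτ : 12 * Real.sqrt d ≤ τ) (hρ : τ * R ≤ ρ)
    {X : Set (EuclideanSpace ℝ (Fin d))}
    (hsep : ∃ r : ℝ, 0 < r ∧ ∀ x ∈ X, ∀ y ∈ X, x ≠ y → r ≤ dist x y)
    (hX : ∀ z : EuclideanSpace ℝ (Fin d), ∃ x ∈ X, dist z x ≤ R)
    (hiso : ∀ x ∈ X, ∀ y ∈ X, ∃ g : EuclideanSpace ℝ (Fin d) ≃ᵢ EuclideanSpace ℝ (Fin d),
      g x = y ∧ g '' (X ∩ Metric.closedBall x ρ) = X ∩ Metric.closedBall y ρ)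
    {x₀ : EuclideanSpace ℝ (Fin d)} (hx₀ : x₀ ∈ X)
    (hfin : Finite (Pool.Agent.Helper17.clusterGroup X x₀ (τ * R)))
    (A : Subgroup (H32E.DA.clusterGroup X x₀ (τ * R)))
    (hA : Comm A) : Nat.card A ≤ 5 ^ d := by
  obtain ⟨r, hr, hsep⟩ := hsep
  have hτ12 : 12 * Real.sqrt d * R ≤ τ * R := mul_le_mul_of_nonneg_right hτ hR.le
  have hd' : (1 : ℝ) ≤ d := by exact_mod_cast hd
  have hsqrt1 : 1 ≤ Real.sqrt d := Real.one_le_sqrt.mpr hd'
  have hiso' : ∀ x ∈ X, ∀ y ∈ X,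
      ∃ β : EuclideanSpace ℝ (Fin d) ≃ᵃⁱ[ℝ] EuclideanSpace ℝ (Fin d),
        β x = y ∧ Loc X β x ρ := by
    intro x hx y hy
    obtain ⟨g, hgx, hg⟩ := hiso x hx y hy
    exact ⟨toAff g, by rw [toAff_apply]; exact hgx, loc_of_image hgx hg⟩
  have hfr : finrank ℝ (EuclideanSpace ℝ (Fin d)) = d := by simp
  have hnear : ∀ g ∈ Pool.Agent.Helper17.clusterGroup X x₀ (τ * R), ∀ a : ℝ, a < 1 / 2 →
      Pool.Agent.Helper17.Near (Pool.Agent.Helper17.lin g) a → g = 1 := by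
    intro g hg a ha hga
    refine Pool.Agent.Helper17.eq_one_of_near (t := 11 / 10 * R) (ρ := τ * R) hR hr hsep hX
      (by linarith) ?_ ?_ ha hg.1 hg.2 hga
    · rw [hfr]
      refine le_trans ?_ hτ12
      nlinarith
    · intro y hy
      obtain ⟨β, hβ, hβl⟩ := hiso' x₀ hx₀ y hy
      exact ⟨β, hβ, hβl.mono hρ⟩
  set A₁ := A.map (Subgroup.subtype _) with hA₁
  set A' := A₁.map toAff with hA'
  have hA₁Γ : A₁ ≤
      H32E.DA.clusterGroup X x₀ (τ * R) := by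
    rintro _ ⟨a, -, rfl⟩
    exact a.2
  have hA'G' : A' ≤ Pool.Agent.Helper17.clusterGroup X x₀ (τ * R) := by
    rw [hA', ← map_clusterGroup]
    exact Subgroup.map_mono hA₁Γ
  have hA'c : ∀ g ∈ A', ∀ h ∈ A', g * h = h * g := by
    rintro g ⟨_, ⟨a, ha, rfl⟩, rfl⟩ h ⟨_, ⟨b, hb, rfl⟩, rfl⟩
    rw [← map_mul, ← map_mul, hA a ha b hb, map_mul, map_mul]
  have hfin' : (Pool.Agent.Helper17.clusterGroup X x₀ (τ * R) : Set
      (EuclideanSpace ℝ (Fin d) ≃ᵃⁱ[ℝ] EuclideanSpace ℝ (Fin d))).Finite := hfin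
  have hfinA : (A' : Set
      (EuclideanSpace ℝ (Fin d) ≃ᵃⁱ[ℝ] EuclideanSpace ℝ (Fin d))).Finite := hfin'.subset hA'G'
  have hcardA : Nat.card A' ≤ 5 ^ d := by
    have h1 := Pool.Agent.Helper17.card_finset_le_of_comm A' hA'c
      (fun g hg => hnear g (hA'G' hg)) hfinA.toFinset (fun g hg => by simpa using hg)
    rw [hfr] at h1
    have h2 : Nat.card A' = hfinA.toFinset.card := Nat.card_eq_card_finite_toFinset hfinA
    rw [h2]; exact h1
  have h3 : Nat.card A = Nat.card A' := by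
    rw [Nat.card_congr (A.equivMapOfInjective _ (Subgroup.subtype_injective _)).toEquiv,
      Nat.card_congr (A₁.equivMapOfInjective toAff toAff_injective).toEquiv]
  rw [h3]
  exact hcardA

/-- **Large dimensions.**  `d ≥ 16`.

Proof.  As `AbelianIndexBound.result` and `ClusterRep.regular_of_card_le` of helper17, with `τ = 12 √d`:
the cluster group `Γ` of radius `τ R` at `x₀ = x` is finite (`clusterGroup_finite`), it has the
faithful representation `cplxRep` on `ℂ ^ d` (`cplxRep_injOn`, restricted to `Γ`), its commutative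
subgroups have at most `5 ^ d` elements (`card_finset_le_of_comm`, as in `AbelianIndexBound`).
`omega_le` with `y = ⌈log d⌉₊` and `total_le`: `Ω(|Γ|) ≤ 6000 d log d`.
`regular_of_omega` with `s = 21/10 R`, `m = Ω(|Γ|) + 1`:
`12 √d + 2.1 (6000 d log d + 1) ≤ 13000 d log d`. -/
theorem large_dim {d : ℕ} (hd : 16 ≤ d) {R : ℝ} (hR : 0 < R)
    {X : Set (EuclideanSpace ℝ (Fin d))}
    (hsep : ∃ r : ℝ, 0 < r ∧ ∀ x ∈ X, ∀ y ∈ X, x ≠ y → r ≤ dist x y)
    (hX : ∀ z : EuclideanSpace ℝ (Fin d), ∃ x ∈ X, dist z x ≤ R)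
    {ρ : ℝ} (hρ : 13000 * (d * Real.log d) * R ≤ ρ)
    (hiso : ∀ x ∈ X, ∀ y ∈ X, ∃ g : EuclideanSpace ℝ (Fin d) ≃ᵢ EuclideanSpace ℝ (Fin d),
      g x = y ∧ g '' (X ∩ Metric.closedBall x ρ) = X ∩ Metric.closedBall y ρ)
    {x y : EuclideanSpace ℝ (Fin d)} (hx : x ∈ X) (hy : y ∈ X) :
    ∃ g : EuclideanSpace ℝ (Fin d) ≃ᵢ EuclideanSpace ℝ (Fin d), g x = y ∧ g '' X = X := by
  have hd1 : 1 ≤ d := by omega
  have hd16 : (16 : ℝ) ≤ d := by exact_mod_cast hd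
  have hlog : 27 / 10 ≤ Real.log d := by
    have h1 : Real.log 16 ≤ Real.log d := Real.log_le_log (by norm_num) hd16
    have h2 : Real.log 16 = 4 * Real.log 2 := by
      rw [show (16 : ℝ) = 2 ^ 4 by norm_num, Real.log_pow]
      norm_num
    have h3 := Real.log_two_gt_d9
    linarith
  have hsq : 12 * Real.sqrt d ≤ 3 * d := by
    have h1 : Real.sqrt d ≤ d / 4 := by
      rw [Real.sqrt_le_left (by positivity)]
      nlinarith
    linarith
  have hdl : 27 / 10 * (d : ℝ) ≤ d * Real.log d := by nlinarith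
  have hτρ : 12 * Real.sqrt d * R ≤ ρ := by
    refine le_trans (mul_le_mul_of_nonneg_right ?_ hR.le) hρ
    linarith
  have hfin := H32E.DR.clusterGroup_finite hd1 hR le_rfl hτρ hsep hX hiso hx
  have hiso' : ∀ x ∈ X, ∀ y ∈ X,
      ∃ β : EuclideanSpace ℝ (Fin d) ≃ᵃⁱ[ℝ] EuclideanSpace ℝ (Fin d),
        β x = y ∧ Loc X β x ρ := by
    intro x hx y hy
    obtain ⟨g, hgx, hg⟩ := hiso x hx y hy
    exact ⟨toAff g, by rw [toAff_apply]; exact hgx, loc_of_image hgx hg⟩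
  have hequiv := (H32E.DA.clusterGroup X x
      (12 * Real.sqrt d * R)).equivMapOfInjective toAff toAff_injective
  rw [map_clusterGroup] at hequiv
  have hfinG : Finite (Pool.Agent.Helper17.clusterGroup X x (12 * Real.sqrt d * R)) :=
    Finite.of_equiv _ hequiv.toEquiv
  have hcard : Nat.card (Pool.Agent.Helper17.clusterGroup X x (12 * Real.sqrt d * R)) =
      Nat.card (H32E.DA.clusterGroup X x
        (12 * Real.sqrt d * R)) := (Nat.card_congr hequiv.toEquiv).symm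
  have homega := omega_le hd1
    (H32E.DR.cplxRep.comp
      (H32E.DA.clusterGroup X x
        (12 * Real.sqrt d * R)).subtype)
    (fun g h hgh => Subtype.ext (H32E.DR.cplxRep_injOn g.2.1 h.2.1 hgh))
    (fun A hA => fn1_comm hd1 hR le_rfl hτρ hsep hX hiso hx hfinG A hA) ⌈Real.log d⌉₊
  have htot := total_le hd
  have hle : (cardFactors (Nat.card (H32E.DA.clusterGroup
      X x (12 * Real.sqrt d * R))) : ℝ) ≤ 6000 * (d * Real.log d) := by
    refine homega.trans (le_trans (le_of_eq ?_) htot)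
    rfl
  obtain ⟨g, hgx, hg⟩ := regular_of_omega (s := 21 / 10 * R) (ρ₀ := 12 * Real.sqrt d * R) hR
    (by linarith) (by positivity)
    (cardFactors (Nat.card (H32E.DA.clusterGroup
      X x (12 * Real.sqrt d * R))) + 1) hX (by
      refine le_trans ?_ hρ
      have h1 : 12 * Real.sqrt d + ((cardFactors (Nat.card
        (H32E.DA.clusterGroup
          X x (12 * Real.sqrt d * R))) + 1 : ℕ) : ℝ) * (21 / 10) ≤ 13000 * (d * Real.log d) := by
        push_cast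
        linarith
      have h2 := mul_le_mul_of_nonneg_right h1 hR.le
      linarith) hiso' hx hfinG (by rw [hcard]; exact Nat.lt_succ_self _) hx hy
  refine ⟨g.toIsometryEquiv, by simpa using hgx, ?_⟩
  ext z
  constructor
  · rintro ⟨w, hw, rfl⟩
    exact (hg w).mp hw
  · intro hz
    refine ⟨g⁻¹ z, ?_, ?_⟩
    · rw [hg, Pool.Agent.Helper17.apply_inv_self']; exact hz
    · exact Pool.Agent.Helper17.apply_inv_self' g z

/-- **Small dimensions**, `2 ≤ d < 16`: `QuadraticBound.result` (radius `9 d ^ 2 R`), since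
`9 d ^ 2 ≤ 144 d ≤ 13000 d log 2 ≤ 13000 d log d`, and the hypothesis for a radius implies it for
smaller radii. -/
theorem small_dim {d : ℕ} (hd : 2 ≤ d) (hd' : d < 16) {R : ℝ} (hR : 0 < R)
    {X : Set (EuclideanSpace ℝ (Fin d))}
    (hsep : ∃ r : ℝ, 0 < r ∧ ∀ x ∈ X, ∀ y ∈ X, x ≠ y → r ≤ dist x y)
    (hX : ∀ z : EuclideanSpace ℝ (Fin d), ∃ x ∈ X, dist z x ≤ R)
    {ρ : ℝ} (hρ : 13000 * (d * Real.log d) * R ≤ ρ)
    (hiso : ∀ x ∈ X, ∀ y ∈ X, ∃ g : EuclideanSpace ℝ (Fin d) ≃ᵢ EuclideanSpace ℝ (Fin d),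
      g x = y ∧ g '' (X ∩ Metric.closedBall x ρ) = X ∩ Metric.closedBall y ρ)
    {x y : EuclideanSpace ℝ (Fin d)} (hx : x ∈ X) (hy : y ∈ X) :
    ∃ g : EuclideanSpace ℝ (Fin d) ≃ᵢ EuclideanSpace ℝ (Fin d), g x = y ∧ g '' X = X := by
  have hd2 : (2 : ℝ) ≤ d := by exact_mod_cast hd
  have hd16 : (d : ℝ) ≤ 16 := by exact_mod_cast hd'.le
  have hlog : 69 / 100 ≤ Real.log d := by
    have h1 : Real.log 2 ≤ Real.log d := Real.log_le_log (by norm_num) hd2
    have h3 := Real.log_two_gt_d9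
    linarith
  have hle : 9 * (d : ℝ) ^ 2 * R ≤ ρ := by
    refine le_trans (mul_le_mul_of_nonneg_right ?_ hR.le) hρ
    nlinarith
  refine H32E.DQ.quadratic d hd R hR X hsep hX ?_ x hx y hy
  intro x hx y hy
  obtain ⟨g, hgx, hg⟩ := hiso x hx y hy
  exact ⟨g, hgx, fn1_mono hle hgx hg⟩

end H32E
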