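import Pool.Agent.Lib.H32E.FN1

/-!
# H32E / FN2: the statement S12109 (proved from FN1)
-/

set_option autoImplicit false

namespace H32E

theorem main :
    ∃ c : ℝ, ∀ d : ℕ, 2 ≤ d → ∀ R : ℝ, 0 < R →
      ∀ X : Set (EuclideanSpace ℝ (Fin d)),
        (∃ r : ℝ, 0 < r ∧ ∀ x ∈ X, ∀ y ∈ X, x ≠ y → r ≤ dist x y) →
        (∀ z : EuclideanSpace ℝ (Fin d), ∃ x ∈ X, dist z x ≤ R) →
        (∀ x ∈ X, ∀ y ∈ X, ∃ g : EuclideanSpace ℝ (Fin d) ≃ᵢ EuclideanSpace ℝ (Fin d),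
            g x = y ∧
            g '' (X ∩ Metric.closedBall x (c * ((d : ℝ) * Real.log (d : ℝ)) * R)) =
              X ∩ Metric.closedBall y (c * ((d : ℝ) * Real.log (d : ℝ)) * R)) →
        ∀ x ∈ X, ∀ y ∈ X, ∃ g : EuclideanSpace ℝ (Fin d) ≃ᵢ EuclideanSpace ℝ (Fin d),
          g x = y ∧ g '' X = X := by
  refine ⟨13000, fun d hd R hR X hsep hX hiso x hx y hy => ?_⟩
  rcases Nat.lt_or_ge d 16 with h | h
  · exact small_dim hd h hR hsep hX le_rfl hiso hx hy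
  · exact large_dim h hR hsep hX le_rfl hiso hx hy

end H32E
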