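import Pool.Agent.Lib.H32E.E0

/-!
# H32E / IL0: definitions for the interpolation lemma
-/

set_option autoImplicit false

open Module

namespace H32E

variable {K R : Type*} [Field K] [CommGroup R]

open Classical in
/-- The number `M_i(S, s) = ∑_{θ ∈ S, |im θ| ≥ p ^ s} |im θ| ^ (-i)`. -/
noncomputable def MM (S : Finset (R →* Kˣ)) (p i s : ℕ) : ℝ :=
  ∑ θ ∈ S.filter (fun θ => p ^ s ≤ Nat.card θ.range), (1 / (Nat.card θ.range : ℝ)) ^ i

/-- The potential `Φ_k(S)`. -/
noncomputable def Phi (S : Finset (R →* Kˣ)) (p A k : ℕ) : ℝ :=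
  (∑ i ∈ Finset.Icc 1 k, ∑ s ∈ Finset.Icc 1 A, min 1 (MM S p i s)) + MM S p k 0 / (p - 1)

open Classical in
/-- The values different from `1` of the characters of `S` at `r`. -/
noncomputable def vals (S : Finset (R →* Kˣ)) (r : R) : Finset Kˣ :=
  (S.image (fun θ => θ r)).erase 1

open Classical in
/-- The characters of `S` that are trivial at `r`. -/
noncomputable def surv (S : Finset (R →* Kˣ)) (r : R) : Finset (R →* Kˣ) :=
  S.filter (fun θ => θ r = 1)

/-- The cost of `r`. -/
noncomputable def cost (S : Finset (R →* Kˣ)) (r : R) : ℝ :=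
  ∑ ξ ∈ vals S r, 1 / (Nat.totient (orderOf ξ) : ℝ)

end H32E
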