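import Pool.Agent.Lib.H32E.E0

/-!
# H32E / IL1: the norm of `1 - ξ` for a root of unity `ξ` of order a power of `p`

Chunk IL1.  Three statements.
-/

set_option autoImplicit false

open Module

namespace H32E

/-- Elements of finite order have norm `1`.
Proof.  `u ^ n = 1` with `n = orderOf u > 0`, so `‖u‖ ^ n = 1` and `‖u‖ = 1`
(`pow_eq_one_iff_of_nonneg`). -/
theorem norm_root {K : Type*} [NormedField K] (u : Kˣ) (hu : IsOfFinOrder u) : ‖(u : K)‖ = 1 := by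
  obtain ⟨n, hn, h⟩ := isOfFinOrder_iff_pow_eq_one.1 hu
  have h1 : (u : K) ^ n = 1 := by
    rw [← Units.val_pow_eq_pow_val, h, Units.val_one]
  have h2 : ‖(u : K)‖ ^ n = 1 := by rw [← norm_pow, h1, norm_one]
  exact (pow_eq_one_iff_of_nonneg (norm_nonneg _) hn.ne').1 h2

/-- `‖1 - ζ‖ ^ φ(p ^ (s + 1)) = 1 / p` for a primitive `p ^ (s + 1)`-th root of unity `ζ`.

Proof.  Put `n = p ^ (s + 1)`.  Evaluate `cyclotomic n K = ∏_{μ ∈ primitiveRoots n K} (X - C μ)`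
(`Polynomial.cyclotomic_eq_prod_X_sub_primitiveRoots`) at `1`; the left side is `p`
(`Polynomial.eval_one_cyclotomic_prime_pow`).  So `∏_{μ} ‖1 - μ‖ = ‖p‖ = 1 / p`, and the number of
factors is `φ(n)` (`IsPrimitiveRoot.card_primitiveRoots`).  It remains to see that all the factors
are equal to `‖1 - ζ‖`: if `μ` and `ζ` are two primitive `n`-th roots of unity then `μ = ζ ^ j` for
some `j` (`IsPrimitiveRoot.isPrimitiveRoot_iff` or `IsPrimitiveRoot.eq_pow_of_pow_eq_one`), so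
`1 - μ = (1 - ζ) * ∑_{i < j} ζ ^ i` (`mul_geom_sum` up to sign) and the sum has norm `≤ 1` since the
norm is ultrametric and `‖ζ‖ = 1`.  Hence `‖1 - μ‖ ≤ ‖1 - ζ‖`, and the same with `μ` and `ζ`
exchanged. -/
theorem norm_one_sub_pow {K : Type*} [NormedField K] [IsUltrametricDist K] {p : ℕ} [Fact p.Prime]
    (hp : ‖(p : K)‖ = (p : ℝ)⁻¹) {s : ℕ} {ζ : K} (hζ : IsPrimitiveRoot ζ (p ^ (s + 1))) :
    ‖1 - ζ‖ ^ Nat.totient (p ^ (s + 1)) = (p : ℝ)⁻¹ := by
  classical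
  have hpp : p.Prime := Fact.out
  have hn0 : 0 < p ^ (s + 1) := pow_pos hpp.pos _
  have key : ∀ μ : K, IsPrimitiveRoot μ (p ^ (s + 1)) → ∀ ν : K, IsPrimitiveRoot ν (p ^ (s + 1)) →
      ‖1 - μ‖ ≤ ‖1 - ν‖ := by
    intro μ hμ ν hν
    obtain ⟨j, -, hj⟩ := hν.eq_pow_of_pow_eq_one hμ.pow_eq_one
    have h1 : ‖ν‖ ^ (p ^ (s + 1)) = 1 := by rw [← norm_pow, hν.pow_eq_one, norm_one]
    have h2 : ‖ν‖ = 1 := (pow_eq_one_iff_of_nonneg (norm_nonneg _) hn0.ne').1 h1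
    have h3 : 1 - μ = (1 - ν) * ∑ i ∈ Finset.range j, ν ^ i := by
      rw [mul_neg_geom_sum, hj]
    have h4 : ‖∑ i ∈ Finset.range j, ν ^ i‖ ≤ 1 := by
      refine IsUltrametricDist.norm_sum_le_of_forall_le_of_nonneg zero_le_one fun i _ => ?_
      rw [norm_pow, h2, one_pow]
    rw [h3, norm_mul]
    exact mul_le_of_le_one_right (norm_nonneg _) h4
  have h5 := congrArg (Polynomial.eval (1 : K)) (Polynomial.cyclotomic_eq_prod_X_sub_primitiveRoots hζ)
  rw [Polynomial.eval_one_cyclotomic_prime_pow, Polynomial.eval_prod] at h5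
  have h6 := congrArg (fun x : K => ‖x‖) h5
  simp only [Polynomial.eval_sub, Polynomial.eval_X, Polynomial.eval_C] at h6
  rw [norm_prod, hp] at h6
  have h7 : ∏ μ ∈ primitiveRoots (p ^ (s + 1)) K, ‖1 - μ‖ = ‖1 - ζ‖ ^ (primitiveRoots (p ^ (s + 1)) K).card := by
    refine Finset.prod_eq_pow_card fun μ hμ => ?_
    have hμ' := (mem_primitiveRoots hn0).1 hμ
    exact le_antisymm (key μ hμ' ζ hζ) (key ζ hζ μ hμ')
  rw [h7, hζ.card_primitiveRoots] at h6
  exact h6.symm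

/-- The form that is used: if `u : Kˣ` has order a power `p ^ s > 1` of `p` then
`- log_p ‖1 - u‖ = 1 / φ(p ^ s)` (and `u ≠ 1`).

Proof.  `u` (as an element of `K`) is a primitive root of unity of order `p ^ s`
(`IsPrimitiveRoot.orderOf`, `IsPrimitiveRoot.coe_units_iff`); write `s = t + 1` and take `logb p` in
`norm_one_sub_pow`: `φ(p ^ s) * logb p ‖1 - u‖ = -1` (`Real.logb_pow`, `Real.logb_inv`,
`Real.logb_self_eq_one`). -/
theorem logb_one_sub {K : Type*} [NormedField K] [IsUltrametricDist K] {p : ℕ} [Fact p.Prime]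
    (hp : ‖(p : K)‖ = (p : ℝ)⁻¹) {s : ℕ} (hs : 1 ≤ s) {u : Kˣ} (hu : orderOf u = p ^ s) :
    -Real.logb p ‖1 - (u : K)‖ = 1 / (Nat.totient (p ^ s) : ℝ) := by
  have hpp : p.Prime := Fact.out
  obtain ⟨t, rfl⟩ : ∃ t, s = t + 1 := ⟨s - 1, by omega⟩
  have h1 : IsPrimitiveRoot (u : K) (p ^ (t + 1)) := by
    rw [IsPrimitiveRoot.coe_units_iff, ← hu]
    exact IsPrimitiveRoot.orderOf u
  have h2 := norm_one_sub_pow hp h1
  have h3 := congrArg (Real.logb p) h2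
  rw [Real.logb_pow, Real.logb_inv, Real.logb_self_eq_one (by exact_mod_cast hpp.one_lt)] at h3
  have h4 : (0 : ℝ) < (Nat.totient (p ^ (t + 1)) : ℝ) := by
    exact_mod_cast Nat.totient_pos.2 (pow_pos hpp.pos _)
  rw [eq_div_iff h4.ne']
  linarith

end H32E
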