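import Pool.Agent.Lib.H32E.IL0

/-!
# H32E / IL2: counting the values of a character

Chunk IL2.  `R` is a finite commutative group, `θ : R →* Kˣ` a character.  The image `θ.range` is
finite of order `c = Nat.card θ.range`, and every value is taken `|ker θ| = |R| / c` times.
-/

set_option autoImplicit false

open Module

namespace H32E

variable {K R : Type*} [Field K] [CommGroup R] [Fintype R]

open Classical in
/-- Proof.  The set is (the carrier of) the kernel of `θ`, and
`Nat.card θ.ker * Nat.card θ.range = Nat.card R` (`Subgroup.card_mul_index`, `Subgroup.index_ker`,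
or `Subgroup.card_eq_card_quotient_mul_card_subgroup` with `QuotientGroup.quotientKerEquivRange`). -/
theorem card_trivial (θ : R →* Kˣ) :
    (Finset.univ.filter (fun r => θ r = 1)).card * Nat.card θ.range = Nat.card R := by
  have h1 : (Finset.univ.filter (fun r => θ r = 1)).card = Nat.card θ.ker := by
    rw [Nat.card_eq_fintype_card, ← Fintype.card_subtype]
    exact Fintype.card_congr (Equiv.refl _)
  rw [h1, ← Subgroup.index_ker θ]
  exact Subgroup.card_mul_index θ.ker

open Classical in
/-- Proof.  For `ξ : Kˣ` the number of `r` with `θ r = ξ` is `0` or `|ker θ|` (translate by one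
solution).  The number of `ξ : Kˣ` of order `p ^ s` is at most `φ(p ^ s)`: they are the units whose
underlying elements are in `primitiveRoots (p ^ s) K`, whose cardinality is at most `φ(p ^ s)`
(it is `0`, or there is a primitive root and `IsPrimitiveRoot.card_primitiveRoots`).  Write the
filter as the union over these `ξ` (`Finset.card_le_mul_card_image` or
`Finset.card_eq_sum_card_fiberwise`) and use `card_trivial`.  (`p` is arbitrary with `0 < p`.) -/
theorem card_order_mul_le (θ : R →* Kˣ) {p : ℕ} (hp : 0 < p) (s : ℕ) :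
    (Finset.univ.filter (fun r => orderOf (θ r) = p ^ s)).card * Nat.card θ.range ≤
      Nat.totient (p ^ s) * Nat.card R := by
  set S := Finset.univ.filter (fun r => orderOf (θ r) = p ^ s) with hS
  set k := (Finset.univ.filter (fun r => θ r = 1)).card with hk
  have hpos : 0 < p ^ s := pow_pos hp s
  have h1 : S.card ≤ k * (S.image θ).card := by
    apply Finset.card_le_mul_card_image
    intro ξ hξ
    obtain ⟨r₀, -, hr₀⟩ := Finset.mem_image.1 hξ
    apply Finset.card_le_card_of_injOn (fun r => r₀⁻¹ * r)
    · intro r hr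
      rw [Finset.mem_coe, Finset.mem_filter] at hr
      rw [Finset.mem_coe, Finset.mem_filter]
      refine ⟨Finset.mem_univ _, ?_⟩
      rw [map_mul, map_inv, hr₀, hr.2]
      exact inv_mul_cancel ξ
    · intro a _ b _ hab
      exact mul_left_cancel hab
  have h2 : (S.image θ).card ≤ Nat.totient (p ^ s) := by
    have h3 : (S.image θ).card ≤ (primitiveRoots (p ^ s) K).card := by
      apply Finset.card_le_card_of_injOn (fun ξ : Kˣ => (ξ : K))
      · intro ξ hξ
        rw [Finset.mem_coe, Finset.mem_image] at hξ
        obtain ⟨r₀, h4, h5⟩ := hξ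
        rw [Finset.mem_coe, mem_primitiveRoots hpos]
        rw [hS, Finset.mem_filter] at h4
        rw [← h5, ← h4.2]
        exact IsPrimitiveRoot.coe_units_iff.2 (IsPrimitiveRoot.orderOf (θ r₀))
      · intro a _ b _ hab
        exact Units.ext hab
    refine h3.trans ?_
    rcases Finset.eq_empty_or_nonempty (primitiveRoots (p ^ s) K) with h4 | ⟨z, hz⟩
    · rw [h4]
      exact Nat.zero_le _
    · rw [mem_primitiveRoots hpos] at hz
      rw [hz.card_primitiveRoots]
  calc S.card * Nat.card θ.range ≤ (k * Nat.totient (p ^ s)) * Nat.card θ.range := by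
        gcongr
        exact h1.trans (Nat.mul_le_mul_left k h2)
    _ = Nat.totient (p ^ s) * (k * Nat.card θ.range) := by ring
    _ = Nat.totient (p ^ s) * Nat.card R := by rw [hk, card_trivial θ]

/-- Proof.  The order of an element of the finite group `θ.range` divides `Nat.card θ.range`, which
is positive (`orderOf_dvd_natCard`, `Nat.le_of_dvd`; orders in a subgroup: `Subgroup.orderOf_coe`). -/
theorem orderOf_le_range (θ : R →* Kˣ) (r : R) : orderOf (θ r) ≤ Nat.card θ.range := by
  haveI : Finite θ.range := Set.finite_range θ |>.to_subtype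
  have h1 : orderOf (θ r) = orderOf (⟨θ r, ⟨r, rfl⟩⟩ : θ.range) := by
    rw [← Subgroup.orderOf_coe]
  rw [h1]
  exact Nat.le_of_dvd Nat.card_pos (orderOf_dvd_natCard _)

/-- If `θ ≠ 1` and `R` is a `p`-group of order `p ^ A` then every value `θ r ≠ 1` has order `p ^ s`
with `1 ≤ s ≤ A`.  Proof: the order of `θ r` divides the order of `r`, which divides `p ^ A`
(`orderOf_map_dvd`, `orderOf_dvd_natCard`, `Nat.dvd_prime_pow`); it is not `1`. -/
theorem orderOf_val {p A : ℕ} (hp : p.Prime) (hA : Nat.card R = p ^ A) (θ : R →* Kˣ) (r : R)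
    (h : θ r ≠ 1) : ∃ s ∈ Finset.Icc 1 A, orderOf (θ r) = p ^ s := by
  have h1 : orderOf (θ r) ∣ p ^ A := by
    rw [← hA]
    exact (orderOf_map_dvd θ r).trans (orderOf_dvd_natCard r)
  obtain ⟨s, hs, hs'⟩ := (Nat.dvd_prime_pow hp).1 h1
  refine ⟨s, ?_, hs'⟩
  rw [Finset.mem_Icc]
  refine ⟨?_, hs⟩
  by_contra h2
  have h3 : s = 0 := by omega
  rw [h3, pow_zero, orderOf_eq_one_iff] at hs'
  exact h hs'

end H32E
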