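import Pool.Agent.Lib.H32E.IL2

/-!
# H32E / IL3: the average of the cost

Chunk IL3.
-/

set_option autoImplicit false

open Module

namespace H32E

variable {K R : Type*} [Field K] [CommGroup R] [Fintype R]

theorem il3_tot {n : ℕ} (hn : 0 < n) (T : Finset Kˣ) (hT : ∀ ξ ∈ T, orderOf ξ = n) : T.card ≤ Nat.totient n := by
  classical
  rcases T.eq_empty_or_nonempty with rfl | ⟨ζ, hζ⟩
  · simp
  have hprim : ∀ ξ ∈ T, IsPrimitiveRoot (ξ : K) n := by
    intro ξ hξ
    rw [IsPrimitiveRoot.coe_units_iff, ← hT ξ hξ]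
    exact IsPrimitiveRoot.orderOf ξ
  rw [← (hprim ζ hζ).card_primitiveRoots, ← Finset.card_image_of_injective T Units.val_injective]
  refine Finset.card_le_card ?_
  intro x hx
  rw [Finset.mem_image] at hx
  obtain ⟨ξ, hξ, rfl⟩ := hx
  rw [mem_primitiveRoots hn]
  exact hprim ξ hξ

open Classical in
theorem il3_cost {p A : ℕ} (hp : p.Prime) (hA : Nat.card R = p ^ A) (S : Finset (R →* Kˣ)) (r : R) :
    cost S r ≤ ∑ s ∈ Finset.Icc 1 A, min 1
      (((S.filter fun θ => orderOf (θ r) = p ^ s).card : ℝ) / (Nat.totient (p ^ s) : ℝ)) := by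
  have hφ : ∀ s : ℕ, (0 : ℝ) < (Nat.totient (p ^ s) : ℝ) := fun s => by
    exact_mod_cast Nat.totient_pos.2 (pow_pos hp.pos s)
  have h1 : cost S r ≤ ∑ ξ ∈ vals S r, ∑ s ∈ Finset.Icc 1 A,
      if orderOf ξ = p ^ s then 1 / (Nat.totient (p ^ s) : ℝ) else 0 := by
    unfold cost
    refine Finset.sum_le_sum fun ξ hξ => ?_
    unfold vals at hξ
    rw [Finset.mem_erase, Finset.mem_image] at hξ
    obtain ⟨h1, θ, hθ, rfl⟩ := hξ
    obtain ⟨s, hs, e⟩ := orderOf_val hp hA θ r h1
    refine le_trans ?_ (Finset.single_le_sum (f := fun s => if orderOf (θ r) = p ^ s then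
      1 / (Nat.totient (p ^ s) : ℝ) else 0) (fun s _ => ?_) hs)
    · rw [if_pos e, e]
    · split_ifs
      · exact (one_div_pos.2 (hφ s)).le
      · exact le_rfl
  refine h1.trans ?_
  rw [Finset.sum_comm]
  refine Finset.sum_le_sum fun s _ => ?_
  rw [← Finset.sum_filter, Finset.sum_const, nsmul_eq_mul, mul_one_div]
  refine le_min ?_ ?_
  · rw [div_le_one (hφ s)]
    have := il3_tot (pow_pos hp.pos s) ((vals S r).filter fun ξ => orderOf ξ = p ^ s)
      (fun ξ hξ => (Finset.mem_filter.1 hξ).2)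
    exact_mod_cast this
  · refine div_le_div_of_nonneg_right ?_ (hφ s).le
    have h2 : ((vals S r).filter fun ξ => orderOf ξ = p ^ s) ⊆
        (S.filter fun θ => orderOf (θ r) = p ^ s).image (fun θ => θ r) := by
      intro ξ hξ
      rw [Finset.mem_filter] at hξ
      obtain ⟨h3, h4⟩ := hξ
      unfold vals at h3
      rw [Finset.mem_erase, Finset.mem_image] at h3
      obtain ⟨-, θ, hθ, rfl⟩ := h3
      exact Finset.mem_image.2 ⟨θ, Finset.mem_filter.2 ⟨hθ, h4⟩, rfl⟩
    exact_mod_cast (Finset.card_le_card h2).trans Finset.card_image_le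

/-- **The average of the cost.**
Proof.  By `orderOf_val` every `ξ ∈ vals S r` has order `p ^ s` with `s ∈ Icc 1 A`; so
`cost S r = ∑_{s ∈ Icc 1 A} n_{r,s} / φ(p ^ s)` where `n_{r,s}` is the number of `ξ ∈ vals S r` with
order `p ^ s` (`Finset.sum_fiberwise_of_maps_to`, or compare with the sum over pairs: for a fixed
`ξ` exactly one `s` matches since `p ^ s` is injective in `s`).  Clearly `n_{r,s} ≤ φ(p ^ s)` (at most
`φ(p ^ s)` elements of `Kˣ` have order `p ^ s`) and `n_{r,s} ≤ m_{r,s}`, the number of `θ ∈ S` with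
`orderOf (θ r) = p ^ s` (the map `θ ↦ θ r` is surjective from the latter set to the former).  Hence
`n_{r,s} / φ(p ^ s) ≤ min 1 (m_{r,s} / φ(p ^ s))`.  Sum over `r ∈ R` and use
`∑_r min 1 x_r ≤ min |R| (∑_r x_r)`:
`∑_r cost S r ≤ ∑_s min |R| (∑_r m_{r,s} / φ(p ^ s))`, and
`∑_r m_{r,s} = ∑_{θ ∈ S} #{r | orderOf (θ r) = p ^ s}`, where the `θ`-term is `0` if
`Nat.card θ.range < p ^ s` (`orderOf_le_range`) and at most `φ(p ^ s) * |R| / Nat.card θ.range`
otherwise (`card_order_mul_le`).  So the sum divided by `φ(p ^ s)` is at most `|R| * MM S p 1 s`. -/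
theorem sum_cost_le {p A : ℕ} (hp : p.Prime) (hA : Nat.card R = p ^ A) (S : Finset (R →* Kˣ)) :
    ∑ r, cost S r ≤ (Nat.card R : ℝ) * ∑ s ∈ Finset.Icc 1 A, min 1 (MM S p 1 s) := by
  classical
  have hφ : ∀ s : ℕ, (0 : ℝ) < (Nat.totient (p ^ s) : ℝ) := fun s => by
    exact_mod_cast Nat.totient_pos.2 (pow_pos hp.pos s)
  refine (Finset.sum_le_sum fun r _ => il3_cost hp hA S r).trans ?_
  rw [Finset.sum_comm, Finset.mul_sum]
  refine Finset.sum_le_sum fun s _ => ?_
  rw [mul_min_of_nonneg _ _ (Nat.cast_nonneg _), mul_one]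
  refine le_min ?_ ?_
  · calc ∑ r : R, min 1 (((S.filter fun θ => orderOf (θ r) = p ^ s).card : ℝ) / (Nat.totient (p ^ s) : ℝ))
        ≤ ∑ _r : R, (1 : ℝ) := Finset.sum_le_sum fun r _ => min_le_left _ _
      _ = (Nat.card R : ℝ) := by rw [Finset.sum_const, nsmul_eq_mul, mul_one, Finset.card_univ, Nat.card_eq_fintype_card]
  · refine (Finset.sum_le_sum fun r _ => min_le_right _ _).trans ?_
    have e1 : ∑ r : R, (((S.filter fun θ => orderOf (θ r) = p ^ s).card : ℝ) / (Nat.totient (p ^ s) : ℝ)) =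
        ∑ θ ∈ S, ((Finset.univ.filter (fun r => orderOf (θ r) = p ^ s)).card : ℝ) / (Nat.totient (p ^ s) : ℝ) := by
      rw [← Finset.sum_div, ← Finset.sum_div]
      congr 1
      have e2 : ∀ r : R, ((S.filter fun θ => orderOf (θ r) = p ^ s).card : ℝ) =
          ∑ θ ∈ S, if orderOf (θ r) = p ^ s then 1 else 0 := fun r => by
        rw [Finset.sum_boole]
      have e3 : ∀ θ : R →* Kˣ, ((Finset.univ.filter (fun r => orderOf (θ r) = p ^ s)).card : ℝ) =
          ∑ r, if orderOf (θ r) = p ^ s then 1 else 0 := fun θ => by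
        rw [Finset.sum_boole]
      rw [Finset.sum_congr rfl fun r _ => e2 r, Finset.sum_congr rfl fun θ _ => e3 θ, Finset.sum_comm]
    rw [e1]
    unfold MM
    rw [Finset.mul_sum, Finset.sum_filter]
    refine Finset.sum_le_sum fun θ _ => ?_
    have hc : (0 : ℝ) < Nat.card θ.range := by
      have : Finite θ.range := inferInstance
      exact_mod_cast Nat.card_pos
    split_ifs with hif
    · have h1 : ((Finset.univ.filter (fun r => orderOf (θ r) = p ^ s)).card : ℝ) * Nat.card θ.range ≤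
          Nat.totient (p ^ s) * Nat.card R := by
        exact_mod_cast card_order_mul_le θ hp.pos s
      rw [pow_one, mul_one_div, div_le_div_iff₀ (hφ s) hc]
      linarith
    · have h1 : (Finset.univ.filter (fun r => orderOf (θ r) = p ^ s)).card = 0 := by
        rw [Finset.card_eq_zero, Finset.filter_eq_empty_iff]
        intro r _ h2
        apply hif
        rw [← h2]
        exact orderOf_le_range θ r
      rw [h1, Nat.cast_zero, zero_div]

end H32E
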