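import Pool.Agent.Lib.H32E.IL2

/-!
# H32E / IL3B: the average of the potential of the survivors

Chunk IL3B.
-/

set_option autoImplicit false

open Module

namespace H32E

variable {K R : Type*} [Field K] [CommGroup R] [Fintype R]

theorem il3b_pos {K R : Type*} [Field K] [CommGroup R] [Finite R] (θ : R →* Kˣ) : (0 : ℝ) < Nat.card θ.range := by
  have : Finite θ.range := (Set.finite_range θ).to_subtype
  exact_mod_cast Nat.card_pos

/-- Proof.  `MM (surv S r) p i s = ∑_{θ ∈ S, p ^ s ≤ c(θ)} [θ r = 1] c(θ) ^ (-i)`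
(`c(θ) = Nat.card θ.range`); exchange the sums and use that the number of `r` with `θ r = 1` is
`|R| / c(θ)` (`card_trivial`, `c(θ) ≠ 0`). -/
theorem sum_MM_surv (S : Finset (R →* Kˣ)) (p i s : ℕ) :
    ∑ r, MM (surv S r) p i s = (Nat.card R : ℝ) * MM S p (i + 1) s := by
  classical
  have e1 : ∀ r, MM (surv S r) p i s = ∑ θ ∈ S.filter (fun θ => p ^ s ≤ Nat.card θ.range),
      if θ r = 1 then (1 / (Nat.card θ.range : ℝ)) ^ i else 0 := by
    intro r
    unfold MM surv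
    rw [Finset.filter_comm, Finset.sum_filter]
  rw [Finset.sum_congr rfl fun r _ => e1 r, Finset.sum_comm]
  unfold MM
  rw [Finset.mul_sum]
  refine Finset.sum_congr rfl fun θ _ => ?_
  rw [← Finset.sum_filter, Finset.sum_const, nsmul_eq_mul]
  have h1 := card_trivial θ
  have h2 := il3b_pos θ
  have h3 : ((Finset.univ.filter (fun r => θ r = 1)).card : ℝ) * Nat.card θ.range = Nat.card R := by
    exact_mod_cast h1
  rw [← h3, pow_succ]
  field_simp

/-- Proof.  `∑_r min 1 x_r ≤ min |R| (∑_r x_r) = |R| * min 1 ((∑_r x_r) / |R|)` with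
`sum_MM_surv`. -/
theorem sum_min_MM_surv (S : Finset (R →* Kˣ)) (p i s : ℕ) :
    ∑ r, min 1 (MM (surv S r) p i s) ≤ (Nat.card R : ℝ) * min 1 (MM S p (i + 1) s) := by
  rw [mul_min_of_nonneg _ _ (Nat.cast_nonneg _), mul_one]
  refine le_min ?_ ?_
  · calc ∑ r, min 1 (MM (surv S r) p i s) ≤ ∑ _r : R, (1 : ℝ) := Finset.sum_le_sum fun r _ => min_le_left _ _
      _ = (Nat.card R : ℝ) := by rw [Finset.sum_const, nsmul_eq_mul, mul_one, Finset.card_univ, Nat.card_eq_fintype_card]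
  · rw [← sum_MM_surv]
    exact Finset.sum_le_sum fun r _ => min_le_right _ _

theorem il3b_shift (f : ℕ → ℝ) (k : ℕ) :
    ∑ i ∈ Finset.Icc 1 (k + 1), f i = f 1 + ∑ i ∈ Finset.Icc 1 k, f (i + 1) := by
  induction k with
  | zero => simp
  | succ k ih => rw [Finset.sum_Icc_succ_top (by omega), ih, Finset.sum_Icc_succ_top (by omega), add_assoc]

/-- Proof.  Sum the previous two statements over `i ∈ Icc 1 k`, `s ∈ Icc 1 A`:
`∑_r Φ_k(surv S r) ≤ |R| * (∑_{i ∈ Icc 1 k} ∑_s min 1 (MM S p (i + 1) s) + MM S p (k + 1) 0 / (p - 1))`,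
and this is `|R| * (Φ_{k+1}(S) - ∑_s min 1 (MM S p 1 s))` (shift the index `i`;
`Finset.sum_Icc_succ_top` or `Finset.sum_bij`/`Finset.range_eq_Ico`). -/
theorem sum_Phi_surv (S : Finset (R →* Kˣ)) (p A k : ℕ) :
    ∑ r, Phi (surv S r) p A k ≤ (Nat.card R : ℝ) *
      (Phi S p A (k + 1) - ∑ s ∈ Finset.Icc 1 A, min 1 (MM S p 1 s)) := by
  have e1 : ∑ r, Phi (surv S r) p A k = (∑ i ∈ Finset.Icc 1 k, ∑ s ∈ Finset.Icc 1 A,
      ∑ r, min 1 (MM (surv S r) p i s)) + (Nat.card R : ℝ) * MM S p (k + 1) 0 / (p - 1) := by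
    unfold Phi
    rw [Finset.sum_add_distrib, Finset.sum_comm, ← Finset.sum_div, sum_MM_surv]
    congr 1
    exact Finset.sum_congr rfl fun i _ => Finset.sum_comm
  have e2 : Phi S p A (k + 1) - ∑ s ∈ Finset.Icc 1 A, min 1 (MM S p 1 s) =
      (∑ i ∈ Finset.Icc 1 k, ∑ s ∈ Finset.Icc 1 A, min 1 (MM S p (i + 1) s)) + MM S p (k + 1) 0 / (p - 1) := by
    unfold Phi
    rw [il3b_shift (fun i => ∑ s ∈ Finset.Icc 1 A, min 1 (MM S p i s))]
    ring
  rw [e1, e2, mul_add, Finset.mul_sum, mul_div_assoc]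
  refine add_le_add (Finset.sum_le_sum fun i _ => ?_) le_rfl
  rw [Finset.mul_sum]
  exact Finset.sum_le_sum fun s _ => sum_min_MM_surv S p i s

end H32E
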