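import Pool.Agent.Lib.H32E.IL1
import Pool.Agent.Lib.H32E.IL3
import Pool.Agent.Lib.H32E.IL3B

/-!
# H32E / IL4: the interpolation lemma for nontrivial characters

Chunk IL4.
-/

set_option autoImplicit false

open Module

namespace H32E

variable {K R : Type*}

/-- The factors: if `F ∈ Good K R`, `r : R` and `V` is a finite set of units of finite order, then
`χ ↦ ∏_{ξ ∈ V} (χ r - ξ) * F χ` is good.  Proof: `Good K R` is a subring, it contains
`χ ↦ χ r` and the constants `ξ` (`norm_root`); use `Subring.prod_mem`, `Subring.sub_mem`,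
`Subring.mul_mem` (and `Finset.prod_apply`, `Pi.mul_apply`). -/
theorem good_factor [NormedField K] [CommGroup R] {F : (R →* Kˣ) → K} (hF : F ∈ Good K R) (r : R)
    (V : Finset Kˣ) (hV : ∀ ξ ∈ V, IsOfFinOrder ξ) :
    (fun χ : R →* Kˣ => (∏ ξ ∈ V, (((χ r : Kˣ) : K) - (ξ : K))) * F χ) ∈ Good K R := by
  have h1 : (fun χ : R →* Kˣ => (∏ ξ ∈ V, (((χ r : Kˣ) : K) - (ξ : K))) * F χ)
      = (∏ ξ ∈ V, ((fun χ : R →* Kˣ => ((χ r : Kˣ) : K)) - (fun _ => (ξ : K)))) * F := by
    funext χ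
    simp [Finset.prod_apply]
  rw [h1]
  refine Subring.mul_mem _ (Subring.prod_mem _ ?_) hF
  intro ξ hξ
  refine Subring.sub_mem _ ?_ ?_
  · exact Subring.subset_closure (Or.inl ⟨r, rfl⟩)
  · exact Subring.subset_closure (Or.inr ⟨(ξ : K), (norm_root ξ (hV ξ hξ)).le, rfl⟩)

/-- **Averaging.**  There is `r` with `cost S r + Φ_k(surv S r) ≤ Φ_{k+1}(S)`.
Proof.  `∑_r (cost S r + Φ_k(surv S r)) ≤ |R| Φ_{k+1}(S) = ∑_r Φ_{k+1}(S)` by `sum_cost_le` and
`sum_Phi_surv`; use `Finset.exists_le_of_sum_le` (with `Finset.univ_nonempty`). -/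
theorem exists_good_r [Field K] [CommGroup R] [Fintype R] {p A : ℕ} (hp : p.Prime)
    (hA : Nat.card R = p ^ A) (S : Finset (R →* Kˣ)) (k : ℕ) :
    ∃ r, cost S r + Phi (surv S r) p A k ≤ Phi S p A (k + 1) := by
  have h1 := sum_cost_le hp hA S
  have h2 := sum_Phi_surv S p A k
  have h3 : ∑ r, (cost S r + Phi (surv S r) p A k) ≤ ∑ _r : R, Phi S p A (k + 1) := by
    rw [Finset.sum_add_distrib, Finset.sum_const, Finset.card_univ, nsmul_eq_mul,
      ← Nat.card_eq_fintype_card]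
    nlinarith [h1, h2]
  obtain ⟨r, _, hr⟩ := Finset.exists_le_of_sum_le (Finset.univ_nonempty (α := R)) h3
  exact ⟨r, hr⟩

theorem il4_logb_one_sub_nonneg [NormedField K] [IsUltrametricDist K] [CommGroup R] [Fintype R]
    {p A : ℕ} [Fact p.Prime] (hpK : ‖(p : K)‖ = (p : ℝ)⁻¹) (hA : Nat.card R = p ^ A)
    (θ : R →* Kˣ) (r : R) (h : θ r ≠ 1) :
    -Real.logb p ‖1 - ((θ r : Kˣ) : K)‖ = 1 / (Nat.totient (orderOf (θ r)) : ℝ) := by
  obtain ⟨s, hs, hs'⟩ := orderOf_val (Fact.out : p.Prime) hA θ r h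
  rw [hs']
  exact logb_one_sub hpK (Finset.mem_Icc.mp hs).1 hs'

theorem il4_ne [NormedField K] {u : Kˣ} (h : u ≠ 1) : (1 : K) - (u : K) ≠ 0 := by
  intro h0
  apply h
  apply Units.ext
  rw [Units.val_one]
  exact (sub_eq_zero.mp h0).symm

/-- **Interpolation lemma (trivial character).**

Proof.  Induction on `k`, for all `S`.

`k = 0`.  `Phi S p A 0 = (number of θ ∈ S) / (p - 1)`: the double sum is empty,
`MM S p 0 0 = S.card` since `p ^ 0 = 1 ≤ Nat.card θ.range` always (`Nat.card_pos`, the range is finite)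
and `x ^ 0 = 1`.  For every `θ ∈ S` choose `r_θ` with `θ r_θ ≠ 1` (`θ ≠ 1`), and put
`F χ = ∏_{θ ∈ S} (χ r_θ - θ r_θ)`; it is good (product of `good_factor`s with `V = {θ r_θ}`, by
`Finset.induction_on` or `Subring.prod_mem`), it vanishes on `S`, and
`F 1 = ∏ (1 - θ r_θ) ≠ 0`; `- log_p ‖F 1‖ = ∑ - log_p ‖1 - θ r_θ‖ = ∑ 1 / φ(p ^ s_θ)`
(`logb_one_sub`, `orderOf_val`) and `φ(p ^ s) ≥ p - 1` for `s ≥ 1` (`Nat.totient_prime_pow`).

`k → k + 1`.  Take `r` from `exists_good_r`, and `F'` from the induction hypothesis for `surv S r`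
(it does not contain `1`).  Put `F χ = ∏_{ξ ∈ vals S r} (χ r - ξ) * F' χ`.  Good by `good_factor`.
For `θ ∈ S`: if `θ r = 1` then `θ ∈ surv S r` and `F' θ = 0`; else `θ r ∈ vals S r` and the product
vanishes.  `F 1 = ∏ (1 - ξ) * F' 1 ≠ 0` as `1 ∉ vals S r`, and
`- log_p ‖F 1‖ = ∑_ξ - log_p ‖1 - ξ‖ - log_p ‖F' 1‖ = cost S r - log_p ‖F' 1‖` by `logb_one_sub`
(`norm_mul`, `norm_prod`, `Real.logb_mul`, `Real.logb_prod`). -/
theorem interp_one [NormedField K] [IsUltrametricDist K] [CommGroup R] [Fintype R] {p A : ℕ}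
    [Fact p.Prime] (hpK : ‖(p : K)‖ = (p : ℝ)⁻¹) (hA : Nat.card R = p ^ A) (k : ℕ) :
    ∀ S : Finset (R →* Kˣ), (1 : R →* Kˣ) ∉ S →
      ∃ F ∈ Good K R, (∀ θ ∈ S, F θ = 0) ∧ F 1 ≠ 0 ∧ -Real.logb p ‖F 1‖ ≤ Phi S p A k := by
  classical
  have hp : p.Prime := Fact.out
  have hp1 : (1 : ℝ) < (p : ℝ) := by exact_mod_cast hp.one_lt
  have hfin : ∀ (θ : R →* Kˣ) (r : R), IsOfFinOrder (θ r) := fun θ r =>
    MonoidHom.isOfFinOrder θ (isOfFinOrder_of_finite r)
  induction k with
  | zero =>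
    intro S hS
    have hPhi : Phi S p A 0 = (S.card : ℝ) / (p - 1) := by
      unfold Phi MM
      have h1 : S.filter (fun θ => p ^ 0 ≤ Nat.card θ.range) = S := by
        refine Finset.filter_true_of_mem ?_
        intro θ _
        rw [pow_zero]
        haveI : Finite θ.range := (Set.finite_range θ).to_subtype
        exact Nat.card_pos
      rw [h1]
      simp
    rw [hPhi]
    clear hPhi
    induction S using Finset.induction_on with
    | empty =>
      refine ⟨1, Subring.one_mem _, by simp, by simp, by simp⟩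
    | insert θ S hθ ih =>
      have hθ1 : θ ≠ 1 := fun h => hS (h ▸ Finset.mem_insert_self _ _)
      have hS1 : (1 : R →* Kˣ) ∉ S := fun h => hS (Finset.mem_insert_of_mem h)
      obtain ⟨F, hF, hF0, hF1, hF2⟩ := ih hS1
      obtain ⟨r, hr⟩ : ∃ r, θ r ≠ 1 := by
        by_contra hc
        push Not at hc
        exact hθ1 (MonoidHom.ext fun r => by rw [hc r]; rfl)
      have hg := good_factor hF r {θ r} (by
        intro ξ hξ
        rw [Finset.mem_singleton.mp hξ]
        exact hfin θ r)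
      refine ⟨_, hg, ?_, ?_, ?_⟩
      · intro θ' hθ'
        rcases Finset.mem_insert.mp hθ' with rfl | hθ'
        · simp
        · simp [hF0 θ' hθ']
      · simp only [Finset.prod_singleton, MonoidHom.one_apply, Units.val_one]
        exact mul_ne_zero (il4_ne hr) hF1
      · simp only [Finset.prod_singleton, MonoidHom.one_apply, Units.val_one]
        rw [norm_mul, Real.logb_mul (norm_ne_zero_iff.mpr (il4_ne hr)) (norm_ne_zero_iff.mpr hF1),
          neg_add, Finset.card_insert_of_notMem hθ]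
        have h2 : -Real.logb p ‖1 - ((θ r : Kˣ) : K)‖ ≤ 1 / ((p : ℝ) - 1) := by
          obtain ⟨s, hs, hs'⟩ := orderOf_val hp hA θ r hr
          rw [logb_one_sub hpK (Finset.mem_Icc.mp hs).1 hs']
          have hs1 : 1 ≤ s := (Finset.mem_Icc.mp hs).1
          rw [Nat.totient_prime_pow hp (by omega)]
          have h3 : (0 : ℝ) < (p : ℝ) - 1 := by linarith
          refine one_div_le_one_div_of_le h3 ?_
          rw [Nat.cast_mul, Nat.cast_sub hp.one_le, Nat.cast_one, Nat.cast_pow]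
          have h4 : (1 : ℝ) ≤ (p : ℝ) ^ (s - 1) := one_le_pow₀ hp1.le
          nlinarith
        have h5 : (((S.card + 1 : ℕ) : ℝ)) / ((p : ℝ) - 1)
            = 1 / ((p : ℝ) - 1) + (S.card : ℝ) / ((p : ℝ) - 1) := by
          push_cast
          ring
        rw [h5]
        exact add_le_add h2 hF2
  | succ k ih =>
    intro S hS
    obtain ⟨r, hr⟩ := exists_good_r hp hA S k
    have hS' : (1 : R →* Kˣ) ∉ surv S r := by
      intro h
      unfold surv at h
      exact hS (Finset.mem_filter.mp h).1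
    obtain ⟨F, hF, hF0, hF1, hF2⟩ := ih (surv S r) hS'
    have hval : ∀ ξ ∈ vals S r, ξ ≠ 1 ∧ ∃ θ ∈ S, θ r = ξ := by
      intro ξ hξ
      unfold vals at hξ
      obtain ⟨h1, h2⟩ := Finset.mem_erase.mp hξ
      obtain ⟨θ, h3, h4⟩ := Finset.mem_image.mp h2
      exact ⟨h1, θ, h3, h4⟩
    have hg := good_factor hF r (vals S r) (by
      intro ξ hξ
      obtain ⟨_, θ, _, h4⟩ := hval ξ hξ
      rw [← h4]
      exact hfin θ r)
    have hprod0 : ∏ ξ ∈ vals S r, ((1 : K) - (ξ : K)) ≠ 0 := by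
      refine Finset.prod_ne_zero_iff.mpr ?_
      intro ξ hξ
      exact il4_ne (hval ξ hξ).1
    refine ⟨_, hg, ?_, ?_, ?_⟩
    · intro θ hθ
      by_cases h1 : θ r = 1
      · have h2 : θ ∈ surv S r := by
          unfold surv
          exact Finset.mem_filter.mpr ⟨hθ, h1⟩
        show _ * F θ = 0
        rw [hF0 θ h2, mul_zero]
      · have h2 : θ r ∈ vals S r := by
          unfold vals
          exact Finset.mem_erase.mpr ⟨h1, Finset.mem_image.mpr ⟨θ, hθ, rfl⟩⟩
        show (∏ ξ ∈ vals S r, (((θ r : Kˣ) : K) - (ξ : K))) * F θ = 0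
        rw [Finset.prod_eq_zero h2 (sub_self _), zero_mul]
    · simp only [MonoidHom.one_apply, Units.val_one]
      exact mul_ne_zero hprod0 hF1
    · simp only [MonoidHom.one_apply, Units.val_one]
      rw [norm_mul, Real.logb_mul (norm_ne_zero_iff.mpr hprod0) (norm_ne_zero_iff.mpr hF1),
        neg_add]
      have h3 : -Real.logb p ‖∏ ξ ∈ vals S r, ((1 : K) - (ξ : K))‖ = cost S r := by
        unfold cost
        rw [norm_prod, Real.logb_prod (s := vals S r) (f := fun ξ => ‖(1 : K) - (ξ : K)‖)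
          (fun ξ hξ => norm_ne_zero_iff.mpr (il4_ne (hval ξ hξ).1)), ← Finset.sum_neg_distrib]
        refine Finset.sum_congr rfl ?_
        intro ξ hξ
        obtain ⟨h4, θ, _, h5⟩ := hval ξ hξ
        rw [← h5]
        exact il4_logb_one_sub_nonneg hpK hA θ r (by rw [h5]; exact h4)
      rw [h3]
      linarith

end H32E
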