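import Pool.Agent.Lib.H32E.PS0

/-!
# H32E / PS1: the exponent of the interpolation lemma

Chunk PS1 (real analysis of finite sums).
-/

set_option autoImplicit false

namespace H32E

/-- For a fixed `i ≥ 1`: `∑_{s=1}^A min(1, N / p ^ (s i)) ≤ L / i + 2`, `L = log_p N`.

Proof.  Let `m = ⌊L / i⌋₊`.  The terms with `s ≤ m` are at most `1`, their number is at most
`m ≤ L / i`.  For `s ≥ m + 1` write `s = m + 1 + j`, `j ≥ 0`:
`N / p ^ (s i) = p ^ (L - s i) ≤ p ^ (- j i) ≤ 2 ^ (-j)` since `L < (m + 1) i`; the sum of these terms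
is at most `∑_j 2 ^ (-j) ≤ 2`.  In Lean it may be easier to prove by induction on `A` the inequality
`∑_{s=1}^A min(1, N / p ^ (s i)) ≤ min A m + 2 (1 - 2 ^ (-(A - m)))` (natural subtraction), or to split
`Finset.Icc 1 A` by the predicate `s ≤ m` and to bound the second part by
`∑_{s ∈ Icc 1 A, m < s} (1/2) ^ (s - m - 1) ≤ ∑_{j ∈ range A} (1/2) ^ j ≤ 2` (injection
`s ↦ s - m - 1`; `sum_geometric_two_le`). -/
theorem sum_min_le {p N i A : ℕ} (hp : 2 ≤ p) (hN : 1 ≤ N) (hi : 1 ≤ i) :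
    ∑ s ∈ Finset.Icc 1 A, min (1 : ℝ) (N / (p : ℝ) ^ (s * i)) ≤ Real.logb p N / i + 2 := by
  have hp1 : (1 : ℝ) < p := by exact_mod_cast (by omega : 1 < p)
  have hp0 : (0 : ℝ) < p := by linarith
  have hN0 : (0 : ℝ) < N := by exact_mod_cast (by omega : 0 < N)
  have hN1 : (1 : ℝ) ≤ N := by exact_mod_cast hN
  have hi0 : (0 : ℝ) < i := by exact_mod_cast (by omega : 0 < i)
  set L : ℝ := Real.logb p N with hL
  have hL0 : 0 ≤ L := Real.logb_nonneg hp1 hN1
  have hLN : (p : ℝ) ^ L = N := Real.rpow_logb hp0 hp1.ne' hN0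
  set m : ℕ := ⌊L / i⌋₊ with hm
  have hm1 : (m : ℝ) ≤ L / i := Nat.floor_le (by positivity)
  have hm2 : L / i < m + 1 := Nat.lt_floor_add_one _
  have hm3 : L < (m + 1) * i := by
    rwa [div_lt_iff₀ hi0] at hm2
  rw [← Finset.sum_filter_add_sum_filter_not (Finset.Icc 1 A) (fun s => s ≤ m)]
  have h1 : ∑ s ∈ (Finset.Icc 1 A).filter (fun s => s ≤ m), min (1 : ℝ) (N / (p : ℝ) ^ (s * i)) ≤
      L / i := by
    calc ∑ s ∈ (Finset.Icc 1 A).filter (fun s => s ≤ m), min (1 : ℝ) (N / (p : ℝ) ^ (s * i))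
        ≤ ∑ s ∈ (Finset.Icc 1 A).filter (fun s => s ≤ m), (1 : ℝ) :=
          Finset.sum_le_sum fun s _ => min_le_left _ _
      _ = ((Finset.Icc 1 A).filter (fun s => s ≤ m)).card := by simp
      _ ≤ (m : ℝ) := by
          have h2 : (Finset.Icc 1 A).filter (fun s => s ≤ m) ⊆ Finset.Icc 1 m := by
            intro s hs
            rw [Finset.mem_filter, Finset.mem_Icc] at hs
            rw [Finset.mem_Icc]
            exact ⟨hs.1.1, hs.2⟩
          have h3 := Finset.card_le_card h2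
          rw [Nat.card_Icc, Nat.add_sub_cancel] at h3
          exact_mod_cast h3
      _ ≤ L / i := hm1
  have h2 : ∑ s ∈ (Finset.Icc 1 A).filter (fun s => ¬ s ≤ m), min (1 : ℝ) (N / (p : ℝ) ^ (s * i)) ≤
      2 := by
    calc ∑ s ∈ (Finset.Icc 1 A).filter (fun s => ¬ s ≤ m), min (1 : ℝ) (N / (p : ℝ) ^ (s * i))
        ≤ ∑ s ∈ (Finset.Icc 1 A).filter (fun s => ¬ s ≤ m), (1 / 2 : ℝ) ^ (s - m - 1) := by
          refine Finset.sum_le_sum fun s hs => ?_
          rw [Finset.mem_filter, Finset.mem_Icc, not_le] at hs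
          refine le_trans (min_le_right _ _) ?_
          obtain ⟨j, hj⟩ : ∃ j, s = m + 1 + j := ⟨s - (m + 1), by omega⟩
          have hj2 : s - m - 1 = j := by omega
          rw [hj2]
          have h3 : (N : ℝ) ≤ (p : ℝ) ^ ((m + 1) * i) := by
            rw [← hLN, ← Real.rpow_natCast]
            apply Real.rpow_le_rpow_of_exponent_le hp1.le
            push_cast
            exact hm3.le
          have h4 : (p : ℝ) ^ (s * i) = (p : ℝ) ^ ((m + 1) * i) * (p : ℝ) ^ (j * i) := by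
            rw [← pow_add]
            congr 1
            rw [hj]
            ring
          have h5 : (2 : ℝ) ^ j ≤ (p : ℝ) ^ (j * i) := by
            calc (2 : ℝ) ^ j ≤ (p : ℝ) ^ j := by
                  apply pow_le_pow_left₀ (by norm_num)
                  exact_mod_cast hp
              _ ≤ (p : ℝ) ^ (j * i) := by
                  apply pow_le_pow_right₀ hp1.le
                  exact Nat.le_mul_of_pos_right _ (by omega)
          have h6 : (0 : ℝ) < (p : ℝ) ^ ((m + 1) * i) := by positivity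
          have h7 : (0 : ℝ) < (p : ℝ) ^ (j * i) := by positivity
          have h8 : (0 : ℝ) < (2 : ℝ) ^ j := by positivity
          rw [h4, one_div, inv_pow, div_le_iff₀ (by positivity)]
          have h9 : (1 : ℝ) ≤ ((2 : ℝ) ^ j)⁻¹ * (p : ℝ) ^ (j * i) := by
            rw [inv_mul_eq_div, one_le_div h8]
            exact h5
          calc (N : ℝ) ≤ (p : ℝ) ^ ((m + 1) * i) := h3
            _ = (p : ℝ) ^ ((m + 1) * i) * 1 := by ring
            _ ≤ (p : ℝ) ^ ((m + 1) * i) * (((2 : ℝ) ^ j)⁻¹ * (p : ℝ) ^ (j * i)) :=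
                mul_le_mul_of_nonneg_left h9 h6.le
            _ = ((2 : ℝ) ^ j)⁻¹ * ((p : ℝ) ^ ((m + 1) * i) * (p : ℝ) ^ (j * i)) := by ring
      _ = ∑ j ∈ ((Finset.Icc 1 A).filter (fun s => ¬ s ≤ m)).image (fun s => s - m - 1),
            (1 / 2 : ℝ) ^ j := by
          rw [Finset.sum_image]
          intro a ha b hb hab
          rw [Finset.mem_coe, Finset.mem_filter, not_le] at ha hb
          simp only at hab
          omega
      _ ≤ ∑ j ∈ Finset.range A, (1 / 2 : ℝ) ^ j := by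
          apply Finset.sum_le_sum_of_subset_of_nonneg
          · intro j hj
            rw [Finset.mem_image] at hj
            obtain ⟨s, hs, rfl⟩ := hj
            rw [Finset.mem_filter, Finset.mem_Icc, not_le] at hs
            rw [Finset.mem_range]
            omega
          · intro j _ _
            positivity
      _ ≤ 2 := sum_geometric_two_le A
  linarith

/-- The double sum with `k = ⌈L⌉₊`.

Proof.  If `N = 1` then `L = 0`, `k = 0` and the left side is `1 / (p - 1) ≤ 1 ≤ kap p 1 = 3`.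
If `N ≥ 2` then `L > 0`, `1 ≤ k < L + 1`, `N ≤ p ^ k`, so the last term is at most
`1 / (p - 1) ≤ 1`, and by `sum_min_le` the double sum is at most `L ∑_{i=1}^k 1 / i + 2 k`, where
`∑_{i=1}^k 1/i ≤ 1 + log k ≤ 1 + log (L + 1)` (`harmonic_le_one_add_log`, `harmonic_eq_sum_Icc`). -/
theorem kap_bound {p N A : ℕ} (hp : 2 ≤ p) (hN : 1 ≤ N) :
    (∑ i ∈ Finset.Icc 1 ⌈Real.logb p N⌉₊, ∑ s ∈ Finset.Icc 1 A,
        min (1 : ℝ) (N / (p : ℝ) ^ (s * i))) +
      N / (p : ℝ) ^ ⌈Real.logb p N⌉₊ / (p - 1) ≤ kap p N := by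
  have hp1 : (1 : ℝ) < p := by exact_mod_cast (by omega : 1 < p)
  have hp0 : (0 : ℝ) < p := by linarith
  have hN0 : (0 : ℝ) < N := by exact_mod_cast (by omega : 0 < N)
  have hN1 : (1 : ℝ) ≤ N := by exact_mod_cast hN
  have hp2 : (2 : ℝ) ≤ p := by exact_mod_cast hp
  unfold kap
  set L : ℝ := Real.logb p N with hL
  have hL0 : 0 ≤ L := Real.logb_nonneg hp1 hN1
  have hLN : (p : ℝ) ^ L = N := Real.rpow_logb hp0 hp1.ne' hN0
  set k : ℕ := ⌈L⌉₊ with hk
  have hk1 : L ≤ k := Nat.le_ceil _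
  have hk2 : (k : ℝ) < L + 1 := Nat.ceil_lt_add_one hL0
  have hpk : (0 : ℝ) < (p : ℝ) ^ k := by positivity
  have h1 : N / (p : ℝ) ^ k / (p - 1) ≤ 1 := by
    have h2 : (N : ℝ) ≤ (p : ℝ) ^ k := by
      rw [← hLN, ← Real.rpow_natCast]
      exact Real.rpow_le_rpow_of_exponent_le hp1.le hk1
    have h3 : N / (p : ℝ) ^ k ≤ 1 := (div_le_one hpk).2 h2
    rw [div_le_one (by linarith)]
    linarith
  have hlog : 0 ≤ Real.log (L + 1) := Real.log_nonneg (by linarith)
  have h2 : ∑ i ∈ Finset.Icc 1 k, ∑ s ∈ Finset.Icc 1 A, min (1 : ℝ) (N / (p : ℝ) ^ (s * i)) ≤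
      ∑ i ∈ Finset.Icc 1 k, (L * ((i : ℝ))⁻¹ + 2) := by
    refine Finset.sum_le_sum fun i hi => ?_
    rw [Finset.mem_Icc] at hi
    have h := sum_min_le (A := A) hp hN hi.1
    rw [div_eq_mul_inv] at h
    exact h
  have h3 : ∑ i ∈ Finset.Icc 1 k, (L * ((i : ℝ))⁻¹ + 2) =
      L * ∑ i ∈ Finset.Icc 1 k, ((i : ℝ))⁻¹ + 2 * k := by
    rw [Finset.sum_add_distrib, Finset.mul_sum, Finset.sum_const, Nat.card_Icc, Nat.add_sub_cancel,
      nsmul_eq_mul]
    ring
  have h4 : ∑ i ∈ Finset.Icc 1 k, ((i : ℝ))⁻¹ ≤ 1 + Real.log (L + 1) := by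
    rcases Nat.eq_zero_or_pos k with h0 | h0
    · rw [h0]
      simp only [Finset.Icc_eq_empty_of_lt zero_lt_one, Finset.sum_empty]
      linarith
    · have h5 := harmonic_le_one_add_log k
      rw [harmonic_eq_sum_Icc] at h5
      push_cast at h5
      refine le_trans h5 ?_
      have h6 : Real.log k ≤ Real.log (L + 1) :=
        Real.log_le_log (by exact_mod_cast h0) hk2.le
      linarith
  have h5 : L * ∑ i ∈ Finset.Icc 1 k, ((i : ℝ))⁻¹ ≤ L * (1 + Real.log (L + 1)) :=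
    mul_le_mul_of_nonneg_left h4 hL0
  rw [h3] at h2
  linarith

end H32E
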