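import Pool.Agent.Lib.H32E.IL4
import Pool.Agent.Lib.H32E.PS1

/-!
# H32E / IL5: the interpolation property

Chunk IL5.
-/

set_option autoImplicit false

open Module

namespace H32E

/-- The twist of a good function by a character of finite order is good.

Proof.  `T : ((R →* Kˣ) → K) →+* ((R →* Kˣ) → K)`, `(T F) χ = F (χ * l)` is a ring homomorphism
(`Pi.ringHom`, or a composition of maps), it maps the generators to good functions: the generator
`χ ↦ χ r` goes to `χ ↦ χ r * l r`, a product of a generator and the constant `l r` of norm `1`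
(`norm_root`); the constants go to themselves.  Use `Subring.closure_induction`, or
`Subring.closure_le` for the comap of `Good K R` under `T`. -/
theorem good_twist {K R : Type*} [NormedField K] [CommGroup R] [Finite R] (l : R →* Kˣ)
    {F : (R →* Kˣ) → K} (hF : F ∈ Good K R) : (fun χ => F (χ * l)) ∈ Good K R := by
  have key : ∀ F ∈ Subring.closure ({f | ∃ r : R, f = fun χ : R →* Kˣ => ((χ r : Kˣ) : K)} ∪
      {f | ∃ c : K, ‖c‖ ≤ 1 ∧ f = fun _ => c}), (fun χ => F (χ * l)) ∈ Good K R := by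
    intro F hF
    induction hF using Subring.closure_induction with
    | mem f hf =>
      rcases hf with ⟨r, rfl⟩ | ⟨c, hc, rfl⟩
      · have h1 : (fun χ : R →* Kˣ => (((χ * l) r : Kˣ) : K)) =
            (fun χ : R →* Kˣ => ((χ r : Kˣ) : K)) * (fun _ => ((l r : Kˣ) : K)) := by
          funext χ
          simp
        rw [h1]
        refine Subring.mul_mem _ (Subring.subset_closure (Or.inl ⟨r, rfl⟩))
          (Subring.subset_closure (Or.inr ⟨_, ?_, rfl⟩))
        exact (norm_root _ (MonoidHom.isOfFinOrder l (isOfFinOrder_of_finite r))).le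
      · exact Subring.subset_closure (Or.inr ⟨c, hc, rfl⟩)
    | zero => exact Subring.zero_mem _
    | one => exact Subring.one_mem _
    | add f g _ _ hf hg => exact Subring.add_mem _ hf hg
    | neg f _ hf => exact Subring.neg_mem _ hf
    | mul f g _ _ hf hg => exact Subring.mul_mem _ hf hg
  exact key F hF

/-- `MM S p i s ≤ |S| / p ^ (s i)`.  Proof: every term has `Nat.card θ.range ≥ p ^ s`. -/
theorem MM_le {K R : Type*} [Field K] [CommGroup R] (S : Finset (R →* Kˣ)) {p : ℕ}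
    (hp : 0 < p) (i s : ℕ) : MM S p i s ≤ S.card / (p : ℝ) ^ (s * i) := by
  classical
  unfold MM
  have hp' : (0 : ℝ) < p := by exact_mod_cast hp
  have h1 : ∀ θ ∈ S.filter (fun θ => p ^ s ≤ Nat.card θ.range),
      (1 / (Nat.card θ.range : ℝ)) ^ i ≤ 1 / (p : ℝ) ^ (s * i) := by
    intro θ hθ
    have h2 := (Finset.mem_filter.mp hθ).2
    have h3 : ((p : ℝ) ^ s) ≤ Nat.card θ.range := by exact_mod_cast h2
    have h4 : (0 : ℝ) < (p : ℝ) ^ s := by positivity
    rw [pow_mul, ← one_div_pow]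
    refine pow_le_pow_left₀ (by positivity) ?_ i
    exact one_div_le_one_div_of_le h4 h3
  have h5 := Finset.sum_le_sum h1
  rw [Finset.sum_const, nsmul_eq_mul] at h5
  have h6 : (((S.filter (fun θ => p ^ s ≤ Nat.card θ.range)).card : ℕ) : ℝ) ≤ S.card := by
    exact_mod_cast Finset.card_filter_le _ _
  refine le_trans (le_of_eq ?_) (h5.trans ?_)
  · refine Finset.sum_congr ?_ fun _ _ => rfl
    ext θ
    simp
  · rw [mul_one_div]
    exact div_le_div_of_nonneg_right h6 (by positivity)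

/-- If all characters of `S` are nontrivial then `MM S p k 0 ≤ |S| / p ^ k`.
Proof: `Nat.card θ.range` divides `Nat.card R = p ^ A` (`Subgroup.card_range_dvd`), it is not `1`
(else `θ = 1`), so it is at least `p`. -/
theorem MM_zero_le {K R : Type*} [Field K] [CommGroup R] [Finite R] (S : Finset (R →* Kˣ))
    {p A : ℕ} (hp : p.Prime) (hA : Nat.card R = p ^ A) (hS : (1 : R →* Kˣ) ∉ S) (k : ℕ) :
    MM S p k 0 ≤ S.card / (p : ℝ) ^ k := by
  classical
  unfold MM
  have hp' : (0 : ℝ) < p := by exact_mod_cast hp.pos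
  have h1 : ∀ θ ∈ S.filter (fun θ => p ^ 0 ≤ Nat.card θ.range),
      (1 / (Nat.card θ.range : ℝ)) ^ k ≤ 1 / (p : ℝ) ^ k := by
    intro θ hθ
    have h2 := (Finset.mem_filter.mp hθ).1
    have hne : θ ≠ 1 := fun h => hS (h ▸ h2)
    have hdvd : Nat.card θ.range ∣ p ^ A := hA ▸ Subgroup.card_range_dvd θ
    obtain ⟨m, _, hm⟩ := (Nat.dvd_prime_pow hp).1 hdvd
    have hm0 : m ≠ 0 := by
      rintro rfl
      rw [pow_zero] at hm
      rw [Subgroup.card_eq_one] at hm
      exact hne (MonoidHom.range_eq_bot_iff.mp hm)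
    have h3 : p ≤ Nat.card θ.range := by
      rw [hm]
      exact Nat.le_self_pow hm0 p
    have h3' : (p : ℝ) ≤ Nat.card θ.range := by exact_mod_cast h3
    rw [← one_div_pow]
    refine pow_le_pow_left₀ (by positivity) ?_ k
    exact one_div_le_one_div_of_le hp' h3'
  have h5 := Finset.sum_le_sum h1
  rw [Finset.sum_const, nsmul_eq_mul] at h5
  have h6 : (((S.filter (fun θ => p ^ 0 ≤ Nat.card θ.range)).card : ℕ) : ℝ) ≤ S.card := by
    exact_mod_cast Finset.card_filter_le _ _
  refine le_trans (le_of_eq ?_) (h5.trans ?_)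
  · refine Finset.sum_congr ?_ fun _ _ => rfl
    ext θ
    simp
  · rw [mul_one_div]
    exact div_le_div_of_nonneg_right h6 (by positivity)

/-- The common part of the two interpolation theorems. -/
theorem il5_core {K : Type} [NormedField K] [IsUltrametricDist K] {p N : ℕ}
    [Fact p.Prime] (hpK : ‖(p : K)‖ = (p : ℝ)⁻¹) (_hN : 1 ≤ N) (x : ℝ) (k : ℕ)
    (hx : ∀ (R : Type) [CommGroup R] [Finite R] (A : ℕ), Nat.card R = p ^ A →
      ∀ S : Finset (R →* Kˣ), (1 : R →* Kˣ) ∉ S → (S.card : ℝ) ≤ N - 1 → Phi S p A k ≤ x) :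
    Interp K p N ((p : ℝ) ^ x) := by
  classical
  intro R _ _ hR Λ hΛ l hl
  obtain ⟨A, hA⟩ := IsPGroup.iff_card.mp hR
  have := Fintype.ofFinite R
  set S : Finset (R →* Kˣ) := (Λ.erase l).image (fun m => m * l⁻¹) with hS
  have h1S : (1 : R →* Kˣ) ∉ S := by
    intro h
    obtain ⟨m, hm, hm1⟩ := Finset.mem_image.mp h
    exact (Finset.mem_erase.mp hm).1 (mul_inv_eq_one.mp hm1)
  have hcard : S.card + 1 ≤ N := by
    have h2 : S.card ≤ (Λ.erase l).card := Finset.card_image_le
    rw [Finset.card_erase_of_mem hl] at h2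
    have h3 : 0 < Λ.card := Finset.card_pos.mpr ⟨l, hl⟩
    omega
  have hcard' : (S.card : ℝ) ≤ N - 1 := by
    have : ((S.card + 1 : ℕ) : ℝ) ≤ N := by exact_mod_cast hcard
    push_cast at this
    linarith
  obtain ⟨F, hF, hF0, hF1, hF2⟩ := interp_one (K := K) (R := R) hpK hA k S h1S
  have hle := hF2.trans (hx R A hA S h1S hcard')
  refine ⟨fun χ => F (χ * l⁻¹), good_twist l⁻¹ hF, ?_, ?_⟩
  · intro m hm hml
    refine hF0 _ (Finset.mem_image.mpr ⟨m, Finset.mem_erase.mpr ⟨hml, hm⟩, rfl⟩)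
  · have hp1 : (1 : ℝ) < p := by exact_mod_cast (Fact.out : p.Prime).one_lt
    have hp0 : (0 : ℝ) < p := by linarith
    have hy : 0 < ‖F 1‖ := norm_pos_iff.mpr hF1
    have h3 : l * l⁻¹ = 1 := by
      ext r
      simp
    change 1 ≤ (p : ℝ) ^ x * ‖F (l * l⁻¹)‖
    rw [h3]
    have h2 : ‖F 1‖ = (p : ℝ) ^ (Real.logb p ‖F 1‖) :=
      (Real.rpow_logb hp0 hp1.ne' hy).symm
    rw [h2, ← Real.rpow_add hp0]
    refine Real.one_le_rpow hp1.le ?_
    linarith

/-- **Interpolation property, crude form**: `Θ = p ^ ((N - 1) / (p - 1))`.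

Proof.  Let `R`, `Λ`, `l ∈ Λ` be given (`Fintype.ofFinite`; `Nat.card R = p ^ A` by
`IsPGroup.iff_card`).  Let `S` be the image of `Λ.erase l` under `m ↦ m * l⁻¹`; it has at most
`N - 1` elements and does not contain `1`.  `interp_one` with `k = 0` gives `F₀`, and
`- logb p ‖F₀ 1‖ ≤ Phi S p A 0 ≤ (N - 1) / (p - 1)` (the sum over `i` is empty, and `MM_le` with
`i = s = 0`).  Put `F χ = F₀ (χ * l⁻¹)` (`good_twist`).  Then `F m = 0` for `m ∈ Λ`, `m ≠ l`,
`F l = F₀ 1`, and `1 ≤ p ^ x * ‖F₀ 1‖` when `- logb p ‖F₀ 1‖ ≤ x`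
(`‖F₀ 1‖ = p ^ (logb p ‖F₀ 1‖)`, `Real.rpow_logb`, `Real.rpow_add`). -/
theorem interp_crude {K : Type} [NormedField K] [IsUltrametricDist K] {p N : ℕ}
    [Fact p.Prime] (hpK : ‖(p : K)‖ = (p : ℝ)⁻¹) (hN : 1 ≤ N) :
    Interp K p N ((p : ℝ) ^ (((N : ℝ) - 1) / ((p : ℝ) - 1))) := by
  refine il5_core hpK hN _ 0 ?_
  intro R _ _ A _ S _ hc
  have hp1 : (1 : ℝ) < p := by exact_mod_cast (Fact.out : p.Prime).one_lt
  have h1 := MM_le S (Fact.out : p.Prime).pos 0 0
  rw [mul_zero, pow_zero, div_one] at h1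
  unfold Phi
  rw [Finset.Icc_eq_empty (by norm_num), Finset.sum_empty, zero_add]
  exact div_le_div_of_nonneg_right (h1.trans hc) (by linarith)

/-- **Interpolation property, fine form**: `Θ = p ^ (kap p N)`.

Proof.  As `interp_crude` with `k = ⌈logb p N⌉₊`; now
`Phi S p A k ≤ ∑_i ∑_s min 1 (N / p ^ (s i)) + N / p ^ k / (p - 1) ≤ kap p N` by `MM_le` and
`MM_zero_le` (with `|S| ≤ N`) and `kap_bound`. -/
theorem interp_fine {K : Type} [NormedField K] [IsUltrametricDist K] {p N : ℕ}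
    [Fact p.Prime] (hpK : ‖(p : K)‖ = (p : ℝ)⁻¹) (hN : 1 ≤ N) :
    Interp K p N ((p : ℝ) ^ (kap p N)) := by
  refine il5_core hpK hN _ ⌈Real.logb p N⌉₊ ?_
  intro R _ _ A hA S h1 hc
  have hprime : p.Prime := Fact.out
  have hp1 : (1 : ℝ) < p := by exact_mod_cast hprime.one_lt
  have hp0 : (0 : ℝ) < p := by linarith
  have hcN : (S.card : ℝ) ≤ N := by linarith
  refine le_trans ?_ (kap_bound (A := A) hprime.two_le hN)
  unfold Phi
  refine add_le_add ?_ ?_
  · refine Finset.sum_le_sum fun i _ => Finset.sum_le_sum fun s _ => ?_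
    refine min_le_min le_rfl ((MM_le S hprime.pos i s).trans ?_)
    exact div_le_div_of_nonneg_right hcN (by positivity)
  · refine div_le_div_of_nonneg_right ((MM_zero_le S hprime hA h1 _).trans ?_) (by linarith)
    exact div_le_div_of_nonneg_right hcN (by positivity)

end H32E
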