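import Pool.Agent.Lib.H32E.E0

/-!
# H32E / NA1: self-centralising abelian normal subgroups of `p`-groups

Chunk NA1 (pure finite group theory).
-/

set_option autoImplicit false

namespace H32E

variable {H : Type*} [Group H] [Finite H]

/-- A `p`-group `Q` has an abelian normal subgroup `Y` that contains its centraliser in `Q`.

Proof.  Choose `Y ≤ Q`, commutative, normalised by `Q`, with `|Y|` maximal (`⊥` is one).  Let
`C = {x ∈ Q | x commutes with all y ∈ Y}`, a subgroup of `Q` containing `Y`, normalised by `Q`.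
Suppose `C ≠ Y`.  The `p`-group `Q` acts by conjugation on the nontrivial normal subgroup `C / Y` of
`Q / Y`; a nontrivial normal subgroup of a `p`-group meets the centre
(`IsPGroup.bot_lt_center`-type, or Mathlib: the action of a `p`-group on a finite set of size divisible by
`p` with a fixed point has another one, `IsPGroup.exists_fixed_point_of_prime_dvd_card_of_fixed_point`,
applied to the conjugation action of `Q` on the set of cosets `C / Y`, of order divisible by `p`).
So there is `x ∈ C \ Y` with `q x q⁻¹ ∈ x Y` for all `q ∈ Q`.  The subgroup `Y' = Y ⊔ ⟨x⟩` is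
commutative (`x` commutes with `Y`), normalised by `Q` and larger: contradiction. -/
theorem exists_self_centralizing {p : ℕ} [Fact p.Prime] (Q : Subgroup H) (hQ : IsPGroup p Q) :
    ∃ Y : Subgroup H, Y ≤ Q ∧ Comm Y ∧ Nrm Q Y ∧
      ∀ x ∈ Q, (∀ y ∈ Y, x * y = y * x) → x ∈ Y := by
  classical
  let S : Set (Subgroup H) := {Y | Y ≤ Q ∧ Comm Y ∧ Nrm Q Y}
  have hS : S.Nonempty := ⟨⊥, bot_le, by
    intro a ha b hb
    rw [Subgroup.mem_bot] at ha hb
    rw [ha, hb], by
    intro l _ n hn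
    rw [Subgroup.mem_bot] at hn ⊢
    rw [hn, mul_one, mul_inv_cancel]⟩
  obtain ⟨Y, ⟨hYQ, hYc, hYn⟩, hmax⟩ := (Set.toFinite S).exists_maximal hS
  refine ⟨Y, hYQ, hYc, hYn, ?_⟩
  by_contra hcon
  push Not at hcon
  obtain ⟨x₀, hx₀Q, hx₀c, hx₀Y⟩ := hcon
  have hYnormal : (Y.subgroupOf Q).Normal := by
    constructor
    intro n hn g
    rw [Subgroup.mem_subgroupOf] at hn ⊢
    exact hYn g g.2 n hn
  let C : Subgroup H := Q ⊓ Subgroup.centralizer (Y : Set H)
  have hCmem : ∀ x, x ∈ C ↔ x ∈ Q ∧ ∀ y ∈ Y, y * x = x * y := by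
    intro x
    rw [Subgroup.mem_inf, Subgroup.mem_centralizer_iff]
    rfl
  have hCnormal : (C.subgroupOf Q).Normal := by
    constructor
    intro n hn g
    rw [Subgroup.mem_subgroupOf] at hn ⊢
    rw [hCmem] at hn ⊢
    refine ⟨Q.mul_mem (Q.mul_mem g.2 hn.1) (Q.inv_mem g.2), ?_⟩
    intro y hy
    have h1 : (g : H)⁻¹ * y * g ∈ Y := by
      have := hYn (g : H)⁻¹ (Q.inv_mem g.2) y hy
      rwa [inv_inv] at this
    have h2 := hn.2 _ h1
    show y * ((g : H) * (n : H) * (g : H)⁻¹) = ((g : H) * (n : H) * (g : H)⁻¹) * y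
    calc y * ((g : H) * (n : H) * (g : H)⁻¹)
        = (g : H) * (((g : H)⁻¹ * y * g) * (n : H)) * (g : H)⁻¹ := by group
      _ = (g : H) * ((n : H) * ((g : H)⁻¹ * y * g)) * (g : H)⁻¹ := by rw [h2]
      _ = ((g : H) * (n : H) * (g : H)⁻¹) * y := by group
  let Y' : Subgroup Q := Y.subgroupOf Q
  let C' : Subgroup (Q ⧸ Y') := (C.subgroupOf Q).map (QuotientGroup.mk' Y')
  have hC'normal : C'.Normal := hCnormal.map _ (QuotientGroup.mk'_surjective Y')
  have hpC' : p ∣ Nat.card C' := by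
    have h1 : IsPGroup p C' := (hQ.to_quotient Y').to_subgroup C'
    rcases h1.card_eq_or_dvd with h2 | h2
    · exfalso
      have h3 : C' = ⊥ := Subgroup.card_eq_one.mp h2
      have h4 : (QuotientGroup.mk' Y' ⟨x₀, hx₀Q⟩) ∈ C' := by
        refine Subgroup.mem_map_of_mem _ ?_
        rw [Subgroup.mem_subgroupOf, hCmem]
        exact ⟨hx₀Q, fun y hy => (hx₀c y hy).symm⟩
      rw [h3, Subgroup.mem_bot, QuotientGroup.mk'_apply, QuotientGroup.eq_one_iff] at h4
      exact hx₀Y (Subgroup.mem_subgroupOf.mp h4)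
    · exact h2
  have hGp : IsPGroup p (ConjAct (Q ⧸ Y')) := hQ.to_quotient Y'
  have hone : (1 : C') ∈ MulAction.fixedPoints (ConjAct (Q ⧸ Y')) C' := fun g => smul_one g
  obtain ⟨b, hb, hb1⟩ :=
    hGp.exists_fixed_point_of_prime_dvd_card_of_fixed_point C' hpC' hone
  obtain ⟨x, hx, hxb⟩ := b.2
  have hxC : (x : H) ∈ C := hx
  rw [hCmem] at hxC
  have hconj : ∀ q ∈ Q, (x : H)⁻¹ * (q * x * q⁻¹) ∈ Y := by
    intro q hq
    have h1 := hb (ConjAct.toConjAct (QuotientGroup.mk' Y' ⟨q, hq⟩))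
    have h2 : (QuotientGroup.mk' Y' ⟨q, hq⟩) * (QuotientGroup.mk' Y' x) *
        (QuotientGroup.mk' Y' ⟨q, hq⟩)⁻¹ = QuotientGroup.mk' Y' x := by
      have h3 := congrArg (Subtype.val : C' → _) h1
      rw [ConjAct.Subgroup.val_conj_smul, ConjAct.smul_def, ConjAct.ofConjAct_toConjAct, ← hxb] at h3
      exact h3
    rw [← map_inv, ← map_mul, ← map_mul] at h2
    have h4 := QuotientGroup.eq.mp h2.symm
    exact Subgroup.mem_subgroupOf.mp h4
  have hxY : (x : H) ∈ Y := by
    let T : Set H := (Y : Set H) ∪ {(x : H)}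
    let Y₂ : Subgroup H := Subgroup.closure T
    have hYY₂ : Y ≤ Y₂ := fun y hy => Subgroup.subset_closure (Or.inl hy)
    have hxY₂ : (x : H) ∈ Y₂ := Subgroup.subset_closure (Or.inr rfl)
    have hTc : ∀ a ∈ T, ∀ b ∈ T, a * b = b * a := by
      rintro a (ha | ha) b (hb' | hb')
      · exact hYc a ha b hb'
      · rw [Set.mem_singleton_iff] at hb'
        rw [hb']
        exact hxC.2 a ha
      · rw [Set.mem_singleton_iff] at ha
        rw [ha]
        exact (hxC.2 b hb').symm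
      · rw [Set.mem_singleton_iff] at ha hb'
        rw [ha, hb']
    have h1 : ∀ a ∈ Y₂, ∀ b ∈ T, a * b = b * a := by
      intro a ha b hb'
      have h2 : Y₂ ≤ Subgroup.centralizer {b} := by
        rw [Subgroup.closure_le]
        intro c hc
        rw [SetLike.mem_coe, Subgroup.mem_centralizer_singleton_iff]
        exact hTc c hc b hb'
      have h3 := h2 ha
      rwa [Subgroup.mem_centralizer_singleton_iff] at h3
    have hcomm : Comm Y₂ := by
      intro a ha b hb'
      have h2 : Y₂ ≤ Subgroup.centralizer {b} := by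
        rw [Subgroup.closure_le]
        intro c hc
        rw [SetLike.mem_coe, Subgroup.mem_centralizer_singleton_iff]
        exact (h1 b hb' c hc).symm
      have h3 := h2 ha
      rwa [Subgroup.mem_centralizer_singleton_iff] at h3
    have hle : Y₂ ≤ Q := by
      rw [Subgroup.closure_le]
      rintro c (hc | hc)
      · exact hYQ hc
      · rw [Set.mem_singleton_iff] at hc
        rw [hc]
        exact x.2
    have hnrm : Nrm Q Y₂ := by
      intro l hl n hn
      have h2 : Y₂ ≤ Y₂.comap (MulAut.conj l).toMonoidHom := by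
        rw [Subgroup.closure_le]
        intro c hc
        rw [SetLike.mem_coe, Subgroup.mem_comap]
        show l * c * l⁻¹ ∈ Y₂
        rcases hc with hc | hc
        · exact hYY₂ (hYn l hl c hc)
        · rw [Set.mem_singleton_iff] at hc
          rw [hc]
          have h3 := Y₂.mul_mem hxY₂ (hYY₂ (hconj l hl))
          rwa [mul_inv_cancel_left] at h3
      exact h2 hn
    exact hmax ⟨hle, hcomm, hnrm⟩ hYY₂ hxY₂
  apply hb1
  apply Subtype.ext
  rw [← hxb]
  symm
  rw [QuotientGroup.mk'_apply]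
  exact (QuotientGroup.eq_one_iff x).mpr (Subgroup.mem_subgroupOf.mpr hxY)

/-- **The dichotomy.**  `B ≤ Q ≤ M`, `Q` a `p`-group normalised by `M`.  Either there is a commutative
`Y ≤ Q` normalised but not centralised by `B`, or `B` is contained in a commutative `R ≤ Q`
normalised by `M`.

Proof.  Let `R` be the intersection of all `Y` as in `exists_self_centralizing`
(`R = sInf {Y | Y ≤ Q ∧ Comm Y ∧ Nrm Q Y ∧ ∀ x ∈ Q, (∀ y ∈ Y, x * y = y * x) → x ∈ Y}`).
The set is not empty, so `R ≤ Q` and `R` is commutative.  For `m ∈ M` conjugation by `m` maps the set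
to itself (`cj m Q = Q` since `M` normalises `Q`), so `m R m⁻¹ ≤ R`.  If the first alternative fails,
`B` centralises every such `Y` (`B ≤ Q` normalises `Y`), so `B ≤ Y`.  Hence `B ≤ R`. -/
theorem dichotomy {p : ℕ} [Fact p.Prime] (M Q B : Subgroup H) (hBQ : B ≤ Q) (hQM : Q ≤ M)
    (hQn : Nrm M Q) (hQp : IsPGroup p Q) :
    (∃ Y : Subgroup H, Y ≤ Q ∧ Comm Y ∧ Nrm B Y ∧ ∃ b ∈ B, ∃ y ∈ Y, b * y ≠ y * b) ∨
    (∃ R : Subgroup H, B ≤ R ∧ R ≤ Q ∧ Comm R ∧ Nrm M R) := by
  by_cases hcase : ∃ Y : Subgroup H, Y ≤ Q ∧ Comm Y ∧ Nrm B Y ∧ ∃ b ∈ B, ∃ y ∈ Y, b * y ≠ y * b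
  · exact Or.inl hcase
  right
  push Not at hcase
  let S : Set (Subgroup H) := {Y | Y ≤ Q ∧ Comm Y ∧ Nrm Q Y ∧
    ∀ x ∈ Q, (∀ y ∈ Y, x * y = y * x) → x ∈ Y}
  obtain ⟨Y₀, hY₀⟩ : ∃ Y, Y ∈ S := exists_self_centralizing Q hQp
  refine ⟨sInf S, ?_, ?_, ?_, ?_⟩
  · apply le_sInf
    rintro Y ⟨hYQ, hYc, hYn, hYs⟩ b hb
    exact hYs b (hBQ hb) (fun y hy => hcase Y hYQ hYc (fun l hl => hYn l (hBQ hl)) b hb y hy)
  · exact (sInf_le hY₀).trans hY₀.1
  · intro a ha b hb
    exact hY₀.2.1 a (Subgroup.mem_sInf.mp ha _ hY₀) b (Subgroup.mem_sInf.mp hb _ hY₀)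
  · intro m hm n hn
    rw [Subgroup.mem_sInf] at hn ⊢
    intro Y hY
    obtain ⟨hYQ, hYc, hYn, hYs⟩ := hY
    have hQ1 : ∀ x ∈ Q, m⁻¹ * x * m ∈ Q := by
      intro x hx
      have := hQn m⁻¹ (M.inv_mem hm) x hx
      rwa [inv_inv] at this
    have h1 : cj m⁻¹ Y ∈ S := by
      refine ⟨?_, ?_, ?_, ?_⟩
      · intro x hx
        rw [mem_cj, inv_inv] at hx
        have h2 := hQ1 _ (hYQ hx)
        have h3 : m⁻¹ * (m * x * m⁻¹) * m = x := by group
        rwa [h3] at h2
      · intro a ha b hb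
        rw [mem_cj, inv_inv] at ha hb
        have h2 := hYc _ ha _ hb
        have h3 : m * (a * b) * m⁻¹ = m * (b * a) * m⁻¹ := by
          calc m * (a * b) * m⁻¹ = (m * a * m⁻¹) * (m * b * m⁻¹) := by group
            _ = (m * b * m⁻¹) * (m * a * m⁻¹) := h2
            _ = m * (b * a) * m⁻¹ := by group
        exact mul_left_cancel (mul_right_cancel h3)
      · intro l hl n hn
        rw [mem_cj, inv_inv] at hn ⊢
        have h2 := hYn _ (hQn m hm l hl) _ hn
        have h3 : m * l * m⁻¹ * (m * n * m⁻¹) * (m * l * m⁻¹)⁻¹ = m * (l * n * l⁻¹) * m⁻¹ := by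
          group
        rwa [h3] at h2
      · intro x hx hxc
        rw [mem_cj, inv_inv]
        apply hYs _ (hQn m hm x hx)
        intro y hy
        have h2 : m⁻¹ * y * m ∈ cj m⁻¹ Y := by
          rw [mem_cj, inv_inv]
          have h3 : m * (m⁻¹ * y * m) * m⁻¹ = y := by group
          rwa [h3]
        have h4 := hxc _ h2
        calc m * x * m⁻¹ * y = m * (x * (m⁻¹ * y * m)) * m⁻¹ := by group
          _ = m * ((m⁻¹ * y * m) * x) * m⁻¹ := by rw [h4]
          _ = y * (m * x * m⁻¹) := by group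
    have h2 := hn _ h1
    rwa [mem_cj, inv_inv] at h2

end H32E
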