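import Pool.Agent.Lib.H32E.MV1
import Pool.Agent.Lib.H32E.NA1

/-!
# H32E / MO1: weight spaces of a normal abelian subgroup and the permutation action

Chunk MO1.
-/

set_option autoImplicit false

open Module

namespace H32E

variable {K V G : Type*} [Field K] [IsAlgClosed K] [CharZero K] [AddCommGroup V] [Module K V]
  [FiniteDimensional K V] [Group G] [Finite G]

omit [IsAlgClosed K] [CharZero K] [FiniteDimensional K V] in
/-- The joint eigenspace. -/
def mo1_wt {K V Y : Type*} [Field K] [AddCommGroup V] [Module K V] (T : Y → End K V) (χ : Y → K) :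
    Submodule K V where
  carrier := {v | ∀ y, T y v = χ y • v}
  zero_mem' := fun y => by rw [map_zero, smul_zero]
  add_mem' := fun {a b} ha hb y => by rw [map_add, ha y, hb y, smul_add]
  smul_mem' := fun c {v} hv y => by rw [map_smul, hv y, smul_comm]

/-- The weight spaces of a finite commutative subgroup `Y`: there is a finite independent family of
nonzero subspaces with sum `V`, on each of which `Y` acts by scalars, maximal with this property (every
subspace `≠ ⊥` on which `Y` acts by scalars is contained in exactly one of them).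

Proof.  Let `F` be the set of all maximal subspaces among the nonzero subspaces on which `Y` acts by scalars,
i.e. the weight spaces `V_ω = {v | ∀ y ∈ Y, ρ y v = ω y • v} ≠ ⊥`, `ω : Y → K`.  Vectors from different
weight spaces are independent (`linearIndependent_weights`), so there are at most `dim V` of them and
they form an independent family; their sum is `V` by `span_joint_eigenvectors`. -/
theorem exists_weight_family (ρ : G →* End K V) (Y : Subgroup G) (hY : Comm Y) :
    ∃ F : Finset (Submodule K V), F.SupIndep id ∧ (∀ U ∈ F, U ≠ ⊥) ∧ F.sup id = ⊤ ∧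
      (∀ U ∈ F, Scal ρ Y U) ∧
      (∀ J : Submodule K V, J ≠ ⊥ → Scal ρ Y J → ∃ U ∈ F, J ≤ U) := by
  classical
  let T : Y → End K V := fun y => ρ (y : G)
  have hcomm : ∀ i j : Y, Commute (T i) (T j) := by
    intro i j
    show ρ (i : G) * ρ (j : G) = ρ (j : G) * ρ (i : G)
    rw [← map_mul, ← map_mul, hY i i.2 j j.2]
  have hind0 : iSupIndep fun χ : Y → K => ⨅ i, (T i).maxGenEigenspace (χ i) :=
    Module.End.independent_iInf_maxGenEigenspace_of_forall_mapsTo T fun i j φ =>
      Module.End.mapsTo_maxGenEigenspace_of_comm (hcomm j i) φ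
  have hind : iSupIndep (mo1_wt T) := by
    refine hind0.mono fun χ => le_iInf fun i v hv => ?_
    have h1 : v ∈ (T i).eigenspace (χ i) := Module.End.mem_eigenspace_iff.2 (hv i)
    exact ((T i).genEigenspace (χ i)).monotone le_top h1
  have hfin : {χ : Y → K | mo1_wt T χ ≠ ⊥}.Finite := WellFoundedGT.finite_ne_bot_of_iSupIndep hind
  refine ⟨hfin.toFinset.image (mo1_wt T), ?_, ?_, ?_, ?_, ?_⟩
  · apply Finset.SupIndep.image
    exact hind.supIndep' hfin.toFinset
  · intro U hU
    obtain ⟨χ, hχ, rfl⟩ := Finset.mem_image.1 hU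
    exact (hfin.mem_toFinset).1 hχ
  · rw [eq_top_iff, ← span_joint_eigenvectors ρ Y hY, Submodule.span_le]
    intro v hv
    have hv' : ∀ g : Y, ∃ c : K, ρ (g : G) v = c • v := fun g => hv g g.2
    choose χ hχ using hv'
    by_cases h0 : v = 0
    · rw [h0]
      exact Submodule.zero_mem _
    · have h1 : v ∈ mo1_wt T χ := hχ
      have h2 : mo1_wt T χ ≠ ⊥ := by
        intro h3
        rw [h3] at h1
        exact h0 ((Submodule.mem_bot K).1 h1)
      have h4 : mo1_wt T χ ∈ hfin.toFinset.image (mo1_wt T) :=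
        Finset.mem_image_of_mem _ (hfin.mem_toFinset.2 h2)
      exact (Finset.le_sup (f := id) h4 : _) h1
  · intro U hU g hg
    obtain ⟨χ, hχ, rfl⟩ := Finset.mem_image.1 hU
    exact ⟨χ ⟨g, hg⟩, fun v hv => hv ⟨g, hg⟩⟩
  · intro J hJ hJs
    have hJ' : ∀ g : Y, ∃ c : K, ∀ v ∈ J, ρ (g : G) v = c • v := fun g => hJs g g.2
    choose χ hχ using hJ'
    have h1 : J ≤ mo1_wt T χ := fun v hv g => hχ g v hv
    have h2 : mo1_wt T χ ≠ ⊥ := by
      intro h3
      rw [h3, le_bot_iff] at h1
      exact hJ h1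
    exact ⟨mo1_wt T χ, Finset.mem_image_of_mem _ (hfin.mem_toFinset.2 h2), h1⟩

omit [IsAlgClosed K] [CharZero K] [FiniteDimensional K V] [Finite G] in
theorem mo1_map_map_inv (ρ : G →* End K V) (x : G) (U : Submodule K V) :
    (U.map (ρ x)).map (ρ x⁻¹) = U := by
  rw [← Submodule.map_comp]
  have h1 : (ρ x⁻¹) ∘ₗ (ρ x) = LinearMap.id := by
    show ρ x⁻¹ * ρ x = 1
    rw [← map_mul, inv_mul_cancel, map_one]
  rw [h1, Submodule.map_id]

/-- If `P` normalises `Y` then `P` permutes the weight family: for `x ∈ P`, `U ∈ F` the image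
`U.map (ρ x)` is in `F`.

Proof.  `Y` acts on `ρ(x) U` by scalars (`ρ y ρ x v = ρ x ρ (x⁻¹ y x) v`), so `ρ(x) U ≤ U'` for some
`U' ∈ F`; and `ρ(x⁻¹) U' ≤ U''` for some `U'' ∈ F`, so `U ≤ U''`; as `F` is independent and `U ≠ ⊥`,
`U'' = U`, so `ρ(x) U = U'`. -/
theorem map_weight (ρ : G →* End K V) (P Y : Subgroup G) (hn : Nrm P Y)
    (F : Finset (Submodule K V)) (hF : F.SupIndep id) (hne : ∀ U ∈ F, U ≠ ⊥)
    (hs : ∀ U ∈ F, Scal ρ Y U)
    (hmax : ∀ J : Submodule K V, J ≠ ⊥ → Scal ρ Y J → ∃ U ∈ F, J ≤ U) {x : G} (hx : x ∈ P)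
    {U : Submodule K V} (hU : U ∈ F) : U.map (ρ x) ∈ F := by
  have hdis : ∀ U₁ ∈ F, ∀ U₂ ∈ F, U₁ ≤ U₂ → U₁ = U₂ := by
    intro U₁ h₁ U₂ h₂ hle
    by_contra hne'
    have h3 : Disjoint U₁ U₂ := hF.pairwiseDisjoint h₁ h₂ hne'
    exact hne U₁ h₁ (disjoint_self.1 (h3.mono_right hle))
  have hsc : ∀ z ∈ P, ∀ W ∈ F, W.map (ρ z) ≠ ⊥ ∧ Scal ρ Y (W.map (ρ z)) := by
    intro z hz W hW
    constructor
    · intro h1
      apply hne W hW
      rw [← mo1_map_map_inv ρ z W, h1, Submodule.map_bot]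
    · intro y hy
      have h1 : z⁻¹ * y * z ∈ Y := by
        have := hn z⁻¹ (P.inv_mem hz) y hy
        rwa [inv_inv] at this
      obtain ⟨c, hc⟩ := hs W hW _ h1
      refine ⟨c, ?_⟩
      rintro _ ⟨v, hv, rfl⟩
      have h2 : y * z = z * (z⁻¹ * y * z) := by group
      calc ρ y (ρ z v) = ρ (y * z) v := by rw [map_mul]; rfl
        _ = ρ z (ρ (z⁻¹ * y * z) v) := by rw [h2, map_mul]; rfl
        _ = c • ρ z v := by rw [hc v hv, map_smul]
  obtain ⟨n1, s1⟩ := hsc x hx U hU
  obtain ⟨U', hU', l1⟩ := hmax _ n1 s1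
  obtain ⟨n2, s2⟩ := hsc x⁻¹ (P.inv_mem hx) U' hU'
  obtain ⟨U'', hU'', l2⟩ := hmax _ n2 s2
  have l3 : U ≤ U'' := by
    rw [← mo1_map_map_inv ρ x U]
    exact (Submodule.map_mono l1).trans l2
  have e1 : U = U'' := hdis U hU U'' hU'' l3
  rw [← e1] at l2
  have l4 : U' ≤ U.map (ρ x) := by
    have h1 := mo1_map_map_inv ρ x⁻¹ U'
    rw [inv_inv] at h1
    rw [← h1]
    exact Submodule.map_mono l2
  rw [le_antisymm l1 l4]
  exact hU'

/-- The subgroup of the `x ∈ P` that fix every member of the family has index `p ^ a` in `P`, with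
`(p - 1) a ≤ |F| - 1`.

Proof.  (`F` nonempty.)  The action of `P` on `F` is a homomorphism `P →* Equiv.Perm F` with kernel
`P₀`; `|P : P₀|` is a power `p ^ a` of `p` and divides `|F|!`.  By Legendre's formula
`(p - 1) v_p(m!) = m - (digit sum) ≤ m - 1` for `m ≥ 1` (`sub_one_mul_padicValNat_factorial`; the digit sum of
`m ≥ 1` is at least `1`). -/
theorem fixing_subgroup {p : ℕ} [Fact p.Prime] (ρ : G →* End K V) (P : Subgroup G)
    (hP : IsPGroup p P) (F : Finset (Submodule K V)) (hFne : F.Nonempty)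
    (hperm : ∀ x ∈ P, ∀ U ∈ F, U.map (ρ x) ∈ F) :
    ∃ (P₀ : Subgroup G) (a : ℕ), P₀ ≤ P ∧ (∀ x ∈ P₀, ∀ U ∈ F, U.map (ρ x) = U) ∧
      P₀.relIndex P = p ^ a ∧ (p - 1) * a ≤ F.card - 1 := by
  classical
  let act : MulAction P F :=
    { smul := fun x U => ⟨U.1.map (ρ (x : G)), hperm x x.2 U.1 U.2⟩
      one_smul := fun U => Subtype.ext (by
        show U.1.map (ρ ((1 : P) : G)) = U.1
        rw [Subgroup.coe_one, map_one]
        exact Submodule.map_id _)
      mul_smul := fun x y U => Subtype.ext (by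
        show U.1.map (ρ ((x * y : P) : G)) = (U.1.map (ρ (y : G))).map (ρ (x : G))
        rw [← Submodule.map_comp, Subgroup.coe_mul, map_mul]
        rfl) }
  let f : P →* Equiv.Perm F := MulAction.toPermHom P F
  obtain ⟨a, ha⟩ := hP.index f.ker
  refine ⟨f.ker.map P.subtype, a, ?_, ?_, ?_, ?_⟩
  · rintro _ ⟨x, -, rfl⟩
    exact x.2
  · rintro _ ⟨x, hx, rfl⟩ U hU
    have h1 : f x = 1 := hx
    have h2 := congrArg (fun e : Equiv.Perm F => (e ⟨U, hU⟩ : F).1) h1
    exact h2
  · rw [Subgroup.relIndex, ← ha]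
    congr 1
    exact Subgroup.comap_map_eq_self_of_injective P.subtype_injective _
  · have h1 : p ^ a ∣ F.card.factorial := by
      rw [← ha, Subgroup.index_ker]
      have h2 := Subgroup.card_subgroup_dvd_card f.range
      have h3 : Nat.card F = F.card := by rw [Nat.card_eq_fintype_card, Fintype.card_coe]
      rwa [Nat.card_perm, h3] at h2
    have h3 : a ≤ padicValNat p F.card.factorial :=
      (padicValNat_dvd_iff_le (Nat.factorial_ne_zero _)).1 h1
    have h4 := sub_one_mul_padicValNat_factorial_lt_of_ne_zero p (Finset.card_ne_zero.2 hFne)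
    have h5 := Nat.mul_le_mul_left (p - 1) h3
    omega

end H32E
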