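import Pool.Agent.Lib.H32E.E0

/-!
# H32E / MV1: joint eigenvectors of finite commutative groups

Chunk MV1 (linear algebra).
-/

set_option autoImplicit false

open Module

namespace H32E

variable {K V G : Type*} [Field K] [AddCommGroup V] [Module K V] [Group G]

/-- A joint eigenvector in an invariant subspace.

Proof.  Induction on `dim U` (all `U`): if every `g ∈ D` acts on `U` by a scalar, any `v ≠ 0` works.
Otherwise take `g ∈ D` that is not scalar on `U`, an eigenvalue `c` of `ρ g` on `U` (`K` algebraically
closed, `U ≠ ⊥`), and `U' = {v ∈ U | ρ g v = c v}`: it is not `⊥`, smaller than `U`, and invariant under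
`D` since `D` is commutative. -/
theorem exists_joint_eigenvector [IsAlgClosed K] [FiniteDimensional K V] (ρ : G →* End K V)
    (D : Subgroup G) (hD : Comm D) (U : Submodule K V) (hU : U ≠ ⊥) (hinv : Inv ρ D U) :
    ∃ v ∈ U, v ≠ 0 ∧ ∀ g ∈ D, ∃ c : K, ρ g v = c • v := by
  obtain ⟨n, hn⟩ : ∃ n, finrank K U = n := ⟨_, rfl⟩
  induction n using Nat.strong_induction_on generalizing U with
  | _ n ih =>
    by_cases hs : ∀ g ∈ D, ∃ c : K, ∀ v ∈ U, ρ g v = c • v
    · obtain ⟨v, hv, hv0⟩ := (Submodule.ne_bot_iff U).mp hU
      exact ⟨v, hv, hv0, fun g hg => by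
        obtain ⟨c, hc⟩ := hs g hg
        exact ⟨c, hc v hv⟩⟩
    · push Not at hs
      obtain ⟨g, hg, hgc⟩ := hs
      have : Nontrivial U := Submodule.nontrivial_iff_ne_bot.mpr hU
      obtain ⟨c, hc⟩ := Module.End.exists_eigenvalue ((ρ g).restrict (hinv g hg))
      obtain ⟨u, hu⟩ := hc.exists_hasEigenvector
      have hu1 : ρ g (u : V) = c • (u : V) := by
        have := congrArg Subtype.val hu.apply_eq_smul
        simpa using this
      have hu0 : (u : V) ≠ 0 := by
        intro h0
        exact hu.2 (Subtype.ext h0)
      set U' : Submodule K V := U ⊓ (ρ g).eigenspace c with hU'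
      have hmem : (u : V) ∈ U' := ⟨u.2, Module.End.mem_eigenspace_iff.mpr hu1⟩
      have hU'0 : U' ≠ ⊥ := by
        intro h0
        rw [h0, Submodule.mem_bot] at hmem
        exact hu0 hmem
      have hlt : U' < U := by
        refine lt_of_le_of_ne inf_le_left ?_
        intro h0
        obtain ⟨v, hv, hvc⟩ := hgc c
        rw [← h0] at hv
        exact hvc (Module.End.mem_eigenspace_iff.mp hv.2)
      have hinv' : Inv ρ D U' := by
        intro h hh v hv
        refine ⟨hinv h hh v hv.1, ?_⟩
        show ρ h v ∈ (ρ g).eigenspace c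
        rw [Module.End.mem_eigenspace_iff]
        have h1 := Module.End.mem_eigenspace_iff.mp hv.2
        calc ρ g (ρ h v) = ρ (g * h) v := by rw [map_mul]; rfl
          _ = ρ (h * g) v := by rw [hD g hg h hh]
          _ = ρ h (ρ g v) := by rw [map_mul]; rfl
          _ = c • ρ h v := by rw [h1, map_smul]
      obtain ⟨v, hv, hv0, hvD⟩ := ih (finrank K U') (by
        rw [← hn]
        exact Submodule.finrank_lt_finrank_of_lt hlt) U' hU'0 hinv' rfl
      exact ⟨v, hv.1, hv0, hvD⟩

/-- Nonzero joint eigenvectors with pairwise different systems of eigenvalues are linearly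
independent.

Proof.  Induction over finite subsets.  Suppose `∑_{i ∈ s} a_i v_i = 0` is a relation with all
`a_i ≠ 0` and `|s|` minimal, `s ≠ ∅`; then `|s| ≥ 2`; choose `i₀ ≠ i₁` in `s` and `g` with
`w i₀ g ≠ w i₁ g`.  Apply `ρ g - w i₀ g`: this is a shorter nontrivial relation.  (Or: weight spaces are
independent, `Module.End.independent_iInf_...` in Mathlib.LinearAlgebra.Eigenspace.Pi, or
`linearIndependent_iff'` with `Finset.induction_on`.)  Here the `ρ g` need not commute. -/
theorem linearIndependent_weights {ι Y : Type*} (T : Y → End K V) (v : ι → V) (w : ι → Y → K)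
    (hv : ∀ i, v i ≠ 0) (hT : ∀ i y, T y (v i) = w i y • v i) (hw : Function.Injective w) :
    LinearIndependent K v := by
  classical
  rw [linearIndependent_iff']
  intro s
  induction s using Finset.induction_on with
  | empty => intro g _ i hi; simp at hi
  | insert j s hj ih =>
    intro a ha
    rw [Finset.sum_insert hj] at ha
    have key : ∀ i ∈ s, a i = 0 := by
      intro i hi
      have hij : i ≠ j := fun h => hj (h ▸ hi)
      obtain ⟨y, hy⟩ := Function.ne_iff.mp (fun h => hij (hw h) : w i ≠ w j)
      have h1 : ∑ k ∈ s, (a k * (w k y - w j y)) • v k = 0 := by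
        have h2 := congrArg (T y) ha
        rw [map_add, map_smul, hT, map_sum, map_zero] at h2
        have h3 : w j y • (a j • v j + ∑ k ∈ s, a k • v k) = 0 := by rw [ha, smul_zero]
        rw [smul_add, Finset.smul_sum] at h3
        have h4 : ∑ k ∈ s, (a k * (w k y - w j y)) • v k
            = (a j • w j y • v j + ∑ k ∈ s, T y (a k • v k))
              - (w j y • a j • v j + ∑ k ∈ s, w j y • a k • v k) := by
          rw [smul_comm (a j) (w j y) (v j), add_sub_add_left_eq_sub, ← Finset.sum_sub_distrib]
          refine Finset.sum_congr rfl ?_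
          intro k _
          rw [map_smul, hT, smul_smul, smul_smul, ← sub_smul]
          congr 1
          ring
        rw [h4, h2, h3, sub_zero]
      have h5 := ih _ h1 i hi
      rcases mul_eq_zero.mp h5 with h6 | h6
      · exact h6
      · exact absurd (sub_eq_zero.mp h6) hy
    have h7 : ∑ k ∈ s, a k • v k = 0 := by
      refine Finset.sum_eq_zero ?_
      intro k hk
      rw [key k hk, zero_smul]
    rw [h7, add_zero] at ha
    intro i hi
    rcases Finset.mem_insert.mp hi with rfl | hi
    · exact (smul_eq_zero.mp ha).resolve_right (hv _)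
    · exact key i hi

/-- For a finite commutative subgroup `Y` (over a field of characteristic `0`) the joint eigenvectors
span `V`.

Proof.  Let `W` be the span of the joint eigenvectors.  By induction on `dim U`, every `Y`-invariant
subspace `U` is contained in `W`: if all `g ∈ Y` are scalar on `U` every vector of `U` is a joint
eigenvector.  Otherwise take `g ∈ Y` not scalar on `U`; `ρ g` has finite order on `U` (`G` finite or `Y`
finite: `(ρ g)^n = 1`), so it is diagonalisable: `U` is the sum of the eigenspaces
`U_c = {v ∈ U | ρ g v = c v}` (e.g. `v = ∑_c v_c` with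
`v_c = n⁻¹ ∑_{k < n} c^{-k} ρ(g)^k v`, `c` running over the `n`-th roots of unity in `K`, of which there are
`n`; or Mathlib: `X ^ n - 1` is separable and split, `Module.End.iSup_eigenspace...`,
`IsSemisimple`), each `U_c` is `Y`-invariant and smaller than `U`. -/
theorem span_joint_eigenvectors [IsAlgClosed K] [CharZero K] [FiniteDimensional K V]
    (ρ : G →* End K V) (Y : Subgroup G) [Finite Y] (hY : Comm Y) :
    Submodule.span K {v | ∀ g ∈ Y, ∃ c : K, ρ g v = c • v} = ⊤ := by
  have hss : ∀ g : Y, (ρ g).IsSemisimple := by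
    intro g
    have hfo : IsOfFinOrder g := isOfFinOrder_of_finite g
    have hpos : 0 < orderOf g := hfo.orderOf_pos
    have hsq : Squarefree (Polynomial.X ^ (orderOf g) - 1 : Polynomial K) := by
      refine Polynomial.Separable.squarefree ?_
      have h := Polynomial.separable_X_pow_sub_C (F := K) (n := orderOf g) (1 : K)
        (by exact_mod_cast hpos.ne') one_ne_zero
      simpa using h
    refine Module.End.isSemisimple_of_squarefree_aeval_eq_zero hsq ?_
    have h1 : (ρ (g : G)) ^ orderOf g = 1 := by
      rw [← map_pow]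
      have h2 : (g : G) ^ orderOf g = 1 := by
        have h3 := pow_orderOf_eq_one g
        have h4 : ((g ^ orderOf g : Y) : G) = ((1 : Y) : G) := congrArg Subtype.val h3
        rw [Subgroup.coe_pow, Subgroup.coe_one] at h4
        exact h4
      rw [h2, map_one]
    simp [h1]
  have hcomm : ∀ g h : Y, Commute (ρ g) (ρ h) := by
    intro g h
    show ρ g * ρ h = ρ h * ρ g
    rw [← map_mul, ← map_mul, hY g g.2 h h.2]
  have htop := Module.End.iSup_iInf_maxGenEigenspace_eq_top_of_iSup_maxGenEigenspace_eq_top_of_commute
    (fun g : Y => ρ (g : G)) (fun g h _ => hcomm g h)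
    (fun g => Module.End.iSup_maxGenEigenspace_eq_top (ρ (g : G)))
  rw [eq_top_iff, ← htop]
  refine iSup_le ?_
  intro χ v hv
  refine Submodule.subset_span ?_
  intro g hg
  refine ⟨χ ⟨g, hg⟩, ?_⟩
  have h1 := (Submodule.mem_iInf _).mp hv ⟨g, hg⟩
  have h2 := (hss ⟨g, hg⟩).isFinitelySemisimple.maxGenEigenspace_eq_eigenspace (χ ⟨g, hg⟩)
  simp only at h1 h2
  rw [h2] at h1
  exact Module.End.mem_eigenspace_iff.mp h1

end H32E
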