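import Pool.Agent.Lib.H32E.MV1

/-!
# H32E / MV2: moving a weight

Chunk MV2 (linear algebra and groups).
-/

set_option autoImplicit false

open Module

namespace H32E

variable {K V G : Type*} [Field K] [IsAlgClosed K] [CharZero K] [AddCommGroup V] [Module K V]
  [FiniteDimensional K V] [Group G] [Finite G]

theorem mv2_inv_apply {G : Type*} [Group G] (ρ : G →* End K V) (g : G) (v : V) :
    ρ g (ρ g⁻¹ v) = v := by
  rw [← Module.End.mul_apply, ← map_mul, mul_inv_cancel, map_one, Module.End.one_apply]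

theorem mv2_inv_apply' {G : Type*} [Group G] (ρ : G →* End K V) (g : G) (v : V) :
    ρ g⁻¹ (ρ g v) = v := by
  rw [← Module.End.mul_apply, ← map_mul, inv_mul_cancel, map_one, Module.End.one_apply]

/-- A subspace of `span (X v)` on which `X` acts by scalars is at most a line. -/
theorem mv2_line (ρ : G →* End K V) (X : Subgroup G) (v : V) (J : Submodule K V)
    (hJ : J ≤ Submodule.span K {w | ∃ x ∈ X, w = ρ x v}) (hs : Scal ρ X J) :
    finrank K J ≤ 1 := by
  classical
  by_cases hJ0 : J = ⊥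
  · rw [hJ0, finrank_bot]
    omega
  obtain ⟨w₀, hw₀, hw₀0⟩ := Submodule.exists_mem_ne_zero_of_ne_bot hJ0
  have hex : ∀ x : X, ∃ c : K, ∀ w ∈ J, ρ (x : G) w = c • w := fun x => hs x x.2
  choose χ hχ using hex
  have hmul : ∀ x y : X, χ (x * y) = χ x * χ y := by
    intro x y
    have h1 := hχ (x * y) w₀ hw₀
    rw [Subgroup.coe_mul, map_mul, Module.End.mul_apply, hχ y w₀ hw₀, map_smul, hχ x w₀ hw₀,
      smul_smul] at h1
    have h2 := smul_left_injective K hw₀0 h1
    rw [← h2, mul_comm]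
  have hone : χ 1 = 1 := by
    have h1 := hχ 1 w₀ hw₀
    rw [Subgroup.coe_one, map_one, Module.End.one_apply] at h1
    have h2 : (1 : K) • w₀ = χ 1 • w₀ := by rw [one_smul]; exact h1
    exact (smul_left_injective K hw₀0 h2).symm
  have : Fintype X := Fintype.ofFinite X
  let E : End K V := ∑ x : X, χ x⁻¹ • ρ (x : G)
  have hE : ∀ w, E w = ∑ x : X, χ x⁻¹ • ρ (x : G) w := by
    intro w
    simp only [E, LinearMap.sum_apply, LinearMap.smul_apply]
  have hEv : ∀ x₁ : X, E (ρ (x₁ : G) v) = χ x₁ • E v := by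
    intro x₁
    rw [hE, hE, Finset.smul_sum]
    refine Fintype.sum_equiv (Equiv.mulRight x₁) _ _ ?_
    intro x
    rw [Equiv.coe_mulRight, Subgroup.coe_mul, map_mul, Module.End.mul_apply, smul_smul]
    congr 1
    rw [← hmul, mul_inv_rev, mul_inv_cancel_left]
  have hEI : ∀ w ∈ Submodule.span K {w | ∃ x ∈ X, w = ρ x v}, E w ∈ Submodule.span K {E v} := by
    intro w hw
    induction hw using Submodule.span_induction with
    | mem w hw =>
      obtain ⟨x, hx, rfl⟩ := hw
      rw [hEv ⟨x, hx⟩]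
      exact Submodule.smul_mem _ _ (Submodule.mem_span_singleton_self _)
    | zero => rw [map_zero]; exact Submodule.zero_mem _
    | add a b _ _ ha hb => rw [map_add]; exact Submodule.add_mem _ ha hb
    | smul c a _ ha => rw [map_smul]; exact Submodule.smul_mem _ _ ha
  have hEJ : ∀ w ∈ J, E w = (Fintype.card X : K) • w := by
    intro w hw
    rw [hE]
    have h1 : ∀ x : X, χ x⁻¹ • ρ (x : G) w = w := by
      intro x
      rw [hχ x w hw, smul_smul, ← hmul, inv_mul_cancel, hone, one_smul]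
    rw [Finset.sum_congr rfl (fun x _ => h1 x), Finset.sum_const, Finset.card_univ,
      Nat.cast_smul_eq_nsmul]
  have hcard : (Fintype.card X : K) ≠ 0 := by
    exact_mod_cast Fintype.card_ne_zero
  have hle : J ≤ Submodule.span K {E v} := by
    intro w hw
    have h1 := hEI w (hJ hw)
    rw [hEJ w hw] at h1
    have h2 := Submodule.smul_mem _ ((Fintype.card X : K)⁻¹) h1
    rwa [smul_smul, inv_mul_cancel₀ hcard, one_smul] at h2
  refine (Submodule.finrank_mono hle).trans ?_
  refine (finrank_span_le_card ({E v} : Set V)).trans ?_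
  simp

/-- **Moving a weight.**  `ρ` faithful, `X` a commutative `p`-group that normalises but does not
centralise the commutative group `Y`.  Then there are `D < X` and a subspace `I` such that
`|X : D| ≤ dim V`, `D` acts on `I` by scalars, `dim I ≥ p`, and every subspace of `I` on which `X`
acts by scalars has dimension at most `1`.

Proof.  Let `x₀ ∈ X`, `y₀ ∈ Y` with `x₀ y₀ x₀⁻¹ ≠ y₀`.  As `ρ` is injective and the joint eigenvectors of
`Y` span `V` (`span_joint_eigenvectors`) there is a joint eigenvector `u ≠ 0` of `Y` with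
`ρ(x₀ y₀ x₀⁻¹) u ≠ ρ(y₀) u`.  Let `ω : G → K` be the function with `ρ(y) u = ω(y) u` for `y ∈ Y` (choose;
`0` outside `Y`), and `V_ω = {v | ∀ y ∈ Y, ρ y v = ω y • v}`.  Let
`D = {x ∈ X | ∀ y ∈ Y, ω (x⁻¹ y x) = ω y}`; it is a subgroup (`ω` is only used on `Y`, which `X`
normalises; since `X` is finite it suffices to check closure under products, or check inverses
directly), and `x₀⁻¹ ∉ D`, or `x₀ ∉ D`: `ω (x₀ y₀ x₀⁻¹) ≠ ω y₀` says that `x₀⁻¹ ∉ D`.  So `D < X`.
`D` maps `V_ω` to itself: for `x ∈ D`, `v ∈ V_ω`: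
`ρ y (ρ x v) = ρ x (ρ (x⁻¹ y x) v) = ω (x⁻¹ y x) ρ x v = ω y ρ x v`.
Let `v ∈ V_ω` be a nonzero joint eigenvector of `D` (`exists_joint_eigenvector`), `I` the span of the
vectors `ρ x v`, `x ∈ X`.  `D` acts on `I` by scalars: `ρ d (ρ x v) = ρ x (ρ d v) = c_d ρ x v`
(`X` commutative).  Choose representatives `x_i`, `i ∈ X / D`, and put `v_i = ρ(x_i) v`: these are joint
eigenvectors of `Y` with the weights `y ↦ ω (x_i⁻¹ y x_i)`, pairwise different on `Y` for different cosets
(if `ω (x⁻¹ y x) = ω (x'⁻¹ y x')` for all `y ∈ Y`, substitute `y ↦ x' y x'⁻¹` to see `x'⁻¹ x ∈ D`), so they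
are linearly independent (`linearIndependent_weights`), and they span `I` (`ρ(x_i d) v = c_d v_i`).
Hence `dim I = |X : D| ≤ dim V`; it is a power of `p` (`X` a `p`-group) different from `1`, so
`dim I ≥ p`.  Let `J ≤ I` be a subspace on which `X` acts by scalars.  Let `λ_i : I → K` be the
coordinate functions of the basis `v_i`, and `i₀` the class of `1` with `v_{i₀} = c v`.
If `z ∈ J` and `λ_{i₀}(z) = 0` then all coordinates vanish: for a class `j`, `ρ(x_j⁻¹) z` is a scalar
multiple of `z` (scalar `≠ 0`), and `ρ(x_j⁻¹)` maps `v_j` to `v` and every `v_i`, `i ≠ j`, to a multiple of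
a `v_k`, `k ≠ i₀`; so `λ_{i₀}(ρ(x_j⁻¹) z)` is a nonzero multiple of `λ_j(z)`.  So `λ_{i₀}` is injective
on `J` and `dim J ≤ 1`. -/
theorem move {p : ℕ} [Fact p.Prime] (ρ : G →* End K V) (hinj : Function.Injective ρ)
    (X Y : Subgroup G) (hXc : Comm X) (hXp : IsPGroup p X) (hYc : Comm Y) (hn : Nrm X Y)
    (hmove : ∃ x ∈ X, ∃ y ∈ Y, x * y ≠ y * x) :
    ∃ (D : Subgroup G) (I : Submodule K V), D ≤ X ∧ D ≠ X ∧ D.relIndex X ≤ finrank K V ∧
      Scal ρ D I ∧ p ≤ finrank K I ∧ ∀ J ≤ I, Scal ρ X J → finrank K J ≤ 1 := by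
  classical
  have hpr : p.Prime := Fact.out
  obtain ⟨x₀, hx₀, y₀, hy₀, hne⟩ := hmove
  have hz₀ : x₀ * y₀ * x₀⁻¹ ∈ Y := hn x₀ hx₀ y₀ hy₀
  have hzy : x₀ * y₀ * x₀⁻¹ ≠ y₀ := by
    intro h
    apply hne
    calc x₀ * y₀ = x₀ * y₀ * x₀⁻¹ * x₀ := by group
      _ = y₀ * x₀ := by rw [h]
  -- a joint eigenvector of `Y` that separates
  obtain ⟨u, hu, huz⟩ : ∃ u, (∀ g ∈ Y, ∃ c : K, ρ g u = c • u) ∧
      ρ (x₀ * y₀ * x₀⁻¹) u ≠ ρ y₀ u := by
    by_contra hcon
    push Not at hcon
    apply hzy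
    apply hinj
    apply LinearMap.ext_on (span_joint_eigenvectors ρ Y hYc)
    intro u hu
    exact hcon u hu
  have hu0 : u ≠ 0 := by
    rintro rfl
    apply huz
    rw [map_zero, map_zero]
  let ω : G → K := fun y => if h : y ∈ Y then (hu y h).choose else 0
  have hω : ∀ y ∈ Y, ρ y u = ω y • u := by
    intro y hy
    simp only [ω, dif_pos hy]
    exact (hu y hy).choose_spec
  have hωne : ω (x₀ * y₀ * x₀⁻¹) ≠ ω y₀ := by
    intro h
    apply huz
    rw [hω _ hz₀, hω _ hy₀, h]
  let Vω : Submodule K V :=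
    { carrier := {v | ∀ y ∈ Y, ρ y v = ω y • v}
      zero_mem' := fun y _ => by rw [map_zero, smul_zero]
      add_mem' := by
        intro a b ha hb y hy
        rw [map_add, ha y hy, hb y hy, smul_add]
      smul_mem' := by
        intro c a ha y hy
        rw [map_smul, ha y hy, smul_comm] }
  have hVω : ∀ v, v ∈ Vω ↔ ∀ y ∈ Y, ρ y v = ω y • v := fun v => Iff.rfl
  have hconj : ∀ x ∈ X, ∀ y ∈ Y, x⁻¹ * y * x ∈ Y := by
    intro x hx y hy
    have := hn x⁻¹ (X.inv_mem hx) y hy
    rwa [inv_inv] at this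
  let D : Subgroup G :=
    { carrier := {x | x ∈ X ∧ ∀ y ∈ Y, ω (x⁻¹ * y * x) = ω y}
      one_mem' := ⟨X.one_mem, fun y _ => by rw [inv_one, one_mul, mul_one]⟩
      mul_mem' := by
        rintro a b ⟨ha, ha'⟩ ⟨hb, hb'⟩
        refine ⟨X.mul_mem ha hb, fun y hy => ?_⟩
        have h1 : (a * b)⁻¹ * y * (a * b) = b⁻¹ * (a⁻¹ * y * a) * b := by group
        rw [h1, hb' _ (hconj a ha y hy), ha' y hy]
      inv_mem' := by
        rintro a ⟨ha, ha'⟩
        refine ⟨X.inv_mem ha, fun y hy => ?_⟩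
        have h1 := ha' _ (hn a ha y hy)
        have h2 : a⁻¹ * (a * y * a⁻¹) * a = y := by group
        rw [h2] at h1
        rw [inv_inv, h1] }
  have hDX : D ≤ X := fun x hx => hx.1
  have hDne : D ≠ X := by
    intro h
    have h1 : x₀⁻¹ ∈ D := by rw [h]; exact X.inv_mem hx₀
    have h2 := h1.2 y₀ hy₀
    rw [inv_inv] at h2
    exact hωne h2
  have hinvD : Inv ρ D Vω := by
    intro x hx v hv y hy
    have h1 : ρ y (ρ x v) = ρ x (ρ (x⁻¹ * y * x) v) := by
      rw [← Module.End.mul_apply, ← Module.End.mul_apply, ← map_mul, ← map_mul]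
      congr 2
      group
    rw [h1, hv _ (hconj x hx.1 y hy), map_smul, hx.2 y hy]
  have hDc : Comm D := fun a ha b hb => hXc a (hDX ha) b (hDX hb)
  obtain ⟨v, hvω, hv0, hvD⟩ := exists_joint_eigenvector ρ D hDc Vω
    (Submodule.ne_bot_iff _ |>.mpr ⟨u, hω, hu0⟩) hinvD
  set I : Submodule K V := Submodule.span K {w | ∃ x ∈ X, w = ρ x v} with hI
  -- the independent family
  let ι := X ⧸ D.subgroupOf X
  have : Fintype ι := Fintype.ofFinite ι
  let vv : ι → V := fun q => ρ (q.out : G) v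
  let ww : ι → Y → K := fun q y => ω ((q.out : G)⁻¹ * (y : G) * (q.out : G))
  have hli : LinearIndependent K vv := by
    apply linearIndependent_weights (fun y : Y => ρ (y : G)) vv ww
    · intro q h
      apply hv0
      have := mv2_inv_apply' ρ (q.out : G) v
      rw [← this]
      change ρ _ (vv q) = 0
      rw [h, map_zero]
    · intro q y
      have h1 : ρ (y : G) (ρ (q.out : G) v) =
          ρ (q.out : G) (ρ ((q.out : G)⁻¹ * y * (q.out : G)) v) := by
        rw [← Module.End.mul_apply, ← Module.End.mul_apply, ← map_mul, ← map_mul]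
        congr 2
        group
      change ρ (y : G) (ρ (q.out : G) v) = ww q y • ρ (q.out : G) v
      rw [h1, hvω _ (hconj _ q.out.2 y y.2), map_smul]
    · intro q q' hqq
      have h1 : ∀ y ∈ Y, ω ((q.out : G)⁻¹ * y * (q.out : G)) =
          ω ((q'.out : G)⁻¹ * y * (q'.out : G)) := fun y hy => congrFun hqq ⟨y, hy⟩
      have h2 : (q.out)⁻¹ * q'.out ∈ D.subgroupOf X := by
        rw [Subgroup.mem_subgroupOf]
        refine ⟨X.mul_mem (X.inv_mem q.out.2) q'.out.2, fun y hy => ?_⟩
        have h3 := h1 _ (hn _ q.out.2 y hy)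
        have h4 : (q.out : G)⁻¹ * ((q.out : G) * y * (q.out : G)⁻¹) * (q.out : G) = y := by group
        rw [h4] at h3
        have h5 : (((q.out)⁻¹ * q'.out : X) : G)⁻¹ * y * (((q.out)⁻¹ * q'.out : X) : G) =
            (q'.out : G)⁻¹ * ((q.out : G) * y * (q.out : G)⁻¹) * (q'.out : G) := by
          push_cast
          group
        rw [h5, ← h3]
      have h6 : (q.out : ι) = (q'.out : ι) := QuotientGroup.eq.mpr h2
      rw [QuotientGroup.out_eq', QuotientGroup.out_eq'] at h6
      exact h6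
  have hspan : Submodule.span K (Set.range vv) = I := by
    apply le_antisymm
    · rw [Submodule.span_le]
      rintro _ ⟨q, rfl⟩
      exact Submodule.subset_span ⟨q.out, q.out.2, rfl⟩
    · rw [hI, Submodule.span_le]
      rintro _ ⟨x, hx, rfl⟩
      let q : ι := ((⟨x, hx⟩ : X) : ι)
      obtain ⟨dd, hdd⟩ := QuotientGroup.mk_out_eq_mul (D.subgroupOf X) ⟨x, hx⟩
      have hddD : (((dd : X) : G)) ∈ D := Subgroup.mem_subgroupOf.mp dd.2
      obtain ⟨c, hc⟩ := hvD _ (D.inv_mem hddD)
      have h1 : x = (q.out : G) * ((dd : X) : G)⁻¹ := by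
        have h2 : ((q.out : X) : G) = x * ((dd : X) : G) := by
          have := congrArg (fun z : X => (z : G)) hdd
          simpa using this
        rw [h2]
        group
      change ρ x v ∈ _
      rw [h1, map_mul, Module.End.mul_apply, hc, map_smul]
      exact Submodule.smul_mem _ _ (Submodule.subset_span ⟨q, rfl⟩)
  have hfin : finrank K I = D.relIndex X := by
    rw [← hspan, finrank_span_eq_card hli, Subgroup.relIndex, Subgroup.index,
      Nat.card_eq_fintype_card]
  have hidx : D.relIndex X ≠ 1 := by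
    intro h1
    rw [Subgroup.relIndex_eq_one] at h1
    exact hDne (le_antisymm hDX h1)
  obtain ⟨k, hk⟩ : ∃ k, D.relIndex X = p ^ k := by
    have h1 : D.relIndex X ∣ Nat.card X := Subgroup.relIndex_dvd_card _ _
    obtain ⟨m, hm⟩ := (IsPGroup.iff_card).mp hXp
    rw [hm] at h1
    obtain ⟨k, _, hk⟩ := (Nat.dvd_prime_pow hpr).mp h1
    exact ⟨k, hk⟩
  have hk0 : k ≠ 0 := by
    rintro rfl
    exact hidx (by rw [hk, pow_zero])
  refine ⟨D, I, hDX, hDne, ?_, ?_, ?_, ?_⟩
  · rw [← hfin]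
    exact Submodule.finrank_le I
  · intro d hd
    obtain ⟨c, hc⟩ := hvD d hd
    refine ⟨c, fun w hw => ?_⟩
    induction hw using Submodule.span_induction with
    | mem w hw =>
      obtain ⟨x, hx, rfl⟩ := hw
      rw [← Module.End.mul_apply, ← map_mul, hXc d (hDX hd) x hx, map_mul, Module.End.mul_apply,
        hc, map_smul]
    | zero => rw [map_zero, smul_zero]
    | add a b _ _ ha hb => rw [map_add, ha, hb, smul_add]
    | smul c' a _ ha => rw [map_smul, ha, smul_comm]
  · rw [hfin, hk]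
    exact Nat.le_self_pow hk0 p
  · intro J hJ hJs
    exact mv2_line ρ X v J hJ hJs

end H32E
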