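import Pool.Agent.Lib.H32E.E0

set_option autoImplicit false

/-!
# H32E / NM1: an invariant ultrametric norm on `End K V`

Chunk NM1.
-/

open Module

namespace H32E

variable {K V G : Type*} [NormedField K] [AddCommGroup V] [Module K V] [Group G]

/-- An ultrametric norm on `End K V` that is invariant under left and right multiplication by the
operators `ρ g`. -/
structure INorm (ρ : G →* End K V) where
  /-- the norm -/
  N : End K V → ℝ
  nonneg : ∀ w, 0 ≤ N w
  eq_zero : ∀ w, N w = 0 → w = 0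
  add_le : ∀ w w', N (w + w') ≤ max (N w) (N w')
  smul : ∀ (c : K) (w), N (c • w) = ‖c‖ * N w
  left : ∀ g w, N (ρ g * w) = N w
  right : ∀ g w, N (w * ρ g) = N w

theorem exists_inorm [IsUltrametricDist K] [Finite G] [FiniteDimensional K V]
    (ρ : G →* End K V) : Nonempty (INorm ρ) := by
  classical
  haveI : Fintype G := Fintype.ofFinite G
  set b := Module.finBasis K V with hb
  let ι := Fin (Module.finrank K V)
  let F : End K V → (G × G × ι × ι → K) := fun w x =>
    LinearMap.toMatrix b b (ρ x.1 * w * ρ x.2.1) x.2.2.1 x.2.2.2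
  have hFadd : ∀ w w', F (w + w') = F w + F w' := by
    intro w w'
    funext x
    change LinearMap.toMatrix b b (ρ x.1 * (w + w') * ρ x.2.1) x.2.2.1 x.2.2.2 = _
    rw [mul_add, add_mul, map_add]
    rfl
  have hFsmul : ∀ (c : K) w, F (c • w) = c • F w := by
    intro c w
    funext x
    change LinearMap.toMatrix b b (ρ x.1 * (c • w) * ρ x.2.1) x.2.2.1 x.2.2.2 = _
    rw [mul_smul_comm, smul_mul_assoc, map_smul]
    rfl
  have hleft : ∀ g w, ‖F (ρ g * w)‖ ≤ ‖F w‖ := by
    intro g w
    rw [pi_norm_le_iff_of_nonneg (norm_nonneg _)]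
    intro x
    have h1 : F (ρ g * w) x = F w (x.1 * g, x.2.1, x.2.2.1, x.2.2.2) := by
      change LinearMap.toMatrix b b (ρ x.1 * (ρ g * w) * ρ x.2.1) x.2.2.1 x.2.2.2 =
        LinearMap.toMatrix b b (ρ (x.1 * g) * w * ρ x.2.1) x.2.2.1 x.2.2.2
      rw [map_mul ρ]
      simp only [mul_assoc]
    rw [h1]
    exact norm_le_pi_norm _ _
  have hright : ∀ g w, ‖F (w * ρ g)‖ ≤ ‖F w‖ := by
    intro g w
    rw [pi_norm_le_iff_of_nonneg (norm_nonneg _)]
    intro x
    have h1 : F (w * ρ g) x = F w (x.1, g * x.2.1, x.2.2.1, x.2.2.2) := by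
      change LinearMap.toMatrix b b (ρ x.1 * (w * ρ g) * ρ x.2.1) x.2.2.1 x.2.2.2 =
        LinearMap.toMatrix b b (ρ x.1 * w * ρ (g * x.2.1)) x.2.2.1 x.2.2.2
      rw [map_mul ρ]
      simp only [mul_assoc]
    rw [h1]
    exact norm_le_pi_norm _ _
  refine ⟨⟨fun w => ‖F w‖, fun w => norm_nonneg _, ?_, ?_, ?_, ?_, ?_⟩⟩
  · intro w hw
    have h1 : F w = 0 := norm_eq_zero.1 hw
    have h2 : LinearMap.toMatrix b b w = 0 := by
      ext i j
      have h3 := congrFun h1 (1, 1, i, j)
      change LinearMap.toMatrix b b (ρ 1 * w * ρ 1) i j = 0 at h3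
      rw [map_one, one_mul, mul_one] at h3
      exact h3
    exact (LinearMap.toMatrix b b).map_eq_zero_iff.1 h2
  · intro w w'
    rw [hFadd, pi_norm_le_iff_of_nonneg (le_max_of_le_left (norm_nonneg _))]
    intro x
    refine (IsUltrametricDist.norm_add_le_max _ _).trans ?_
    exact max_le_max (norm_le_pi_norm _ _) (norm_le_pi_norm _ _)
  · intro c w
    rw [hFsmul, norm_smul]
  · intro g w
    refine le_antisymm (hleft g w) ?_
    have h1 := hleft g⁻¹ (ρ g * w)
    rwa [← mul_assoc, ← map_mul ρ, inv_mul_cancel, map_one, one_mul] at h1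
  · intro g w
    refine le_antisymm (hright g w) ?_
    have h1 := hright g⁻¹ (w * ρ g)
    rwa [mul_assoc, ← map_mul ρ, mul_inv_cancel, map_one, mul_one] at h1

variable {ρ : G →* End K V} (n : INorm ρ)

include n

theorem INorm.zero : n.N 0 = 0 := by
  have h := n.smul 0 0
  rwa [zero_smul, norm_zero, zero_mul] at h

theorem INorm.neg (w : End K V) : n.N (-w) = n.N w := by
  have h := n.smul (-1) w
  rwa [neg_smul, one_smul, norm_neg, norm_one, one_mul] at h

theorem INorm.sum_le {ι : Type*} (s : Finset ι) (f : ι → End K V) {C : ℝ} (hC : 0 ≤ C)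
    (h : ∀ i ∈ s, n.N (f i) ≤ C) : n.N (∑ i ∈ s, f i) ≤ C := by
  classical
  induction s using Finset.induction_on with
  | empty =>
    rw [Finset.sum_empty, n.zero]
    exact hC
  | insert a s ha ih =>
    rw [Finset.sum_insert ha]
    refine (n.add_le _ _).trans (max_le (h a (Finset.mem_insert_self a s)) ?_)
    exact ih fun i hi => h i (Finset.mem_insert_of_mem hi)

theorem INorm.sub_eq {a b : End K V} (h : n.N a < n.N b) : n.N (a - b) = n.N b := by
  have h1 : n.N (a - b) ≤ n.N b := by
    rw [sub_eq_add_neg]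
    refine (n.add_le _ _).trans (max_le h.le ?_)
    rw [n.neg]
  have h2 : n.N b ≤ max (n.N a) (n.N (a - b)) := by
    have h3 : b = a + -(a - b) := by abel
    calc n.N b = n.N (a + -(a - b)) := by rw [← h3]
      _ ≤ max (n.N a) (n.N (-(a - b))) := n.add_le _ _
      _ = max (n.N a) (n.N (a - b)) := by rw [n.neg]
  refine le_antisymm h1 ?_
  rcases le_max_iff.1 h2 with h3 | h3
  · exact absurd h3 (not_le.2 h)
  · exact h3

end H32E
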