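import Pool.Agent.Lib.H32E.E0

/-!
# H32E / OS1: sums over orbits of a `p`-group in an ultrametric module

Chunk OS1 (pure Mathlib).
-/

set_option autoImplicit false

open Module

namespace H32E

/-- Let the finite group `B` act on the finite set `X` and let `F : X → W` be constant on the orbits.
If `‖|orbit of x|‖ * N (F x) ≤ ε` for all `x`, then `N (∑ x, F x) ≤ ε`.

Proof.  `∑ x, F x` is the sum over the orbits `ω` (the quotient by `MulAction.orbitRel B X`) of
`∑_{x ∈ ω} F x = |ω| • F(x_ω)` (`Finset.sum_fiberwise` with the quotient map, or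
`MulAction.selfEquivSigmaOrbits`), and each of these has `N ≤ ε` by `hsmul` and the assumption; the
ultrametric inequality for finite sums follows by `Finset.induction_on`. -/
theorem orbit_sum {K B X W : Type*} [NormedField K] [Group B] [Finite B] [MulAction B X] [Fintype X]
    [AddCommGroup W] [Module K W] (N : W → ℝ) (hadd : ∀ a b, N (a + b) ≤ max (N a) (N b))
    (h0 : N 0 = 0) (hsmul : ∀ (c : K) (w), N (c • w) = ‖c‖ * N w) (F : X → W)
    (hF : ∀ (b : B) (x), F (b • x) = F x) {ε : ℝ} (hε : 0 ≤ ε)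
    (h : ∀ x, ‖((Nat.card (MulAction.orbit B x) : ℕ) : K)‖ * N (F x) ≤ ε) :
    N (∑ x, F x) ≤ ε := by
  classical
  let r : Setoid X := MulAction.orbitRel B X
  have hfin : ∀ (s : Finset (Quotient r)) (g : Quotient r → W), (∀ q ∈ s, N (g q) ≤ ε) →
      N (∑ q ∈ s, g q) ≤ ε := by
    intro s g
    induction s using Finset.induction_on with
    | empty => intro _; simpa [h0] using hε
    | insert q s hq ih =>
      intro hg
      rw [Finset.sum_insert hq]
      exact (hadd _ _).trans (max_le (hg q (Finset.mem_insert_self q s))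
        (ih (fun q' hq' => hg q' (Finset.mem_insert_of_mem hq'))))
  have h1 : ∑ x, F x = ∑ q : Quotient r, ∑ x ∈ Finset.univ.filter (fun x => (Quotient.mk r x) = q),
      F x := by
    rw [Finset.sum_fiberwise]
  rw [h1]
  apply hfin
  intro q _
  obtain ⟨x₀, rfl⟩ := Quotient.exists_rep q
  have h2 : ∀ x ∈ Finset.univ.filter (fun x => (Quotient.mk r x) = Quotient.mk r x₀),
      F x = F x₀ := by
    intro x hx
    rw [Finset.mem_filter] at hx
    have h3 : x ∈ MulAction.orbit B x₀ := MulAction.orbitRel_apply.mp (Quotient.exact hx.2)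
    obtain ⟨b, rfl⟩ := h3
    exact hF b x₀
  rw [Finset.sum_congr rfl h2, Finset.sum_const, ← Nat.cast_smul_eq_nsmul K, hsmul]
  have h4 : (Finset.univ.filter (fun x => (Quotient.mk r x) = Quotient.mk r x₀)).card =
      Nat.card (MulAction.orbit B x₀) := by
    rw [Nat.card_coe_set_eq, Set.ncard_eq_toFinset_card']
    congr 1
    ext x
    rw [Finset.mem_filter, Set.mem_toFinset]
    constructor
    · intro hx
      exact MulAction.orbitRel_apply.mp (Quotient.exact hx.2)
    · intro hx
      exact ⟨Finset.mem_univ _, Quotient.sound (MulAction.orbitRel_apply.mpr hx)⟩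
  rw [h4]
  exact h x₀

/-- The size of the orbit of the coset `g M` under the subgroup `B` of `G` is
`|B : B ∩ g M g⁻¹|`.

Proof.  Orbit-stabiliser (`MulAction.index_stabilizer` or
`MulAction.card_orbit_mul_card_stabilizer_eq_card_group`): the stabiliser of `g M` in `B` consists
of the `b` with `b g M = g M`, i.e. `g⁻¹ b g ∈ M` (`QuotientGroup.eq`), which is
`(cj g M).subgroupOf B` (`mem_cj`); and `(B ⊓ cj g M).relIndex B = (cj g M).relIndex B` is the index of
`(cj g M).subgroupOf B` in `B` (`Subgroup.inf_relIndex_left`...). -/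
theorem card_orbit_coset {G : Type*} [Group G] [Finite G] (B M : Subgroup G) (g : G) :
    Nat.card (MulAction.orbit B (g : G ⧸ M)) = (B ⊓ cj g M).relIndex B := by
  rw [Nat.card_coe_set_eq, ← MulAction.index_stabilizer, Subgroup.inf_relIndex_left,
    Subgroup.relIndex]
  congr 1
  ext b
  rw [MulAction.mem_stabilizer_iff, Subgroup.mem_subgroupOf, mem_cj]
  have h1 : b • (g : G ⧸ M) = (((b : G) * g : G) : G ⧸ M) := rfl
  rw [h1, eq_comm, QuotientGroup.eq, mul_assoc]

/-- For a `p`-group `B` the index `m = |B : B ∩ C|` is a power of `p`, hence `‖m‖ = 1 / m`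
in a field with `‖p‖ = 1 / p`. -/
theorem norm_relIndex {K : Type*} [NormedField K] {G : Type*} [Group G] [Finite G] {p : ℕ}
    [Fact p.Prime] (hp : ‖(p : K)‖ = (p : ℝ)⁻¹) (B C : Subgroup G) (hB : IsPGroup p B) :
    ‖((C.relIndex B : ℕ) : K)‖ = ((C.relIndex B : ℕ) : ℝ)⁻¹ := by
  obtain ⟨k, hk⟩ : ∃ k, C.relIndex B = p ^ k := by
    have h1 : C.relIndex B ∣ Nat.card B := Subgroup.relIndex_dvd_card C B
    obtain ⟨n, hn⟩ := hB.exists_card_eq
    rw [hn, Nat.dvd_prime_pow (Fact.out : p.Prime)] at h1
    obtain ⟨k, -, hk⟩ := h1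
    exact ⟨k, hk⟩
  rw [hk, Nat.cast_pow, norm_pow, hp, Nat.cast_pow, inv_pow]

end H32E
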