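import Mathlib

/-!
# H32E / PS0: the exponent `kap`
-/

set_option autoImplicit false

namespace H32E

/-- `kap p N = L (1 + log (L + 1)) + 2 (L + 1) + 1`, `L = log_p N`. -/
noncomputable def kap (p N : ℕ) : ℝ :=
  Real.logb p N * (1 + Real.log (Real.logb p N + 1)) + 2 * (Real.logb p N + 1) + 1

end H32E
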