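import Pool.Agent.Lib.H32E.RD0

/-!
# H32E / RD1: restriction of a representation to an invariant subspace

Chunk RD1 (linear algebra, Maschke).
-/

set_option autoImplicit false

open Module

namespace H32E

variable {K V G : Type} [Field K] [AddCommGroup V] [Module K V] [Group G]

/-- `B` is contained in a subgroup `N` of `L`, normalised by `L`, whose elements act on `U` with order a
power of `p`. -/
def InOpOn (ρ : G →* End K V) (p : ℕ) (L B : Subgroup G) (U : Submodule K V) : Prop :=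
  ∃ N : Subgroup G, B ≤ N ∧ N ≤ L ∧ Nrm L N ∧
    ∀ x ∈ N, ∃ k : ℕ, ∀ v ∈ U, ρ (x ^ p ^ k) v = v

/-- Maschke: an `L`-invariant subspace `U₁ ≤ U` of an `L`-invariant subspace `U` has an `L`-invariant
complement in `U` (`K` of characteristic `0`, `L` finite).

Proof.  Choose a linear projection `π₀ : V → V` with range `U₁` (`U₁` has a complement in `V`), and
average: `π = |L|⁻¹ ∑_{l ∈ L} ρ(l) π₀ ρ(l⁻¹)`.  Then `π v ∈ U₁` for all `v ∈ V`, `π v = v` for `v ∈ U₁` and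
`π` commutes with `ρ(L)`.  Take `U₂ = U ⊓ ker π`. -/
theorem exists_complement [CharZero K] [FiniteDimensional K V] (ρ : G →* End K V) (L : Subgroup G)
    [Finite L] (U U₁ : Submodule K V) (hU : Inv ρ L U) (hU₁ : Inv ρ L U₁) (h : U₁ ≤ U) :
    ∃ U₂ : Submodule K V, U₂ ≤ U ∧ Inv ρ L U₂ ∧ U₁ ⊓ U₂ = ⊥ ∧ U₁ ⊔ U₂ = U := by
  classical
  letI : Fintype L := Fintype.ofFinite L
  obtain ⟨Q, hQ⟩ := Submodule.exists_isCompl U₁
  obtain ⟨P, hP1, hP2⟩ : ∃ P : End K V, (∀ v, P v ∈ U₁) ∧ ∀ v ∈ U₁, P v = v := by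
    refine ⟨U₁.subtype ∘ₗ Submodule.linearProjOfIsCompl U₁ Q hQ, fun v => ?_, fun v hv => ?_⟩
    · exact (Submodule.linearProjOfIsCompl U₁ Q hQ v).2
    · have := Submodule.linearProjOfIsCompl_apply_left hQ ⟨v, hv⟩
      exact congrArg Subtype.val this
  have hc : (Fintype.card L : K) ≠ 0 := Nat.cast_ne_zero.2 Fintype.card_ne_zero
  obtain ⟨S, hS⟩ : ∃ S : End K V, ∀ v, S v = ∑ l : L, ρ (l : G) (P (ρ (l : G)⁻¹ v)) := by
    refine ⟨∑ l : L, ρ (l : G) * P * ρ (l : G)⁻¹, fun v => ?_⟩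
    rw [LinearMap.sum_apply]
    rfl
  have hinv : ∀ (g : G) (v : V), ρ g (ρ g⁻¹ v) = v := fun g v => by
    rw [← Module.End.mul_apply, ← map_mul, mul_inv_cancel, map_one, Module.End.one_apply]
  have hS1 : ∀ v, S v ∈ U₁ := fun v => by
    rw [hS]
    exact Submodule.sum_mem _ fun l _ => hU₁ l l.2 _ (hP1 _)
  have hS2 : ∀ v ∈ U₁, S v = (Fintype.card L : K) • v := fun v hv => by
    rw [hS]
    have h1 : ∀ l : L, ρ (l : G) (P (ρ (l : G)⁻¹ v)) = v := fun l => by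
      rw [hP2 _ (hU₁ _ (L.inv_mem l.2) v hv), hinv]
    rw [Finset.sum_congr rfl fun l _ => h1 l, Finset.sum_const, Finset.card_univ, Nat.cast_smul_eq_nsmul]
  have hS3 : ∀ g : L, ∀ v, S (ρ (g : G) v) = ρ (g : G) (S v) := fun g v => by
    rw [hS, hS, map_sum]
    symm
    refine Fintype.sum_equiv (Equiv.mulLeft g) _ _ fun l => ?_
    have h1 : ρ ((g * l : L) : G)⁻¹ (ρ (g : G) v) = ρ (l : G)⁻¹ v := by
      rw [← Module.End.mul_apply, ← map_mul]
      congr 2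
      rw [Subgroup.coe_mul]
      group
    show ρ (g : G) (ρ (l : G) (P (ρ (l : G)⁻¹ v))) = ρ ((g * l : L) : G) (P (ρ ((g * l : L) : G)⁻¹ (ρ (g : G) v)))
    rw [h1, Subgroup.coe_mul, map_mul, Module.End.mul_apply]
  refine ⟨U ⊓ LinearMap.ker S, inf_le_left, ?_, ?_, ?_⟩
  · intro g hg v hv
    refine ⟨hU g hg v hv.1, ?_⟩
    have h1 : S v = 0 := hv.2
    show S (ρ g v) = 0
    rw [hS3 ⟨g, hg⟩ v, h1, map_zero]
  · rw [eq_bot_iff]
    rintro v ⟨hv1, -, hv2⟩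
    have h1 : S v = 0 := hv2
    rw [hS2 v hv1] at h1
    exact (smul_eq_zero.1 h1).resolve_left hc
  · refine le_antisymm (sup_le h inf_le_left) fun v hv => ?_
    have h1 : (Fintype.card L : K)⁻¹ • S v ∈ U₁ := U₁.smul_mem _ (hS1 v)
    have h2 : v - (Fintype.card L : K)⁻¹ • S v ∈ U ⊓ LinearMap.ker S := by
      refine ⟨U.sub_mem hv (h h1), ?_⟩
      show S (v - (Fintype.card L : K)⁻¹ • S v) = 0
      rw [map_sub, map_smul, hS2 _ (hS1 v), smul_smul, inv_mul_cancel₀ hc, one_smul, sub_self]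
    have h3 := Submodule.add_mem_sup h1 h2
    rwa [add_sub_cancel] at h3

/-- If `B` is in `O_p` on `U₁` and on `U₂` then also on `U₁ ⊔ U₂`.
Proof.  Intersect the two subgroups `N₁`, `N₂`; for `x` in the intersection take the larger of the two
exponents (`x ^ p ^ (k + j) = (x ^ p ^ k) ^ p ^ j` acts trivially on `U_i` once `x ^ p ^ k` does). -/
theorem InOpOn.sup (ρ : G →* End K V) {p : ℕ} {L B : Subgroup G} {U₁ U₂ : Submodule K V}
    (h₁ : InOpOn ρ p L B U₁) (h₂ : InOpOn ρ p L B U₂) : InOpOn ρ p L B (U₁ ⊔ U₂) := by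
  obtain ⟨N₁, a1, b1, c1, d1⟩ := h₁
  obtain ⟨N₂, a2, b2, c2, d2⟩ := h₂
  have key : ∀ (x : G) (U : Submodule K V), (∀ v ∈ U, ρ x v = v) → ∀ m : ℕ, ∀ v ∈ U, ρ (x ^ m) v = v := by
    intro x U hx m
    induction m with
    | zero => intro v _; rw [pow_zero, map_one, Module.End.one_apply]
    | succ m ih => intro v hv; rw [pow_succ, map_mul, Module.End.mul_apply, hx v hv, ih v hv]
  refine ⟨N₁ ⊓ N₂, le_inf a1 a2, inf_le_left.trans b1, fun l hl n hn => ⟨c1 l hl n hn.1, c2 l hl n hn.2⟩, ?_⟩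
  intro x hx
  obtain ⟨k1, h1⟩ := d1 x hx.1
  obtain ⟨k2, h2⟩ := d2 x hx.2
  refine ⟨k1 + k2, fun v hv => ?_⟩
  obtain ⟨v1, hv1, v2, hv2, rfl⟩ := Submodule.mem_sup.1 hv
  rw [map_add]
  have e1 : x ^ p ^ (k1 + k2) = (x ^ p ^ k1) ^ p ^ k2 := by rw [← pow_mul, pow_add]
  have e2 : x ^ p ^ (k1 + k2) = (x ^ p ^ k2) ^ p ^ k1 := by rw [← pow_mul, add_comm, pow_add]
  have f1 : ρ (x ^ p ^ (k1 + k2)) v1 = v1 := by
    rw [e1]
    exact key _ U₁ h1 _ v1 hv1
  have f2 : ρ (x ^ p ^ (k1 + k2)) v2 = v2 := by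
    rw [e2]
    exact key _ U₂ h2 _ v2 hv2
  rw [f1, f2]

/-- For the whole space and a faithful representation: `InOpOn ρ p L B ⊤` implies `InOp p L B`.
Proof.  The elements of `N` have order a power of `p` by faithfulness. -/
theorem InOpOn.inOp (ρ : G →* End K V) (hinj : Function.Injective ρ) {p : ℕ} {L B : Subgroup G}
    (h : InOpOn ρ p L B ⊤) : InOp p L B := by
  obtain ⟨N, a, b, c, d⟩ := h
  refine ⟨N, a, b, c, fun x => ?_⟩
  obtain ⟨k, hk⟩ := d x x.2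
  refine ⟨k, Subtype.ext (hinj ?_)⟩
  rw [Subgroup.coe_pow, Subgroup.coe_one, map_one]
  refine LinearMap.ext fun v => ?_
  rw [hk v Submodule.mem_top, Module.End.one_apply]

end H32E
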