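import Pool.Agent.Lib.H32E.TR4

/-!
# H32E / TR5: the trace lemma

Chunk TR5.
-/

set_option autoImplicit false

open Module

namespace H32E

variable {K V G : Type} [NormedField K] [IsUltrametricDist K] [IsAlgClosed K] [CharZero K]
  [AddCommGroup V] [Module K V] [FiniteDimensional K V] [Group G] [Finite G]

theorem tr5_Ad_iff (ρ : G →* End K V) (h : G) (w : End K V) :
    Ad ρ h w = w ↔ ρ h * w = w * ρ h := by
  rw [Ad_apply]
  have h1 : ρ h⁻¹ * ρ h = 1 := by rw [← map_mul, inv_mul_cancel, map_one]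
  have h2 : ρ h * ρ h⁻¹ = 1 := by rw [← map_mul, mul_inv_cancel, map_one]
  constructor
  · intro h3
    calc ρ h * w = ρ h * w * (ρ h⁻¹ * ρ h) := by rw [h1, mul_one]
      _ = (ρ h * w * ρ h⁻¹) * ρ h := by rw [← mul_assoc]
      _ = w * ρ h := by rw [h3]
  · intro h3
    rw [h3, mul_assoc, h2, mul_one]

theorem tr5_main {R : Type} [CommGroup R] [Fintype R] (ρ : G →* End K V)
    (hinj : Function.Injective ρ) (hirr : Irr ρ)
    (M B : Subgroup G) (ι : R →* G) (hι : Function.Injective ι)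
    (hn : ∀ m ∈ M, ∀ r, ∃ r', m * ι r * m⁻¹ = ι r') (hιM : ∀ r, ι r ∈ M)
    (hB : ∀ b ∈ B, ∃ r, ι r = b) (hM : M ≠ ⊤) {p : ℕ} [Fact p.Prime]
    (hpK : ‖(p : K)‖ = (p : ℝ)⁻¹) (hRp : IsPGroup p R)
    (hgen : ∀ g, g ∉ M → ∀ L : Subgroup G, B ≤ L → (∀ b ∈ B, g * b * g⁻¹ ∈ L) → L = ⊤)
    (hBnc : ∃ b ∈ B, ∃ h, b * h ≠ h * b) {Θ : ℝ} (hΘ : Interp K p (finrank K V) Θ)
    (hΘ1 : 1 ≤ Θ) (hlt : ∀ g, g ∉ M → Θ ^ 4 < ((B ⊓ cj g M).relIndex B : ℝ)) : False := by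
  classical
  obtain ⟨b₀, hb₀, h₀, hbh⟩ := hBnc
  have hT0 : (0 : ℝ) ≤ Θ ^ 4 := by positivity
  have hfl : Θ ^ 4 < (⌊Θ ^ 4⌋₊ : ℝ) + 1 := Nat.lt_floor_add_one _
  have hden : (0 : ℝ) < (⌊Θ ^ 4⌋₊ : ℝ) + 1 := by positivity
  have hest : ∀ g, g ∉ M →
      Θ ^ 4 ≤ (Θ ^ 4 / ((⌊Θ ^ 4⌋₊ : ℝ) + 1)) * ((B ⊓ cj g M).relIndex B : ℝ) := by
    intro g hg
    have h1 : ⌊Θ ^ 4⌋₊ < (B ⊓ cj g M).relIndex B := (Nat.floor_lt hT0).2 (hlt g hg)
    have h2 : (⌊Θ ^ 4⌋₊ : ℝ) + 1 ≤ ((B ⊓ cj g M).relIndex B : ℝ) := by exact_mod_cast h1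
    calc Θ ^ 4 = (Θ ^ 4 / ((⌊Θ ^ 4⌋₊ : ℝ) + 1)) * ((⌊Θ ^ 4⌋₊ : ℝ) + 1) := by
          rw [div_mul_cancel₀ _ hden.ne']
      _ ≤ _ := mul_le_mul_of_nonneg_left h2 (div_nonneg hT0 hden.le)
  have hfix : ∀ w : End K V, (∀ r, Ad ρ (ι r) w = w) → ∀ g r,
      Ad ρ (ι r) (Ad ρ g w) = Ad ρ g w := fun w hw g =>
    fixed_invariant ρ ι M B hι hn hιM hB hpK hRp hΘ hΘ1 (div_nonneg hT0 hden.le)
      ((div_lt_one hden).2 hfl) hest w hw g
  haveI : Fintype (R →* Kˣ) := Fintype.ofFinite _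
  obtain ⟨χ, hχ⟩ : ∃ χ : R →* Kˣ, idem (ρ.comp ι) χ ≠ 0 := by
    by_contra hall
    push Not at hall
    have h1 : (0 : End K V) = 1 := by
      have h2 := sum_idem (K := K) (ρ.comp ι)
      rw [Finset.sum_eq_zero fun χ _ => hall χ] at h2
      exact h2
    haveI := subsingleton_of_zero_eq_one h1
    exact hbh (hinj (Subsingleton.elim _ _))
  set e := idem (ρ.comp ι) χ with he
  have hee : e * e = e := idem_mul_self _ _
  have hec : ∀ r, Ad ρ (ι r) e = e := by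
    intro r
    rw [tr5_Ad_iff]
    exact (mul_idem (ρ.comp ι) χ r).trans (idem_mul (ρ.comp ι) χ r).symm
  have hAm : ∀ a b : G, Ad ρ (a * b) e = Ad ρ a (Ad ρ b e) := by
    intro a b
    rw [map_mul]
    rfl
  have hAmm : ∀ (a b : G) (w : End K V), Ad ρ (a * b) w = Ad ρ a (Ad ρ b w) := by
    intro a b w
    rw [map_mul]
    rfl
  have hA1 : ∀ w : End K V, Ad ρ 1 w = w := by
    intro w
    rw [map_one]
    rfl
  obtain ⟨g, hg⟩ : ∃ g, g ∉ M := by
    by_contra hall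
    push Not at hall
    exact hM (Subgroup.eq_top_iff' M |>.2 hall)
  let S : Subgroup G :=
    { carrier := {h | Ad ρ h e = e}
      mul_mem' := by
        intro a b ha hb
        change Ad ρ (a * b) e = e
        have ha' : Ad ρ a e = e := ha
        have hb' : Ad ρ b e = e := hb
        rw [hAm, hb', ha']
      one_mem' := hA1 e
      inv_mem' := by
        intro a ha
        have ha' : Ad ρ a e = e := ha
        change Ad ρ a⁻¹ e = e
        have h1 : Ad ρ a⁻¹ (Ad ρ a e) = e := by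
          rw [← hAm, inv_mul_cancel, hA1]
        rw [ha'] at h1
        exact h1 }
  have hS : S = ⊤ := by
    apply hgen g hg S
    · intro b hb
      obtain ⟨r, rfl⟩ := hB b hb
      exact hec r
    · intro b hb
      obtain ⟨r, rfl⟩ := hB b hb
      change Ad ρ (g * ι r * g⁻¹) e = e
      rw [hAmm, hAmm, hfix e hec g⁻¹ r, ← hAmm, mul_inv_cancel, hA1]
  have hcom : ∀ h, ρ h * e = e * ρ h := by
    intro h
    rw [← tr5_Ad_iff]
    have h1 : h ∈ S := by rw [hS]; exact Subgroup.mem_top h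
    exact h1
  have hU := hirr (LinearMap.range e) (by
    rintro h v ⟨u, rfl⟩
    refine ⟨ρ h u, ?_⟩
    have h1 := congrArg (fun f : End K V => f u) (hcom h)
    exact h1.symm)
  rcases hU with hU | hU
  · exact hχ (LinearMap.range_eq_bot.1 hU)
  · have he1 : e = 1 := by
      apply LinearMap.ext
      intro v
      obtain ⟨u, rfl⟩ := LinearMap.range_eq_top.1 hU v
      exact congrArg (fun f : End K V => f u) hee
    obtain ⟨r, rfl⟩ := hB b₀ hb₀
    have h1 : ρ (ι r) = ((χ r : Kˣ) : K) • (1 : End K V) := by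
      have h2 := mul_idem (ρ.comp ι) χ r
      rw [← he, he1, mul_one] at h2
      exact h2
    apply hbh
    apply hinj
    rw [map_mul, map_mul, h1, smul_mul_assoc, one_mul, mul_smul_comm, mul_one]

/-- **Trace lemma.**  `ρ` faithful and irreducible, `B ≤ R ≤ M < G`, `R` a commutative `p`-group
normalised by `M`, such that for `g ∉ M` the group `G` is generated by `B` and `g B g⁻¹`, and `B` is not
central.  Then `|B : B ∩ g M g⁻¹| ≤ Θ ^ 4` for some `g ∉ M`.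

Proof.  Suppose `Θ ^ 4 < m_g := |B : B ∩ g M g⁻¹|` for all `g ∉ M`.  `G` is finite, so there is
`ε ∈ (0, 1)` with `Θ ^ 4 ≤ ε m_g` for all `g ∉ M` (for instance `ε = max_{g ∉ M} Θ ^ 4 / m_g`, or
`ε = Θ ^ 4 / (Θ ^ 4 + δ)` ...; a clean way: `m_g` are natural numbers `> Θ ^ 4`, hence
`m_g ≥ ⌊Θ ^ 4⌋₊ + 1` and `ε = Θ ^ 4 / (⌊Θ ^ 4⌋₊ + 1) < 1`).  Let `ι : R →* G` be the inclusion
(`R.subtype`, with the `CommGroup` structure on `R` coming from `hRc`).  By `fixed_invariant`: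
if `w` commutes with `ρ(R)` then so does `Ad(g) w` for every `g`.
(`Ad ρ (ι r) w = w` iff `ρ(r) w = w ρ(r)`.)
Let `χ` be a character of `R` with `e = idem (ρ.comp ι) χ ≠ 0` (exists by `sum_idem`; `V ≠ 0` because
`ρ` is faithful and `B` not central).  `e` commutes with `ρ(R)`, hence `Ad(g⁻¹) e` commutes with
`ρ(B)`, i.e. `e` commutes with `ρ(g B g⁻¹)`, and `e` commutes with `ρ(B)`.  The set of
`h` such that `ρ h` commutes with `e` is a subgroup, so by `hgen` (for any `g ∉ M`) it is `G`.  Thus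
the range of `e` is invariant under `G`, nonzero, so it is `V` and `e = 1` (`e` idempotent).  Then
`ρ(r) = ρ(r) e = χ(r) • 1` for all `r ∈ R` (`mul_idem`): the elements of `B` act by scalars, so they
are central since `ρ` is faithful.  Contradiction to `hBnc`. -/
theorem trace_lemma (ρ : G →* End K V) (hinj : Function.Injective ρ) (hirr : Irr ρ)
    (M R B : Subgroup G) (hBR : B ≤ R) (hRM : R ≤ M) (hM : M ≠ ⊤) (hRc : Comm R) {p : ℕ}
    [Fact p.Prime] (hpK : ‖(p : K)‖ = (p : ℝ)⁻¹) (hRp : IsPGroup p R) (hRn : Nrm M R)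
    (hgen : ∀ g, g ∉ M → ∀ L : Subgroup G, B ≤ L → (∀ b ∈ B, g * b * g⁻¹ ∈ L) → L = ⊤)
    (hBnc : ∃ b ∈ B, ∃ h, b * h ≠ h * b) {Θ : ℝ} (hΘ : Interp K p (finrank K V) Θ)
    (hΘ1 : 1 ≤ Θ) : ∃ g, g ∉ M ∧ ((B ⊓ cj g M).relIndex B : ℝ) ≤ Θ ^ 4 := by
  by_contra hcon
  push Not at hcon
  let I : CommGroup R :=
    { (inferInstance : Group R) with mul_comm := fun a b => Subtype.ext (hRc a a.2 b b.2) }
  let _ : Fintype R := Fintype.ofFinite _
  exact tr5_main (R := R) ρ hinj hirr M B R.subtype R.subtype_injective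
    (fun m hm r => ⟨⟨m * r * m⁻¹, hRn m hm r r.2⟩, rfl⟩) (fun r => hRM r.2)
    (fun b hb => ⟨⟨b, hBR hb⟩, rfl⟩) hM hpK hRp hgen hBnc hΘ hΘ1 hcon

end H32E
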