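import Pool.Agent.Lib.H32E.E0

/-!
# H32E / ZP1: Wielandt's zipper lemma for `p`-subgroups

Chunk ZP1 (pure finite group theory).
-/

set_option autoImplicit false

namespace H32E

variable {H : Type*} [Group H]

/-- `InOp` is invariant under conjugation.  Proof: conjugate the normal `p`-subgroup. -/
theorem InOp.conj {p : ℕ} {L B : Subgroup H} (h : InOp p L B) (g : H) :
    InOp p (cj g L) (cj g B) := by
  obtain ⟨N, hBN, hNL, hnrm, hp⟩ := h
  refine ⟨cj g N, Subgroup.map_mono hBN, Subgroup.map_mono hNL, ?_, hp.map _⟩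
  intro l hl n hn
  rw [mem_cj] at hl hn ⊢
  have h1 := hnrm _ hl _ hn
  have h2 : g⁻¹ * (l * n * l⁻¹) * g = g⁻¹ * l * g * (g⁻¹ * n * g) * (g⁻¹ * l * g)⁻¹ := by group
  rw [h2]
  exact h1

/-- In a finite `p`-group a proper subgroup is properly contained in its normaliser: if `T < N`,
`N` a `p`-group, then there is `x ∈ N`, `x ∉ T`, normalising `T`.
(`IsPGroup.isNilpotent`, `normalizerCondition_of_isNilpotent`, for the group `↥N` and the subgroup
`T.subgroupOf N`.) -/
theorem exists_normalizing {p : ℕ} [Fact p.Prime] [Finite H] (T N : Subgroup H)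
    (hTN : T ≤ N) (hne : T ≠ N) (hN : IsPGroup p N) :
    ∃ x ∈ N, x ∉ T ∧ ∀ t, t ∈ T ↔ x * t * x⁻¹ ∈ T := by
  have hT : T.subgroupOf N < ⊤ := by
    rw [lt_top_iff_ne_top, Ne, Subgroup.subgroupOf_eq_top]
    exact fun h => hne (le_antisymm hTN h)
  have hnil : Group.IsNilpotent N := hN.isNilpotent
  obtain ⟨y, hy1, hy2⟩ := SetLike.exists_of_lt (Group.normalizerCondition_of_isNilpotent (T.subgroupOf N) hT)
  rw [Subgroup.mem_normalizer_iff] at hy1
  rw [Subgroup.mem_subgroupOf] at hy2
  refine ⟨y, y.2, hy2, fun t => ⟨fun ht => ?_, fun ht => ?_⟩⟩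
  · have h1 := (hy1 ⟨t, hTN ht⟩).1 (by rw [Subgroup.mem_subgroupOf]; exact ht)
    rw [Subgroup.mem_subgroupOf] at h1
    exact h1
  · have hN1 : (y : H) * t * (y : H)⁻¹ ∈ N := hTN ht
    have hN2 : t ∈ N := by
      have h1 := N.mul_mem (N.mul_mem (N.inv_mem y.2) hN1) y.2
      have h2 : (y : H)⁻¹ * ((y : H) * t * (y : H)⁻¹) * (y : H) = t := by group
      rw [h2] at h1
      exact h1
    have h1 := (hy1 ⟨t, hN2⟩).2 (by rw [Subgroup.mem_subgroupOf]; exact ht)
    rw [Subgroup.mem_subgroupOf] at h1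
    exact h1

/-- A subgroup `T` is generated by conjugates of `B`. -/
def GenBy (B T : Subgroup H) : Prop :=
  T = Subgroup.closure {x | ∃ g, (cj g B ≤ T) ∧ x ∈ cj g B}

/-- **Key step.**  `N` a finite `p`-group, `T < N` proper, `T` and `N` both generated by conjugates of
`B`.  Then some conjugate of `B` is contained in `N`, normalises `T` and is not contained in `T`.

Proof.  If all elements of `N` normalise `T`, take any conjugate of `B` contained in `N` but not
in `T` (it exists as `N` is generated by the conjugates of `B` in `N` and `T ≠ N`).  Otherwise let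
`Y` be the set of the elements of `N` normalising `T`, a proper subgroup of `N` containing `T`.
By `exists_normalizing` for `Y < N` there is `x ∈ N \ Y` normalising `Y`.  Then `x T x⁻¹ ≤ Y`
normalises `T`, and `x T x⁻¹ ≠ T`, so `x T x⁻¹ ⊄ T` (same order, `H` finite).  As `T` is generated by
conjugates of `B`, so is `x T x⁻¹`, hence some conjugate of `B` is contained in `x T x⁻¹` and not in
`T`. -/
theorem exists_conj {p : ℕ} [Fact p.Prime] [Finite H] (B T N : Subgroup H) (hTN : T ≤ N)
    (hne : T ≠ N) (hN : IsPGroup p N) (hT : GenBy B T) (hNg : GenBy B N) :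
    ∃ g, cj g B ≤ N ∧ ¬ cj g B ≤ T ∧ ∀ x ∈ cj g B, ∀ t ∈ T, x * t * x⁻¹ ∈ T := by
  by_cases hall : ∀ n ∈ N, ∀ t ∈ T, n * t * n⁻¹ ∈ T
  · by_contra hcon
    push Not at hcon
    apply hne
    apply le_antisymm hTN
    intro n hn
    rw [hNg] at hn
    have h1 : Subgroup.closure {x | ∃ g, (cj g B ≤ N) ∧ x ∈ cj g B} ≤ T := by
      rw [Subgroup.closure_le]
      rintro x ⟨g, hg, hx⟩
      by_contra hxT
      obtain ⟨y, hy, t, ht, h2⟩ := hcon g hg (fun h => hxT (h hx))
      exact h2 (hall y (hg hy) t ht)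
    exact h1 hn
  · let Y : Subgroup H := N ⊓ Subgroup.normalizer (T : Set H)
    have hY : ∀ y, y ∈ Y ↔ y ∈ N ∧ ∀ t, t ∈ T ↔ y * t * y⁻¹ ∈ T := by
      intro y
      rw [Subgroup.mem_inf, Subgroup.mem_normalizer_iff]
    have hYN : Y ≤ N := inf_le_left
    have hYne : Y ≠ N := by
      intro h
      apply hall
      intro n hn t ht
      rw [← h] at hn
      exact (((hY n).1 hn).2 t).1 ht
    have hTY : T ≤ Y := by
      intro t ht
      rw [hY]
      refine ⟨hTN ht, fun s => ⟨fun hs => T.mul_mem (T.mul_mem ht hs) (T.inv_mem ht), fun hs => ?_⟩⟩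
      have h1 := T.mul_mem (T.mul_mem (T.inv_mem ht) hs) ht
      have h2 : t⁻¹ * (t * s * t⁻¹) * t = s := by group
      rw [h2] at h1
      exact h1
    obtain ⟨x, hxN, hxY, hx⟩ := exists_normalizing Y N hYN hYne hN
    have hnot : ¬ cj x T ≤ T := by
      intro hle
      have hcard : Nat.card (cj x T) = Nat.card T :=
        Subgroup.card_map_of_injective (MulAut.conj x).injective
      have heq : cj x T = T := Subgroup.eq_of_le_of_card_ge hle hcard.ge
      apply hxY
      rw [hY]
      refine ⟨hxN, fun t => ⟨fun ht => ?_, fun ht => ?_⟩⟩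
      · apply hle
        rw [mem_cj]
        have h2 : x⁻¹ * (x * t * x⁻¹) * x = t := by group
        rw [h2]
        exact ht
      · rw [← heq, mem_cj] at ht
        have h2 : x⁻¹ * (x * t * x⁻¹) * x = t := by group
        rw [h2] at ht
        exact ht
    have hexg : ∃ g, cj g B ≤ T ∧ ¬ cj x (cj g B) ≤ T := by
      by_contra hcon
      push Not at hcon
      apply hnot
      intro y hy
      rw [mem_cj] at hy
      have h1 : T ≤ cj x⁻¹ T := by
        have h2 : Subgroup.closure {x | ∃ g, (cj g B ≤ T) ∧ x ∈ cj g B} ≤ cj x⁻¹ T := by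
          rw [Subgroup.closure_le]
          rintro z ⟨g, hg, hz⟩
          show z ∈ cj x⁻¹ T
          rw [mem_cj]
          apply hcon g hg
          rw [mem_cj]
          have h3 : x⁻¹ * (x⁻¹⁻¹ * z * x⁻¹) * x = z := by group
          rw [h3]
          exact hz
        intro z hz
        rw [hT] at hz
        exact h2 hz
      have h4 := h1 hy
      rw [mem_cj] at h4
      have h5 : x⁻¹⁻¹ * (x⁻¹ * y * x) * x⁻¹ = y := by group
      rw [h5] at h4
      exact h4
    obtain ⟨g, hg1, hg2⟩ := hexg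
    have hcj : cj (x * g) B = cj x (cj g B) := by
      ext z
      rw [mem_cj, mem_cj, mem_cj]
      have h3 : (x * g)⁻¹ * z * (x * g) = g⁻¹ * (x⁻¹ * z * x) * g := by group
      rw [h3]
    have hsub : cj (x * g) B ≤ Y := by
      rw [hcj]
      intro z hz
      rw [mem_cj] at hz
      have h1 := (hx (x⁻¹ * z * x)).1 (hTY (hg1 hz))
      have h2 : x * (x⁻¹ * z * x) * x⁻¹ = z := by group
      rw [h2] at h1
      exact h1
    refine ⟨x * g, hsub.trans hYN, ?_, ?_⟩
    · rw [hcj]
      exact hg2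
    · intro z hz t ht
      exact (((hY z).1 (hsub hz)).2 t).1 ht

end H32E
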