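import Pool.Agent.Lib.H32E.ZP0
import Pool.Agent.Lib.H32E.ZP1

/-!
# H32E / ZP2: the zipper lemma

Chunk ZP2 (pure finite group theory).
-/

set_option autoImplicit false

namespace H32E

variable {H : Type*} [Group H] [Finite H]

omit [Finite H] in
theorem zp2_cj_cj (g h : H) (M : Subgroup H) : cj g (cj h M) = cj (g * h) M := by
  ext x
  rw [mem_cj, mem_cj, mem_cj]
  have : h⁻¹ * (g⁻¹ * x * g) * h = (g * h)⁻¹ * x * (g * h) := by group
  rw [this]

omit [Finite H] in
theorem zp2_cj_mono (g : H) {M N : Subgroup H} (h : M ≤ N) : cj g M ≤ cj g N := by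
  intro x hx
  rw [mem_cj] at hx ⊢
  exact h hx

omit [Finite H] in
theorem zp2_cj_inv (g : H) (M : Subgroup H) : cj g (cj g⁻¹ M) = M := by
  rw [zp2_cj_cj]
  ext x
  rw [mem_cj]
  have : (g * g⁻¹)⁻¹ * x * (g * g⁻¹) = x := by group
  rw [this]

omit [Finite H] in
theorem zp2_cj_inv' (g : H) (M : Subgroup H) : cj g⁻¹ (cj g M) = M := by
  have := zp2_cj_inv g⁻¹ M
  rwa [inv_inv] at this

omit [Finite H] in
theorem zp2_cj_top {g : H} {M : Subgroup H} (h : M ≠ ⊤) : cj g M ≠ ⊤ := by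
  intro h1
  apply h
  rw [eq_top_iff]
  intro x _
  have h2 : g * x * g⁻¹ ∈ cj g M := by
    rw [h1]
    exact Subgroup.mem_top _
  rw [mem_cj] at h2
  have : g⁻¹ * (g * x * g⁻¹) * g = x := by group
  rwa [this] at h2

theorem zp2_cj_eq {g : H} {T : Subgroup H} (h : cj g T ≤ T) : cj g T = T := by
  apply Subgroup.eq_of_le_of_card_ge h
  have h1 : Nat.card (cj g T) = Nat.card T :=
    Subgroup.card_map_of_injective (MulAut.conj g).injective
  exact h1.ge

/-- The normaliser. -/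
def zp2_nz (T : Subgroup H) : Subgroup H := Subgroup.normalizer (T : Set H)

theorem zp2_mem {T : Subgroup H} {x : H} : x ∈ zp2_nz T ↔ ∀ t ∈ T, x * t * x⁻¹ ∈ T := by
  unfold zp2_nz
  rw [Subgroup.mem_normalizer_iff]
  constructor
  · exact fun h t ht => (h t).1 ht
  · intro h t
    refine ⟨fun ht => h t ht, fun ht => ?_⟩
    have h1 : cj x T = T := by
      apply zp2_cj_eq
      intro y hy
      rw [mem_cj] at hy
      have h2 := h _ hy
      have : x * (x⁻¹ * y * x) * x⁻¹ = y := by group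
      rwa [this] at h2
    rw [← h1, mem_cj] at ht
    have : x⁻¹ * (x * t * x⁻¹) * x = t := by group
    rwa [this] at ht

/-- The subgroup generated by the conjugates of `B` in `M`. -/
def zp2_NB (B M : Subgroup H) : Subgroup H := Subgroup.closure {x | ∃ g, (cj g B ≤ M) ∧ x ∈ cj g B}

omit [Finite H] in
theorem zp2_le (B : Subgroup H) {T M : Subgroup H} (hT : GenBy B T) (h : T ≤ M) : T ≤ zp2_NB B M := by
  have h4 : T = Subgroup.closure {x | ∃ g, (cj g B ≤ T) ∧ x ∈ cj g B} := hT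
  rw [h4]
  apply Subgroup.closure_mono
  rintro x ⟨g', h5, h6⟩
  exact ⟨g', h5.trans h, h6⟩

theorem zp2_N {p : ℕ} (B : Subgroup H) (hmin : ∀ L : Subgroup H, B ≤ L → L ≠ ⊤ → InOp p L B)
    {M : Subgroup H} (hM : M ≠ ⊤) : zp2_NB B M ≤ M ∧ IsPGroup p (zp2_NB B M) ∧ GenBy B (zp2_NB B M) ∧
      Nrm M (zp2_NB B M) := by
  obtain ⟨Q, q1, q2, q3, q4⟩ := exists_Op p M
  have hle : zp2_NB B M ≤ M := by
    unfold zp2_NB
    rw [Subgroup.closure_le]
    rintro x ⟨g', h5, h6⟩
    exact h5 h6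
  have hQ : zp2_NB B M ≤ Q := by
    unfold zp2_NB
    rw [Subgroup.closure_le]
    rintro x ⟨g, h5, h6⟩
    have h1 : B ≤ cj g⁻¹ M := by
      have := zp2_cj_mono g⁻¹ h5
      rwa [zp2_cj_inv'] at this
    have h2 := (hmin _ h1 (zp2_cj_top hM)).conj g
    rw [zp2_cj_inv] at h2
    obtain ⟨N, n1, n2, n3, n4⟩ := h2
    exact q4 N n2 n3 n4 (n1 h6)
  refine ⟨hle, q3.to_le hQ, ?_, ?_⟩
  · apply le_antisymm
    · apply Subgroup.closure_mono
      rintro x ⟨g, h5, h6⟩
      exact ⟨g, fun y hy => Subgroup.subset_closure ⟨g, h5, hy⟩, h6⟩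
    · rw [Subgroup.closure_le]
      rintro x ⟨g', h5, h6⟩
      exact h5 h6
  · intro m hm n hn
    have h1 : zp2_NB B M ≤ zp2_nz (zp2_NB B M) ⊔ zp2_NB B M := le_sup_right
    refine Subgroup.closure_induction (p := fun n _ => m * n * m⁻¹ ∈ zp2_NB B M) ?_ ?_ ?_ ?_ hn
    · rintro x ⟨g, h5, h6⟩
      apply Subgroup.subset_closure
      refine ⟨m * g, ?_, ?_⟩
      · rw [← zp2_cj_cj]
        intro y hy
        rw [mem_cj] at hy
        have h7 := M.mul_mem (M.mul_mem hm (h5 hy)) (M.inv_mem hm)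
        have : m * (m⁻¹ * y * m) * m⁻¹ = y := by group
        rwa [this] at h7
      · rw [← zp2_cj_cj, mem_cj]
        have : m⁻¹ * (m * x * m⁻¹) * m = x := by group
        rw [this]
        exact h6
    · have : m * 1 * m⁻¹ = 1 := by group
      rw [this]
      exact Subgroup.one_mem _
    · intro x y _ _ hx hy
      have : m * (x * y) * m⁻¹ = (m * x * m⁻¹) * (m * y * m⁻¹) := by group
      rw [this]
      exact Subgroup.mul_mem _ hx hy
    · intro x _ hx
      have : m * x⁻¹ * m⁻¹ = (m * x * m⁻¹)⁻¹ := by group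
      rw [this]
      exact Subgroup.inv_mem _ hx

/-- **Zipper lemma.**  If `B` is a `p`-subgroup that is not contained in a normal `p`-subgroup of
`H`, but is contained in a normal `p`-subgroup of every proper subgroup `L ≥ B`, then there is a
largest proper subgroup `M` of `H` containing `B`.

Proof.  `B ≠ ⊤` (otherwise `⊤` is a normal `p`-subgroup containing `B`), so `B` is contained in a
maximal subgroup (coatom; `H` finite, `IsCoatomic`).  We show that there is no pair of coatoms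
`M₁ ≠ M₂` together with a subgroup `T ≤ M₁ ⊓ M₂`, generated by conjugates of `B` (`GenBy B T`) and
containing at least one conjugate of `B`.  Suppose there is; choose `(M₁, M₂, T)` with `|T|` as
large as possible.
* For `i = 1, 2` let `N_i = Subgroup.closure {x | ∃ g, cj g B ≤ M_i ∧ x ∈ cj g B}`.  Let `Q_i` be the
largest normal `p`-subgroup of `M_i` (`exists_Op`).  Every conjugate `cj g B ≤ M_i` is contained in a
normal `p`-subgroup of `M_i` (`hmin` for the proper subgroup `cj g⁻¹ M_i ≥ B`, then `InOp.conj`), so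
it is contained in `Q_i`.  Hence `T ≤ N_i ≤ Q_i` and `N_i` is a `p`-group, `GenBy B N_i`, and `N_i`
is normalised by `M_i` (conjugation by `m ∈ M_i` permutes the conjugates of `B` in `M_i`).
* `T` is not normal in `H`: otherwise the conjugate of `B` contained in `T` lies in the normal
`p`-subgroup `T`, hence so does `B`, against `hB`.  Let `Nz` be the normaliser of `T`; it is a proper
subgroup, so there is a coatom `M₃ ≥ Nz`.
* Claim `M₃ = M_i` for `i = 1, 2`.  If `T = N_i` then `M_i` normalises `T`, so `M_i ≤ M₃` and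
`M_i = M₃` (both coatoms).  If `T ≠ N_i` take `B' = cj g B` from `exists_conj` (`N = N_i`).
`T' = T ⊔ B'` is contained in `N_i ≤ M_i`, hence a `p`-group, it is contained in `Nz ≤ M₃`, generated
by conjugates of `B`, and larger than `T`.  By the choice of `T`, `M₃ = M_i`.
* So `M₁ = M₃ = M₂`, a contradiction.
Apply this with `T = B` (`GenBy B B`: `cj 1 B = B`): there is exactly one coatom `M` with `B ≤ M`.
Every proper `L ≥ B` lies in a coatom, which contains `B`, so it is `M`. -/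
theorem zipper {p : ℕ} [Fact p.Prime] (B : Subgroup H) (hBp : IsPGroup p B)
    (hB : ¬ InOp p ⊤ B) (hmin : ∀ L : Subgroup H, B ≤ L → L ≠ ⊤ → InOp p L B) :
    ∃ M : Subgroup H, B ≤ M ∧ M ≠ ⊤ ∧ ∀ L : Subgroup H, B ≤ L → L ≠ ⊤ → L ≤ M := by
  classical
  have hBt : B ≠ ⊤ := by
    intro h
    exact hB ⟨B, le_rfl, le_top, fun l _ n _ => by rw [h]; exact Subgroup.mem_top _, hBp⟩
  have hex : ∀ L : Subgroup H, L ≠ ⊤ → ∃ M : Subgroup H, IsCoatom M ∧ L ≤ M := fun L hL =>
    (eq_top_or_exists_le_coatom L).resolve_left hL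
  let S : Set (Subgroup H) := {T | GenBy B T ∧ (∃ g, cj g B ≤ T) ∧
    ∃ M₁ M₂ : Subgroup H, IsCoatom M₁ ∧ IsCoatom M₂ ∧ M₁ ≠ M₂ ∧ T ≤ M₁ ∧ T ≤ M₂}
  have hS : ∀ T ∈ S, False := by
    intro T0 hT0
    obtain ⟨T, hT⟩ := (Set.toFinite S).exists_maximal ⟨T0, hT0⟩
    obtain ⟨⟨hTg, ⟨g0, hg0⟩, M₁, M₂, c1, c2, h12, l1, l2⟩, hmax⟩ := hT
    -- T is a p-group
    have hTp : IsPGroup p T := by
      obtain ⟨-, n2, -, -⟩ := zp2_N B hmin c1.1
      exact n2.to_le (zp2_le B hTg l1)
    have hnz : zp2_nz T ≠ ⊤ := by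
      intro h
      apply hB
      have hnorm : ∀ x : H, ∀ t ∈ T, x * t * x⁻¹ ∈ T := fun x =>
        zp2_mem.1 (by rw [h]; exact Subgroup.mem_top x)
      refine ⟨T, ?_, le_top, fun l _ n hn => hnorm l n hn, hTp⟩
      intro b hb
      have h1 : g0 * b * g0⁻¹ ∈ T := hg0 (by
        rw [mem_cj]
        have : g0⁻¹ * (g0 * b * g0⁻¹) * g0 = b := by group
        rw [this]
        exact hb)
      have h2 := hnorm g0⁻¹ _ h1
      have : g0⁻¹ * (g0 * b * g0⁻¹) * g0⁻¹⁻¹ = b := by group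
      rwa [this] at h2
    obtain ⟨M₃, c3, l3⟩ := hex _ hnz
    have hTnz : T ≤ zp2_nz T := fun t ht => zp2_mem.2 fun s hs =>
      T.mul_mem (T.mul_mem ht hs) (T.inv_mem ht)
    have key : ∀ M : Subgroup H, IsCoatom M → T ≤ M → M₃ = M := by
      intro M c l
      by_contra hne
      obtain ⟨n1, n2, n3, n4⟩ := zp2_N B hmin c.1
      have hTN := zp2_le B hTg l
      by_cases h : T = zp2_NB B M
      · have h1 : M ≤ zp2_nz T := fun m hm => zp2_mem.2 (by
          rw [h]
          exact fun t ht => n4 m hm t ht)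
        rcases c.le_iff.1 (h1.trans l3) with h2 | h2
        · exact c3.1 h2
        · exact hne h2
      · obtain ⟨g, a1, a2, a3⟩ := exists_conj B T (zp2_NB B M) hTN h n2 hTg n3
        have hle : T ⊔ cj g B ≤ zp2_NB B M := sup_le hTN a1
        have hcn : cj g B ≤ zp2_nz T := fun x hx => zp2_mem.2 (a3 x hx)
        have hmem : T ⊔ cj g B ∈ S := by
          refine ⟨?_, ⟨g, le_sup_right⟩, M, M₃, c, c3, fun h' => hne h'.symm, hle.trans n1,
            (sup_le hTnz hcn).trans l3⟩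
          apply le_antisymm
          · apply sup_le
            · have h4 : T = Subgroup.closure {x | ∃ g, (cj g B ≤ T) ∧ x ∈ cj g B} := hTg
              rw [h4]
              apply Subgroup.closure_mono
              rintro x ⟨g', h5, h6⟩
              rw [← h4]
              exact ⟨g', h5.trans le_sup_left, h6⟩
            · intro x hx
              exact Subgroup.subset_closure ⟨g, le_sup_right, hx⟩
          · rw [Subgroup.closure_le]
            rintro x ⟨g', h5, h6⟩
            exact h5 h6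
        exact a2 (le_sup_right.trans (hmax hmem le_sup_left))
    exact h12 ((key M₁ c1 l1).symm.trans (key M₂ c2 l2))
  obtain ⟨M, cM, lM⟩ := hex B hBt
  refine ⟨M, lM, cM.1, ?_⟩
  intro L hBL hLt
  obtain ⟨M', cM', lM'⟩ := hex L hLt
  by_cases h : M' = M
  · rw [← h]
    exact lM'
  · exfalso
    refine hS B ⟨?_, ⟨1, ?_⟩, M', M, cM', cM, h, hBL.trans lM', lM⟩
    · apply le_antisymm
      · intro x hx
        apply Subgroup.subset_closure
        refine ⟨1, ?_, ?_⟩
        · intro y hy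
          rw [mem_cj] at hy
          simpa using hy
        · rw [mem_cj]
          simpa using hx
      · rw [Subgroup.closure_le]
        rintro x ⟨g', h5, h6⟩
        exact h5 h6
    · intro y hy
      rw [mem_cj] at hy
      simpa using hy

/-- With `M` as in `zipper`: for `g ∉ M` the subgroup `B` is not contained in `g M g⁻¹`.

Proof.  If `B ≤ g M g⁻¹` then `g M g⁻¹ ≤ M` (it is a proper subgroup containing `B`), and they have
the same order, so `g` normalises `M`.  The normaliser of `M` contains `M` and `g ∉ M`, so it is `⊤`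
(otherwise it would be contained in `M`); so `M` is normal in `H`.  `M` is a proper subgroup
containing `B`, so `InOp p M B` (`hmin`) and `InOp p ⊤ B` by `InOp.of_normal`: this contradicts
`hB`. -/
theorem zipper_not_le {p : ℕ} [Fact p.Prime] (B M : Subgroup H) (hBp : IsPGroup p B)
    (hB : ¬ InOp p ⊤ B) (hmin : ∀ L : Subgroup H, B ≤ L → L ≠ ⊤ → InOp p L B)
    (hBM : B ≤ M) (hMt : M ≠ ⊤) (hM : ∀ L : Subgroup H, B ≤ L → L ≠ ⊤ → L ≤ M) {g : H}
    (hg : g ∉ M) : ¬ B ≤ cj g M := by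
  intro hle
  have h1 : cj g M ≤ M := hM _ hle (zp2_cj_top hMt)
  have h2 : g ∈ zp2_nz M := zp2_mem.2 fun t ht => h1 (by
    rw [mem_cj]
    have : g⁻¹ * (g * t * g⁻¹) * g = t := by group
    rw [this]
    exact ht)
  have h3 : M ≤ zp2_nz M := fun t ht => zp2_mem.2 fun s hs =>
    M.mul_mem (M.mul_mem ht hs) (M.inv_mem ht)
  by_cases h4 : zp2_nz M = ⊤
  · have h5 : Nrm ⊤ M := fun l _ n hn => zp2_mem.1 (by rw [h4]; exact Subgroup.mem_top l) n hn
    exact hB ((hmin M hBM hMt).of_normal h5)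
  · exact hg (hM _ (hBM.trans h3) h4 h2)

/-- With `M` as in `zipper`: for `g ∉ M` the group is generated by `B` and `g B g⁻¹`.

Proof.  Suppose `L ≠ ⊤` contains `B` and `g B g⁻¹`.  Then `L ≤ M` so `g B g⁻¹ ≤ M`, i.e.
`B ≤ g⁻¹ M g = cj g⁻¹ M` with `g⁻¹ ∉ M`, against `zipper_not_le`. -/
theorem zipper_gen {p : ℕ} [Fact p.Prime] (B M : Subgroup H) (hBp : IsPGroup p B)
    (hB : ¬ InOp p ⊤ B) (hmin : ∀ L : Subgroup H, B ≤ L → L ≠ ⊤ → InOp p L B)
    (hBM : B ≤ M) (hMt : M ≠ ⊤) (hM : ∀ L : Subgroup H, B ≤ L → L ≠ ⊤ → L ≤ M) {g : H}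
    (hg : g ∉ M) (L : Subgroup H) (hBL : B ≤ L) (hL : ∀ b ∈ B, g * b * g⁻¹ ∈ L) : L = ⊤ := by
  by_contra hLt
  have h1 : L ≤ M := hM L hBL hLt
  have hg' : g⁻¹ ∉ M := fun h => hg (by
    have := M.inv_mem h
    rwa [inv_inv] at this)
  refine zipper_not_le B M hBp hB hmin hBM hMt hM hg' ?_
  intro b hb
  rw [mem_cj, inv_inv]
  exact h1 (hL b hb)

end H32E
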