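import Pool.Agent.Lib.H32E.ST0
import Pool.Agent.Lib.H32E.TR5
import Pool.Agent.Lib.H32E.ZP2
import Pool.Agent.Lib.H32E.NA1
import Pool.Agent.Lib.H32E.IL5

/-!
# H32E / ST1: the step lemma in the minimal (irreducible, faithful) case

Chunk ST1 (assembly).
-/

set_option autoImplicit false

open Module

namespace H32E

variable {K V G : Type} [NormedField K] [IsUltrametricDist K] [IsAlgClosed K] [CharZero K]
  [AddCommGroup V] [Module K V] [FiniteDimensional K V] [Group G] [Finite G]

/-- **The step lemma in the minimal case.**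

Proof.  Let `M` be from `zipper`; `B ≤ M`, `M ≠ ⊤`.  `InOp p M B` by `hmin`, so there is a
`p`-group `Q` with `B ≤ Q ≤ M` normalised by `M`.  Apply `dichotomy`.
(1) There is a commutative `Y` normalised but not centralised by `B`: `step_of_move` with `X = B`
(`relIndex` is `1 ≤ Θ ^ 4`).
(2) There is a commutative `R`, `B ≤ R ≤ Q`, normalised by `M`.  By `trace_lemma` with
`Θ₁ = p ^ ((n - 1) / (p - 1))`, `n = dim V` (`interp_crude`; `n ≥ 1` as `B` is not central and `ρ`
faithful) there is `g₁ ∉ M` with `|B : B ∩ g₁ M g₁⁻¹| ≤ Θ₁ ^ 4`; the index is a power of `p` and not `1`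
(`zipper_not_le`), so `p ≤ Θ₁ ^ 4 = p ^ (4 (n - 1) / (p - 1))`, hence `p - 1 ≤ 4 (n - 1)` and `p ≤ 4 n`.
By `trace_lemma` with `Θ` there is `g ∉ M` with `|B : X| ≤ Θ ^ 4`, `X = B ⊓ cj g M`.
The group `R' = cj g R` is commutative and normalised by `cj g M ≥ X`.
(2a) If `X` does not centralise `R'`: `step_of_move` with `Y = R'`.
(2b) If `X` centralises `R'`: it centralises `g B g⁻¹ ≤ R'` and `B` (commutative, `X ≤ B`), so by
`zipper_gen` (the centraliser of an element `x ∈ X` is a subgroup) `X` is central, and acts by scalars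
(`central_scalar`).  Let `D = {b ∈ B | ρ b is a scalar on V}` (a subgroup), `X ≤ D ≤ B`, `D ≠ B`
(else, `ρ` being faithful, `B` would be central), `|B : D| ≤ |B : X| ≤ Θ ^ 4 ≤ Θ ^ 4 n`, `I = ⊤`.  For
`J` with `Scal ρ B J`: `2 dim J ≤ n` by `half` (with `zipper_gen` for `g`), so
`8 dim J + p ≤ 4 n + 4 n = 8 dim I`. -/
theorem step_irr {p : ℕ} [Fact p.Prime] (hpK : ‖(p : K)‖ = (p : ℝ)⁻¹) (ρ : G →* End K V)
    (hinj : Function.Injective ρ) (hirr : Irr ρ) (B : Subgroup G) (hBc : Comm B)
    (hBp : IsPGroup p B) (hB : ¬ InOp p ⊤ B)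
    (hmin : ∀ L : Subgroup G, B ≤ L → L ≠ ⊤ → InOp p L B) {Θ : ℝ} (hΘ1 : 1 ≤ Θ)
    (hΘ : Interp K p (finrank K V) Θ) : Step ρ p Θ B := by
  classical
  have hpr : p.Prime := Fact.out
  obtain ⟨M, hBM, hMt, hM⟩ := zipper B hBp hB hmin
  have hBnc := not_central B hBp hB
  have hnle : ∀ g, g ∉ M → ¬ B ≤ cj g M := fun g hg =>
    zipper_not_le B M hBp hB hmin hBM hMt hM hg
  have hgen : ∀ g, g ∉ M → ∀ L : Subgroup G, B ≤ L → (∀ b ∈ B, g * b * g⁻¹ ∈ L) → L = ⊤ :=
    fun g hg L hBL hL => zipper_gen B M hBp hB hmin hBM hMt hM hg L hBL hL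
  obtain ⟨Q, hBQ, hQM, hQn, hQp⟩ := hmin M hBM hMt
  rcases dichotomy M Q B hBQ hQM hQn hQp with ⟨Y, hYQ, hYc, hBY, hmove⟩ | ⟨R, hBR, hRQ, hRc, hRn⟩
  · refine step_of_move ρ hinj B B Y le_rfl hBc hBp ?_ hYc hBY hmove
    rw [Subgroup.relIndex_self]
    push_cast
    exact one_le_pow₀ hΘ1
  · have hRp : IsPGroup p R := hQp.to_le hRQ
    have hRM : R ≤ M := hRQ.trans hQM
    -- the dimension is positive
    have hn1 : 1 ≤ finrank K V := by
      by_contra hcon
      have h0 : finrank K V = 0 := by omega
      obtain ⟨b, hb, h, hne⟩ := hBnc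
      apply hne
      apply hinj
      have hsub : Subsingleton V := finrank_zero_iff.mp h0
      ext v
      exact Subsingleton.elim _ _
    -- the crude bound gives `p ≤ 4 n`
    have hpn : p ≤ 4 * finrank K V := by
      obtain ⟨g₁, hg₁, hle⟩ := trace_lemma ρ hinj hirr M R B hBR hRM hMt hRc hpK hRp hRn hgen hBnc
        (interp_crude (K := K) hpK hn1) (by
          apply Real.one_le_rpow
          · exact_mod_cast hpr.one_lt.le
          · apply div_nonneg
            · have : (1 : ℝ) ≤ finrank K V := by exact_mod_cast hn1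
              linarith
            · have : (1 : ℝ) ≤ p := by exact_mod_cast hpr.one_lt.le
              linarith)
      have hidx : (B ⊓ cj g₁ M).relIndex B ≠ 1 := by
        intro h1
        rw [Subgroup.relIndex_eq_one] at h1
        exact hnle g₁ hg₁ (h1.trans inf_le_right)
      obtain ⟨k, hk⟩ : ∃ k, (B ⊓ cj g₁ M).relIndex B = p ^ k := by
        have h1 : (B ⊓ cj g₁ M).relIndex B ∣ Nat.card B := Subgroup.relIndex_dvd_card _ _
        obtain ⟨m, hm⟩ := (IsPGroup.iff_card).mp hBp
        rw [hm] at h1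
        obtain ⟨k, _, hk⟩ := (Nat.dvd_prime_pow hpr).mp h1
        exact ⟨k, hk⟩
      have hk0 : k ≠ 0 := by
        rintro rfl
        exact hidx (by rw [hk, pow_zero])
      have hple : (p : ℝ) ≤ ((B ⊓ cj g₁ M).relIndex B : ℝ) := by
        rw [hk]
        push_cast
        exact le_self_pow₀ (by exact_mod_cast hpr.one_lt.le) hk0
      have h2 : (p : ℝ) ≤ ((p : ℝ) ^ (((finrank K V : ℝ) - 1) / ((p : ℝ) - 1))) ^ 4 :=
        hple.trans hle
      have hp1 : (1 : ℝ) < p := by exact_mod_cast hpr.one_lt
      rw [← Real.rpow_natCast, ← Real.rpow_mul (by linarith)] at h2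
      have h3 : (1 : ℝ) ≤ ((finrank K V : ℝ) - 1) / ((p : ℝ) - 1) * ((4 : ℕ) : ℝ) := by
        by_contra hcon
        push Not at hcon
        have h4 := Real.rpow_lt_rpow_of_exponent_lt hp1 hcon
        rw [Real.rpow_one] at h4
        linarith
      have hp2 : (0 : ℝ) < (p : ℝ) - 1 := by linarith
      have h5 : (p : ℝ) - 1 ≤ 4 * ((finrank K V : ℝ) - 1) := by
        have h6 := mul_le_mul_of_nonneg_right h3 hp2.le
        have h7 : ((finrank K V : ℝ) - 1) / ((p : ℝ) - 1) * ((4 : ℕ) : ℝ) * ((p : ℝ) - 1) =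
            4 * ((finrank K V : ℝ) - 1) := by
          push_cast
          field_simp
        linarith
      have h8 : (p : ℝ) ≤ 4 * finrank K V := by linarith
      exact_mod_cast h8
    obtain ⟨g, hg, hle⟩ := trace_lemma ρ hinj hirr M R B hBR hRM hMt hRc hpK hRp hRn hgen hBnc
      hΘ hΘ1
    set X := B ⊓ cj g M with hX
    have hXB : X ≤ B := inf_le_left
    have hRc' : Comm (cj g R) := by
      intro a ha b hb
      rw [mem_cj] at ha hb
      have h1 := hRc _ ha _ hb
      have h2 : g⁻¹ * (a * b) * g = g⁻¹ * (b * a) * g := by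
        calc g⁻¹ * (a * b) * g = g⁻¹ * a * g * (g⁻¹ * b * g) := by group
          _ = g⁻¹ * b * g * (g⁻¹ * a * g) := h1
          _ = g⁻¹ * (b * a) * g := by group
      exact mul_left_cancel (mul_right_cancel h2)
    have hXn : Nrm X (cj g R) := by
      intro x hx y hy
      have hx2 : x ∈ cj g M := hx.2
      rw [mem_cj] at hx2 hy ⊢
      have := hRn _ hx2 _ hy
      have h2 : g⁻¹ * x * g * (g⁻¹ * y * g) * (g⁻¹ * x * g)⁻¹ = g⁻¹ * (x * y * x⁻¹) * g := by
        group
      rwa [h2] at this
    by_cases hmove : ∃ x ∈ X, ∃ y ∈ cj g R, x * y ≠ y * x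
    · exact step_of_move ρ hinj B X (cj g R) hXB hBc hBp hle hRc' hXn hmove
    · push Not at hmove
      -- `X` is central
      have hXc : ∀ x ∈ X, ∀ h, x * h = h * x := by
        intro x hx
        have hL := hgen g hg (Subgroup.centralizer {x}) ?_ ?_
        · intro h
          have : h ∈ Subgroup.centralizer ({x} : Set G) := by rw [hL]; trivial
          rw [Subgroup.mem_centralizer_singleton_iff] at this
          exact this.symm
        · intro b hb
          rw [Subgroup.mem_centralizer_singleton_iff]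
          exact hBc b hb x (hXB hx)
        · intro b hb
          rw [Subgroup.mem_centralizer_singleton_iff]
          refine (hmove x hx _ ?_).symm
          rw [mem_cj]
          have : g⁻¹ * (g * b * g⁻¹) * g = b := by group
          rw [this]
          exact hBR hb
      -- the scalar elements of `B`
      let D : Subgroup G :=
        { carrier := {b | b ∈ B ∧ ∃ c : K, ∀ v, ρ b v = c • v}
          one_mem' := ⟨B.one_mem, 1, fun v => by simp⟩
          mul_mem' := by
            rintro a b ⟨ha, c, hc⟩ ⟨hb, c', hc'⟩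
            refine ⟨B.mul_mem ha hb, c * c', fun v => ?_⟩
            rw [map_mul, Module.End.mul_apply, hc', map_smul, hc, smul_smul, mul_comm]
          inv_mem' := by
            rintro a ⟨ha, c, hc⟩
            refine ⟨B.inv_mem ha, c⁻¹, fun v => ?_⟩
            have h1 : ∀ v, ρ a (ρ a⁻¹ v) = v := by
              intro v
              rw [← Module.End.mul_apply, ← map_mul, mul_inv_cancel, map_one, Module.End.one_apply]
            by_cases hc0 : c = 0
            · have h2 : v = 0 := by
                have := h1 v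
                rw [hc, hc0, zero_smul] at this
                exact this.symm
              rw [h2, map_zero, smul_zero]
            · have h2 := h1 v
              rw [hc] at h2
              rw [← h2, smul_smul, inv_mul_cancel₀ hc0, one_smul]
              have h3 := h1 (ρ a⁻¹ v)
              rw [hc] at h3
              rw [map_smul]
              exact h3 }
      have hDB : D ≤ B := fun x hx => hx.1
      have hXD : X ≤ D := by
        intro x hx
        exact ⟨hXB hx, central_scalar ρ hirr (hXc x hx)⟩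
      refine ⟨D, ⊤, hDB, ?_, ?_, ?_, ?_⟩
      · intro hDe
        obtain ⟨b, hb, h, hne⟩ := hBnc
        rw [← hDe] at hb
        obtain ⟨_, c, hc⟩ := hb
        apply hne
        apply hinj
        ext v
        rw [map_mul, map_mul, Module.End.mul_apply, Module.End.mul_apply, hc, hc, map_smul]
      · have h1 : D.relIndex B ≤ X.relIndex B :=
          Nat.le_of_dvd (Nat.pos_of_ne_zero Subgroup.FiniteIndex.index_ne_zero)
            (Subgroup.relIndex_dvd_of_le_left _ hXD)
        have h2 : (D.relIndex B : ℝ) ≤ Θ ^ 4 := le_trans (by exact_mod_cast h1) hle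
        have h3 : (1 : ℝ) ≤ finrank K V := by exact_mod_cast hn1
        have h4 : 0 ≤ Θ ^ 4 := by positivity
        nlinarith
      · rintro x ⟨_, c, hc⟩
        exact ⟨c, fun v _ => hc v⟩
      · intro J _ hJ
        have h1 := half ρ hinj hirr B g (hgen g hg) hBnc J hJ
        rw [finrank_top]
        omega

end H32E
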