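import Pool.Agent.Lib.H32E.RD1
import Pool.Agent.Lib.H32E.ST1

/-!
# H32E / RD2: from the irreducible faithful case to an irreducible section

Chunk RD2.
-/

set_option autoImplicit false

open Module

namespace H32E

variable {K V G : Type} [NormedField K] [IsUltrametricDist K] [IsAlgClosed K] [CharZero K]
  [AddCommGroup V] [Module K V] [FiniteDimensional K V] [Group G] [Finite G]

/-- The step lemma for a pair `(L, U)` with `U` an irreducible `L`-invariant subspace.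

Proof.  Put `φ = rest ρ L U hU : L →* End K U`, `H = L ⧸ φ.ker` (finite group),
`ρ' = QuotientGroup.lift φ.ker φ _ : H →* End K U` (injective), `π = QuotientGroup.mk' φ.ker`,
`B' = (B.subgroupOf L).map π`.  Check the assumptions of `step_irr` for `H`, `ρ'`, `B'`:
* `ρ'` injective, `Irr ρ'`: an `H`-invariant subspace `W` of `U` gives the `L`-invariant subspace
`W.map U.subtype` of `V`, so `⊥` or `U` by `hirr`.
* `B'` commutative and a `p`-group (image of `B`).
* `¬ InOp p ⊤ B'`: if `B' ≤ N'`, `N'` a normal `p`-subgroup of `H`, let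
`N = (N'.comap π).map L.subtype`; then `B ≤ N ≤ L`, `L` normalises `N` and for `x ∈ N`,
`π x ^ p ^ k = 1`, i.e. `x ^ p ^ k` acts trivially on `U`: so `InOpOn ρ p L B U`, a contradiction.
* `hmin`: let `L₁ < H` proper with `B' ≤ L₁`.  `L' = (L₁.comap π).map L.subtype`; `B ≤ L' ≤ L`,
`L' ≠ L`.  Take `N` from `InOpOn ρ p L' B U`; `N' = (N.subgroupOf L).map π` satisfies
`B' ≤ N' ≤ L₁`, normalised by `L₁` and is a `p`-group (`x ^ p ^ k` trivial on `U` means
`π x ^ p ^ k = 1`).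
* `Interp K p (finrank K U) Θ` by `Interp.mono` (`Submodule.finrank_le`).
So there are `D' < B'` and `I' ≤ U` (`I' : Submodule K U`) as in `Step`.  Put
`D = {b ∈ B | π b ∈ D'}` (i.e. `((D'.comap π).map L.subtype) ⊓ B`) and `I = I'.map U.subtype`.
`D ≠ B` (else `B' ≤ D'`).  `|B : D| = |B' : D'|`: the map `B → B'` is surjective and `D` is the preimage
of `D'` (`Subgroup.relIndex`, `Subgroup.index_comap_of_surjective`, for the surjection `B →* B'`).
`Scal ρ D I` is clear.  For `J ≤ I` with `Scal ρ B J` let `J' = J.comap U.subtype ≤ I'`; then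
`Scal ρ' B' J'` and `finrank J' = finrank J`, `finrank I' = finrank I` (`U.subtype` injective).
Finally `Θ ^ 4 * dim U ≤ Θ ^ 4 * dim V`. -/
theorem step_pair {p : ℕ} [Fact p.Prime] (hpK : ‖(p : K)‖ = (p : ℝ)⁻¹) (ρ : G →* End K V)
    (L B : Subgroup G) (U : Submodule K V) (hBL : B ≤ L) (hU : Inv ρ L U) (hBc : Comm B)
    (hBp : IsPGroup p B) (hnot : ¬ InOpOn ρ p L B U)
    (hirr : ∀ U' ≤ U, Inv ρ L U' → U' = ⊥ ∨ U' = U)
    (hmin : ∀ L' ≤ L, B ≤ L' → L' ≠ L → InOpOn ρ p L' B U) {Θ : ℝ} (hΘ1 : 1 ≤ Θ)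
    (hΘ : Interp K p (finrank K V) Θ) : Step ρ p Θ B := by
  classical
  set φ : L →* End K U := rest ρ L U hU with hφdef
  have hφ : ∀ (g : L) (v : U), ((φ g v : U) : V) = ρ (g : G) (v : V) := fun g v => rfl
  let H := L ⧸ φ.ker
  let π : L →* H := QuotientGroup.mk' φ.ker
  have hπs : Function.Surjective π := QuotientGroup.mk'_surjective _
  let ρ' : H →* End K U := QuotientGroup.lift φ.ker φ le_rfl
  have hρ' : ∀ g : L, ρ' (π g) = φ g := fun g => rfl
  have hker : ∀ x : L, π x = 1 ↔ ∀ v ∈ U, ρ (x : G) v = v := by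
    intro x
    have h1 : π x = 1 ↔ x ∈ φ.ker := QuotientGroup.eq_one_iff x
    rw [h1, MonoidHom.mem_ker]
    constructor
    · intro h v hv
      have h2 := hφ x ⟨v, hv⟩
      rw [h] at h2
      exact h2.symm
    · intro h
      ext v
      rw [hφ]
      exact h v v.2
  have hinj' : Function.Injective ρ' := by
    intro a b hab
    obtain ⟨x, rfl⟩ := hπs a
    obtain ⟨y, rfl⟩ := hπs b
    rw [hρ', hρ'] at hab
    have h1 : φ (x⁻¹ * y) = 1 := by
      rw [map_mul, ← hab, ← map_mul, inv_mul_cancel, map_one]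
    exact QuotientGroup.eq.mpr h1
  have hBL' : ∀ b ∈ B, b ∈ L := fun b hb => hBL hb
  set B' : Subgroup H := (B.subgroupOf L).map π with hB'
  have hmemB' : ∀ h : H, h ∈ B' ↔ ∃ b : L, (b : G) ∈ B ∧ π b = h := by
    intro h
    rw [hB', Subgroup.mem_map]
    constructor
    · rintro ⟨b, hb, rfl⟩
      exact ⟨b, Subgroup.mem_subgroupOf.mp hb, rfl⟩
    · rintro ⟨b, hb, rfl⟩
      exact ⟨b, Subgroup.mem_subgroupOf.mpr hb, rfl⟩
  -- assumptions of `step_irr`
  have hirr' : Irr ρ' := by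
    intro W hW
    have h1 : W.map U.subtype ≤ U := Submodule.map_subtype_le U W
    have h2 : Inv ρ L (W.map U.subtype) := by
      rintro g hg _ ⟨w, hw, rfl⟩
      exact ⟨ρ' (π ⟨g, hg⟩) w, hW _ w hw, rfl⟩
    rcases hirr _ h1 h2 with h3 | h3
    · left
      rw [eq_bot_iff]
      intro x hx
      have h4 : (x : V) ∈ W.map U.subtype := ⟨x, hx, rfl⟩
      rw [h3, Submodule.mem_bot] at h4
      exact (Submodule.mem_bot K).mpr (Subtype.ext h4)
    · right
      rw [Submodule.eq_top_iff']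
      intro x
      have h4 : (x : V) ∈ W.map U.subtype := by rw [h3]; exact x.2
      obtain ⟨w, hw, hwx⟩ := h4
      have h5 : w = x := Subtype.ext hwx
      rwa [← h5]
  have hBc' : Comm B' := by
    intro a ha b hb
    obtain ⟨x, hx, rfl⟩ := (hmemB' a).mp ha
    obtain ⟨y, hy, rfl⟩ := (hmemB' b).mp hb
    rw [← map_mul, ← map_mul]
    congr 1
    exact Subtype.ext (hBc _ hx _ hy)
  have hBp' : IsPGroup p B' := (hBp.comap_subtype (K := L)).map π
  have hB'not : ¬ InOp p ⊤ B' := by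
    rintro ⟨N', hBN', _, hNn', hNp'⟩
    apply hnot
    have hmem : ∀ x : G, x ∈ (N'.comap π).map L.subtype ↔ ∃ hx : x ∈ L, π ⟨x, hx⟩ ∈ N' := by
      intro x
      rw [Subgroup.mem_map]
      constructor
      · rintro ⟨y, hy, rfl⟩
        exact ⟨y.2, hy⟩
      · rintro ⟨hx, h⟩
        exact ⟨⟨x, hx⟩, h, rfl⟩
    refine ⟨(N'.comap π).map L.subtype, ?_, ?_, ?_, ?_⟩
    · intro b hb
      rw [hmem]
      exact ⟨hBL hb, hBN' ((hmemB' _).mpr ⟨⟨b, hBL hb⟩, hb, rfl⟩)⟩
    · intro x hx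
      exact ((hmem x).mp hx).1
    · intro l hl n hn
      obtain ⟨hnL, hn'⟩ := (hmem n).mp hn
      rw [hmem]
      exact ⟨L.mul_mem (L.mul_mem hl hnL) (L.inv_mem hl), hNn' (π ⟨l, hl⟩) trivial _ hn'⟩
    · intro x hx
      obtain ⟨hxL, hx'⟩ := (hmem x).mp hx
      obtain ⟨k, hk⟩ := hNp' ⟨π ⟨x, hxL⟩, hx'⟩
      refine ⟨k, ?_⟩
      have h1 : π (⟨x, hxL⟩ ^ p ^ k) = 1 := by
        rw [map_pow]
        exact congrArg Subtype.val hk
      exact (hker _).mp h1
  have hmin' : ∀ L₁ : Subgroup H, B' ≤ L₁ → L₁ ≠ ⊤ → InOp p L₁ B' := by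
    intro L₁ hBL₁ hL₁
    have hmem : ∀ x : G, x ∈ (L₁.comap π).map L.subtype ↔ ∃ hx : x ∈ L, π ⟨x, hx⟩ ∈ L₁ := by
      intro x
      rw [Subgroup.mem_map]
      constructor
      · rintro ⟨y, hy, rfl⟩
        exact ⟨y.2, hy⟩
      · rintro ⟨hx, h⟩
        exact ⟨⟨x, hx⟩, h, rfl⟩
    obtain ⟨N, hBN, hNL, hNn, hNp⟩ := hmin ((L₁.comap π).map L.subtype)
      (fun x hx => ((hmem x).mp hx).1)
      (fun b hb => (hmem b).mpr ⟨hBL hb, hBL₁ ((hmemB' _).mpr ⟨⟨b, hBL hb⟩, hb, rfl⟩)⟩)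
      (by
        intro h
        apply hL₁
        rw [eq_top_iff]
        intro h' _
        obtain ⟨x, rfl⟩ := hπs h'
        have h2 : (x : G) ∈ (L₁.comap π).map L.subtype := by rw [h]; exact x.2
        obtain ⟨_, h3⟩ := (hmem _).mp h2
        exact h3)
    refine ⟨(N.subgroupOf L).map π, ?_, ?_, ?_, ?_⟩
    · intro h hh
      obtain ⟨b, hb, rfl⟩ := (hmemB' h).mp hh
      exact ⟨b, Subgroup.mem_subgroupOf.mpr (hBN hb), rfl⟩
    · rintro _ ⟨n, hn, rfl⟩
      have h1 := hNL (Subgroup.mem_subgroupOf.mp hn)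
      obtain ⟨_, h2⟩ := (hmem _).mp h1
      exact h2
    · rintro l hl _ ⟨n, hn, rfl⟩
      obtain ⟨x, rfl⟩ := hπs l
      refine ⟨x * n * x⁻¹, ?_, ?_⟩
      · apply Subgroup.mem_subgroupOf.mpr
        have h1 : (x : G) ∈ (L₁.comap π).map L.subtype := (hmem _).mpr ⟨x.2, hl⟩
        exact hNn _ h1 _ (Subgroup.mem_subgroupOf.mp hn)
      · rw [map_mul, map_mul, map_inv]
    · rintro ⟨_, n, hn, rfl⟩
      obtain ⟨k, hk⟩ := hNp _ (Subgroup.mem_subgroupOf.mp hn)
      refine ⟨k, ?_⟩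
      apply Subtype.ext
      change (π n) ^ p ^ k = 1
      rw [← map_pow]
      exact (hker _).mpr hk
  obtain ⟨D', I', hDB', hDne', hidx', hI', hJ'⟩ := step_irr hpK ρ' hinj' hirr' B' hBc' hBp'
    hB'not hmin' hΘ1 (hΘ.mono (Submodule.finrank_le U))
  -- pull back
  set D : Subgroup G := ((D'.comap π).map L.subtype) ⊓ B with hD
  have hmemD : ∀ x : G, x ∈ D ↔ x ∈ B ∧ ∃ hx : x ∈ L, π ⟨x, hx⟩ ∈ D' := by
    intro x
    rw [hD, Subgroup.mem_inf, Subgroup.mem_map]
    constructor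
    · rintro ⟨⟨y, hy, rfl⟩, hxB⟩
      exact ⟨hxB, y.2, hy⟩
    · rintro ⟨hxB, hx, h⟩
      exact ⟨⟨⟨x, hx⟩, h, rfl⟩, hxB⟩
  have hDB : D ≤ B := inf_le_right
  have hDne : D ≠ B := by
    intro h
    apply hDne'
    apply le_antisymm hDB'
    intro h' hh
    obtain ⟨b, hb, rfl⟩ := (hmemB' h').mp hh
    rw [← h] at hb
    obtain ⟨_, _, h3⟩ := (hmemD _).mp hb
    exact h3
  let ψ : B →* B' :=
    { toFun := fun b => ⟨π ⟨b, hBL b.2⟩, (hmemB' _).mpr ⟨⟨b, hBL b.2⟩, b.2, rfl⟩⟩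
      map_one' := by
        apply Subtype.ext
        change π 1 = 1
        exact map_one π
      map_mul' := by
        intro a b
        apply Subtype.ext
        change π (⟨a, hBL a.2⟩ * ⟨b, hBL b.2⟩) = π ⟨a, hBL a.2⟩ * π ⟨b, hBL b.2⟩
        exact map_mul π _ _ }
  have hψs : Function.Surjective ψ := by
    rintro ⟨h, hh⟩
    obtain ⟨b, hb, rfl⟩ := (hmemB' h).mp hh
    exact ⟨⟨b, hb⟩, rfl⟩
  have hidx : D.relIndex B = D'.relIndex B' := by
    rw [Subgroup.relIndex, Subgroup.relIndex,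
      ← Subgroup.index_comap_of_surjective (D'.subgroupOf B') hψs]
    congr 1
    ext x
    rw [Subgroup.mem_subgroupOf, hmemD, Subgroup.mem_comap, Subgroup.mem_subgroupOf]
    constructor
    · rintro ⟨_, _, h3⟩
      exact h3
    · intro h3
      exact ⟨x.2, hBL x.2, h3⟩
  refine ⟨D, I'.map U.subtype, hDB, hDne, ?_, ?_, ?_⟩
  · rw [hidx]
    refine hidx'.trans ?_
    apply mul_le_mul_of_nonneg_left _ (by positivity)
    exact_mod_cast Submodule.finrank_le U
  · intro d hd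
    obtain ⟨_, hdL, hd'⟩ := (hmemD d).mp hd
    obtain ⟨c, hc⟩ := hI' _ hd'
    refine ⟨c, ?_⟩
    rintro _ ⟨w, hw, rfl⟩
    have h1 := congrArg (fun z : U => (z : V)) (hc w hw)
    exact h1
  · intro J hJI hJs
    have hJU : J ≤ U := hJI.trans (Submodule.map_subtype_le U I')
    have h1 : J.comap U.subtype ≤ I' := by
      intro x hx
      obtain ⟨y, hy, hyx⟩ := hJI (Submodule.mem_comap.mp hx)
      have : y = x := Subtype.ext hyx
      rwa [← this]
    have h2 : Scal ρ' B' (J.comap U.subtype) := by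
      intro h hh
      obtain ⟨b, hb, rfl⟩ := (hmemB' h).mp hh
      obtain ⟨c, hc⟩ := hJs _ hb
      refine ⟨c, fun w hw => ?_⟩
      apply Subtype.ext
      exact hc w (Submodule.mem_comap.mp hw)
    have h3 := hJ' _ h1 h2
    have h4 : finrank K (J.comap U.subtype) = finrank K J := by
      rw [← Submodule.finrank_map_subtype_eq U (J.comap U.subtype), Submodule.map_comap_subtype,
        inf_eq_right.mpr hJU]
    rw [h4] at h3
    rwa [Submodule.finrank_map_subtype_eq]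

end H32E
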