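import Pool.Agent.Lib.H32E.RD2

/-!
# H32E / RD3: the step lemma

Chunk RD3.
-/

set_option autoImplicit false

open Module

namespace H32E

variable {K V G : Type} [NormedField K] [IsUltrametricDist K] [IsAlgClosed K] [CharZero K]
  [AddCommGroup V] [Module K V] [FiniteDimensional K V] [Group G] [Finite G]

/-- **Step lemma.**

Proof.  Consider the pairs `(L, U)`, `B ≤ L`, `U` an `L`-invariant subspace, with
`¬ InOpOn ρ p L B U`.  `(⊤, ⊤)` is one by `InOpOn.inOp`.  Choose one with `(dim U, |L|)` minimal in the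
lexicographic order (for instance: minimal `dim U` first, by `Nat.find`/`WellFounded.min`; then
among those with this `dim U` minimal `Nat.card L`).  Check the assumptions of `step_pair`:
* `hmin`: for `L' ≤ L`, `B ≤ L'`, `L' ≠ L` the pair `(L', U)` is smaller, so `InOpOn ρ p L' B U`.
* `hirr`: if `U' ≤ U` is `L`-invariant, `U' ≠ ⊥`, `U' ≠ U`, take the complement `U₂` of
`exists_complement`; both `U'` and `U₂` have smaller dimension than `U`, so
`InOpOn ρ p L B U'` and `InOpOn ρ p L B U₂`, and `InOpOn ρ p L B U` by `InOpOn.sup`: contradiction. -/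
theorem step {p : ℕ} [Fact p.Prime] (hpK : ‖(p : K)‖ = (p : ℝ)⁻¹) (ρ : G →* End K V)
    (hinj : Function.Injective ρ) (B : Subgroup G) (hBc : Comm B) (hBp : IsPGroup p B)
    (hB : ¬ InOp p ⊤ B) {Θ : ℝ} (hΘ1 : 1 ≤ Θ) (hΘ : Interp K p (finrank K V) Θ) :
    Step ρ p Θ B := by
  classical
  have htop : ¬ InOpOn ρ p ⊤ B ⊤ := fun h => hB (h.inOp ρ hinj)
  -- minimal dimension
  let P : ℕ → Prop := fun n => ∃ (L : Subgroup G) (U : Submodule K V), B ≤ L ∧ Inv ρ L U ∧
    ¬ InOpOn ρ p L B U ∧ finrank K U = n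
  have hP : ∃ n, P n := ⟨_, ⊤, ⊤, le_top, fun _ _ _ _ => trivial, htop, rfl⟩
  obtain ⟨L₀, U₀, hL₀⟩ := Nat.find_spec hP
  have hPmin : ∀ m, m < Nat.find hP → ¬ P m := fun m hm => Nat.find_min hP hm
  set n := Nat.find hP with hn
  -- minimal order
  let P' : ℕ → Prop := fun m => ∃ (L : Subgroup G) (U : Submodule K V), B ≤ L ∧ Inv ρ L U ∧
    ¬ InOpOn ρ p L B U ∧ finrank K U = n ∧ Nat.card L = m
  have hP' : ∃ m, P' m := ⟨_, L₀, U₀, hL₀.1, hL₀.2.1, hL₀.2.2.1, hL₀.2.2.2, rfl⟩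
  obtain ⟨L, U, hBL, hU, hnot, hdim, hcard⟩ := Nat.find_spec hP'
  have hPmin' : ∀ m, m < Nat.find hP' → ¬ P' m := fun m hm => Nat.find_min hP' hm
  refine step_pair hpK ρ L B U hBL hU hBc hBp hnot ?_ ?_ hΘ1 hΘ
  · intro U' hU'U hU'
    by_contra hcon
    push Not at hcon
    obtain ⟨U₂, hU₂U, hU₂, hinf, hsup⟩ := exists_complement ρ L U U' hU hU' hU'U
    have hlt1 : finrank K U' < n := by
      rw [← hdim]
      exact Submodule.finrank_lt_finrank_of_lt (lt_of_le_of_ne hU'U hcon.2)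
    have hU₂ne : U₂ ≠ U := by
      rintro rfl
      apply hcon.1
      rw [← hinf]
      exact (inf_eq_left.mpr hU'U).symm
    have hlt2 : finrank K U₂ < n := by
      rw [← hdim]
      exact Submodule.finrank_lt_finrank_of_lt (lt_of_le_of_ne hU₂U hU₂ne)
    have h1 : InOpOn ρ p L B U' := by
      by_contra h
      exact hPmin _ hlt1 ⟨L, U', hBL, hU', h, rfl⟩
    have h2 : InOpOn ρ p L B U₂ := by
      by_contra h
      exact hPmin _ hlt2 ⟨L, U₂, hBL, hU₂, h, rfl⟩
    apply hnot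
    rw [← hsup]
    exact InOpOn.sup ρ h1 h2
  · intro L' hL'L hBL' hne
    by_contra h
    have hlt : Nat.card L' < Nat.find hP' := by
      rw [← hcard]
      have h1 : Nat.card L' ≤ Nat.card L := Subgroup.card_le_of_le hL'L
      rcases Nat.lt_or_eq_of_le h1 with h2 | h2
      · exact h2
      · exact absurd (Subgroup.eq_of_le_of_card_ge hL'L h2.ge) hne
    exact hPmin' _ hlt ⟨L', U, hBL', fun g hg => hU g (hL'L hg), h, hdim, rfl⟩

end H32E
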