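import Pool.Agent.Lib.H32E.MV2

/-!
# H32E / ST0: preparations for the step lemma

Chunk ST0.
-/

set_option autoImplicit false

open Module

namespace H32E

variable {K V G : Type} [NormedField K] [IsUltrametricDist K] [IsAlgClosed K] [CharZero K]
  [AddCommGroup V] [Module K V] [FiniteDimensional K V] [Group G] [Finite G]

/-- The conclusion of the step lemma. -/
def Step (ρ : G →* End K V) (p : ℕ) (Θ : ℝ) (B : Subgroup G) : Prop :=
  ∃ (D : Subgroup G) (I : Submodule K V), D ≤ B ∧ D ≠ B ∧
    (D.relIndex B : ℝ) ≤ Θ ^ 4 * finrank K V ∧ Scal ρ D I ∧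
    ∀ J ≤ I, Scal ρ B J → 8 * finrank K J + p ≤ 8 * finrank K I

omit [Finite G] in
/-- `B` is not central.  Proof: if all elements of `B` are central then `B` itself is a normal
`p`-subgroup. -/
theorem not_central {p : ℕ} (B : Subgroup G) (hBp : IsPGroup p B) (hB : ¬ InOp p ⊤ B) :
    ∃ b ∈ B, ∃ h, b * h ≠ h * b := by
  by_contra hcon
  push Not at hcon
  apply hB
  refine ⟨B, le_rfl, le_top, ?_, hBp⟩
  intro l _ n hn
  rw [← hcon n hn l, mul_inv_cancel_right]
  exact hn

/-- A central element acts by a scalar in an irreducible representation (`K` algebraically closed,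
`V ≠ 0`): it has an eigenvalue, the eigenspace is invariant. -/
theorem central_scalar (ρ : G →* End K V) (hirr : Irr ρ) {x : G} (hx : ∀ h, x * h = h * x) :
    ∃ c : K, ∀ v, ρ x v = c • v := by
  by_cases hV : Subsingleton V
  · exact ⟨0, fun v => Subsingleton.elim _ _⟩
  rw [not_subsingleton_iff_nontrivial] at hV
  obtain ⟨c, hc⟩ := Module.End.exists_eigenvalue (ρ x)
  refine ⟨c, ?_⟩
  have hinv : ∀ g, ∀ v ∈ Module.End.eigenspace (ρ x) c, ρ g v ∈ Module.End.eigenspace (ρ x) c := by
    intro g v hv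
    rw [Module.End.mem_eigenspace_iff] at hv ⊢
    rw [← Module.End.mul_apply, ← map_mul, hx g, map_mul, Module.End.mul_apply, hv, map_smul]
  rcases hirr (Module.End.eigenspace (ρ x) c) hinv with h | h
  · exact absurd h hc
  · intro v
    have : v ∈ Module.End.eigenspace (ρ x) c := by rw [h]; trivial
    exact Module.End.mem_eigenspace_iff.mp this

/-- If `G` is generated by `B` and `g B g⁻¹` (`hgen`), a subspace `J` on which `B` acts by scalars has
`2 dim J ≤ dim V` (`ρ` faithful and irreducible, `B` not central).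

Proof.  Otherwise `J ⊓ ρ(g) J ≠ ⊥` (`Submodule.finrank_add_le_finrank_add_finrank`-type:
`finrank_sup_add_finrank_inf_eq`).  On `J ⊓ ρ(g) J` the elements of `B` and of `g B g⁻¹` act by scalars.
The elements of `G` that act on `J ⊓ ρ(g) J` by scalars form a subgroup (inverse: the scalar is nonzero
since `ρ x` is injective and the subspace is not `⊥`), so by `hgen` all elements of `G` act by scalars;
so this subspace is invariant and it is `⊤`; then `G` acts by scalars and, as `ρ` is faithful, `G` is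
commutative, against `hBnc`. -/
theorem half (ρ : G →* End K V) (hinj : Function.Injective ρ) (hirr : Irr ρ) (B : Subgroup G) (g : G)
    (hgen : ∀ L : Subgroup G, B ≤ L → (∀ b ∈ B, g * b * g⁻¹ ∈ L) → L = ⊤)
    (hBnc : ∃ b ∈ B, ∃ h, b * h ≠ h * b) (J : Submodule K V) (hJ : Scal ρ B J) :
    2 * finrank K J ≤ finrank K V := by
  by_contra hcon
  push Not at hcon
  have hginj : Function.Injective (ρ g) := by
    intro a b hab
    have := congrArg (ρ g⁻¹) hab
    rwa [mv2_inv_apply', mv2_inv_apply'] at this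
  set W : Submodule K V := J ⊓ J.map (ρ g) with hW
  have hWne : W ≠ ⊥ := by
    intro h
    have h1 := Submodule.finrank_sup_add_finrank_inf_eq J (J.map (ρ g))
    rw [← hW, h, finrank_bot] at h1
    have h2 : finrank K (J.map (ρ g)) = finrank K J :=
      (LinearEquiv.finrank_eq (Submodule.equivMapOfInjective _ hginj J)).symm
    have h3 := Submodule.finrank_le (J ⊔ J.map (ρ g))
    omega
  obtain ⟨w₀, hw₀, hw₀0⟩ := Submodule.exists_mem_ne_zero_of_ne_bot hWne
  let L : Subgroup G :=
    { carrier := {x | ∃ c : K, ∀ v ∈ W, ρ x v = c • v}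
      one_mem' := ⟨1, fun v _ => by simp⟩
      mul_mem' := by
        rintro a b ⟨c, hc⟩ ⟨c', hc'⟩
        refine ⟨c * c', fun v hv => ?_⟩
        rw [map_mul, Module.End.mul_apply, hc' v hv, map_smul, hc v hv, smul_smul, mul_comm]
      inv_mem' := by
        rintro a ⟨c, hc⟩
        refine ⟨c⁻¹, fun v hv => ?_⟩
        have hc0 : c ≠ 0 := by
          rintro rfl
          have h1 := hc w₀ hw₀
          rw [zero_smul] at h1
          apply hw₀0
          have h2 := congrArg (ρ a⁻¹) h1
          rwa [mv2_inv_apply', map_zero] at h2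
        have h1 := congrArg (ρ a⁻¹) (hc v hv)
        rw [mv2_inv_apply', map_smul] at h1
        calc ρ a⁻¹ v = c⁻¹ • (c • ρ a⁻¹ v) := by
              rw [smul_smul, inv_mul_cancel₀ hc0, one_smul]
          _ = c⁻¹ • v := by rw [← h1] }
  have hL : L = ⊤ := by
    apply hgen
    · intro b hb
      obtain ⟨c, hc⟩ := hJ b hb
      exact ⟨c, fun v hv => hc v hv.1⟩
    · intro b hb
      obtain ⟨c, hc⟩ := hJ b hb
      refine ⟨c, fun v hv => ?_⟩
      obtain ⟨u, hu, rfl⟩ := hv.2
      rw [← Module.End.mul_apply, ← map_mul]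
      have h1 : g * b * g⁻¹ * g = g * b := by group
      rw [h1, map_mul, Module.End.mul_apply, hc u hu, map_smul]
  have hall : ∀ x : G, ∃ c : K, ∀ v ∈ W, ρ x v = c • v := by
    intro x
    have : x ∈ L := by rw [hL]; trivial
    exact this
  have hWtop : W = ⊤ := by
    rcases hirr W (fun x v hv => by
      obtain ⟨c, hc⟩ := hall x
      rw [hc v hv]
      exact W.smul_mem _ hv) with h | h
    · exact absurd h hWne
    · exact h
  obtain ⟨b, hb, h, hne⟩ := hBnc
  apply hne
  apply hinj
  ext v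
  obtain ⟨c, hc⟩ := hall b
  have h1 : ∀ v, ρ b v = c • v := fun v => hc v (by rw [hWtop]; trivial)
  rw [map_mul, map_mul, Module.End.mul_apply, Module.End.mul_apply, h1, h1, map_smul]

/-- From `move`: with `|B : X| ≤ Θ ^ 4` and `X ≤ B` (`X` normalises, does not centralise `Y`) the
conclusion of the step lemma holds.
Proof.  `D`, `I` from `move`; `|B : D| = |B : X| |X : D| ≤ Θ ^ 4 dim V` (`Subgroup.relIndex_mul_relIndex`);
`D ≠ B` since `D ≤ X ≤ B` and `D ≠ X`; for `J ≤ I` with `Scal ρ B J` also `Scal ρ X J`, so `dim J ≤ 1` and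
`8 dim J + p ≤ 8 + p ≤ 8 p ≤ 8 dim I` (`p ≥ 2`). -/
theorem step_of_move {p : ℕ} [Fact p.Prime] (ρ : G →* End K V) (hinj : Function.Injective ρ)
    (B X Y : Subgroup G) (hXB : X ≤ B) (hBc : Comm B) (hBp : IsPGroup p B) {Θ : ℝ}
    (hX : (X.relIndex B : ℝ) ≤ Θ ^ 4) (hYc : Comm Y) (hn : Nrm X Y)
    (hmove : ∃ x ∈ X, ∃ y ∈ Y, x * y ≠ y * x) : Step ρ p Θ B := by
  have hpr : p.Prime := Fact.out
  obtain ⟨D, I, hDX, hDne, hidx, hI, hpI, hJ⟩ := move ρ hinj X Y
    (fun a ha b hb => hBc a (hXB ha) b (hXB hb)) (hBp.to_le hXB) hYc hn hmove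
  refine ⟨D, I, hDX.trans hXB, ?_, ?_, hI, ?_⟩
  · intro h
    apply hDne
    exact le_antisymm hDX (h ▸ hXB)
  · rw [← Subgroup.relIndex_mul_relIndex D X B hDX hXB]
    push_cast
    rw [mul_comm]
    exact mul_le_mul hX (by exact_mod_cast hidx) (by positivity)
      (le_trans (by positivity) hX)
  · intro J hJI hJs
    have h1 := hJ J hJI (hJs.mono hXB le_rfl)
    have h2 := hpr.two_le
    omega

end H32E
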