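import Pool.Agent.Lib.H32E.RD3
import Pool.Agent.Lib.H32E.FL1

/-!
# H32E / TA1: Theorem A

Chunk TA1 (assembly).
-/

set_option autoImplicit false

open Module

namespace H32E

variable {K V G : Type} [NormedField K] [IsUltrametricDist K] [IsAlgClosed K] [CharZero K]
  [AddCommGroup V] [Module K V] [FiniteDimensional K V] [Group G] [Finite G]

/-- The iteration.  If `B ≤ A` is reached after `i` steps with the family `F`, then there are
`D ≤ B` contained in a normal `p`-subgroup of `G`, and `j` with `|A : D| ≤ (Θ ^ 4 n) ^ j`, `p j ≤ 16 n`.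

Proof.  Strong induction on `Nat.card B`.  If `InOp p ⊤ B` take `D = B`, `j = i`:
`p i ≤ 16 ∑_F dim ≤ 16 n` (`sum_finrank_le`).  Otherwise let `D`, `I` be from `step` for `B`, and `F'`
from `forest_step`; `|A : D| = |A : B| |B : D| ≤ (Θ ^ 4 n) ^ (i + 1)` and
`p (i + 1) + p |F'| ≤ 16 ∑_{F'} dim` (add the inequality of `forest_step` to `hcount`).  `D < B` has smaller order:
apply the induction hypothesis. -/
theorem iterate {p : ℕ} [Fact p.Prime] (hpK : ‖(p : K)‖ = (p : ℝ)⁻¹) (ρ : G →* End K V)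
    (hinj : Function.Injective ρ) (A : Subgroup G) (hAc : Comm A) (hAp : IsPGroup p A) {Θ : ℝ}
    (hΘ1 : 1 ≤ Θ) (hΘ : Interp K p (finrank K V) Θ) (B : Subgroup G) (hBA : B ≤ A) (i : ℕ)
    (hi : (B.relIndex A : ℝ) ≤ (Θ ^ 4 * finrank K V) ^ i) (F : Finset (Submodule K V))
    (hF : F.SupIndep id) (hFne : ∀ U ∈ F, U ≠ ⊥) (hs : ∀ U ∈ F, Scal ρ B U)
    (hcount : p * (i + F.card) ≤ 16 * ∑ U ∈ F, finrank K U) :
    ∃ (D : Subgroup G) (j : ℕ), D ≤ B ∧ InOp p ⊤ D ∧
      (D.relIndex A : ℝ) ≤ (Θ ^ 4 * finrank K V) ^ j ∧ p * j ≤ 16 * finrank K V := by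
  classical
  induction hN : Nat.card B using Nat.strong_induction_on generalizing B i F with
  | _ N ih =>
  by_cases hB : InOp p ⊤ B
  · refine ⟨B, i, le_rfl, hB, hi, ?_⟩
    have h1 := sum_finrank_le F hF
    have h2 : p * i ≤ p * (i + F.card) := Nat.mul_le_mul_left _ (Nat.le_add_right _ _)
    omega
  · have hBc : Comm B := fun a ha b hb => hAc a (hBA ha) b (hBA hb)
    have hBp : IsPGroup p B := hAp.to_le hBA
    obtain ⟨D, I, hDB, hDne, hidx, hI, hJ⟩ := step hpK ρ hinj B hBc hBp hB hΘ1 hΘ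
    obtain ⟨F', hF', hFne', hs', _, hc'⟩ :=
      forest_step (Fact.out : p.Prime).pos ρ B D hDB I hI hJ F hF hFne hs
    have hcard : Nat.card D < N := by
      rw [← hN]
      have h1 : Nat.card D ≤ Nat.card B := Subgroup.card_le_of_le hDB
      rcases Nat.lt_or_eq_of_le h1 with h2 | h2
      · exact h2
      · exact absurd (Subgroup.eq_of_le_of_card_ge hDB h2.ge) hDne
    have hi' : (D.relIndex A : ℝ) ≤ (Θ ^ 4 * finrank K V) ^ (i + 1) := by
      rw [← Subgroup.relIndex_mul_relIndex D B A hDB hBA, pow_succ]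
      push_cast
      rw [mul_comm]
      exact mul_le_mul hi hidx (by positivity) (by positivity)
    obtain ⟨D', j, hD', hop, hle, hj⟩ := ih _ hcard D (hDB.trans hBA) (i + 1) hi' F' hF' hFne' hs'
      (by nlinarith) rfl
    exact ⟨D', j, hD'.trans hDB, hop, hle, hj⟩

/-- **Theorem A.**  (`iterate` with `B = A`, `i = 0`, `F = ∅`.) -/
theorem thmA {p : ℕ} [Fact p.Prime] (hpK : ‖(p : K)‖ = (p : ℝ)⁻¹) (ρ : G →* End K V)
    (hinj : Function.Injective ρ) (A : Subgroup G) (hAc : Comm A) (hAp : IsPGroup p A) {Θ : ℝ}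
    (hΘ1 : 1 ≤ Θ) (hΘ : Interp K p (finrank K V) Θ) :
    ∃ (D : Subgroup G) (j : ℕ), D ≤ A ∧ InOp p ⊤ D ∧
      (D.relIndex A : ℝ) ≤ (Θ ^ 4 * finrank K V) ^ j ∧ p * j ≤ 16 * finrank K V := by
  obtain ⟨D, j, hD, hop, hle, hj⟩ := iterate hpK ρ hinj A hAc hAp hΘ1 hΘ A le_rfl 0
    (by rw [Subgroup.relIndex_self]; simp) ∅ (by simp) (by simp) (by simp) (by simp)
  exact ⟨D, j, hD, hop, hle, hj⟩

/-- Large primes: for `p > 8 dim V` every commutative `p`-subgroup is contained in a normal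
`p`-subgroup.  Proof: otherwise `step` (with `Θ = p ^ ((n-1)/(p-1))`, `interp_crude`; if `n = 0` then
`G` is trivial) gives `I` with `p ≤ 8 dim I ≤ 8 dim V` (`J = ⊥`). -/
theorem large_prime {p : ℕ} [Fact p.Prime] (hpK : ‖(p : K)‖ = (p : ℝ)⁻¹) (ρ : G →* End K V)
    (hinj : Function.Injective ρ) (A : Subgroup G) (hAc : Comm A) (hAp : IsPGroup p A)
    (hp : 8 * finrank K V < p) : InOp p ⊤ A := by
  by_contra hA
  have hpr : p.Prime := Fact.out
  have hp1 : (1 : ℝ) < p := by exact_mod_cast hpr.one_lt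
  have hn1 : 1 ≤ finrank K V := by
    by_contra hcon
    have h0 : finrank K V = 0 := by omega
    have hsub : Subsingleton V := finrank_zero_iff.mp h0
    have hG : ∀ x : G, x = 1 := by
      intro x
      apply hinj
      ext v
      exact Subsingleton.elim _ _
    apply hA
    exact ⟨A, le_rfl, le_top, fun l _ n hn => by rw [hG (l * n * l⁻¹)]; exact A.one_mem, hAp⟩
  obtain ⟨D, I, _, _, _, _, hJ⟩ := step hpK ρ hinj A hAc hAp hA
    (Θ := (p : ℝ) ^ (((finrank K V : ℝ) - 1) / ((p : ℝ) - 1))) (by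
      apply Real.one_le_rpow hp1.le
      apply div_nonneg
      · have : (1 : ℝ) ≤ finrank K V := by exact_mod_cast hn1
        linarith
      · linarith) (interp_crude (K := K) hpK hn1)
  have h1 := hJ ⊥ bot_le (fun g _ => ⟨1, fun v hv => by
    rw [Submodule.mem_bot] at hv
    rw [hv, map_zero, smul_zero]⟩)
  have h2 : finrank K I ≤ finrank K V := Submodule.finrank_le I
  rw [finrank_bot] at h1
  omega

end H32E
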