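import Pool.Agent.Lib.H32E.EG2
import Pool.Agent.Lib.H32E.NM1

/-!
# H32E / TR1: the idempotents are bounded for an invariant norm

Chunk TR1.
-/

set_option autoImplicit false

open Module

namespace H32E

variable {K V G R : Type} [NormedField K] [IsUltrametricDist K] [IsAlgClosed K] [CharZero K]
  [AddCommGroup V] [Module K V] [Group G] [CommGroup R] [Fintype R] [Fintype (R →* Kˣ)]

/-- Proof.  The set of `F` with `∀ w, N (hat F * w) ≤ N w` is closed under products (`hat_mul`),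
sums (`hat_add` and the ultrametric inequality), negation, contains `χ ↦ χ r` (`hat_eval`,
`INorm.left`) and the constants of norm `≤ 1` (`hat_const`); `Subring.closure_induction`
(`0` and `1` are constants). -/
theorem good_left (ρ : G →* End K V) (n : INorm ρ) (ι : R →* G) {F : (R →* Kˣ) → K}
    (hF : F ∈ Good K R) (w : End K V) : n.N (hat (ρ.comp ι) F * w) ≤ n.N w := by
  unfold Good at hF
  induction hF using Subring.closure_induction generalizing w with
  | mem x hx =>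
    rcases hx with ⟨r, rfl⟩ | ⟨c, hc, rfl⟩
    · rw [hat_eval]
      exact (n.left (ι r) w).le
    · rw [hat_const, smul_mul_assoc, one_mul, n.smul]
      exact mul_le_of_le_one_left (n.nonneg w) hc
  | zero =>
    have h1 : hat (ρ.comp ι) (0 : (R →* Kˣ) → K) = 0 := by
      have := hat_const (ρ.comp ι) (0 : K)
      rw [zero_smul] at this
      exact this
    rw [h1, zero_mul, n.zero]
    exact n.nonneg w
  | one =>
    have h1 : hat (ρ.comp ι) (1 : (R →* Kˣ) → K) = 1 := by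
      have := hat_const (ρ.comp ι) (1 : K)
      rw [one_smul] at this
      exact this
    rw [h1, one_mul]
  | add x y _ _ hx hy =>
    rw [hat_add, add_mul]
    exact (n.add_le _ _).trans (max_le (hx w) (hy w))
  | neg x _ hx =>
    rw [hat_neg, neg_mul, n.neg]
    exact hx w
  | mul x y _ _ hx hy =>
    rw [hat_mul, mul_assoc]
    exact (hx _).trans (hy w)

/-- The same on the right. -/
theorem good_right (ρ : G →* End K V) (n : INorm ρ) (ι : R →* G) {F : (R →* Kˣ) → K}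
    (hF : F ∈ Good K R) (w : End K V) : n.N (w * hat (ρ.comp ι) F) ≤ n.N w := by
  unfold Good at hF
  induction hF using Subring.closure_induction generalizing w with
  | mem x hx =>
    rcases hx with ⟨r, rfl⟩ | ⟨c, hc, rfl⟩
    · rw [hat_eval]
      exact (n.right (ι r) w).le
    · rw [hat_const, mul_smul_comm, mul_one, n.smul]
      exact mul_le_of_le_one_left (n.nonneg w) hc
  | zero =>
    have h1 : hat (ρ.comp ι) (0 : (R →* Kˣ) → K) = 0 := by
      have := hat_const (ρ.comp ι) (0 : K)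
      rw [zero_smul] at this
      exact this
    rw [h1, mul_zero, n.zero]
    exact n.nonneg w
  | one =>
    have h1 : hat (ρ.comp ι) (1 : (R →* Kˣ) → K) = 1 := by
      have := hat_const (ρ.comp ι) (1 : K)
      rw [one_smul] at this
      exact this
    rw [h1, mul_one]
  | add x y _ _ hx hy =>
    rw [hat_add, mul_add]
    exact (n.add_le _ _).trans (max_le (hx w) (hy w))
  | neg x _ hx =>
    rw [hat_neg, mul_neg, n.neg]
    exact hx w
  | mul x y _ _ hx hy =>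
    rw [hat_mul, ← mul_assoc]
    exact (hy _).trans (hx w)

/-- the good function that isolates `χ` -/
theorem tr1_hat [FiniteDimensional K V] (ρ : G →* End K V) (ι : R →* G) {p : ℕ}
    {Θ : ℝ} (hR : IsPGroup p R) (hΘ : Interp K p (finrank K V) Θ) (χ : R →* Kˣ)
    (h0 : idem (ρ.comp ι) χ ≠ 0) :
    ∃ F ∈ Good K R, hat (ρ.comp ι) F = F χ • idem (ρ.comp ι) χ ∧ 1 ≤ Θ * ‖F χ‖ := by
  classical
  have h1 := card_weights_le (ρ.comp ι) (Finset.univ.filter fun χ => idem (ρ.comp ι) χ ≠ 0)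
    (fun χ hχ => (Finset.mem_filter.1 hχ).2)
  obtain ⟨F, hF, hF0, hF1⟩ := hΘ R hR _ h1 χ (Finset.mem_filter.2 ⟨Finset.mem_univ _, h0⟩)
  refine ⟨F, hF, ?_, hF1⟩
  unfold hat
  rw [Finset.sum_eq_single χ]
  · intro ψ _ hψ
    by_cases h2 : idem (ρ.comp ι) ψ = 0
    · rw [h2, smul_zero]
    · rw [hF0 ψ (Finset.mem_filter.2 ⟨Finset.mem_univ _, h2⟩) hψ, zero_smul]
  · intro h2
    exact absurd (Finset.mem_univ _) h2

/-- Proof.  If `idem χ = 0` the left side is `0`.  Otherwise let `Λ` be the finite set of the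
characters `ψ` with `idem (ρ.comp ι) ψ ≠ 0`; `|Λ| ≤ dim V` (`card_weights_le`).  Take `F` from `hΘ`
for `l = χ`.  Then `hat F = ∑_ψ F ψ • idem ψ = F χ • idem χ` (the other terms vanish: `F ψ = 0` for
`ψ ∈ Λ \ {χ}` and `idem ψ = 0` for `ψ ∉ Λ`), so
`‖F χ‖ N (idem χ * w) = N (hat F * w) ≤ N w` and `N (idem χ * w) ≤ Θ ‖F χ‖ N (idem χ * w) ≤ Θ N w`. -/
theorem idem_left [FiniteDimensional K V] (ρ : G →* End K V) (n : INorm ρ) (ι : R →* G) {p : ℕ}
    {Θ : ℝ} (hR : IsPGroup p R) (hΘ : Interp K p (finrank K V) Θ) (hΘ1 : 1 ≤ Θ) (χ : R →* Kˣ)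
    (w : End K V) : n.N (idem (ρ.comp ι) χ * w) ≤ Θ * n.N w := by
  by_cases h0 : idem (ρ.comp ι) χ = 0
  · rw [h0, zero_mul, n.zero]
    exact mul_nonneg (by linarith) (n.nonneg w)
  · obtain ⟨F, hF, hF0, hF1⟩ := tr1_hat ρ ι hR hΘ χ h0
    have h1 := good_left ρ n ι hF w
    rw [hF0, smul_mul_assoc, n.smul] at h1
    have h2 := n.nonneg (idem (ρ.comp ι) χ * w)
    calc n.N (idem (ρ.comp ι) χ * w) ≤ (Θ * ‖F χ‖) * n.N (idem (ρ.comp ι) χ * w) := le_mul_of_one_le_left h2 hF1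
      _ = Θ * (‖F χ‖ * n.N (idem (ρ.comp ι) χ * w)) := by ring
      _ ≤ Θ * n.N w := mul_le_mul_of_nonneg_left h1 (by linarith)

theorem idem_right [FiniteDimensional K V] (ρ : G →* End K V) (n : INorm ρ) (ι : R →* G) {p : ℕ}
    {Θ : ℝ} (hR : IsPGroup p R) (hΘ : Interp K p (finrank K V) Θ) (hΘ1 : 1 ≤ Θ) (χ : R →* Kˣ)
    (w : End K V) : n.N (w * idem (ρ.comp ι) χ) ≤ Θ * n.N w := by
  by_cases h0 : idem (ρ.comp ι) χ = 0
  · rw [h0, mul_zero, n.zero]
    exact mul_nonneg (by linarith) (n.nonneg w)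
  · obtain ⟨F, hF, hF0, hF1⟩ := tr1_hat ρ ι hR hΘ χ h0
    have h1 := good_right ρ n ι hF w
    rw [hF0, mul_smul_comm, n.smul] at h1
    have h2 := n.nonneg (w * idem (ρ.comp ι) χ)
    calc n.N (w * idem (ρ.comp ι) χ) ≤ (Θ * ‖F χ‖) * n.N (w * idem (ρ.comp ι) χ) := le_mul_of_one_le_left h2 hF1
      _ = Θ * (‖F χ‖ * n.N (w * idem (ρ.comp ι) χ)) := by ring
      _ ≤ Θ * n.N w := mul_le_mul_of_nonneg_left h1 (by linarith)

/-- `N (E χ w) ≤ Θ ^ 2 N w`.  Proof: `idem_Ad`, `INorm.sum_le`, `idem_left`, `idem_right`. -/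
theorem idem_Ad_le [FiniteDimensional K V] (ρ : G →* End K V) (n : INorm ρ) (ι : R →* G) {p : ℕ}
    {Θ : ℝ} (hR : IsPGroup p R) (hΘ : Interp K p (finrank K V) Θ) (hΘ1 : 1 ≤ Θ) (χ : R →* Kˣ)
    (w : End K V) : n.N (idem ((Ad ρ).comp ι) χ w) ≤ Θ ^ 2 * n.N w := by
  rw [idem_Ad]
  refine n.sum_le _ _ (mul_nonneg (sq_nonneg _) (n.nonneg w)) fun μ _ => ?_
  have h1 := idem_right ρ n ι hR hΘ hΘ1 μ (idem (ρ.comp ι) (χ * μ) * w)
  have h2 := idem_left ρ n ι hR hΘ hΘ1 (χ * μ) w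
  calc n.N (idem (ρ.comp ι) (χ * μ) * w * idem (ρ.comp ι) μ) ≤ Θ * n.N (idem (ρ.comp ι) (χ * μ) * w) := h1
    _ ≤ Θ * (Θ * n.N w) := mul_le_mul_of_nonneg_left h2 (by linarith)
    _ = Θ ^ 2 * n.N w := by ring

/-- The conjugation operators preserve the norm (`Ad_apply`, `INorm.left`, `INorm.right`). -/
theorem Ad_norm (ρ : G →* End K V) (n : INorm ρ) (g : G) (w : End K V) :
    n.N (Ad ρ g w) = n.N w := by
  rw [Ad_apply, n.right, n.left]

end H32E
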