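import Pool.Agent.Lib.H32E.EG2

/-!
# H32E / TR2: the operator `TT`, the sum over `G / M` of the conjugates of the projection onto the
fixed points of `R`

Chunk TR2.
-/

set_option autoImplicit false

open Module

namespace H32E

variable {K V G R : Type} [Field K] [IsAlgClosed K] [CharZero K]
  [AddCommGroup V] [Module K V] [Group G] [CommGroup R] [Fintype R]

/-- `Psi (g M) = Ad(g) E₁ Ad(g)⁻¹`. -/
noncomputable def Psi (ρ : G →* End K V) (ι : R →* G) (M : Subgroup G) (x : G ⧸ M) :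
    End K (End K V) :=
  Ad ρ x.out * idem ((Ad ρ).comp ι) (1 : R →* Kˣ) * Ad ρ (x.out)⁻¹

/-- The operator `T = ∑_{x ∈ G / M} Psi x`. -/
noncomputable def TT (ρ : G →* End K V) (ι : R →* G) (M : Subgroup G) [Fintype (G ⧸ M)] :
    End K (End K V) :=
  ∑ x : G ⧸ M, Psi ρ ι M x

/-- If `M` normalises `ι(R)` (and `ι` is injective) then `Ad m` commutes with `E₁`, `m ∈ M`.
Proof.  `Ad(m) E₁ = |R|⁻¹ ∑_r Ad(m ι(r)) = |R|⁻¹ ∑_r Ad(m ι(r) m⁻¹) Ad(m)`, and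
`r ↦ r'`, `m ι(r) m⁻¹ = ι(r')`, is an injective map of the finite set `R` to itself, hence a
bijection. -/
theorem Ad_comm_idem (ρ : G →* End K V) (ι : R →* G) (M : Subgroup G)
    (hι : Function.Injective ι) (hn : ∀ m ∈ M, ∀ r, ∃ r', m * ι r * m⁻¹ = ι r') {m : G}
    (hm : m ∈ M) :
    Ad ρ m * idem ((Ad ρ).comp ι) (1 : R →* Kˣ) = idem ((Ad ρ).comp ι) (1 : R →* Kˣ) * Ad ρ m := by
  have hm' : ∀ r, ∃ r', m * ι r * m⁻¹ = ι r' := hn m hm
  choose c hc using hm'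
  have hci : Function.Injective c := by
    intro r s h
    have h1 : m * ι r * m⁻¹ = m * ι s * m⁻¹ := by rw [hc, hc, h]
    exact hι (mul_left_cancel (mul_right_cancel h1))
  have hcb : Function.Bijective c := Finite.injective_iff_bijective.1 hci
  have h1 : ∀ r, Ad ρ m * (Ad ρ).comp ι r = (Ad ρ).comp ι (c r) * Ad ρ m := by
    intro r
    rw [MonoidHom.comp_apply, MonoidHom.comp_apply, ← map_mul, ← map_mul, ← hc]
    congr 1
    group
  unfold idem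
  rw [mul_smul_comm, smul_mul_assoc, Finset.mul_sum, Finset.sum_mul]
  congr 1
  rw [← Function.Bijective.sum_comp hcb (fun r => ((((1 : R →* Kˣ) r)⁻¹ : Kˣ) : K) • (Ad ρ).comp ι r * Ad ρ m)]
  refine Finset.sum_congr rfl fun r _ => ?_
  rw [mul_smul_comm, smul_mul_assoc, h1]
  simp

/-- Proof.  `(g : G ⧸ M).out = g m` with `m ∈ M` (`QuotientGroup.mk_out_eq_mul`); use
`Ad_comm_idem`. -/
theorem Psi_mk (ρ : G →* End K V) (ι : R →* G) (M : Subgroup G)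
    (hι : Function.Injective ι) (hn : ∀ m ∈ M, ∀ r, ∃ r', m * ι r * m⁻¹ = ι r') (g : G) :
    Psi ρ ι M (g : G ⧸ M) = Ad ρ g * idem ((Ad ρ).comp ι) (1 : R →* Kˣ) * Ad ρ g⁻¹ := by
  obtain ⟨m, hm⟩ := QuotientGroup.mk_out_eq_mul M g
  unfold Psi
  rw [hm, mul_inv_rev, map_mul, map_mul]
  have h1 := Ad_comm_idem ρ ι M hι hn m.2
  calc Ad ρ g * Ad ρ m.1 * idem ((Ad ρ).comp ι) (1 : R →* Kˣ) * (Ad ρ (m.1)⁻¹ * Ad ρ g⁻¹)
      = Ad ρ g * (Ad ρ m.1 * idem ((Ad ρ).comp ι) (1 : R →* Kˣ)) * Ad ρ (m.1)⁻¹ * Ad ρ g⁻¹ := by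
        simp only [mul_assoc]
    _ = Ad ρ g * idem ((Ad ρ).comp ι) (1 : R →* Kˣ) * (Ad ρ m.1 * Ad ρ (m.1)⁻¹) * Ad ρ g⁻¹ := by
        rw [h1]
        simp only [mul_assoc]
    _ = _ := by
        rw [← map_mul, mul_inv_cancel, map_one, mul_one]

/-- Proof.  `Ad(h) Psi(x) Ad(h)⁻¹ = Psi(h • x)` by `Psi_mk` (`Quotient.inductionOn'` or
`QuotientGroup.out_eq'`); sum over `x` and reindex (`Equiv.sum_comp (MulAction.toPerm h)`). -/
theorem TT_comm (ρ : G →* End K V) (ι : R →* G) (M : Subgroup G) [Fintype (G ⧸ M)]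
    (hι : Function.Injective ι) (hn : ∀ m ∈ M, ∀ r, ∃ r', m * ι r * m⁻¹ = ι r') (h : G) :
    Ad ρ h * TT ρ ι M = TT ρ ι M * Ad ρ h := by
  have h1 : ∀ x : G ⧸ M, Ad ρ h * Psi ρ ι M x = Psi ρ ι M (h • x) * Ad ρ h := by
    intro x
    obtain ⟨g, rfl⟩ := QuotientGroup.mk_surjective x
    have h2 : h • (g : G ⧸ M) = ((h * g : G) : G ⧸ M) := rfl
    rw [h2, Psi_mk ρ ι M hι hn, Psi_mk ρ ι M hι hn, mul_inv_rev, map_mul, map_mul]
    have h3 : Ad ρ h⁻¹ * Ad ρ h = 1 := by rw [← map_mul, inv_mul_cancel, map_one]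
    calc Ad ρ h * (Ad ρ g * idem ((Ad ρ).comp ι) (1 : R →* Kˣ) * Ad ρ g⁻¹)
        = Ad ρ h * Ad ρ g * idem ((Ad ρ).comp ι) (1 : R →* Kˣ) * (Ad ρ g⁻¹ * (Ad ρ h⁻¹ * Ad ρ h)) := by
          rw [h3, mul_one]
          simp only [mul_assoc]
      _ = _ := by simp only [mul_assoc]
  unfold TT
  rw [Finset.mul_sum, Finset.sum_mul, ← Equiv.sum_comp (MulAction.toPerm h) (fun x => Psi ρ ι M x * Ad ρ h)]
  exact Finset.sum_congr rfl fun x _ => h1 x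

/-- (`idem_commute` for `TT_comm`.) -/
theorem TT_comm_idem (ρ : G →* End K V) (ι : R →* G) (M : Subgroup G) [Fintype (G ⧸ M)]
    (hι : Function.Injective ι) (hn : ∀ m ∈ M, ∀ r, ∃ r', m * ι r * m⁻¹ = ι r') (χ : R →* Kˣ) :
    TT ρ ι M * idem ((Ad ρ).comp ι) χ = idem ((Ad ρ).comp ι) χ * TT ρ ι M := by
  exact idem_commute _ _ _ fun r => (TT_comm ρ ι M hι hn (ι r)).symm

end H32E
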