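import Pool.Agent.Lib.H32E.TR1
import Pool.Agent.Lib.H32E.TR2
import Pool.Agent.Lib.H32E.OS1

/-!
# H32E / TR3: the estimate for the operator `TT`

Chunk TR3.
-/

set_option autoImplicit false

open Module

namespace H32E

variable {K V G R : Type} [NormedField K] [IsUltrametricDist K] [IsAlgClosed K] [CharZero K]
  [AddCommGroup V] [Module K V] [FiniteDimensional K V] [Group G] [Finite G] [CommGroup R]
  [Fintype R] [Fintype (R →* Kˣ)]

open Classical in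
/-- **The estimate.**  `B` is a `p`-subgroup of `G` contained in the image of `ι`; if
`Θ ^ 4 ≤ ε |B : B ∩ g M g⁻¹|` for all `g ∉ M` and `w` lies in the `χ`-component of `End K V`
(`E χ w = w`), then `N (T w - δ w) ≤ ε N w`, `δ = 1` if `χ = 1`, else `0`.

Proof.  Write `E χ = idem ((Ad ρ).comp ι) χ`.  By `TT_comm_idem`, `T w = T (E χ w) = E χ (T w)`, so
`T w = ∑_x E χ (Psi x w)`.  The term `x = M` (the coset of `1`): `Psi (1 : G ⧸ M) = E 1`
(`Psi_mk` with `g = 1`), and `E χ (E 1 w) = δ w` (`w = E χ w`; `idem_mul_self`, `idem_mul_idem`).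
Hence `T w - δ w = ∑_x F x` with `F x = 0` for `x = M`, `F x = E χ (Psi x w)` otherwise.
`F (b • x) = F x` for `b ∈ B`: `b • M = M` as `b ∈ M`, and for `x = g M`, by `Psi_mk`,
`Psi (b g M) w = Ad(b) Psi(x) Ad(b⁻¹) w`, where `b = ι(r)`; `Ad(ι r)⁻¹ w = χ(r)⁻¹ w`
(`idem_mul_eq_iff`, or `mul_idem` applied to `w = E χ w`) and `E χ (Ad(ι r) u) = χ(r) E χ u`
(`idem_mul`).  For `x = g M`, `g ∉ M`:
`N (F x) ≤ Θ ^ 2 N (Psi x w) = Θ ^ 2 N (E 1 (Ad(g⁻¹) w)) ≤ Θ ^ 4 N w` (`idem_Ad_le`, `Ad_norm`), and the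
orbit of `x` has `|B : B ∩ g M g⁻¹| = m` elements with `‖m‖ = 1 / m` (`card_orbit_coset`,
`norm_relIndex` with `Subgroup.inf_relIndex_left`), so `‖m‖ N (F x) ≤ Θ ^ 4 / m * N w ≤ ε N w`.
Conclude with `orbit_sum` (for the action of `B` on `G ⧸ M`). -/
theorem TT_estimate (ρ : G →* End K V) (n : INorm ρ) (ι : R →* G) (M B : Subgroup G)
    [Fintype (G ⧸ M)] (hι : Function.Injective ι)
    (hn : ∀ m ∈ M, ∀ r, ∃ r', m * ι r * m⁻¹ = ι r') (hιM : ∀ r, ι r ∈ M)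
    (hB : ∀ b ∈ B, ∃ r, ι r = b) {p : ℕ} [Fact p.Prime] (hpK : ‖(p : K)‖ = (p : ℝ)⁻¹)
    (hR : IsPGroup p R) {Θ ε : ℝ} (hΘ : Interp K p (finrank K V) Θ) (hΘ1 : 1 ≤ Θ) (hε : 0 ≤ ε)
    (hest : ∀ g, g ∉ M → Θ ^ 4 ≤ ε * ((B ⊓ cj g M).relIndex B : ℝ)) (χ : R →* Kˣ) (w : End K V)
    (hw : idem ((Ad ρ).comp ι) χ w = w) :
    n.N (TT ρ ι M w - (if χ = 1 then w else 0)) ≤ ε * n.N w := by
  set E : (R →* Kˣ) → End K (End K V) := fun χ => idem ((Ad ρ).comp ι) χ with hE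
  have hw' : E χ w = w := hw
  set x0 : G ⧸ M := ((1 : G) : G ⧸ M) with hx0
  have hx0' : ∀ g : G, (g : G ⧸ M) = x0 ↔ g ∈ M := by
    intro g
    rw [hx0, eq_comm, QuotientGroup.eq, inv_one, one_mul]
  let F : G ⧸ M → End K V := fun x => if x = x0 then 0 else E χ (Psi ρ ι M x w)
  have hsum : TT ρ ι M w - (if χ = 1 then w else 0) = ∑ x, F x := by
    have h1 : TT ρ ι M w = ∑ x, E χ (Psi ρ ι M x w) := by
      have h2 := congrArg (fun T : End K (End K V) => T w) (TT_comm_idem ρ ι M hι hn χ)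
      have h3 : TT ρ ι M (E χ w) = E χ (TT ρ ι M w) := h2
      rw [hw'] at h3
      rw [h3]
      unfold TT
      rw [LinearMap.sum_apply, map_sum]
    have h4 : E χ (Psi ρ ι M x0 w) = if χ = 1 then w else 0 := by
      rw [hx0, Psi_mk ρ ι M hι hn, inv_one, map_one, one_mul, mul_one]
      show E χ (E 1 w) = _
      by_cases h5 : χ = 1
      · rw [if_pos h5, ← h5, hw', hw']
      · rw [if_neg h5]
        have h6 : E 1 * E χ = 0 := idem_mul_idem _ _ _ (fun h => h5 h.symm)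
        have h7 : E 1 (E χ w) = 0 := by
          have := congrArg (fun T : End K (End K V) => T w) h6
          exact this
        rw [hw'] at h7
        rw [h7, map_zero]
    rw [h1, ← h4]
    have h8 : ∑ x, F x = ∑ x, (E χ (Psi ρ ι M x w) - if x = x0 then E χ (Psi ρ ι M x0 w) else 0) := by
      refine Finset.sum_congr rfl fun x _ => ?_
      show (if x = x0 then 0 else E χ (Psi ρ ι M x w)) = _
      by_cases h9 : x = x0
      · rw [if_pos h9, if_pos h9, h9, sub_self]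
      · rw [if_neg h9, if_neg h9, sub_zero]
    rw [h8, Finset.sum_sub_distrib, Finset.sum_ite_eq' Finset.univ x0, if_pos (Finset.mem_univ _)]
  rw [hsum]
  have hBp : IsPGroup p B := by
    intro b
    obtain ⟨r, hr⟩ := hB b b.2
    obtain ⟨k, hk⟩ := hR r
    refine ⟨k, Subtype.ext ?_⟩
    rw [Subgroup.coe_pow, ← hr, ← map_pow, hk, map_one, Subgroup.coe_one]
  refine orbit_sum (K := K) (B := B) n.N n.add_le (INorm.zero n) n.smul F ?_
    (mul_nonneg hε (n.nonneg w)) ?_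
  · intro b x
    obtain ⟨g, rfl⟩ := QuotientGroup.mk_surjective x
    obtain ⟨r, hr⟩ := hB b b.2
    have hbM : (b : G) ∈ M := hr ▸ hιM r
    have e1 : b • (g : G ⧸ M) = (((b : G) * g : G) : G ⧸ M) := rfl
    have e2 : (((b : G) * g : G) : G ⧸ M) = x0 ↔ (g : G ⧸ M) = x0 := by
      rw [hx0', hx0']
      exact M.mul_mem_cancel_left hbM
    rw [e1]
    show (if (((b : G) * g : G) : G ⧸ M) = x0 then 0 else E χ (Psi ρ ι M (((b : G) * g : G) : G ⧸ M) w)) =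
      (if (g : G ⧸ M) = x0 then 0 else E χ (Psi ρ ι M (g : G ⧸ M) w))
    by_cases h9 : (g : G ⧸ M) = x0
    · rw [if_pos h9, if_pos (e2.2 h9)]
    · rw [if_neg h9, if_neg (fun h => h9 (e2.1 h))]
      rw [Psi_mk ρ ι M hι hn, Psi_mk ρ ι M hι hn, mul_inv_rev, map_mul, map_mul, ← hr]
      have f1 : Ad ρ (ι r)⁻¹ w = (((χ r⁻¹ : Kˣ)) : K) • w := by
        have h1 := congrArg (fun T : End K (End K V) => T w) (mul_idem ((Ad ρ).comp ι) χ r⁻¹)
        have h2 : Ad ρ (ι r⁻¹) (E χ w) = (((χ r⁻¹ : Kˣ)) : K) • E χ w := h1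
        rwa [hw', map_inv] at h2
      have f2 : ∀ u, E χ (Ad ρ (ι r) u) = ((χ r : Kˣ) : K) • E χ u := by
        intro u
        exact congrArg (fun T : End K (End K V) => T u) (idem_mul ((Ad ρ).comp ι) χ r)
      show E χ (Ad ρ (ι r) (Ad ρ g (E 1 (Ad ρ g⁻¹ (Ad ρ (ι r)⁻¹ w))))) = E χ (Ad ρ g (E 1 (Ad ρ g⁻¹ w)))
      rw [f1, f2, map_smul, map_smul, map_smul, map_smul, smul_smul, ← Units.val_mul, ← map_mul,
        mul_inv_cancel, map_one, Units.val_one, one_smul]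
  · intro x
    obtain ⟨g, rfl⟩ := QuotientGroup.mk_surjective x
    show _ * n.N (if (g : G ⧸ M) = x0 then 0 else E χ (Psi ρ ι M (g : G ⧸ M) w)) ≤ _
    by_cases h9 : (g : G ⧸ M) = x0
    · rw [if_pos h9, INorm.zero n, mul_zero]
      exact mul_nonneg hε (n.nonneg w)
    · rw [if_neg h9]
      have hg : g ∉ M := fun h => h9 ((hx0' g).2 h)
      have h1 := hest g hg
      rw [show Nat.card (MulAction.orbit B (QuotientGroup.mk g : G ⧸ M)) = (B ⊓ cj g M).relIndex B from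
        card_orbit_coset B M g, norm_relIndex hpK B (B ⊓ cj g M) hBp]
      have h2 : n.N (E χ (Psi ρ ι M (g : G ⧸ M) w)) ≤ Θ ^ 4 * n.N w := by
        rw [Psi_mk ρ ι M hι hn]
        show n.N (E χ (Ad ρ g (E 1 (Ad ρ g⁻¹ w)))) ≤ _
        have hΘ2 : 0 ≤ Θ ^ 2 := by positivity
        calc n.N (E χ (Ad ρ g (E 1 (Ad ρ g⁻¹ w)))) ≤ Θ ^ 2 * n.N (Ad ρ g (E 1 (Ad ρ g⁻¹ w))) :=
              idem_Ad_le ρ n ι hR hΘ hΘ1 χ _
          _ = Θ ^ 2 * n.N (E 1 (Ad ρ g⁻¹ w)) := by rw [Ad_norm]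
          _ ≤ Θ ^ 2 * (Θ ^ 2 * n.N (Ad ρ g⁻¹ w)) :=
              mul_le_mul_of_nonneg_left (idem_Ad_le ρ n ι hR hΘ hΘ1 1 _) hΘ2
          _ = Θ ^ 4 * n.N w := by rw [Ad_norm]; ring
      set m : ℝ := ((B ⊓ cj g M).relIndex B : ℝ) with hm
      have hm0 : 0 ≤ m := Nat.cast_nonneg _
      have hN := n.nonneg w
      rcases hm0.eq_or_lt with h3 | h3
      · rw [← h3, inv_zero, zero_mul]
        exact mul_nonneg hε hN
      · calc m⁻¹ * n.N (E χ (Psi ρ ι M (g : G ⧸ M) w)) ≤ m⁻¹ * (Θ ^ 4 * n.N w) :=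
              mul_le_mul_of_nonneg_left h2 (inv_nonneg.2 hm0)
          _ ≤ m⁻¹ * (ε * m * n.N w) :=
              mul_le_mul_of_nonneg_left (mul_le_mul_of_nonneg_right h1 hN) (inv_nonneg.2 hm0)
          _ = ε * n.N w := by
              field_simp

end H32E
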