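import Pool.Agent.Lib.H32E.TR3

/-!
# H32E / TR4: the fixed points of `R` in `End K V` are `G`-invariant if the indices are large

Chunk TR4.
-/

set_option autoImplicit false

open Module

namespace H32E

variable {K V G R : Type} [NormedField K] [IsUltrametricDist K] [IsAlgClosed K] [CharZero K]
  [AddCommGroup V] [Module K V] [FiniteDimensional K V] [Group G] [Finite G] [CommGroup R]
  [Fintype R]

theorem tr4_fix (ρ : G →* End K V) (ι : R →* G) (w : End K V) :
    idem ((Ad ρ).comp ι) (1 : R →* Kˣ) w = w ↔ ∀ r, Ad ρ (ι r) w = w := by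
  constructor
  · intro h r
    have h1 := mul_idem ((Ad ρ).comp ι) (1 : R →* Kˣ) r
    have h2 := LinearMap.congr_fun h1 w
    rw [Module.End.mul_apply, h] at h2
    simpa [h] using h2
  · intro h
    unfold idem
    rw [LinearMap.smul_apply, LinearMap.sum_apply]
    have h1 : ∀ r : R, ((((((1 : R →* Kˣ) r)⁻¹ : Kˣ) : K) • ((Ad ρ).comp ι) r) w) = w := by
      intro r
      rw [LinearMap.smul_apply]
      simp [h r]
    rw [Finset.sum_congr rfl (fun r _ => h1 r), Finset.sum_const, Finset.card_univ,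
      ← Nat.cast_smul_eq_nsmul K, smul_smul, inv_mul_cancel₀, one_smul]
    exact_mod_cast Fintype.card_ne_zero

/-- With the assumptions of `TT_estimate` and `ε < 1`: the space of the fixed points of
`Ad(ι R)` is invariant under `Ad(G)`.

Proof.  (`Fintype (R →* Kˣ)` and `Fintype (G ⧸ M)` from `Fintype.ofFinite`.)  Let `E₁ w = w`, `g : G`
and put `u = Ad(g) w`.  Since `u = ∑_χ E χ u` (`sum_idem` for `(Ad ρ).comp ι`) it is enough to show
`u' := E χ u = 0` for `χ ≠ 1`.  Put `S = T - 1` (`T = TT ρ ι M`); it commutes with `E χ` and with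
`Ad(g)`.
(1) `N (S^k w) ≤ ε ^ k N w` for all `k`: induction on `k`, all `S^k w` satisfy `E₁ (S^k w) = S^k w`, use
`TT_estimate` with `χ = 1`.
(2) `N (S^k u') = N u'` for all `k`: all `x = S^k u'` satisfy `E χ x = x`, so `N (T x) ≤ ε N x` by
`TT_estimate`; if `x ≠ 0` then `N (T x) < N x` and `N (S x) = N (T x - x) = N x` by `INorm.sub_eq`;
if `x = 0` trivial.
(3) `S^k u' = E χ (Ad(g) (S^k w))`, so `N u' = N (S^k u') ≤ Θ ^ 2 N (S^k w) ≤ Θ ^ 2 ε ^ k N w → 0`
(`idem_Ad_le`, `Ad_norm`).  Hence `N u' = 0` (`le_of_tendsto`/`ge_of_tendsto'`,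
`tendsto_pow_atTop_nhds_zero_of_lt_one`) and `u' = 0`. -/
theorem fixed_invariant (ρ : G →* End K V) (ι : R →* G) (M B : Subgroup G)
    (hι : Function.Injective ι)
    (hn : ∀ m ∈ M, ∀ r, ∃ r', m * ι r * m⁻¹ = ι r') (hιM : ∀ r, ι r ∈ M)
    (hB : ∀ b ∈ B, ∃ r, ι r = b) {p : ℕ} [Fact p.Prime] (hpK : ‖(p : K)‖ = (p : ℝ)⁻¹)
    (hR : IsPGroup p R) {Θ ε : ℝ} (hΘ : Interp K p (finrank K V) Θ) (hΘ1 : 1 ≤ Θ) (hε : 0 ≤ ε)
    (hε1 : ε < 1) (hest : ∀ g, g ∉ M → Θ ^ 4 ≤ ε * ((B ⊓ cj g M).relIndex B : ℝ)) (w : End K V)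
    (hw : ∀ r, Ad ρ (ι r) w = w) (g : G) :
    ∀ r, Ad ρ (ι r) (Ad ρ g w) = Ad ρ g w := by
  classical
  haveI : Fintype (R →* Kˣ) := Fintype.ofFinite _
  haveI : Fintype (G ⧸ M) := Fintype.ofFinite _
  obtain ⟨n⟩ := exists_inorm (K := K) ρ
  have hΘ0 : 0 ≤ Θ ^ 2 := by positivity
  set T := TT ρ ι M with hT
  set E : (R →* Kˣ) → End K (End K V) := fun χ => idem ((Ad ρ).comp ι) χ with hE
  have hw1 : E 1 w = w := (tr4_fix ρ ι w).mpr hw
  set S : End K (End K V) := T - 1 with hS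
  have hSapp : ∀ x, S x = T x - x := fun x => rfl
  have hSE : ∀ (χ : R →* Kˣ) (x : End K V), E χ (S x) = S (E χ x) := by
    intro χ x
    have h1 := LinearMap.congr_fun (TT_comm_idem ρ ι M hι hn χ) x
    rw [Module.End.mul_apply, Module.End.mul_apply] at h1
    rw [hSapp, hSapp, map_sub, ← h1]
  have hSA : ∀ (x : End K V), Ad ρ g (S x) = S (Ad ρ g x) := by
    intro x
    have h1 := LinearMap.congr_fun (TT_comm ρ ι M hι hn g) x
    rw [Module.End.mul_apply, Module.End.mul_apply] at h1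
    rw [hSapp, hSapp, map_sub, h1]
  have hSEk : ∀ (χ : R →* Kˣ) (k : ℕ) (x : End K V), E χ ((S ^ k) x) = (S ^ k) (E χ x) := by
    intro χ k
    induction k with
    | zero => intro x; rfl
    | succ k ih =>
      intro x
      rw [pow_succ, Module.End.mul_apply, Module.End.mul_apply, ih, hSE]
  have hSAk : ∀ (k : ℕ) (x : End K V), Ad ρ g ((S ^ k) x) = (S ^ k) (Ad ρ g x) := by
    intro k
    induction k with
    | zero => intro x; rfl
    | succ k ih =>
      intro x
      rw [pow_succ, Module.End.mul_apply, Module.End.mul_apply, ih, hSA]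
  -- (1)
  have h1 : ∀ k : ℕ, n.N ((S ^ k) w) ≤ ε ^ k * n.N w := by
    intro k
    induction k with
    | zero => rw [pow_zero, pow_zero, one_mul, Module.End.one_apply]
    | succ k ih =>
      have h2 : E 1 ((S ^ k) w) = (S ^ k) w := by rw [hSEk, hw1]
      have h3 := TT_estimate ρ n ι M B hι hn hιM hB hpK hR hΘ hΘ1 hε hest 1 ((S ^ k) w) h2
      rw [if_pos rfl] at h3
      rw [pow_succ', Module.End.mul_apply, hSapp, pow_succ', mul_assoc]
      exact h3.trans (mul_le_mul_of_nonneg_left ih hε)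
  -- the components of `Ad g w`
  have h5 : ∀ χ : R →* Kˣ, χ ≠ 1 → E χ (Ad ρ g w) = 0 := by
    intro χ hχ
    set u := E χ (Ad ρ g w) with hu
    have hEE : ∀ x, E χ (E χ x) = E χ x := by
      intro x
      have := LinearMap.congr_fun (idem_mul_self ((Ad ρ).comp ι) χ) x
      exact this
    -- (2)
    have h6 : ∀ k : ℕ, n.N ((S ^ k) u) = n.N u := by
      intro k
      induction k with
      | zero => rfl
      | succ k ih =>
        rw [pow_succ', Module.End.mul_apply, ← ih]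
        set x := (S ^ k) u with hx
        have h7 : E χ x = x := by rw [hx, hSEk, hu, hEE]
        have h8 := TT_estimate ρ n ι M B hι hn hιM hB hpK hR hΘ hΘ1 hε hest χ x h7
        rw [if_neg hχ, sub_zero] at h8
        by_cases hx0 : n.N x = 0
        · rw [n.eq_zero x hx0, map_zero]
        · have h9 : 0 < n.N x := lt_of_le_of_ne (n.nonneg x) (Ne.symm hx0)
          rw [hSapp]
          apply n.sub_eq
          calc n.N (T x) ≤ ε * n.N x := h8
            _ < 1 * n.N x := mul_lt_mul_of_pos_right hε1 h9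
            _ = n.N x := one_mul _
    -- (3)
    have h10 : ∀ k : ℕ, n.N u ≤ Θ ^ 2 * (n.N w) * ε ^ k := by
      intro k
      rw [← h6 k, hu, ← hSEk, ← hSAk]
      refine (idem_Ad_le ρ n ι hR hΘ hΘ1 χ _).trans ?_
      rw [Ad_norm]
      calc Θ ^ 2 * n.N ((S ^ k) w) ≤ Θ ^ 2 * (ε ^ k * n.N w) :=
            mul_le_mul_of_nonneg_left (h1 k) hΘ0
        _ = Θ ^ 2 * (n.N w) * ε ^ k := by ring
    have h11 : Filter.Tendsto (fun k : ℕ => Θ ^ 2 * (n.N w) * ε ^ k) Filter.atTop (nhds 0) := by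
      have := (tendsto_pow_atTop_nhds_zero_of_lt_one hε hε1).const_mul (Θ ^ 2 * (n.N w))
      rwa [mul_zero] at this
    have h12 : n.N u ≤ 0 := ge_of_tendsto' h11 h10
    exact n.eq_zero u (le_antisymm h12 (n.nonneg u))
  have h13 : E 1 (Ad ρ g w) = Ad ρ g w := by
    have h14 := LinearMap.congr_fun (sum_idem (K := K) ((Ad ρ).comp ι)) (Ad ρ g w)
    rw [LinearMap.sum_apply, Module.End.one_apply, Finset.sum_eq_single (1 : R →* Kˣ)] at h14
    · exact h14
    · intro χ _ hχ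
      exact h5 χ hχ
    · intro h
      exact absurd (Finset.mem_univ _) h
  exact (tr4_fix ρ ι _).mp h13

end H32E
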