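import Pool.Agent.Lib.H32E.E0

/-!
# H32E / ZP0: joins of normal `p`-subgroups

Chunk ZP0 (pure finite group theory).
-/

set_option autoImplicit false

namespace H32E

variable {H : Type*} [Group H] [Finite H]

/-- The join of two `p`-subgroups of `L` normalised by `L` is a `p`-subgroup of `L` normalised by
`L` (`IsPGroup.to_sup_of_normal_right'` or the counting formula; `Nrm` of a join: conjugation by `l`
is an automorphism, `Subgroup.closure_induction` / `Subgroup.sup_induction`). -/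
theorem sup_normal_p {p : ℕ} (L N N' : Subgroup H) (hN : N ≤ L) (hN' : N' ≤ L) (hn : Nrm L N)
    (hn' : Nrm L N') (hp : IsPGroup p N) (hp' : IsPGroup p N') :
    N ⊔ N' ≤ L ∧ Nrm L (N ⊔ N') ∧ IsPGroup p (N ⊔ N' : Subgroup H) := by
  have hle : N ⊔ N' ≤ L := sup_le hN hN'
  refine ⟨hle, ?_, ?_⟩
  · intro l hl n hn1
    have key : N ⊔ N' ≤ (N ⊔ N').comap (MulAut.conj l).toMonoidHom := by
      refine sup_le ?_ ?_
      · intro x hx
        show l * x * l⁻¹ ∈ N ⊔ N'
        exact (le_sup_left : N ≤ N ⊔ N') (hn l hl x hx)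
      · intro x hx
        show l * x * l⁻¹ ∈ N ⊔ N'
        exact (le_sup_right : N' ≤ N ⊔ N') (hn' l hl x hx)
    exact key hn1
  · refine IsPGroup.to_sup_of_normal_right' hp hp' ?_
    intro x hx
    have hxL : x ∈ L := hN hx
    rw [Subgroup.mem_normalizer_iff]
    intro h
    constructor
    · intro hh
      exact hn' x hxL h hh
    · intro hh
      have h2 := hn' x⁻¹ (L.inv_mem hxL) _ hh
      have h3 : x⁻¹ * (x * h * x⁻¹) * x⁻¹⁻¹ = h := by group
      rwa [h3] at h2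

/-- **The largest normal `p`-subgroup of `L`.**  There is `Q ≤ L`, a `p`-group normalised by `L`, that
contains every `p`-subgroup of `L` normalised by `L`; consequently `InOp p L B ↔ B ≤ Q`.

Proof.  `H` is finite: take `Q ≤ L` with `Nrm L Q`, `IsPGroup p Q` and `|Q|` maximal (`⊥` is one of
them; `Set.Finite` and `exists_max_image`, or `Finite.exists_maximal`).  By `sup_normal_p`,
`Q ⊔ N` is again such, so `N ≤ Q`. -/
theorem exists_Op (p : ℕ) (L : Subgroup H) : ∃ Q : Subgroup H, Q ≤ L ∧ Nrm L Q ∧ IsPGroup p Q ∧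
    ∀ N : Subgroup H, N ≤ L → Nrm L N → IsPGroup p N → N ≤ Q := by
  classical
  let S : Set (Subgroup H) := {Q | Q ≤ L ∧ Nrm L Q ∧ IsPGroup p Q}
  have hfin : S.Finite := Set.toFinite _
  have hne : S.Nonempty := by
    refine ⟨⊥, bot_le, ?_, IsPGroup.of_bot⟩
    intro l hl n hn
    rw [Subgroup.mem_bot] at hn ⊢
    rw [hn]
    group
  obtain ⟨Q, hQ⟩ := hfin.exists_maximal hne
  obtain ⟨⟨hQ1, hQ2, hQ3⟩, hQm⟩ := hQ
  refine ⟨Q, hQ1, hQ2, hQ3, ?_⟩
  intro N hN1 hN2 hN3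
  have h := sup_normal_p L Q N hQ1 hN1 hQ2 hN2 hQ3 hN3
  have h2 : Q ⊔ N ≤ Q := hQm (y := Q ⊔ N) h le_sup_left
  exact le_trans le_sup_right h2

/-- If `M` is normal in `H` (as `Nrm ⊤ M`) and `B` is contained in a normal `p`-subgroup of `M` then
it is contained in a normal `p`-subgroup of `H`.
Proof.  `Q` of `exists_Op` for `L = M`; for `h : H` the conjugate `cj h Q` is again a `p`-subgroup of
`M = cj h M` normalised by `M`, so `cj h Q ≤ Q`. -/
theorem InOp.of_normal {p : ℕ} {M B : Subgroup H} (hM : Nrm ⊤ M) (h : InOp p M B) :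
    InOp p ⊤ B := by
  obtain ⟨N, hBN, hNM, hN, hNp⟩ := h
  obtain ⟨Q, hQ1, hQ2, hQ3, hQm⟩ := exists_Op p M
  refine ⟨Q, le_trans hBN (hQm N hNM hN hNp), le_top, ?_, hQ3⟩
  intro l _ n hn
  have h1 : cj l Q ≤ Q := by
    refine hQm (cj l Q) ?_ ?_ ?_
    · intro x hx
      rw [mem_cj] at hx
      have h2 := hM l (Subgroup.mem_top l) _ (hQ1 hx)
      have h3 : l * (l⁻¹ * x * l) * l⁻¹ = x := by group
      rwa [h3] at h2
    · intro m hm x hx
      rw [mem_cj] at hx ⊢
      have h2 := hM l⁻¹ (Subgroup.mem_top _) m hm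
      have h3 := hQ2 _ h2 _ hx
      have h4 : l⁻¹ * m * l⁻¹⁻¹ * (l⁻¹ * x * l) * (l⁻¹ * m * l⁻¹⁻¹)⁻¹ = l⁻¹ * (m * x * m⁻¹) * l := by
        group
      rwa [h4] at h3
    · exact IsPGroup.map hQ3 _
  apply h1
  rw [mem_cj]
  have h5 : l⁻¹ * (l * n * l⁻¹) * l = n := by group
  rwa [h5]

end H32E
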